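import Pool.Agent.H98.KB.Defs

/-!
# MP_95be7d : the L²-critical case `k = 4` of `u_t + u^k u_x + u_xxx - u_xx = 0`  (definitions)

Note with the complete proof: `/team-store/H68_95be7d_K4.md`.

Parametrisation: `r = λ^{1/8}`, `l = λ = r^8`, `s = λ^{1/4} = r^2` (slow scale), `Y = 1/s`.
`W` = rescaled solution, `e = W - Q`, `h = b P + α E`, `ε = e - h`.
-/

open MeasureTheory Filter Topology Set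
open scoped ContDiff

noncomputable section

namespace H68KC

open H98KB

/-! ## Constants and profiles -/

/-- `I = ∫ Q` -/
def Iq : ℝ := ∫ y, Qf 4 y

/-- `c_ν = 16 |Q'|² / I²` -/
def cnu : ℝ := 16 * (∫ y, (deriv (Qf 4) y) ^ 2) / Iq ^ 2

/-- `c₀ = 1 + c_ν`; the trap for `β = b λ^{-1/2}` is `(2c₀, 4c₀)` -/
def c0 : ℝ := 1 + cnu

/-- the background -/
def f0 : ℝ := -c0 * Iq

/-- `ρ = Q³ Q'² = L Q'' / 4` -/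
def rho (y : ℝ) : ℝ := (Qf 4 y) ^ 3 * (deriv (Qf 4) y) ^ 2

/-- `J(y) = ∫_y^∞ ΛQ = -I/4 - ∫_0^y ΛQ` -/
def Jf (y : ℝ) : ℝ := -(Iq / 4) - ∫ z in (0:ℝ)..y, Lam 4 (Qf 4) z

/-- the profiles `P`, `E` -/
structure Prof (P E : ℝ → ℝ) : Prop where
  cP : Cl 0 0 P
  dP : Cl (3 / 4) (3 / 4) (deriv P)
  P0 : ∃ C : ℝ, ∀ y, 0 ≤ y → |P y| ≤ C * Real.exp (-(3 / 4) * y)
  P1 : ∃ C : ℝ, ∀ y, y ≤ 0 → |P y - Iq / 2| ≤ C * Real.exp (3 / 4 * y)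
  E1 : Cl (3 / 4) (3 / 4) (fun y => E y - 1)
  Ee : ∀ y, E (-y) = E y
  LP : ∀ y, Lop 4 P y = -Jf y
  LE : ∀ y, Lop 4 E y = 1
  PQ : ip P (deriv (Qf 4)) = 0

/-- weight for the average defining `α` -/
def pw (ξ : ℝ) : ℝ := 630 * (ξ - 1) ^ 4 * (2 - ξ) ^ 4

/-- `α = ∫_1^2 W(ξ/s) p(ξ) dξ` -/
def alf (s : ℝ) (W : ℝ → ℝ) : ℝ := ∫ ξ in (1:ℝ)..2, W (ξ / s) * pw ξ

/-- `b = ((e,Q) - α (E,Q)) / (P,Q)`, `(E,Q) = I/4`, `(P,Q) = I²/16` -/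
def bq (s : ℝ) (W : ℝ → ℝ) : ℝ :=
  (ip (fun y => W y - Qf 4 y) (Qf 4) - alf s W * (Iq / 4)) * (16 / Iq ^ 2)

/-- `h = b P + α E` -/
def hf (P E : ℝ → ℝ) (b α y : ℝ) : ℝ := b * P y + α * E y

/-- `ε = W - Q - h` -/
def ep (P E : ℝ → ℝ) (s : ℝ) (W : ℝ → ℝ) (y : ℝ) : ℝ :=
  W y - Qf 4 y - hf P E (bq s W) (alf s W) y

/-! ## Time derivatives (`λ³ d/dt`); `w = -λ_s/λ`, `x_s/λ = 1 + m` -/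

/-- `λ³ W_t` -/
def ze (w m l : ℝ) (W et : ℝ → ℝ) : ℝ → ℝ := zeta 4 w m l (fun y => W y - Qf 4 y) et

/-- `λ³ α_t` (`Z = λ³ W_t`) -/
def alD (s w : ℝ) (W Z : ℝ → ℝ) : ℝ :=
  ∫ ξ in (1:ℝ)..2, (Z (ξ / s) + 1 / 4 * w * (ξ / s) * deriv W (ξ / s)) * pw ξ

/-- `λ³ b_t` -/
def bqD (s w : ℝ) (W Z : ℝ → ℝ) : ℝ := (ip Z (Qf 4) - alD s w W Z * (Iq / 4)) * (16 / Iq ^ 2)

/-- `λ³ ε_t` -/
def epD (P E : ℝ → ℝ) (s w : ℝ) (W Z : ℝ → ℝ) (y : ℝ) : ℝ :=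
  Z y - bqD s w W Z * P y - alD s w W Z * E y

/-! ## Functionals -/

/-- slow unimodal factor -/
def Zf (ξ : ℝ) : ℝ := (1 / Real.cosh (ξ - 2)) ^ 2

/-- energy weight `Th_B(y) Z(s y)` -/
def om4 (B s y : ℝ) : ℝ := Th B y * Zf (s * y)

def E4 (B s : ℝ) (ε : ℝ → ℝ) : ℝ :=
  1 / 2 * ∫ y, om4 B s y * ((deriv ε y) ^ 2 + (ε y) ^ 2 - 2 * bF 4 ε y)

/-- `λ³ dE4/dt` (`D = λ³ ε_t`, `λ³ s_t = -w s/4`) -/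
def DE4 (B s w : ℝ) (ε D : ℝ → ℝ) : ℝ :=
  (∫ y, om4 B s y * (deriv ε y * deriv D y + (ε y - Df 4 ε y) * D y))
    - 1 / 8 * w * s * ∫ y, y * Th B y * deriv Zf (s * y) * ((deriv ε y) ^ 2 + (ε y) ^ 2 - 2 * bF 4 ε y)

/-- front of width `4` at `Y/2` -/
def Ph (s y : ℝ) : ℝ := Th 4 (y - 1 / (2 * s))

/-- `N = ∫ Φ W'²` -/
def Nn (s : ℝ) (W : ℝ → ℝ) : ℝ := ∫ y, Ph s y * (deriv W y) ^ 2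

/-- `λ³ dN/dt` (`λ³ Y_t = w Y / 4`) -/
def DNn (s w : ℝ) (W Z : ℝ → ℝ) : ℝ :=
  (∫ y, 2 * Ph s y * (deriv W y * deriv Z y)) - w / (8 * s) * ∫ y, deriv (Ph s) y * (deriv W y) ^ 2

/-- the energy of `W` -/
def EW (W : ℝ → ℝ) : ℝ := 1 / 2 * (∫ y, (deriv W y) ^ 2) - 1 / 30 * ∫ y, (W y) ^ 6

/-- `λ³ dEW/dt` -/
def DEW (W Z : ℝ → ℝ) : ℝ := ∫ y, (deriv W y * deriv Z y - fl 4 (W y) * Z y)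

/-- the Lyapunov functional, `r = λ^{1/8}` -/
def LL4 (P E : ℝ → ℝ) (η γ δ M B K0 r : ℝ) (W : ℝ → ℝ) : ℝ :=
  M * E4 B (r ^ 2) (ep P E (r ^ 2) W) + Vf 4 η γ B δ (ep P E (r ^ 2) W)
    + K0 / r ^ 6 * Nn (r ^ 2) W

/-- `λ³ dLL4/dt`  (`λ³ r_t = -w r/8`) -/
def DLL4 (P E : ℝ → ℝ) (η γ δ M B K0 r w : ℝ) (W Z : ℝ → ℝ) : ℝ :=
  M * DE4 B (r ^ 2) w (ep P E (r ^ 2) W) (epD P E (r ^ 2) w W Z)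
    + DV 4 η γ B δ (ep P E (r ^ 2) W) (epD P E (r ^ 2) w W Z)
    + K0 / r ^ 6 * (DNn (r ^ 2) w W Z + 3 / 4 * w * Nn (r ^ 2) W)

/-! ## Norms -/

/-- `∫ om (ε² + ε'²)` -/
def G4 (B s : ℝ) (ε : ℝ → ℝ) : ℝ := ∫ y, om4 B s y * ((ε y) ^ 2 + (deriv ε y) ^ 2)

/-- `∫ (Th' Z + s Th Z) (ε² + ε'² + ε''²)` (in particular `≥ s G4`) -/
def T4 (B s : ℝ) (ε : ℝ → ℝ) : ℝ :=
  ∫ y, (deriv (Th B) y + s * Th B y) * Zf (s * y) *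
    ((ε y) ^ 2 + (deriv ε y) ^ 2 + (deriv (deriv ε) y) ^ 2)

/-- the bad set `y ≥ Y = 1/s`: `s ∫_{y ≥ 1/s} sech(s y - 2) (ε² + ε'² + ε''²)` -/
def Bad (s : ℝ) (ε : ℝ → ℝ) : ℝ :=
  s * ∫ y in Ici (1 / s), 1 / Real.cosh (s * y - 2) *
    ((ε y) ^ 2 + (deriv ε y) ^ 2 + (deriv (deriv ε) y) ^ 2)

end H68KC

end
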