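import Pool.Agent.H68.KC.MOe
import Pool.Agent.H37.KC.AH
import Pool.Agent.H37.KC.AL
import Pool.Agent.H37.KC.BA
import Pool.Agent.H37.KC.EN
import Pool.Agent.H37.KC.XE

/-!
# MP_95be7d_K4: assembly of `GoodB`, `GoodC`
-/

open MeasureTheory Filter Topology Set
open scoped ContDiff

noncomputable section

namespace H68KC

open H98KB

variable {P E : ℝ → ℝ}

theorem goodB (hp : Prof P E) {γ B c : ℝ} (hc1 : c ≤ 1 / 10) : GoodB P E γ B c where
  AH := H37KC.AHt hc1
  AL := H37KC.ALt hc1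
  BA := H37KC.BAt hp

theorem ln_nonneg (γ B : ℝ) (ε : ℝ → ℝ) : 0 ≤ ln γ B ε := by
  unfold ln
  refine integral_nonneg fun y => ?_
  unfold loc se2 ch
  positivity

theorem ne2_nonneg (et : ℝ → ℝ) : 0 ≤ ne2 et := by
  unfold ne2
  exact integral_nonneg fun y => by positivity

theorem goodC (hp : Prof P E) {γ B : ℝ} (hγ : 0 < γ) (hγ1 : γ ≤ 1 / 8) (hB : 16 ≤ B) :
    ∃ c1 : ℝ, 0 < c1 ∧ ∀ c, c ≤ c1 → ∃ C1 : ℝ, ∀ C, C1 ≤ C → GoodC P E γ B c C := by
  have hγ2 : γ ≤ 1 / 4 := by linarith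
  obtain ⟨C1, r1, c1, hC1, hr1, hc1, hc1', h1⟩ := m_le hp hγ hγ2 hB
  obtain ⟨C2, r2, c2, hC2, hr2, hc2, hc2', h2⟩ := bw_le hp hγ hγ2 hB
  obtain ⟨C3, r3, c3, hC3, hr3, hc3, hc3', h3⟩ := bw_eq hp hγ hγ2 hB
  obtain ⟨C4, r4, c4, hC4, hr4, hc4, hc4', h4⟩ := b_law hp hγ hγ2 hB
  obtain ⟨C5, hC5, h5⟩ := H37KC.ENt
  refine ⟨min (min (min c1 c2) (min c3 c4)) (1 / 10), by positivity, fun c hc => ?_⟩
  have hca : c ≤ c1 := hc.trans ((min_le_left _ _).trans ((min_le_left _ _).trans (min_le_left _ _)))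
  have hcb : c ≤ c2 := hc.trans ((min_le_left _ _).trans ((min_le_left _ _).trans (min_le_right _ _)))
  have hcc : c ≤ c3 := hc.trans ((min_le_left _ _).trans ((min_le_right _ _).trans (min_le_left _ _)))
  have hcd : c ≤ c4 := hc.trans ((min_le_left _ _).trans ((min_le_right _ _).trans (min_le_right _ _)))
  have hce : c ≤ 1 / 10 := hc.trans (min_le_right _ _)
  obtain ⟨C6, hC6, h6⟩ := H37KC.XEt hp (c := c) hγ hγ1 hB hce
  refine ⟨C1 + C2 + C3 + C4 + C5 + C6, fun C hC => ?_⟩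
  have k1 : C1 ≤ C := by linarith
  have k2 : C2 ≤ C := by linarith
  have k3 : C3 ≤ C := by linarith
  have k4 : C4 ≤ C := by linarith
  have k5 : C5 ≤ C := by linarith
  have k6 : C6 ≤ C := by linarith
  constructor
  · refine ⟨min (min r1 r2) (min r3 r4), by positivity, fun Ca r w m W et hr hS => ?_⟩
    have ra : r ≤ r1 := hr.trans ((min_le_left _ _).trans (min_le_left _ _))
    have rb : r ≤ r2 := hr.trans ((min_le_left _ _).trans (min_le_right _ _))
    have rc : r ≤ r3 := hr.trans ((min_le_right _ _).trans (min_le_left _ _))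
    have rd : r ≤ r4 := hr.trans ((min_le_right _ _).trans (min_le_right _ _))
    have r0 := hS.r0
    have hL := ln_nonneg γ B (ep P E (r ^ 2) W)
    have hsL := Real.sqrt_nonneg (ln γ B (ep P E (r ^ 2) W))
    have hsE := Real.sqrt_nonneg (ne2 et)
    have hab := abs_nonneg (alm (r ^ 2) w W (ze w m (r ^ 8) W et))
    have hqb := abs_nonneg (ip W (deriv (Qf 4)))
    refine ⟨(h1 c Ca r w m W et hca ra hS).trans ?_, (h2 c Ca r w m W et hcb rb hS).trans ?_,
      (h3 c Ca r w m W et hcc rc hS).trans ?_, (h4 c Ca r w m W et hcd rd hS).trans ?_⟩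
    · exact mul_le_mul_of_nonneg_right k1 (by positivity)
    · exact mul_le_mul_of_nonneg_right k2 (by positivity)
    · exact mul_le_mul_of_nonneg_right k3 (by positivity)
    · exact mul_le_mul_of_nonneg_right k4 (by positivity)
  · intro Ca r w m W et hr hS
    have r0 := hS.r0
    have hE := ne2_nonneg et
    refine (h5 P E γ B c Ca r w m W et hce hr hS).trans ?_
    have e1 : C5 * r ^ 8 ≤ C * r ^ 8 := mul_le_mul_of_nonneg_right k5 (by positivity)
    have e2 : C5 / r ^ 8 * ne2 et ≤ C / r ^ 8 * ne2 et :=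
      mul_le_mul_of_nonneg_right (div_le_div_of_nonneg_right k5 (by positivity)) hE
    linarith
  · refine ⟨1, one_pos, fun Ca r w m W et hr hS => ?_⟩
    have r0 := hS.r0
    have hL := ln_nonneg γ B (ep P E (r ^ 2) W)
    obtain ⟨e1, e2⟩ := h6 Ca r w m W et hr hS
    have e3 : C6 * (r ^ 4 + ln γ B (ep P E (r ^ 2) W)) ≤ C * (r ^ 4 + ln γ B (ep P E (r ^ 2) W)) :=
      mul_le_mul_of_nonneg_right k6 (by positivity)
    constructor <;> linarith

end H68KC

end
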