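import Pool.Agent.H68.KC.Defs
import Pool.Agent.H98.KB.Sol2
import Pool.Agent.H98.KB.Som
import Pool.Agent.H98.KB.Clb

/-!
# Row PRe (MP_95be7d_K4): the function `J(y) = ∫_y^∞ ΛQ`

`ΛQ = (1/2) Q + y Q'` (`k = 4`), `Cl (3/4) (3/4) (ΛQ)` by `Cl_LamQ` (`c = 3/4`), `ΛQ` even (`LamQ_eq`, `Qf_neg`, `th_neg`).

## Proofs
* `Jf_hd`: fundamental theorem of calculus.
* `Iq_pos`: `∫ Q > 0` (`Qf_pos`, continuous, integrable: `integral_pos_of_...`, or `Qf_lo` and monotonicity).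
* `int_LamQ`: `∫ ΛQ = -I/2` : `ΛQ = (yQ)' - Q/2`, `∫ (yQ)' = 0` (`Cl_int_deriv`; `y Q` is of class `Cl (3/4) (3/4)`:
  `Cl_mul (Cl_id ..) (Cl_Qf ..)` with `c = 1/4`).
* `int_LamQ_Ioi`: `∫_{Ioi 0} ΛQ = -I/4` by evenness (`integral_comp_neg_Ioi` / `∫_ℝ = ∫_{Iic 0} + ∫_{Ioi 0}`).
* `Jf_eq`: `J y = ∫_{Ioi y} ΛQ` (`∫_{Ioi 0} = ∫_0^y + ∫_{Ioi y}`, for both signs of `y`;
  `intervalIntegral.integral_Ioi_sub_Ioi` or `integral_interval_add_Ioi`).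
* `Jf_neg`: `J(-y) = -I/2 - J y`: `∫_0^{-y} ΛQ = -∫_0^y ΛQ`.
* `Jf_bd`: `y ≥ 0`: `|J y| ≤ C ∫_y^∞ e^{-3z/4} = (4C/3) e^{-3y/4}`. For `y ≤ 0` the second one follows from `Jf_neg`:
  `J y + I/2 = -J(-y)`.
* `Jf_cl`: `Cl_of_deriv` with `g = -ΛQ` (`Cl_mono` to class `0 0`) and the bound `|J| ≤ C`.
* `Fp_cl`: `(ΛQ)' - Q⁴ J` : `Cl_der`, `Cl_mul (Cl_pow (Cl_Qf _) 4) Jf_cl` and `Cl_mono` from class `4 + 0`.
* `Fp_orth`: `∫ ((ΛQ)' - Q⁴ J) Q' = 0`:  `∫ (ΛQ)' Q' = -∫ ΛQ Q''` (`Cl_ibp`); `Q⁴ Q' = (Q⁵/5)'`, so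
  `∫ Q⁴ J Q' = ∫ (Q⁵/5)' J = -∫ (Q⁵/5) J' = ∫ (Q⁵/5) ΛQ`; the difference is
  `-∫ ΛQ (Q'' + Q⁵/5) = -∫ ΛQ Q = 0` by `Qf_eq` (`fl 4 Q = Q^5/5`) and `ip_LamQ_Q` with `sc 4 = 0`.
-/

open MeasureTheory Filter Topology Set
open scoped ContDiff

noncomputable section

namespace H68KC

open H98KB

theorem PRe_CL : Cl (3 / 4) (3 / 4) (Lam 4 (Qf 4)) := Cl_LamQ (by norm_num) (by norm_num)

theorem PRe_cont : Continuous (Lam 4 (Qf 4)) := Cl_cont PRe_CL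

theorem PRe_int : Integrable (Lam 4 (Qf 4)) := Cl_int PRe_CL (by norm_num) (by norm_num)

theorem Jf_hd (y : ℝ) : HasDerivAt Jf (-Lam 4 (Qf 4) y) y := by
  have h := (PRe_cont.integral_hasStrictDerivAt 0 y).hasDerivAt
  exact h.const_sub (-(Iq / 4))

theorem PRe_Qint : Integrable (Qf 4) := Cl_int (Cl_Qf (by norm_num)) one_pos one_pos

theorem Iq_pos : 0 < Iq := by
  unfold Iq
  exact integral_pos_of_integrable_nonneg_nonzero (x := 0) (Cl_cont (Cl_Qf (by norm_num)))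
    PRe_Qint (fun y => (Qf_pos 4 y).le) (Qf_pos 4 0).ne'

theorem PRe_yQ : Cl (3 / 4) (3 / 4) (fun y => y * Qf 4 y) := by
  have h := Cl_mul (Cl_id (c := 1 / 4) (by norm_num)) (Cl_Qf (k := 4) (by norm_num))
  have e : -(1 / 4 : ℝ) + 1 = 3 / 4 := by norm_num
  rwa [e] at h

theorem PRe_Lam (y : ℝ) : Lam 4 (Qf 4) y = 1 / 2 * Qf 4 y + y * deriv (Qf 4) y := by
  unfold Lam
  norm_num

theorem int_LamQ : ∫ y, Lam 4 (Qf 4) y = -(Iq / 2) := by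
  have hG : Integrable (fun y => -(1 / 2) * Qf 4 y) := PRe_Qint.const_mul _
  have h := Cl_int_eq (F := fun y => Lam 4 (Qf 4) y) (G := fun y => -(1 / 2) * Qf 4 y)
    (H := fun y => y * Qf 4 y) PRe_int hG PRe_yQ (by norm_num) (by norm_num) ?_
  · rw [h, integral_const_mul]
    unfold Iq
    ring
  · intro y
    have h1 := (hasDerivAt_id y).mul (Cl_hd (Cl_Qf (k := 4) (by norm_num)) y)
    have h2 : deriv (fun y => y * Qf 4 y) y = 1 * Qf 4 y + y * deriv (Qf 4) y := h1.deriv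
    rw [h2]
    simp only [PRe_Lam]
    ring

theorem PRe_even (y : ℝ) : Lam 4 (Qf 4) (-y) = Lam 4 (Qf 4) y := by
  rw [LamQ_eq (by norm_num), LamQ_eq (by norm_num), th_neg, Qf_neg]
  ring

theorem int_LamQ_Ioi : ∫ y in Ioi (0:ℝ), Lam 4 (Qf 4) y = -(Iq / 4) := by
  have h1 := intervalIntegral.integral_Iic_add_Ioi (b := (0:ℝ)) PRe_int.integrableOn
    PRe_int.integrableOn
  have h2 := integral_comp_neg_Ioi (0:ℝ) (Lam 4 (Qf 4))
  simp only [PRe_even, neg_zero] at h2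
  rw [int_LamQ, ← h2] at h1
  linarith

theorem Jf_eq (y : ℝ) : Jf y = ∫ z in Ioi y, Lam 4 (Qf 4) z := by
  have h := intervalIntegral.integral_interval_add_Ioi (a := (0:ℝ)) (b := y)
    PRe_int.integrableOn PRe_int.integrableOn
  rw [int_LamQ_Ioi] at h
  unfold Jf
  linarith

theorem Jf_neg (y : ℝ) : Jf (-y) = -(Iq / 2) - Jf y := by
  have h : (∫ z in (0:ℝ)..-y, Lam 4 (Qf 4) z) = -∫ z in (0:ℝ)..y, Lam 4 (Qf 4) z := by
    have h1 := intervalIntegral.integral_comp_neg (a := (0:ℝ)) (b := y) (Lam 4 (Qf 4))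
    simp only [PRe_even, neg_zero] at h1
    rw [h1, intervalIntegral.integral_symm]
  unfold Jf
  rw [h]
  ring

theorem PRe_pos_bd : ∃ C : ℝ, 0 ≤ C ∧ ∀ y, 0 ≤ y → |Jf y| ≤ C * Real.exp (-(3 / 4) * y) := by
  obtain ⟨C, hC0, hC⟩ := Cl_bnd PRe_CL
  refine ⟨C * (4 / 3), by positivity, fun y hy => ?_⟩
  have hE : IntegrableOn (fun z : ℝ => Real.exp (-(3 / 4) * z)) (Ioi y) := by
    have := integrableOn_exp_mul_Ioi (a := -(3 / 4 : ℝ)) (by norm_num) y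
    simpa using this
  have hv : ∫ z in Ioi y, Real.exp (-(3 / 4) * z) = 4 / 3 * Real.exp (-(3 / 4) * y) := by
    rw [integral_exp_mul_Ioi (a := -(3 / 4 : ℝ)) (by norm_num) y]
    ring
  rw [Jf_eq]
  calc |∫ z in Ioi y, Lam 4 (Qf 4) z| ≤ ∫ z in Ioi y, |Lam 4 (Qf 4) z| :=
        abs_integral_le_integral_abs
    _ ≤ ∫ z in Ioi y, C * Real.exp (-(3 / 4) * z) := by
        refine setIntegral_mono_on PRe_int.abs.integrableOn (hE.const_mul C) measurableSet_Ioi ?_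
        intro z hz
        have hz0 : 0 ≤ z := hy.trans (le_of_lt hz)
        have h := hC z
        rw [bd_of_nonneg hz0] at h
        have e : -(3 / 4 : ℝ) * z = -(3 / 4 * z) := by ring
        rw [e]
        exact h
    _ = C * (4 / 3) * Real.exp (-(3 / 4) * y) := by
        rw [integral_const_mul, hv]
        ring

theorem Jf_bd : ∃ C : ℝ, 0 ≤ C ∧ (∀ y, 0 ≤ y → |Jf y| ≤ C * Real.exp (-(3 / 4) * y)) ∧
    (∀ y, y ≤ 0 → |Jf y + Iq / 2| ≤ C * Real.exp (3 / 4 * y)) := by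
  obtain ⟨C, hC0, hC⟩ := PRe_pos_bd
  refine ⟨C, hC0, hC, fun y hy => ?_⟩
  have h := hC (-y) (by linarith)
  rw [Jf_neg] at h
  have e1 : -(Iq / 2) - Jf y = -(Jf y + Iq / 2) := by ring
  have e2 : -(3 / 4 : ℝ) * -y = 3 / 4 * y := by ring
  rw [e1, abs_neg, e2] at h
  exact h

theorem Jf_cl : Cl 0 0 Jf := by
  obtain ⟨C, hC0, hC, hC'⟩ := Jf_bd
  have hg : Cl 0 0 (fun y => -Lam 4 (Qf 4) y) :=
    Cl_mono (Cl_neg PRe_CL) (by norm_num) (by norm_num)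
  refine Cl_of_deriv (g := fun y => -Lam 4 (Qf 4) y) Jf_hd hg ⟨C + Iq / 2, fun y => ?_⟩
  rw [bd_zero, mul_one]
  have hI := Iq_pos
  rcases le_total 0 y with hy | hy
  · have h1 := hC y hy
    have h2 : Real.exp (-(3 / 4) * y) ≤ 1 := Real.exp_le_one_iff.2 (by nlinarith)
    have h3 := mul_le_mul_of_nonneg_left h2 hC0
    linarith
  · have h1 := hC' y hy
    have h2 : Real.exp (3 / 4 * y) ≤ 1 := Real.exp_le_one_iff.2 (by nlinarith)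
    have h3 := mul_le_mul_of_nonneg_left h2 hC0
    have h4 : |Jf y| ≤ |Jf y + Iq / 2| + |Iq / 2| := by
      have e : Jf y = (Jf y + Iq / 2) - Iq / 2 := by ring
      calc |Jf y| = |(Jf y + Iq / 2) - Iq / 2| := by rw [← e]
        _ ≤ |Jf y + Iq / 2| + |Iq / 2| := abs_sub _ _
    have h5 : |Iq / 2| = Iq / 2 := abs_of_pos (by linarith)
    linarith

theorem PRe_Q4J : Cl 4 4 (fun y => (Qf 4 y) ^ 4 * Jf y) := by
  have h := Cl_mul (Cl_pow (Cl_Qf (k := 4) (by norm_num)) 4) Jf_cl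
  have e : ((4 : ℕ) : ℝ) * 1 + 0 = 4 := by norm_num
  rwa [e] at h

theorem Fp_cl : Cl (3 / 4) (3 / 4) (fun y => deriv (Lam 4 (Qf 4)) y - (Qf 4 y) ^ 4 * Jf y) :=
  Cl_sub (Cl_der PRe_CL) (Cl_mono PRe_Q4J (by norm_num) (by norm_num))

theorem Fp_orth : ip (fun y => deriv (Lam 4 (Qf 4)) y - (Qf 4 y) ^ 4 * Jf y) (deriv (Qf 4)) = 0 := by
  have hk : 1 ≤ 4 := by norm_num
  have hQ := Cl_Qf (k := 4) hk
  have hQd := Cl_der hQ
  have hQdd := Cl_der hQd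
  have h5 : Cl 5 5 (fun y => (Qf 4 y) ^ 5) := by
    have h := Cl_pow hQ 5
    have e : ((5 : ℕ) : ℝ) * 1 = 5 := by norm_num
    rwa [e] at h
  have h5d : ∀ y, deriv (fun y => (Qf 4 y) ^ 5) y = 5 * (Qf 4 y) ^ 4 * deriv (Qf 4) y := by
    intro y
    have h : HasDerivAt (fun y => (Qf 4 y) ^ 5) (((5 : ℕ) : ℝ) * (Qf 4 y) ^ (5 - 1) * deriv (Qf 4) y) y :=
      (Cl_hd hQ y).pow 5
    rw [h.deriv]
    norm_num
  have hJd : ∀ y, deriv Jf y = -Lam 4 (Qf 4) y := fun y => (Jf_hd y).deriv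
  have A1 := Cl_ibp (f := Lam 4 (Qf 4)) (g := deriv (Qf 4)) PRe_CL hQd (by norm_num) (by norm_num)
  have A2 := Cl_ibp (f := fun y => (Qf 4 y) ^ 5) (g := Jf) h5 Jf_cl (by norm_num) (by norm_num)
  have i1 : Integrable (fun y => deriv (Lam 4 (Qf 4)) y * deriv (Qf 4) y) :=
    Cl_int (Cl_mul (Cl_der PRe_CL) hQd) (by norm_num) (by norm_num)
  have i2 : Integrable (fun y => (Qf 4 y) ^ 4 * Jf y * deriv (Qf 4) y) :=
    Cl_int (Cl_mul PRe_Q4J hQd) (by norm_num) (by norm_num)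
  have i3 : Integrable (fun y => Lam 4 (Qf 4) y * deriv (deriv (Qf 4)) y) :=
    Cl_int (Cl_mul PRe_CL hQdd) (by norm_num) (by norm_num)
  have i4 : Integrable (fun y => (Qf 4 y) ^ 5 * Lam 4 (Qf 4) y) :=
    Cl_int (Cl_mul h5 PRe_CL) (by norm_num) (by norm_num)
  have B2 : ∫ y, (Qf 4 y) ^ 4 * Jf y * deriv (Qf 4) y = 1 / 5 * ∫ y, (Qf 4 y) ^ 5 * Lam 4 (Qf 4) y := by
    have e1 : (fun y => deriv (fun y => (Qf 4 y) ^ 5) y * Jf y) =
        fun y => 5 * ((Qf 4 y) ^ 4 * Jf y * deriv (Qf 4) y) := by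
      funext y
      rw [h5d]
      ring
    have e2 : (fun y => (Qf 4 y) ^ 5 * deriv Jf y) = fun y => -((Qf 4 y) ^ 5 * Lam 4 (Qf 4) y) := by
      funext y
      rw [hJd]
      ring
    rw [e1, e2, integral_const_mul, integral_neg] at A2
    linarith
  have S := ip_LamQ_Q (k := 4) hk
  have hsc : sc 4 = 0 := by
    unfold sc
    norm_num
  rw [hsc, neg_zero, zero_mul] at S
  unfold ip at S ⊢
  have C1 : ∫ y, (deriv (Lam 4 (Qf 4)) y - (Qf 4 y) ^ 4 * Jf y) * deriv (Qf 4) y =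
      (∫ y, deriv (Lam 4 (Qf 4)) y * deriv (Qf 4) y) - ∫ y, (Qf 4 y) ^ 4 * Jf y * deriv (Qf 4) y := by
    rw [← integral_sub i1 i2]
    congr 1
    funext y
    ring
  have C2 : ∫ y, Lam 4 (Qf 4) y * Qf 4 y = (∫ y, Lam 4 (Qf 4) y * deriv (deriv (Qf 4)) y) +
      1 / 5 * ∫ y, (Qf 4 y) ^ 5 * Lam 4 (Qf 4) y := by
    rw [← integral_const_mul, ← integral_add i3 (i4.const_mul _)]
    congr 1
    funext y
    rw [Qf_eq hk]
    unfold fl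
    norm_num
    ring
  rw [C1, B2, A1]
  linarith

end H68KC

end
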