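import Pool.Agent.H68.KC.PRd
import Pool.Agent.H68.KC.PRe

/-!
# Row PRf (MP_95be7d_K4): existence of the profiles `P`, `E`

## Proof
`E := fun y => 1 + KK (Q⁴) y`: `Q⁴` is of class `Cl 4 4 ⊂ Cl (3/4) (3/4)`, `ip Q⁴ Q' = 0` (odd integrand, `Sol2_odd`, or
`Q⁴Q' = (Q⁵/5)'`), `inv_cl`, `KK_neg` (`Q⁴` even). `Lop 4 (1 + r) = 1 - Q⁴ + Lop 4 r = 1`
(`deriv (fun y => 1 + r y) = deriv r`).

`P := fun y => -Jf y + KK Fp y + c * Q' y`, `Fp = (ΛQ)' - Q⁴ J` (rows PRe: `Fp_cl`, `Fp_orth`),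
`c = -(∫ (-J + KK Fp) Q') / ∫ Q'^2` (`Qd2_pos`). Then `P' = ΛQ + (KK Fp)' + c Q''` (`Jf_hd`) is of class `Cl (3/4) (3/4)`,
`P'' = (ΛQ)' + (KK Fp)'' + c Q'''`, and `Lop 4 P = -(ΛQ)' - J + Q⁴ J + Fp + c Lop 4 Q' = -J` (`inv_cl`, `L_Qd`).
`cP`: sum of `Jf_cl` and `Cl_mono` of classes `3/4 3/4` and `1 1`. `P0`, `P1`: `Jf_bd` and `Cl_bnd` of `KK Fp`, `Q'`
with `bd_of_nonneg`, `bd_of_nonpos`. `PQ`: choice of `c` (integrability: `Cl_int (Cl_mul ..)`).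
-/

open MeasureTheory Filter Topology Set
open scoped ContDiff

noncomputable section

namespace H68KC

open H98KB

theorem PRf_E : ∃ E : ℝ → ℝ, Cl (3 / 4) (3 / 4) (fun y => E y - 1) ∧ (∀ y, E (-y) = E y) ∧
    (∀ y, Lop 4 E y = 1) := by
  have hk : 1 ≤ 4 := by norm_num
  have hQ4 : Cl 4 4 (fun y => (Qf 4 y) ^ 4) := by
    have h := Cl_Qk (k := 4) hk
    exact_mod_cast h
  have hF : Cl (3 / 4) (3 / 4) (fun y => (Qf 4 y) ^ 4) := Cl_mono hQ4 (by norm_num) (by norm_num)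
  have h0 : ip (fun y => (Qf 4 y) ^ 4) (deriv (Qf 4)) = 0 := by
    unfold ip
    apply Sol2_odd
    intro y
    rw [Qf_deriv hk]
    simp only [th_neg, Qf_neg]
    ring
  obtain ⟨h1, h2⟩ := inv_cl hF h0
  refine ⟨fun y => 1 + KK (fun y => (Qf 4 y) ^ 4) y, ?_, ?_, ?_⟩
  · have e : (fun y => 1 + KK (fun y => (Qf 4 y) ^ 4) y - 1) = KK (fun y => (Qf 4 y) ^ 4) := by
      funext y
      ring
    rw [e]
    exact h1
  · intro y
    show 1 + KK (fun y => (Qf 4 y) ^ 4) (-y) = 1 + KK (fun y => (Qf 4 y) ^ 4) y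
    rw [KK_neg hF (fun y => by rw [Qf_neg])]
  · intro y
    have h3 := h2 y
    have d1 : deriv (fun y => 1 + KK (fun y => (Qf 4 y) ^ 4) y) =
        deriv (KK (fun y => (Qf 4 y) ^ 4)) := by
      funext z
      exact ((Cl_hd h1 z).const_add 1).deriv
    unfold Lop at h3 ⊢
    rw [d1]
    linear_combination h3

theorem PRf_P : ∃ P : ℝ → ℝ, Cl 0 0 P ∧ Cl (3 / 4) (3 / 4) (deriv P) ∧
    (∃ C : ℝ, ∀ y, 0 ≤ y → |P y| ≤ C * Real.exp (-(3 / 4) * y)) ∧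
    (∃ C : ℝ, ∀ y, y ≤ 0 → |P y - Iq / 2| ≤ C * Real.exp (3 / 4 * y)) ∧
    (∀ y, Lop 4 P y = -Jf y) ∧ ip P (deriv (Qf 4)) = 0 := by
  have hk : 1 ≤ 4 := by norm_num
  have hQ := Cl_Qf (k := 4) hk
  have hQd := Cl_der hQ
  have hQdd := Cl_der hQd
  set Fp : ℝ → ℝ := fun y => deriv (Lam 4 (Qf 4)) y - (Qf 4 y) ^ 4 * Jf y with hFp
  obtain ⟨hR, hL⟩ := inv_cl Fp_cl Fp_orth
  rw [← hFp] at hR hL
  set R : ℝ → ℝ := KK Fp with hRd
  have hQpos := Qd2_pos (k := 4) hk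
  have hP0 : Cl 0 0 (fun y => -Jf y + R y) :=
    Cl_add (Cl_neg Jf_cl) (Cl_mono hR (by norm_num) (by norm_num))
  set c : ℝ := -(∫ y, (-Jf y + R y) * deriv (Qf 4) y) / ∫ y, (deriv (Qf 4) y) ^ 2 with hc
  have hcQ : Cl 1 1 (fun y => c * deriv (Qf 4) y) := Cl_smul c hQd
  have hQm : Cl (3 / 4) (3 / 4) (deriv (Qf 4)) := Cl_mono hQd (by norm_num) (by norm_num)
  have hd1 : ∀ y, HasDerivAt (fun y => -Jf y + R y + c * deriv (Qf 4) y)
      (Lam 4 (Qf 4) y + deriv R y + c * deriv (deriv (Qf 4)) y) y := by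
    intro y
    have h := ((Jf_hd y).neg.add (Cl_hd hR y)).add ((Cl_hd hQd y).const_mul c)
    rw [neg_neg] at h
    exact h
  have hde : deriv (fun y => -Jf y + R y + c * deriv (Qf 4) y) =
      fun y => Lam 4 (Qf 4) y + deriv R y + c * deriv (deriv (Qf 4)) y :=
    funext fun y => (hd1 y).deriv
  have hd2 : ∀ y, HasDerivAt (fun y => Lam 4 (Qf 4) y + deriv R y + c * deriv (deriv (Qf 4)) y)
      (deriv (Lam 4 (Qf 4)) y + deriv (deriv R) y + c * deriv (deriv (deriv (Qf 4))) y) y := by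
    intro y
    exact ((Cl_hd PRe_CL y).add (Cl_hd (Cl_der hR) y)).add ((Cl_hd hQdd y).const_mul c)
  obtain ⟨CJ, hCJ0, hJ1, hJ2⟩ := Jf_bd
  obtain ⟨CR, hCR0, hCR⟩ := Cl_bnd hR
  obtain ⟨CQ, hCQ0, hCQ⟩ := Cl_bnd hQm
  refine ⟨fun y => -Jf y + R y + c * deriv (Qf 4) y, ?_, ?_, ?_, ?_, ?_, ?_⟩
  · exact Cl_add hP0 (Cl_mono hcQ (by norm_num) (by norm_num))
  · rw [hde]
    exact Cl_add (Cl_add PRe_CL (Cl_der hR)) (Cl_smul c (Cl_mono hQdd (by norm_num) (by norm_num)))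
  · refine ⟨CJ + CR + |c| * CQ, fun y hy => ?_⟩
    have e : -(3 / 4 : ℝ) * y = -(3 / 4 * y) := by ring
    have h1 := hJ1 y hy
    have h2 := hCR y
    have h3 := hCQ y
    rw [bd_of_nonneg hy, ← e] at h2 h3
    have h4 : |c * deriv (Qf 4) y| ≤ |c| * (CQ * Real.exp (-(3 / 4) * y)) := by
      rw [abs_mul]
      exact mul_le_mul_of_nonneg_left h3 (abs_nonneg c)
    calc |-Jf y + R y + c * deriv (Qf 4) y| ≤ |-Jf y + R y| + |c * deriv (Qf 4) y| := abs_add_le _ _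
      _ ≤ |-Jf y| + |R y| + |c * deriv (Qf 4) y| := by
          have := abs_add_le (-Jf y) (R y)
          linarith
      _ ≤ (CJ + CR + |c| * CQ) * Real.exp (-(3 / 4) * y) := by
          rw [abs_neg]
          linarith
  · refine ⟨CJ + CR + |c| * CQ, fun y hy => ?_⟩
    have h1 := hJ2 y hy
    have h2 := hCR y
    have h3 := hCQ y
    rw [bd_of_nonpos hy] at h2 h3
    have h4 : |c * deriv (Qf 4) y| ≤ |c| * (CQ * Real.exp (3 / 4 * y)) := by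
      rw [abs_mul]
      exact mul_le_mul_of_nonneg_left h3 (abs_nonneg c)
    have e1 : -Jf y + R y + c * deriv (Qf 4) y - Iq / 2 =
        -(Jf y + Iq / 2) + R y + c * deriv (Qf 4) y := by ring
    calc |-Jf y + R y + c * deriv (Qf 4) y - Iq / 2|
        = |-(Jf y + Iq / 2) + R y + c * deriv (Qf 4) y| := by rw [e1]
      _ ≤ |-(Jf y + Iq / 2) + R y| + |c * deriv (Qf 4) y| := abs_add_le _ _
      _ ≤ |-(Jf y + Iq / 2)| + |R y| + |c * deriv (Qf 4) y| := by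
          have := abs_add_le (-(Jf y + Iq / 2)) (R y)
          linarith
      _ ≤ (CJ + CR + |c| * CQ) * Real.exp (3 / 4 * y) := by
          rw [abs_neg]
          linarith
  · intro y
    have h3 := hL y
    have h4 := L_Qd (k := 4) hk y
    unfold Lop at h3 h4 ⊢
    rw [hde, (hd2 y).deriv]
    linear_combination h3 + c * h4
  · have i1 : Integrable (fun y => (-Jf y + R y) * deriv (Qf 4) y) :=
      Cl_int (Cl_mul hP0 hQd) (by norm_num) (by norm_num)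
    have i2 : Integrable (fun y => (deriv (Qf 4) y) ^ 2) := by
      have h := Cl_pow hQd 2
      exact Cl_int h (by norm_num) (by norm_num)
    unfold ip
    have e : (fun y => (-Jf y + R y + c * deriv (Qf 4) y) * deriv (Qf 4) y) =
        fun y => (-Jf y + R y) * deriv (Qf 4) y + c * (deriv (Qf 4) y) ^ 2 := by
      funext y
      ring
    rw [e, integral_add i1 (i2.const_mul c), integral_const_mul, hc]
    field_simp
    ring

theorem prof_exists : ∃ P E : ℝ → ℝ, Prof P E := by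
  obtain ⟨P, h1, h2, h3, h4, h5, h6⟩ := PRf_P
  obtain ⟨E, g1, g2, g3⟩ := PRf_E
  exact ⟨P, E, ⟨h1, h2, h3, h4, g1, g2, h5, g3, h6⟩⟩

end H68KC

end
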