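import Pool.Agent.H68.KC.TRb

/-!
# Row TRd (MP_95be7d_K4): barriers for `b`

Write `b = bq (r^2) W`, `α = alf (r^2) W`, `β = b/r⁴`, `a = α/r⁴`, `D = bqD (r^2) w W (ze ..)`.

## Proof
`GoodC.MO` (fourth statement) with `Big.ln` (`√ln ≤ √K r^5`), `Big.al`, `Fac.mq`, `Fac.ne`:
`|D + 2 b² + (6/I) α b + cnu r^8| ≤ C (r^12 + √K r^9 + K r^10 + K r^9 + r^30 + r^30) ≤ K' r^9`; and `|b - w| ≤ K r^5` (`Big.bw`).
`a` : `g6`, `g7` give `|a - f0| ≤ σ ≤ σ0` (`K5 r^5 ≥ 0`), `f0 = -c0 I`, `I > 0` (`Iq_pos`), so `|6a/I + 6 c0| ≤ 6σ0/I`.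
(d2) `β ∈ [4c0 - δ0, 4c0]`: `D + 2 c0 w r⁴ ≤ -2b² - (6/I)αb - cnu r^8 + 2 c0 b r⁴ + (K' + 2 c0 K) r^9
 = r^8 (-2β² - (6a/I) β - cnu + 2 c0 β) + K'' r^9`. `-2β² + 6 c0 β + 2 c0 β = -2β (β - 4c0) ≤ 8 c0 δ0`, and `|(6a/I + 6c0) β| ≤ 24 c0 σ0/I`.
So `≤ r^8 (-cnu + 8 c0 δ0 + 24 c0 σ0/I) + K'' r^9 ≤ 0` if `8 c0 δ0 ≤ cnu/4`, `24 c0 σ0/I ≤ cnu/4`, `K'' r ≤ cnu/2` (`cnu_pos`).
(d3) `β ∈ [2c0, 2c0 + δ0]`: `D + c0 w r⁴ ≥ r^8 (-2β² + 6 c0 β - 24 c0 σ0/I - cnu + c0 β) - K'' r^9` and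
`-2β² + 7 c0 β ≥ -2β²+7c0β` at `β ∈ [2c0, 2c0+δ0]`, `= β (7c0 - 2β) ≥ 2c0 (3 c0 - 2δ0) ≥ 6 c0² - 4 c0 δ0`; since `c0 = 1 + cnu`,
`6 c0² ≥ 6 + cnu`, so the bracket is `≥ 6 - cnu/4 - cnu/8 + ... ≥ 1` if also `4 c0 δ0 ≤ 1`, `24 c0 σ0/I ≤ 1`.
-/

open MeasureTheory Filter Topology Set
open scoped ContDiff

noncomputable section

namespace H68KC

open H98KB

variable {P E : ℝ → ℝ} {γ η δ M B c C : ℝ}

theorem TRd_sqrt10 {K x r : ℝ} (hK : 1 ≤ K) (hr : 0 < r) (hx : x ≤ K * r ^ 10) :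
    √x ≤ K * r ^ 5 := by
  have h1 : x ≤ (K * r ^ 5) ^ 2 := by
    have : K * r ^ 10 ≤ K ^ 2 * r ^ 10 := by
      have hKK : K ≤ K ^ 2 := by nlinarith
      gcongr
    calc x ≤ K * r ^ 10 := hx
      _ ≤ K ^ 2 * r ^ 10 := this
      _ = (K * r ^ 5) ^ 2 := by ring
  exact (Real.sqrt_le_sqrt h1).trans (by rw [Real.sqrt_sq (by positivity)])

theorem TRd_sqrt60 {x r : ℝ} (hr : 0 < r) (hx : x ≤ r ^ 60) : √x ≤ r ^ 30 := by
  have h1 : x ≤ (r ^ 30) ^ 2 := by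
    calc x ≤ r ^ 60 := hx
      _ = (r ^ 30) ^ 2 := by ring
  exact (Real.sqrt_le_sqrt h1).trans (by rw [Real.sqrt_sq (by positivity)])

theorem TRd_err {C K r a b s n e f : ℝ} (hC0 : 0 < C) (hK : 1 ≤ K) (hr : 0 < r) (hr1 : r ≤ 1)
    (hs : s ≤ K * r ^ 5) (hn : n ≤ K * r ^ 10) (ha : a ≤ K * r ^ 9) (he : e ≤ r ^ 30)
    (hf : f ≤ r ^ 30) (hb : b ≤ C * (r ^ 12 + r ^ 4 * s + n + a + e + f)) :
    b ≤ 6 * C * K * r ^ 9 := by
  have h12 : r ^ 12 ≤ r ^ 9 := pow_le_pow_of_le_one hr.le hr1 (by norm_num)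
  have h10 : r ^ 10 ≤ r ^ 9 := pow_le_pow_of_le_one hr.le hr1 (by norm_num)
  have h30 : r ^ 30 ≤ r ^ 9 := pow_le_pow_of_le_one hr.le hr1 (by norm_num)
  have h9 : 0 < r ^ 9 := by positivity
  have hs' : r ^ 4 * s ≤ K * r ^ 9 := by
    have h4 : 0 < r ^ 4 := by positivity
    calc r ^ 4 * s ≤ r ^ 4 * (K * r ^ 5) := by gcongr
      _ = K * r ^ 9 := by ring
  have hn' : n ≤ K * r ^ 9 := hn.trans (by gcongr)
  have hK9 : r ^ 9 ≤ K * r ^ 9 := by nlinarith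
  calc b ≤ C * (r ^ 12 + r ^ 4 * s + n + a + e + f) := hb
    _ ≤ C * (6 * (K * r ^ 9)) := by gcongr; linarith
    _ = 6 * C * K * r ^ 9 := by ring

/-- the cross term -/
theorem TRd_cross {I c0' R a f b s s0 K5 r5 : ℝ} (hI : 0 < I) (hR : 0 < R) (hc : 0 < c0')
    (hf : f = -c0' * I) (hb0 : 0 ≤ b) (hb1 : b ≤ 4 * c0' * R) (hs : s ≤ s0) (hK : 0 < K5)
    (hr5 : 0 < r5) (h6 : a + K5 * r5 < (f + s) * R) (h7 : (f - s) * R < a - K5 * r5) :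
    |6 / I * a * b + 6 * c0' * R * b| ≤ 24 * c0' * s0 / I * R ^ 2 := by
  have hKr : 0 < K5 * r5 := by positivity
  have e : 6 / I * a * b + 6 * c0' * R * b = 6 / I * (a - f * R) * b := by
    rw [hf]
    field_simp
    ring
  have hs0 : 0 < s0 * R := by nlinarith
  have h1 : |a - f * R| ≤ s0 * R := by
    rw [abs_le]
    constructor <;> nlinarith
  rw [e, abs_mul, abs_mul, abs_of_pos (by positivity : 0 < 6 / I), abs_of_nonneg hb0]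
  calc 6 / I * |a - f * R| * b ≤ 6 / I * (s0 * R) * (4 * c0' * R) := by gcongr
    _ = 24 * c0' * s0 / I * R ^ 2 := by
      field_simp
      ring

theorem TR_d23 (hp : Prof P E) (hC : GoodC P E γ B c C) (hC0 : 0 < C) :
    ∃ σ0 δ0 : ℝ, 0 < σ0 ∧ σ0 ≤ 1 ∧ 0 < δ0 ∧ ∀ K : ℝ, 1 ≤ K → ∃ r1 : ℝ, 0 < r1 ∧ r1 ≤ 1 ∧
      ∀ (Ca K0 K9 KE KN K5 σ t r w m : ℝ) (W et : ℝ → ℝ), r ≤ r1 → σ ≤ σ0 → 0 < K5 →
      Fac P E r w m W et → Big P E γ B c Ca K r w m W et →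
      Trd P E η γ δ M B K0 K9 KE Ca KN K5 σ t r W →
      ((4 * c0 - δ0) * r ^ 4 ≤ bq (r ^ 2) W →
        bqD (r ^ 2) w W (ze w m (r ^ 8) W et) + 2 * c0 * w * r ^ 4 ≤ 0) ∧
      (bq (r ^ 2) W ≤ (2 * c0 + δ0) * r ^ 4 →
        0 ≤ bqD (r ^ 2) w W (ze w m (r ^ 8) W et) + c0 * w * r ^ 4) := by
  obtain ⟨hc1, -⟩ := c0_ge
  have hcn := cnu_pos
  have hI := Iq_pos
  have hc0 : 0 < c0 := by linarith
  obtain ⟨rM, hrM, hM⟩ := hC.MO
  refine ⟨min 1 (min (cnu * Iq / (96 * c0)) (Iq / (24 * c0))),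
    min (cnu / (32 * c0)) (1 / (4 * c0)), by positivity, min_le_left _ _, by positivity, ?_⟩
  intro K hK
  have hK0 : 0 < K := by linarith
  set σ0 := min 1 (min (cnu * Iq / (96 * c0)) (Iq / (24 * c0))) with hσ0
  set δ0 := min (cnu / (32 * c0)) (1 / (4 * c0)) with hδ0
  have hs1 : 24 * c0 * σ0 / Iq ≤ cnu / 4 := by
    have h : σ0 ≤ cnu * Iq / (96 * c0) := (min_le_right _ _).trans (min_le_left _ _)
    calc 24 * c0 * σ0 / Iq ≤ 24 * c0 * (cnu * Iq / (96 * c0)) / Iq := by gcongr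
      _ = cnu / 4 := by
        field_simp
        ring
  have hs2 : 24 * c0 * σ0 / Iq ≤ 1 := by
    have h : σ0 ≤ Iq / (24 * c0) := (min_le_right _ _).trans (min_le_right _ _)
    calc 24 * c0 * σ0 / Iq ≤ 24 * c0 * (Iq / (24 * c0)) / Iq := by gcongr
      _ = 1 := by field_simp
  have hδp : 0 < δ0 := by positivity
  have hd1 : 8 * c0 * δ0 ≤ cnu / 4 := by
    have h : δ0 ≤ cnu / (32 * c0) := min_le_left _ _
    calc 8 * c0 * δ0 ≤ 8 * c0 * (cnu / (32 * c0)) := by gcongr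
      _ = cnu / 4 := by
        field_simp
        ring
  have hd2 : 4 * c0 * δ0 ≤ 1 := by
    have h : δ0 ≤ 1 / (4 * c0) := min_le_right _ _
    calc 4 * c0 * δ0 ≤ 4 * c0 * (1 / (4 * c0)) := by gcongr
      _ = 1 := by field_simp
  have hKK : 0 < 6 * C * K + 2 * c0 * K := by positivity
  refine ⟨min 1 (min rM (min (cnu / (2 * (6 * C * K + 2 * c0 * K))) (1 / (6 * C * K + 2 * c0 * K)))),
    by positivity, min_le_left _ _, ?_⟩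
  intro Ca K0 K9 KE KN K5 σ t r w m W et hr hσ hK5 hF hB hT
  have hr1 : r ≤ 1 := hr.trans (min_le_left _ _)
  have hr2 : r ≤ rM := hr.trans ((min_le_right _ _).trans (min_le_left _ _))
  have hr3 : (6 * C * K + 2 * c0 * K) * r ≤ cnu / 2 := by
    have h : r ≤ cnu / (2 * (6 * C * K + 2 * c0 * K)) :=
      hr.trans ((min_le_right _ _).trans ((min_le_right _ _).trans (min_le_left _ _)))
    calc (6 * C * K + 2 * c0 * K) * r
        ≤ (6 * C * K + 2 * c0 * K) * (cnu / (2 * (6 * C * K + 2 * c0 * K))) := by gcongr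
      _ = cnu / 2 := by field_simp
  have hr4 : (6 * C * K + 2 * c0 * K) * r ≤ 1 := by
    have h : r ≤ 1 / (6 * C * K + 2 * c0 * K) :=
      hr.trans ((min_le_right _ _).trans ((min_le_right _ _).trans (min_le_right _ _)))
    calc (6 * C * K + 2 * c0 * K) * r
        ≤ (6 * C * K + 2 * c0 * K) * (1 / (6 * C * K + 2 * c0 * K)) := by gcongr
      _ = 1 := by field_simp
  have hr0 : 0 < r := hF.r0
  obtain ⟨-, -, -, hm⟩ := hM (Ca + 1) r w m W et hr2 hB.sit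
  have herr := TRd_err hC0 hK hr0 hr1 (TRd_sqrt10 hK hr0 hB.ln) hB.ln hB.al hF.mq
    (TRd_sqrt60 hr0 hF.ne) hm
  have hR : 0 < r ^ 4 := by positivity
  have hcr := TRd_cross (c0' := c0) (s0 := σ0) hI hR hc0 rfl
    (by nlinarith [hT.g3] : 0 ≤ bq (r ^ 2) W) hT.g2.le hσ hK5 (by positivity : 0 < r ^ 5)
    hT.g6 hT.g7
  have hbw := hB.bw
  have g2 := hT.g2
  have g3 := hT.g3
  generalize bqD (r ^ 2) w W (ze w m (r ^ 8) W et) = D at herr ⊢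
  generalize bq (r ^ 2) W = b at herr hcr hbw g2 g3 ⊢
  generalize alf (r ^ 2) W = a at herr hcr
  rw [abs_le] at herr hcr hbw
  have hR8 : r ^ 8 = (r ^ 4) ^ 2 := by ring
  have hR9 : r ^ 9 = r * (r ^ 4) ^ 2 := by ring
  have hR5 : r ^ 5 = r * r ^ 4 := by ring
  rw [hR8, hR9] at herr
  rw [hR5] at hbw
  clear hm
  generalize r ^ 4 = R at *
  have hRR : 0 < R ^ 2 := by positivity
  have hw1 : c0 * w * R ≤ c0 * (b + K * (r * R)) * R := by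
    have : w ≤ b + K * (r * R) := by linarith [hbw.1]
    gcongr
  have hw2 : c0 * (b - K * (r * R)) * R ≤ c0 * w * R := by
    have : b - K * (r * R) ≤ w := by linarith [hbw.2]
    gcongr
  have hx1 : (6 * C * K + 2 * c0 * K) * r * R ^ 2 ≤ cnu / 2 * R ^ 2 := by gcongr
  have hx2 : (6 * C * K + 2 * c0 * K) * r * R ^ 2 ≤ 1 * R ^ 2 := by gcongr
  have hs1' : 24 * c0 * σ0 / Iq * R ^ 2 ≤ cnu / 4 * R ^ 2 := by gcongr
  have hs2' : 24 * c0 * σ0 / Iq * R ^ 2 ≤ 1 * R ^ 2 := by gcongr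
  constructor
  · intro hb
    have h1 : 2 * b * (4 * c0 * R - b) ≤ 2 * (4 * c0 * R) * (δ0 * R) := by
      have hb0 : 0 ≤ 4 * c0 * R - b := by linarith
      have hb1 : 4 * c0 * R - b ≤ δ0 * R := by linarith
      gcongr
    have hd1' : 8 * c0 * δ0 * R ^ 2 ≤ cnu / 4 * R ^ 2 := by gcongr
    have e1 := herr.2
    have e2 := hcr.1
    nlinarith [mul_pos hcn hRR]
  · intro hb
    have hδ1 : δ0 ≤ 1 := by
      have : δ0 ≤ 4 * c0 * δ0 := by nlinarith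
      linarith
    have h1 : 2 * c0 * R * (7 * c0 * R - 2 * ((2 * c0 + δ0) * R)) ≤ b * (7 * c0 * R - 2 * b) := by
      have hb0 : 0 ≤ (3 * c0 - 2 * δ0) * R := by
        have : 0 ≤ 3 * c0 - 2 * δ0 := by linarith
        positivity
      have hb1 : 7 * c0 * R - 2 * ((2 * c0 + δ0) * R) ≤ 7 * c0 * R - 2 * b := by linarith
      have hb2 : 0 ≤ 7 * c0 * R - 2 * ((2 * c0 + δ0) * R) := by linarith
      have hb3 : 0 < 2 * c0 * R := by positivity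
      exact mul_le_mul g3.le hb1 hb2 (hb3.trans g3).le
    have hd2' : 4 * c0 * δ0 * R ^ 2 ≤ 1 * R ^ 2 := by gcongr
    have hcc : (6 + cnu) * R ^ 2 ≤ 6 * c0 ^ 2 * R ^ 2 := by
      have : 6 + cnu ≤ 6 * c0 ^ 2 := by
        have : c0 = 1 + cnu := rfl
        rw [this]
        nlinarith
      gcongr
    have e1 := herr.1
    have e2 := hcr.2
    have hcK : 0 ≤ c0 * K * r * R ^ 2 := by positivity
    nlinarith [mul_pos hcn hRR]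

end H68KC

end
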