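import Pool.Agent.H68.KC.TRb

/-!
# Row TRe (MP_95be7d_K4): energy, gradient norm, mass, front functional, drift of `α` in the trap

## Proofs (`e = W - Q`)
* `TR_d4`: `GoodC.EN`: `DEW ≤ -2 w EW + C r^8 + C/r^8 ne2 ≤ -w KE r⁴ + 2 C r^8` (`EW ≥ KE/2 r⁴`, `w ≥ 0`, `ne2 ≤ r^60`, `r ≤ 1`), and
  `2 C r^8 ≤ (1/2) w KE r⁴` because `w ≥ c0 r⁴ ≥ r⁴` (`c0_ge`) and `KE ≥ 4 C`.
* `TR_s8`: `GoodC.XE`: `Xn e ≤ 4 EW + C (r⁴ + ln) ≤ 4 KE r⁴ + C (r⁴ + K r^10) ≤ r²/2` for `r` small (`g4`, `Big.ln`).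
* `TR_s9`: `∫ e² = ∫ W² - ∫ Q² - 2 ∫ Q e` (`e` of class `p q`, `W = Q + e`), `∫ Q e = ∫ Q h + ∫ Q ε = b I²/16 + α I/4` (`ep_split`, `ip_PQ`, `ip_EQ`, `ep_Q`), so
  `|∫ Q e| ≤ C' r⁴` (`Sit.b1`, `Sit.a1`), `∫ e² ≤ 1/2 + 2 C' r⁴ ≤ 3/4` (`Fac.ms`).
* `TR_x1`: `W'² = (Q' + e')² ≥ Q'²/2 - e'²`, so `∫ W'² ≥ K/2 - Xn e ≥ K/2 - r²/2 ≥ K/4` for `r` small (`K = ∫ Q'² > 0`, `Qd2_pos`; `g8`).
* `TR_d5`: `GoodB.AH (Ca+1)`: `DNn ≤ -2wN - r^8 X2 + CH r^40 + CH/r^8 ne2 ≤ -2wN + 2 CH r^40`; `KN = 2 CH`.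
* `TR_d6`: `Big.al` and `w ≥ c0 r⁴ ≥ r⁴`: `K r^9 ≤ K5/8 w r^5` for `K5 ≥ 8 K`.
-/

open MeasureTheory Filter Topology Set
open scoped ContDiff

noncomputable section

namespace H68KC

open H98KB

variable {P E : ℝ → ℝ} {γ η δ M B c C : ℝ}

theorem TRe_e {C r x : ℝ} (hC : 0 ≤ C) (hr : 0 < r) (hx : x ≤ r ^ 60) :
    C / r ^ 8 * x ≤ C * r ^ 52 := by
  have h1 : C / r ^ 8 * x ≤ C / r ^ 8 * r ^ 60 := mul_le_mul_of_nonneg_left hx (by positivity)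
  have h2 : C / r ^ 8 * r ^ 60 = C * r ^ 52 := by
    field_simp
  linarith

theorem TRe_w {Ca K r w m : ℝ} {W et : ℝ → ℝ} (hr0 : 0 < r) (hBig : Big P E γ B c Ca K r w m W et) :
    r ^ 4 ≤ w := by
  have h1 := hBig.w1
  have h2 := c0_ge.1
  have h3 : 1 * r ^ 4 ≤ c0 * r ^ 4 := mul_le_mul_of_nonneg_right h2 (by positivity)
  linarith

theorem TR_d4 (hC : GoodC P E γ B c C) (hC0 : 0 < C) {KE K Ca r w m : ℝ} {W et : ℝ → ℝ}
    (hKE : 4 * C ≤ KE) (hr : r ≤ 1) (hF : Fac P E r w m W et) (hBig : Big P E γ B c Ca K r w m W et)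
    (h : KE / 2 * r ^ 4 ≤ EW W) :
    DEW W (ze w m (r ^ 8) W et) ≤ -(1 / 2) * w * KE * r ^ 4 := by
  have hr0 := hF.r0
  have h1 := hC.EN (Ca + 1) r w m W et hr hBig.sit
  have h2 := TRe_e hC0.le hr0 hF.ne
  have h3 : r ^ 52 ≤ r ^ 8 := pow_le_pow_of_le_one hr0.le hr (by norm_num)
  have h4 := TRe_w hr0 hBig
  have hr4 := pow_pos hr0 4
  have hw : 0 < w := by linarith
  have h5 : w * (KE / 2 * r ^ 4) ≤ w * EW W := mul_le_mul_of_nonneg_left h hw.le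
  have h6 : r ^ 4 * (4 * C * r ^ 4) ≤ w * (KE * r ^ 4) :=
    mul_le_mul h4 (mul_le_mul_of_nonneg_right hKE hr4.le) (by positivity) hw.le
  have h7 : C * r ^ 52 ≤ C * r ^ 8 := mul_le_mul_of_nonneg_left h3 hC0.le
  have h8 : r ^ 4 * (4 * C * r ^ 4) = 4 * (C * r ^ 8) := by ring
  rw [h8] at h6
  linarith

theorem TR_s8 (hC : GoodC P E γ B c C) (hC0 : 0 < C) (KE K : ℝ) :
    ∃ r1 : ℝ, 0 < r1 ∧ r1 ≤ 1 ∧ ∀ (Ca K0 K9 KN K5 σ t r w m : ℝ) (W et : ℝ → ℝ), r ≤ r1 →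
      Big P E γ B c Ca K r w m W et → Trd P E η γ δ M B K0 K9 KE Ca KN K5 σ t r W →
      Xn (fun y => W y - Qf 4 y) ≤ r ^ 2 / 2 := by
  obtain ⟨r0, hr0, hX⟩ := hC.XE
  set A : ℝ := 4 * |KE| + C + C * |K| + 1 with hA
  have hA1 : 1 ≤ A := by
    have := abs_nonneg KE
    have := mul_nonneg hC0.le (abs_nonneg K)
    linarith
  refine ⟨min r0 (1 / (2 * A)), lt_min hr0 (by positivity), (min_le_right _ _).trans ?_, ?_⟩
  · rw [div_le_one (by linarith)]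
    linarith
  intro Ca K0 K9 KN K5 σ t r w m W et hr hBig hT
  have hrp := hBig.sit.r0
  have hrA : r ≤ 1 / (2 * A) := hr.trans (min_le_right _ _)
  have hrA1 : r * (2 * A) ≤ 1 := (le_div_iff₀ (by linarith)).1 hrA
  have hr1 : r ≤ 1 := by nlinarith
  have h1 := (hX (Ca + 1) r w m W et (hr.trans (min_le_left _ _)) hBig.sit).1
  have h2 := hT.g4
  have h3 := hBig.ln
  have hr4 := pow_pos hrp 4
  have h4 : KE * r ^ 4 ≤ |KE| * r ^ 4 := mul_le_mul_of_nonneg_right (le_abs_self _) hr4.le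
  have h5 : K * r ^ 10 ≤ |K| * r ^ 4 :=
    mul_le_mul (le_abs_self _) (pow_le_pow_of_le_one hrp.le hr1 (by norm_num)) (by positivity)
      (abs_nonneg _)
  have h6 : C * (r ^ 4 + ln γ B (ep P E (r ^ 2) W)) ≤ C * (r ^ 4 + |K| * r ^ 4) :=
    mul_le_mul_of_nonneg_left (by linarith) hC0.le
  have h7 : Xn (fun y => W y - Qf 4 y) ≤ A * r ^ 4 := by
    have h8 : A * r ^ 4 = 4 * (|KE| * r ^ 4) + C * (r ^ 4 + |K| * r ^ 4) + r ^ 4 := by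
      rw [hA]
      ring
    rw [h8]
    linarith
  have h9 : A * r ^ 4 ≤ r ^ 2 / 2 := by
    have h10 : r ^ 2 ≤ r := by nlinarith
    have h11 : A * r ^ 2 ≤ A * r := mul_le_mul_of_nonneg_left h10 (by linarith)
    have h12 : A * r ^ 2 ≤ 1 / 2 := by linarith
    have h13 : (A * r ^ 2) * r ^ 2 ≤ 1 / 2 * r ^ 2 := mul_le_mul_of_nonneg_right h12 (by positivity)
    have h14 : (A * r ^ 2) * r ^ 2 = A * r ^ 4 := by ring
    linarith
  linarith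

theorem TRe_Q : Cl 1 1 (Qf 4) := Cl_Qf (by norm_num)

theorem TRe_ip {W : ℝ → ℝ} (s : ℝ) : ip (fun y => W y - Qf 4 y) (Qf 4) =
    bq s W * (Iq ^ 2 / 16) + alf s W * (Iq / 4) := by
  have hI := Iq_pos
  unfold bq
  field_simp
  ring

theorem TRe_sq {p q : ℝ} {W : ℝ → ℝ} (hp : 0 < p) (hq : 0 < q)
    (hW : Cl p q (fun y => W y - Qf 4 y)) : (∫ y, (W y) ^ 2) = (∫ y, (Qf 4 y) ^ 2) +
      2 * ip (fun y => W y - Qf 4 y) (Qf 4) + ∫ y, (W y - Qf 4 y) ^ 2 := by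
  have i1 : Integrable (fun y => (Qf 4 y) ^ 2) :=
    Cl_int (Cl_pow TRe_Q 2) (by norm_num) (by norm_num)
  have i2 : Integrable (fun y => (W y - Qf 4 y) * Qf 4 y) :=
    Cl_int (Cl_mul hW TRe_Q) (by linarith) (by linarith)
  have i3 : Integrable (fun y => (W y - Qf 4 y) ^ 2) :=
    Cl_int (Cl_pow hW 2) (by push_cast; linarith) (by push_cast; linarith)
  have i4 : Integrable (fun y => (Qf 4 y) ^ 2 + 2 * ((W y - Qf 4 y) * Qf 4 y)) :=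
    i1.add (i2.const_mul 2)
  unfold ip
  rw [← integral_const_mul, ← integral_add i1 (i2.const_mul 2), ← integral_add i4 i3]
  refine integral_congr_ae (Eventually.of_forall fun y => ?_)
  simp only
  ring

theorem TR_s9 (hp : Prof P E) :
    ∃ r1 : ℝ, 0 < r1 ∧ r1 ≤ 1 ∧ ∀ (Ca K r w m : ℝ) (W et : ℝ → ℝ), r ≤ r1 →
      Fac P E r w m W et → Big P E γ B c Ca K r w m W et →
      (∫ y, (W y - Qf 4 y) ^ 2) ≤ 3 / 4 := by
  have hI := Iq_pos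
  have hc := c0_ge.1
  have hf := abs_nonneg f0
  set A : ℝ := 5 * c0 * (Iq ^ 2 / 16) + (|f0| + 1) * (Iq / 4) with hA
  have hA0 : 0 ≤ A := by
    have : 0 ≤ c0 := by linarith
    positivity
  refine ⟨1 / (8 * (A + 1)), by positivity, ?_, ?_⟩
  · rw [div_le_one (by linarith)]
    linarith
  intro Ca K r w m W et hr hF hBig
  have hr0 := hF.r0
  have hr8 : r * (8 * (A + 1)) ≤ 1 := (le_div_iff₀ (by linarith)).1 hr
  have hr1 : r ≤ 1 := by nlinarith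
  obtain ⟨p, q, hp0, -, hq0, -, hW, -⟩ := hF.cl
  have h1 := TRe_sq hp0 hq0 hW
  have h2 := TRe_ip (W := W) (r ^ 2)
  have h3 := hBig.sit.b1
  have h4 := hBig.sit.a1
  have h5 := hF.ms
  have h6 : |bq (r ^ 2) W * (Iq ^ 2 / 16)| ≤ 5 * c0 * r ^ 4 * (Iq ^ 2 / 16) := by
    rw [abs_mul, abs_of_nonneg (show (0:ℝ) ≤ Iq ^ 2 / 16 by positivity)]
    exact mul_le_mul_of_nonneg_right h3 (by positivity)
  have h7 : |alf (r ^ 2) W * (Iq / 4)| ≤ (|f0| + 1) * r ^ 4 * (Iq / 4) := by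
    rw [abs_mul, abs_of_nonneg (show (0:ℝ) ≤ Iq / 4 by positivity)]
    exact mul_le_mul_of_nonneg_right h4 (by positivity)
  have h8 := (abs_le.1 h6).1
  have h9 := (abs_le.1 h7).1
  have h10 : 5 * c0 * r ^ 4 * (Iq ^ 2 / 16) + (|f0| + 1) * r ^ 4 * (Iq / 4) = A * r ^ 4 := by
    rw [hA]
    ring
  have h11 : r ^ 4 ≤ r := by
    have := pow_le_pow_of_le_one hr0.le hr1 (show 1 ≤ 4 by norm_num)
    simpa using this
  have h12 : A * r ^ 4 ≤ A * r := mul_le_mul_of_nonneg_left h11 hA0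
  linarith

theorem TR_x1 : ∃ r1 : ℝ, 0 < r1 ∧ r1 ≤ 1 ∧ ∀ (P E : ℝ → ℝ) (r w m : ℝ) (W et : ℝ → ℝ), r ≤ r1 →
      Fac P E r w m W et → Xn (fun y => W y - Qf 4 y) < r ^ 2 →
      1 / 4 * (∫ y, (deriv (Qf 4) y) ^ 2) ≤ ∫ y, (deriv W y) ^ 2 := by
  have hK : 0 < ∫ y, (deriv (Qf 4) y) ^ 2 := Qd2_pos (by norm_num)
  refine ⟨min 1 ((∫ y, (deriv (Qf 4) y) ^ 2) / 4), lt_min one_pos (by linarith),
    min_le_left _ _, ?_⟩
  intro P E r w m W et hr hF hX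
  have hr0 := hF.r0
  have hr1 : r ≤ 1 := hr.trans (min_le_left _ _)
  have hr2 : r ≤ (∫ y, (deriv (Qf 4) y) ^ 2) / 4 := hr.trans (min_le_right _ _)
  obtain ⟨p, q, hp0, -, hq0, -, hW, -⟩ := hF.cl
  have hQd : Cl 1 1 (deriv (Qf 4)) := Cl_der TRe_Q
  have hWd := Cl_der hW
  have hd : ∀ y, deriv W y = deriv (Qf 4) y + deriv (fun y => W y - Qf 4 y) y := by
    intro y
    have h1 := (Cl_hd TRe_Q y).add (Cl_hd hW y)
    have h2 : (Qf 4 + fun y => W y - Qf 4 y) = W := by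
      funext z
      simp
    rw [h2] at h1
    exact h1.deriv
  have i1 : Integrable (fun y => (deriv (Qf 4) y) ^ 2) :=
    Cl_int (Cl_pow hQd 2) (by norm_num) (by norm_num)
  have i2 : Integrable (fun y => deriv (Qf 4) y * deriv (fun y => W y - Qf 4 y) y) :=
    Cl_int (Cl_mul hQd hWd) (by linarith) (by linarith)
  have i3 : Integrable (fun y => (deriv (fun y => W y - Qf 4 y) y) ^ 2) :=
    Cl_int (Cl_pow hWd 2) (by push_cast; linarith) (by push_cast; linarith)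
  have i4 : Integrable (fun y => (deriv W y) ^ 2) := by
    refine ((i1.add (i2.const_mul 2)).add i3).congr (Eventually.of_forall fun y => ?_)
    simp only [Pi.add_apply]
    rw [hd y]
    ring
  have h1 : (∫ y, ((1:ℝ) / 2 * (deriv (Qf 4) y) ^ 2 - (deriv (fun y => W y - Qf 4 y) y) ^ 2)) ≤
      ∫ y, (deriv W y) ^ 2 := by
    refine integral_mono ((i1.const_mul _).sub i3) i4 fun y => ?_
    simp only
    rw [hd y]
    nlinarith [sq_nonneg (deriv (Qf 4) y + 2 * deriv (fun y => W y - Qf 4 y) y)]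
  rw [integral_sub (i1.const_mul _) i3, integral_const_mul] at h1
  have h2 : Xn (fun y => W y - Qf 4 y) = ∫ y, (deriv (fun y => W y - Qf 4 y) y) ^ 2 := rfl
  rw [← h2] at h1
  have h3 : r ^ 2 ≤ r := by nlinarith
  linarith

theorem TR_d5 (hBg : GoodB P E γ B c) (Ca : ℝ) :
    ∃ KN r1 : ℝ, 0 < KN ∧ 0 < r1 ∧ r1 ≤ 1 ∧ ∀ (K r w m : ℝ) (W et : ℝ → ℝ), r ≤ r1 →
      Fac P E r w m W et → Big P E γ B c Ca K r w m W et →
      DNn (r ^ 2) w W (ze w m (r ^ 8) W et) + 2 * w * Nn (r ^ 2) W ≤ KN * r ^ 40 := by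
  obtain ⟨CH, r0, hCH, hr0, hAH⟩ := hBg.AH (Ca + 1)
  refine ⟨2 * CH, min 1 r0, by positivity, lt_min one_pos hr0, min_le_left _ _, ?_⟩
  intro K r w m W et hr hF hBig
  have hrp := hF.r0
  have hr1 : r ≤ 1 := hr.trans (min_le_left _ _)
  have h1 := hAH r w m W et (hr.trans (min_le_right _ _)) hBig.m2 hBig.sit
  have h2 := TRe_e hCH.le hrp hF.ne
  have h3 : r ^ 52 ≤ r ^ 40 := pow_le_pow_of_le_one hrp.le hr1 (by norm_num)
  have h4 : CH * r ^ 52 ≤ CH * r ^ 40 := mul_le_mul_of_nonneg_left h3 hCH.le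
  have h5 : 0 ≤ ∫ y, Ph (r ^ 2) y * (deriv (deriv W) y) ^ 2 := by
    refine integral_nonneg fun y => mul_nonneg ?_ (sq_nonneg _)
    unfold Ph Th
    positivity
  have h6 : 0 ≤ r ^ 8 * ∫ y, Ph (r ^ 2) y * (deriv (deriv W) y) ^ 2 := mul_nonneg (by positivity) h5
  linarith

theorem TR_d6 {K K5 Ca r w m : ℝ} {W et : ℝ → ℝ} (hK : 0 ≤ K) (hK5 : 8 * K ≤ K5)
    (hF : Fac P E r w m W et) (hBig : Big P E γ B c Ca K r w m W et) :
    |alm (r ^ 2) w W (ze w m (r ^ 8) W et)| ≤ K5 / 8 * w * r ^ 5 := by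
  have hr0 := hF.r0
  have h1 := hBig.al
  have h2 := TRe_w hr0 hBig
  have h3 : K * r ^ 4 ≤ K5 / 8 * w := mul_le_mul (by linarith) h2 (by positivity) (by linarith)
  have h4 : K * r ^ 4 * r ^ 5 ≤ K5 / 8 * w * r ^ 5 := mul_le_mul_of_nonneg_right h3 (by positivity)
  have h5 : K * r ^ 4 * r ^ 5 = K * r ^ 9 := by ring
  linarith

end H68KC

end
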