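import Pool.Agent.H68.KC.TRc
import Pool.Agent.H68.KC.TRd
import Pool.Agent.H68.KC.TRe

/-!
# Row TRf (MP_95be7d_K4): assembly of the static trap theorem

## Proof
Order of the constants: `GoodC` gives `C` (replace it by `max C 1` where positivity is needed: all statements of `GoodC` with `C` imply those with a larger constant,
or note `0 < C` from `GoodA.hC : 1 ≤ C`, the same `C`). `TR_d1` gives `K0`; `K9 := 4 K0 (Ca + 1) + 1`; `TR_big` (with `K0 K9 Ca`) gives `K`; `TR_d5 Ca` gives `KN`;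
`KE := max KI (4 C)`; `K5 := 8 K`; `TR_d23` gives `σ0 δ0`; `r1` := minimum of the `r1` of `TR_big` (with `KE KN K5`), `TR_d1` (with `Ca K9 K`), `TR_d23` (with `K`),
`TR_s8 KE K`, `TR_s9`, `TR_x1`, `TR_d5`. Then for `Fac`, `Trd`: `Big` by `TR_big` (`σ ≤ σ0 ≤ 1`); `w1 := Big.w1`, `w2 := Big.sit.w1`, `m1 := Big.m2`, `d1 := TR_d1`, `d2 d3 := TR_d23`,
`d4 := TR_d4`, `d5 := TR_d5`, `d6 := TR_d6`, `s8 := TR_s8`, `s9 := TR_s9`, `x1 := TR_x1` (with `g8`).
-/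

open MeasureTheory Filter Topology Set
open scoped ContDiff

noncomputable section

namespace H68KC

open H98KB

theorem thmTrap : ThmTrap := by
  intro P E γ η δ M B c C hp hA hBg hC Ca KI hCa hKI
  have hC0 : 0 < C := lt_of_lt_of_le one_pos hA.hC
  have hCa0 : 0 ≤ Ca := le_trans zero_le_one hCa
  obtain ⟨K0, hK0, H1⟩ := TR_d1 hp hA hBg
  have hK9 : 0 < 4 * K0 * (Ca + 1) + 1 := by positivity
  obtain ⟨K, hK1, H2⟩ := TR_big hp hA hBg K0 (4 * K0 * (Ca + 1) + 1) Ca hCa0 hK0 hK9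
  have hK : 0 < K := lt_of_lt_of_le one_pos hK1
  obtain ⟨KN, r5, hKN, hr50, hr51, H5⟩ := TR_d5 hBg Ca
  obtain ⟨rb, hrb0, hrb1, HB⟩ := H2 (max KI (4 * C)) KN (8 * K) (by positivity)
  obtain ⟨rd, hrd0, hrd1, HD1⟩ := H1 Ca (4 * K0 * (Ca + 1) + 1) K hCa0 (by linarith) hK9 hK1
  obtain ⟨σ0, δ0, hσ0, hσ1, hδ0, H23⟩ := TR_d23 hp hC hC0
  obtain ⟨r23, hr230, hr231, HD23⟩ := H23 K hK1
  obtain ⟨r8, hr80, hr81, HS8⟩ := TR_s8 hC hC0 (max KI (4 * C)) K
  obtain ⟨r9, hr90, hr91, HS9⟩ := TR_s9 hp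
  obtain ⟨rx, hrx0, hrx1, HX1⟩ := TR_x1
  refine ⟨K0, 4 * K0 * (Ca + 1) + 1, max KI (4 * C), KN, 8 * K, σ0, δ0,
    min r5 (min rb (min rd (min r23 (min r8 (min r9 rx))))), hK0, by linarith, le_max_left _ _, hKN,
    by positivity, hσ0, hδ0, ?_, ?_, ?_⟩
  · exact lt_min hr50 (lt_min hrb0 (lt_min hrd0 (lt_min hr230 (lt_min hr80 (lt_min hr90 hrx0)))))
  · exact le_trans (min_le_left _ _) hr51
  · intro σ t r w m W et hr ht0 ht1 hσ hF hT
    rw [le_min_iff, le_min_iff, le_min_iff, le_min_iff, le_min_iff, le_min_iff] at hr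
    obtain ⟨e5, eb, ed, e23, e8, e9, ex⟩ := hr
    have hbig := HB σ t r w m W et eb ht0 ht1 (le_trans hσ hσ1) hF hT
    have h23 := HD23 Ca K0 (4 * K0 * (Ca + 1) + 1) (max KI (4 * C)) KN (8 * K) σ t r w m W et e23 hσ
      (by positivity) hF hbig hT
    exact
      { w1 := hbig.w1
        w2 := hbig.sit.w1
        m1 := hbig.m2
        d1 := HD1 r w m W et ed hF hbig
        d2 := h23.1
        d3 := h23.2
        d4 := TR_d4 hC hC0 (le_max_right _ _) (le_trans e5 hr51) hF hbig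
        d5 := H5 K r w m W et e5 hF hbig
        d6 := TR_d6 hK.le le_rfl hF hbig
        s8 := HS8 Ca K0 (4 * K0 * (Ca + 1) + 1) KN (8 * K) σ t r w m W et e8 hbig hT
        s9 := HS9 Ca K r w m W et e9 hF hbig
        x1 := HX1 P E r w m W et ex hF hT.g8 }

end H68KC

end
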