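import Pool.Agent.H68.KC.MOb

/-!
# Row MOd (MP_95be7d_K4): second order expansion of `(R(e),Q')`

`R = Rf 4 e = ((Q+e)^5 - Q^5)/5 - Q⁴ e = 2 Q³ e² + 2 Q² e³ + Q e⁴ + e⁵/5`.

## Proof
`R Q' - 2 Q³ Q' e² = Q' (2 Q² e³ + Q e⁴ + e⁵/5)`, absolute value `≤ C |Q'| |e|³` for `|e| ≤ 1`, and
`|e|³ ≤ 4 (|h|³ + |ε|³) ≤ C r^{12} + 4 |ε|²` (`ep_split`, `h_le`, `|ε| ≤ c ≤ 1` from `supe`).
`e² - h² = 2 h ε + ε²`, `∫ |4Q³Q'/2| (2|h||ε| + ε²) ≤ C r⁴ ∫ |Q³Q'||ε| + C ln`, and `∫ |Q³ Q'| |ε| ≤ C √ln`: Cauchy-Schwarz as in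
`ip_ln` (write `|Q³Q'||ε| ≤ Q^3 |Q'| |ε|`; use `cs_wt` with `F = |ε|`, `φ = |Q³ Q'|`, `W = loc`).
`∫ |ψ| ε² ≤ C ln` : `ln_dom`.
-/

open MeasureTheory Filter Topology Set
open scoped ContDiff

noncomputable section

namespace H68KC

open H98KB

variable {P E : ℝ → ℝ} {γ B : ℝ}

theorem R4_eq (e : ℝ → ℝ) (y : ℝ) : Rf 4 e y = 2 * (Qf 4 y) ^ 3 * (e y) ^ 2 + 2 * (Qf 4 y) ^ 2 * (e y) ^ 3
    + Qf 4 y * (e y) ^ 4 + (e y) ^ 5 / 5 := by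
  simp only [Rf, Df, fl]
  push_cast
  ring

theorem MOd_E (hp : Prof P E) : Cl 0 0 E := by
  have h1 := Cl_add (Cl_mono hp.E1 (p' := 0) (q' := 0) (by norm_num) (by norm_num)) (Cl_const 1)
  have h2 : (fun y => (E y - 1) + 1) = E := by
    funext y
    ring
  rw [← h2]
  exact h1

theorem MOd_Q0 : Cl 0 0 (Qf 4) := Nla_Q (by norm_num)

theorem MOd_Qd : Cl 1 1 (deriv (Qf 4)) := Cl_der (Cl_Qf (by norm_num))

theorem MOd_psi : Cl 1 1 (fun y => (Qf 4 y) ^ 3 * deriv (Qf 4) y) := Cl_mul0 (Cl_pow0 MOd_Q0 3) MOd_Qd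

theorem MOd_psi_mul {f : ℝ → ℝ} (hf : Cl 0 0 f) :
    Cl 1 1 (fun y => (Qf 4 y) ^ 3 * deriv (Qf 4) y * f y) := Nla_mulr MOd_psi hf

theorem MOd_cub : ∃ K : ℝ, 0 ≤ K ∧ ∀ (y e : ℝ), |e| ≤ 1 →
    |2 * (Qf 4 y) ^ 2 * e ^ 3 + Qf 4 y * e ^ 4 + e ^ 5 / 5| ≤ K * |e| ^ 3 := by
  obtain ⟨M, hM, hQ, -⟩ := Nlb_max (k := 4) (by norm_num)
  refine ⟨2 * M ^ 2 + M + 1, by positivity, fun y e he => ?_⟩
  have h0 := (Qf_pos 4 y).le
  have h1 := hQ y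
  have h2 : 2 * (Qf 4 y) ^ 2 * e ^ 3 + Qf 4 y * e ^ 4 + e ^ 5 / 5 =
      (2 * (Qf 4 y) ^ 2 + Qf 4 y * e + e ^ 2 / 5) * e ^ 3 := by ring
  rw [h2, abs_mul, abs_pow]
  refine mul_le_mul_of_nonneg_right ?_ (by positivity)
  have h3 : (Qf 4 y) ^ 2 ≤ M ^ 2 := by gcongr
  have h4 : e ^ 2 ≤ 1 := by
    rw [← sq_abs]
    exact pow_le_one₀ (abs_nonneg e) he
  obtain ⟨h5, h6⟩ := abs_le.mp he
  have h7 : Qf 4 y * e ≤ M := by nlinarith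
  have h8 : -M ≤ Qf 4 y * e := by nlinarith
  rw [abs_le]
  constructor
  · nlinarith [sq_nonneg (Qf 4 y), sq_nonneg e, sq_nonneg M]
  · linarith

theorem MOd_cube {h x : ℝ} (hx : |x| ≤ 1) {A : ℝ} (hh : |h| ≤ A) :
    |h + x| ^ 3 ≤ 4 * A ^ 3 + 4 * x ^ 2 := by
  have h1 : |h + x| ≤ |h| + |x| := abs_add_le h x
  have h2 : |h + x| ^ 3 ≤ (|h| + |x|) ^ 3 := by gcongr
  have a0 := abs_nonneg h
  have b0 := abs_nonneg x
  have h3 : (|h| + |x|) ^ 3 ≤ 4 * (|h| ^ 3 + |x| ^ 3) := by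
    have : 0 ≤ 3 * (|h| + |x|) * (|h| - |x|) ^ 2 := by positivity
    nlinarith
  have h4 : |h| ^ 3 ≤ A ^ 3 := by gcongr
  have h5 : |x| ^ 3 ≤ x ^ 2 := by
    rw [← sq_abs x]
    calc |x| ^ 3 = |x| ^ 2 * |x| := by ring
      _ ≤ |x| ^ 2 * 1 := by gcongr
      _ = |x| ^ 2 := mul_one _
  linarith

theorem MOd_num {b a r L1 I1 I2 B0 D0 C0 C1 C2 C3 C4 K Ch A1 A2 J : ℝ} (hr : 0 < r) (hL1 : 0 ≤ L1)
    (hb : |b| ≤ A1 * r ^ 4) (ha : |a| ≤ A2 * r ^ 4) (hA1 : 0 ≤ A1) (hA2 : 0 ≤ A2)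
    (h1 : |I1| ≤ C1 * √L1) (h2 : |I2| ≤ C2 * √L1) (hB : |B0| ≤ 2 * (C3 * L1))
    (hC1 : 0 ≤ C1) (hC2 : 0 ≤ C2) (hC3 : 0 ≤ C3) (hC4 : 0 ≤ C4) (hK : 0 ≤ K) (hCh : 0 ≤ Ch) (hJ : 0 ≤ J)
    (hD : |D0| ≤ 4 * K * (Ch * r ^ 4) ^ 3 * J + 4 * K * (C4 * L1))
    (hC0 : C0 = 4 * A1 * C1 + 4 * A2 * C2 + 2 * C3 + 4 * K * Ch ^ 3 * J + 4 * K * C4 + 1) :
    |4 * (b * I1 + a * I2) + B0 + D0| ≤ C0 * (r ^ 12 + r ^ 4 * √L1 + L1) := by
  have hs := Real.sqrt_nonneg L1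
  have e1 : |b * I1| ≤ A1 * C1 * (r ^ 4 * √L1) := by
    rw [abs_mul]
    calc |b| * |I1| ≤ (A1 * r ^ 4) * (C1 * √L1) := by gcongr
      _ = A1 * C1 * (r ^ 4 * √L1) := by ring
  have e2 : |a * I2| ≤ A2 * C2 * (r ^ 4 * √L1) := by
    rw [abs_mul]
    calc |a| * |I2| ≤ (A2 * r ^ 4) * (C2 * √L1) := by gcongr
      _ = A2 * C2 * (r ^ 4 * √L1) := by ring
  have e3 : |4 * (b * I1 + a * I2) + B0 + D0| ≤ 4 * (|b * I1| + |a * I2|) + |B0| + |D0| := by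
    have t1 := abs_add_le (4 * (b * I1 + a * I2) + B0) D0
    have t2 := abs_add_le (4 * (b * I1 + a * I2)) B0
    have t3 := abs_add_le (b * I1) (a * I2)
    have t4 : |4 * (b * I1 + a * I2)| = 4 * |b * I1 + a * I2| := by
      rw [abs_mul]
      norm_num
    linarith
  set u := r ^ 4 * √L1 with hu
  have hu0 : 0 ≤ u := by positivity
  have hr12 : 0 ≤ r ^ 12 := by positivity
  have e4 : 4 * K * (Ch * r ^ 4) ^ 3 * J = 4 * K * Ch ^ 3 * J * r ^ 12 := by ring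
  rw [e4] at hD
  have n1 : 0 ≤ A1 * C1 := mul_nonneg hA1 hC1
  have n2 : 0 ≤ A2 * C2 := mul_nonneg hA2 hC2
  have n3 : 0 ≤ K * Ch ^ 3 * J := by positivity
  have n4 : 0 ≤ K * C4 := mul_nonneg hK hC4
  have e5 : C0 * (r ^ 12 + u + L1) = (4 * (A1 * C1) + 4 * (A2 * C2) + 2 * C3 + 4 * (K * Ch ^ 3 * J) + 4 * (K * C4) + 1)
      * (r ^ 12 + u + L1) := by
    rw [hC0]
    ring
  rw [e5]
  nlinarith [mul_nonneg n1 hr12, mul_nonneg n1 hL1, mul_nonneg n2 hr12, mul_nonneg n2 hL1, mul_nonneg hC3 hr12,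
    mul_nonneg hC3 hu0, mul_nonneg n3 hu0, mul_nonneg n3 hL1, mul_nonneg n4 hr12, mul_nonneg n4 hu0]

theorem MOd_int {b a : ℝ} {F1 F2 G D : ℝ → ℝ} (h1 : Integrable F1) (h2 : Integrable F2) (h3 : Integrable G)
    (h4 : Integrable D) : ∫ y, (4 * (b * F1 y + a * F2 y) + 2 * G y + D y) =
      4 * (b * (∫ y, F1 y) + a * ∫ y, F2 y) + 2 * (∫ y, G y) + ∫ y, D y := by
  have i1 : Integrable (fun y => b * F1 y) := h1.const_mul b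
  have i2 : Integrable (fun y => a * F2 y) := h2.const_mul a
  have i12 : Integrable (fun y => b * F1 y + a * F2 y) := i1.add i2
  have i5 : Integrable (fun y => 4 * (b * F1 y + a * F2 y)) := i12.const_mul 4
  have i3 : Integrable (fun y => 2 * G y) := h3.const_mul 2
  have i6 : Integrable (fun y => 4 * (b * F1 y + a * F2 y) + 2 * G y) := i5.add i3
  rw [integral_add i6 h4, integral_add i5 i3, integral_const_mul, integral_const_mul, integral_add i1 i2,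
    integral_const_mul, integral_const_mul]

theorem R_exp (hp : Prof P E) (hγ : 0 < γ) (hγ1 : γ ≤ 1 / 4) (hB : 16 ≤ B) :
    ∃ C : ℝ, 0 < C ∧ ∀ c Ca r w m W et, c ≤ 1 → r ≤ 1 → Sit P E γ B c Ca r w m W et →
      |ip (Rf 4 (fun y => W y - Qf 4 y)) (deriv (Qf 4))
        - 1 / 2 * (∫ y, 4 * (Qf 4 y) ^ 3 * deriv (Qf 4) y *
            (hf P E (bq (r ^ 2) W) (alf (r ^ 2) W) y) ^ 2)| ≤
      C * (r ^ 12 + r ^ 4 * √(ln γ B (ep P E (r ^ 2) W)) + ln γ B (ep P E (r ^ 2) W)) := by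
  obtain ⟨Ch, hCh0, hCh⟩ := h_le (γ := γ) (B := B) hp
  obtain ⟨C1, hC10, hC1⟩ := ip_ln hγ hγ1 hB
    (ψ := fun y => (Qf 4 y) ^ 3 * deriv (Qf 4) y * P y)
    (Cl_mono (MOd_psi_mul hp.cP) (by norm_num) (by norm_num))
  obtain ⟨C2, hC20, hC2⟩ := ip_ln hγ hγ1 hB
    (ψ := fun y => (Qf 4 y) ^ 3 * deriv (Qf 4) y * E y)
    (Cl_mono (MOd_psi_mul (MOd_E hp)) (by norm_num) (by norm_num))
  obtain ⟨C3, hC30, hC3⟩ := ln_dom hγ hγ1 hB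
    (ψ := fun y => (Qf 4 y) ^ 3 * deriv (Qf 4) y) (Cl_mono MOd_psi (by norm_num) (by norm_num))
  obtain ⟨C4, hC40, hC4⟩ := ln_dom hγ hγ1 hB
    (ψ := deriv (Qf 4)) (Cl_mono MOd_Qd (by norm_num) (by norm_num))
  obtain ⟨K, hK0, hK⟩ := MOd_cub
  set J : ℝ := ∫ y, |deriv (Qf 4) y| with hJ
  have hJ0 : 0 ≤ J := integral_nonneg fun y => abs_nonneg _
  refine ⟨4 * |5 * c0| * C1 + 4 * (|f0| + 1) * C2 + 2 * C3 + 4 * K * Ch ^ 3 * J + 4 * K * C4 + 1,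
    by positivity, ?_⟩
  intro c Ca r w m W et hc hr hS
  obtain ⟨p, q, hp0, hp1, hq0, hq1, hcl, -⟩ := hS.cl
  have hr0 := hS.r0
  set b := bq (r ^ 2) W with hb
  set a := alf (r ^ 2) W with ha
  set X := ep P E (r ^ 2) W with hX
  have hXc : Cl 0 0 X := ep_cl hp hp0.le hq0.le hcl
  have hXb : ∀ y, |X y| ≤ 1 := fun y => (hS.supe y).trans hc
  have hHb : ∀ y, |hf P E b a y| ≤ Ch * r ^ 4 := hCh c Ca r w m W et hS
  have hsp : ∀ y, W y - Qf 4 y = hf P E b a y + X y := fun y => ep_split P E (r ^ 2) W y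
  have heb : ∀ y, |W y - Qf 4 y| ≤ 1 := fun y => (hS.sup y).trans hc
  have he0 : Cl 0 0 (fun y => W y - Qf 4 y) := Cl_mono hcl hp0.le hq0.le
  have hH0 : Cl 0 0 (hf P E b a) := hf_cl hp b a
  -- integrability
  have iR : Integrable (fun y => Rf 4 (fun y => W y - Qf 4 y) y * deriv (Qf 4) y) :=
    Cl_int (Cl_mul0 (Cl_Rf (by norm_num) le_rfl le_rfl he0) MOd_Qd) one_pos one_pos
  have iH : Integrable (fun y => 4 * (Qf 4 y) ^ 3 * deriv (Qf 4) y * (hf P E b a y) ^ 2) := by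
    have h1 := Cl_int (Cl_smul 4 (MOd_psi_mul (Cl_pow0 hH0 2))) one_pos one_pos
    refine h1.congr (Eventually.of_forall fun y => ?_)
    show 4 * ((Qf 4 y) ^ 3 * deriv (Qf 4) y * (hf P E b a y) ^ 2) = _
    ring
  have iA1 : Integrable (fun y => X y * ((Qf 4 y) ^ 3 * deriv (Qf 4) y * P y)) :=
    Cl_int (Cl_mul0 hXc (MOd_psi_mul hp.cP)) one_pos one_pos
  have iA2 : Integrable (fun y => X y * ((Qf 4 y) ^ 3 * deriv (Qf 4) y * E y)) :=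
    Cl_int (Cl_mul0 hXc (MOd_psi_mul (MOd_E hp))) one_pos one_pos
  have iB : Integrable (fun y => (Qf 4 y) ^ 3 * deriv (Qf 4) y * (X y) ^ 2) :=
    Cl_int (MOd_psi_mul (Cl_pow0 hXc 2)) one_pos one_pos
  have iBa : Integrable (fun y => |(Qf 4 y) ^ 3 * deriv (Qf 4) y| * (X y) ^ 2) := by
    refine iB.abs.congr (Eventually.of_forall fun y => ?_)
    show |(Qf 4 y) ^ 3 * deriv (Qf 4) y * (X y) ^ 2| = _
    rw [abs_mul, abs_of_nonneg (sq_nonneg (X y))]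
  have iQX : Integrable (fun y => |deriv (Qf 4) y| * (X y) ^ 2) := by
    have h1 := (Cl_int (Nla_mulr MOd_Qd (Cl_pow0 hXc 2)) one_pos one_pos).abs
    refine h1.congr (Eventually.of_forall fun y => ?_)
    show |deriv (Qf 4) y * (X y) ^ 2| = _
    rw [abs_mul, abs_of_nonneg (sq_nonneg (X y))]
  have iQ : Integrable (fun y => |deriv (Qf 4) y|) := (Cl_int MOd_Qd one_pos one_pos).abs
  have iA : Integrable (fun y => 4 * (b * (X y * ((Qf 4 y) ^ 3 * deriv (Qf 4) y * P y))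
      + a * (X y * ((Qf 4 y) ^ 3 * deriv (Qf 4) y * E y)))) :=
    ((iA1.const_mul b).add (iA2.const_mul a)).const_mul 4
  set D : ℝ → ℝ := fun y => deriv (Qf 4) y *
    (2 * (Qf 4 y) ^ 2 * (W y - Qf 4 y) ^ 3 + Qf 4 y * (W y - Qf 4 y) ^ 4 + (W y - Qf 4 y) ^ 5 / 5) with hDdef
  have hDeq : ∀ y, Rf 4 (fun y => W y - Qf 4 y) y * deriv (Qf 4) y
      - 1 / 2 * (4 * (Qf 4 y) ^ 3 * deriv (Qf 4) y * (hf P E b a y) ^ 2) =
      4 * (b * (X y * ((Qf 4 y) ^ 3 * deriv (Qf 4) y * P y))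
      + a * (X y * ((Qf 4 y) ^ 3 * deriv (Qf 4) y * E y)))
      + 2 * ((Qf 4 y) ^ 3 * deriv (Qf 4) y * (X y) ^ 2) + D y := by
    intro y
    rw [R4_eq]
    have h1 := hsp y
    have h2 : hf P E b a y = b * P y + a * E y := rfl
    simp only [hDdef]
    have h3 : (W y - Qf 4 y) ^ 2 = (b * P y + a * E y + X y) ^ 2 := by rw [h1, h2]
    have h4 : X y * ((Qf 4 y) ^ 3 * deriv (Qf 4) y * P y) = X y * ((Qf 4 y) ^ 3 * deriv (Qf 4) y * P y) := rfl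
    rw [h2]
    linear_combination (2 * (Qf 4 y) ^ 3 * deriv (Qf 4) y) * h3
  have iD : Integrable D := by
    have h1 := (iR.sub (iH.const_mul (1 / 2))).sub (iA.add (iB.const_mul 2))
    refine h1.congr (Eventually.of_forall fun y => ?_)
    have h2 := hDeq y
    show Rf 4 (fun y => W y - Qf 4 y) y * deriv (Qf 4) y
      - 1 / 2 * (4 * (Qf 4 y) ^ 3 * deriv (Qf 4) y * (hf P E b a y) ^ 2) -
      (4 * (b * (X y * ((Qf 4 y) ^ 3 * deriv (Qf 4) y * P y))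
      + a * (X y * ((Qf 4 y) ^ 3 * deriv (Qf 4) y * E y)))
      + 2 * ((Qf 4 y) ^ 3 * deriv (Qf 4) y * (X y) ^ 2)) = D y
    linarith
  have hmain : ip (Rf 4 (fun y => W y - Qf 4 y)) (deriv (Qf 4))
        - 1 / 2 * (∫ y, 4 * (Qf 4 y) ^ 3 * deriv (Qf 4) y * (hf P E b a y) ^ 2) =
      4 * (b * ip X (fun y => (Qf 4 y) ^ 3 * deriv (Qf 4) y * P y)
        + a * ip X (fun y => (Qf 4 y) ^ 3 * deriv (Qf 4) y * E y))
      + 2 * (∫ y, (Qf 4 y) ^ 3 * deriv (Qf 4) y * (X y) ^ 2) + ∫ y, D y := by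
    unfold ip
    rw [← integral_const_mul (1 / 2), ← integral_sub iR (iH.const_mul (1 / 2)),
      integral_congr_ae (Eventually.of_forall hDeq)]
    exact MOd_int iA1 iA2 iB iD
  rw [hmain]
  have hDb : |∫ y, D y| ≤ 4 * K * (Ch * r ^ 4) ^ 3 * J + 4 * K * (C4 * ln γ B X) := by
    have h1 : ∀ y, |D y| ≤ 4 * K * (Ch * r ^ 4) ^ 3 * |deriv (Qf 4) y|
        + 4 * K * (|deriv (Qf 4) y| * (X y) ^ 2) := by
      intro y
      have h2 := hK y (W y - Qf 4 y) (heb y)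
      have h3 : |W y - Qf 4 y| ^ 3 ≤ 4 * (Ch * r ^ 4) ^ 3 + 4 * (X y) ^ 2 := by
        rw [hsp y]
        exact MOd_cube (hXb y) (hHb y)
      simp only [hDdef]
      rw [abs_mul]
      calc |deriv (Qf 4) y| * |2 * (Qf 4 y) ^ 2 * (W y - Qf 4 y) ^ 3 + Qf 4 y * (W y - Qf 4 y) ^ 4
            + (W y - Qf 4 y) ^ 5 / 5| ≤ |deriv (Qf 4) y| * (K * |W y - Qf 4 y| ^ 3) := by gcongr
        _ ≤ |deriv (Qf 4) y| * (K * (4 * (Ch * r ^ 4) ^ 3 + 4 * (X y) ^ 2)) := by gcongr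
        _ = _ := by ring
    have h4 : |∫ y, D y| ≤ ∫ y, |D y| := abs_integral_le_integral_abs
    have h5 : ∫ y, |D y| ≤ ∫ y, (4 * K * (Ch * r ^ 4) ^ 3 * |deriv (Qf 4) y|
        + 4 * K * (|deriv (Qf 4) y| * (X y) ^ 2)) :=
      integral_mono iD.abs ((iQ.const_mul _).add (iQX.const_mul _)) h1
    rw [integral_add (iQ.const_mul _) (iQX.const_mul _), integral_const_mul, integral_const_mul] at h5
    have h6 := hC4 X hXc
    have h7 : 4 * K * (∫ y, |deriv (Qf 4) y| * (X y) ^ 2) ≤ 4 * K * (C4 * ln γ B X) := by gcongr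
    linarith
  have hBb : |2 * (∫ y, (Qf 4 y) ^ 3 * deriv (Qf 4) y * (X y) ^ 2)| ≤ 2 * (C3 * ln γ B X) := by
    rw [abs_mul, abs_of_pos (by norm_num : (0:ℝ) < 2)]
    have h1 : |∫ y, (Qf 4 y) ^ 3 * deriv (Qf 4) y * (X y) ^ 2| ≤
        ∫ y, |(Qf 4 y) ^ 3 * deriv (Qf 4) y| * (X y) ^ 2 := by
      refine abs_integral_le_integral_abs.trans (le_of_eq ?_)
      refine integral_congr_ae (Eventually.of_forall fun y => ?_)
      show |(Qf 4 y) ^ 3 * deriv (Qf 4) y * (X y) ^ 2| = _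
      rw [abs_mul, abs_of_nonneg (sq_nonneg (X y))]
    have h2 := hC3 X hXc
    linarith
  have hln : 0 ≤ ln γ B X := by
    unfold ln loc se2 ch
    exact integral_nonneg fun y => by positivity
  refine MOd_num (A1 := |5 * c0|) (A2 := |f0| + 1) hr0 hln ?_ hS.a1 (abs_nonneg _) (by positivity) (hC1 X hXc)
    (hC2 X hXc) hBb hC10 hC20 hC30 hC40 hK0 hCh0 hJ0 hDb rfl
  refine hS.b1.trans ?_
  have h1 : 5 * c0 ≤ |5 * c0| := le_abs_self _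
  gcongr

end H68KC

end
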