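import Pool.Agent.H68.KC.PRg

/-!
# Row PRh (MP_95be7d_K4): the quadratic identity behind the law of `b`

## Proof
`h = b P + α E` (class `0 0`), `h' = b P' + α E'` (class `3/4 3/4`), `Lh := Lop 4 h = -b J + α` (linearity of `Lop`),
`(Lh)' = b ΛQ`. Limits: `P, J → 0`, `E → 1` at `+∞`; `P → I/2`, `J → -I/2`, `E → 1` at `-∞`.

(1) `∫ (Lh) h' = ∫ (-h'' h' + h h' - Q⁴ h h')`. Here `-h'' h' + h h' = (-(h'²)/2 + h²/2)'`, and
`-Q⁴ h h' = -(Q⁴ h²/2)' + (1/2)(Q⁴)' h²`. So `∫ (Lh) h' = (1/2)[h²] + (1/2) ∫ (Q⁴)' h²`,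
`[h²] = h(∞)² - h(-∞)² = α² - (α + b I/2)²`.
(2) `∫ (Lh) h' = [(Lh) h] - ∫ (Lh)' h = [h²] - b ∫ ΛQ h`, because `Lh` and `h` have the same limits at `±∞`.
Hence `(1/2) ∫ (Q⁴)' h² = (1/2)[h²] - b (ΛQ,h)` and `(1/2)[h²] = -α b I/2 - b² I²/8`.

In Lean: use `integral_of_hasDerivAt_of_tendsto` (functions `-(h'²)/2 + h²/2 - Q⁴h²/2` and `Lh * h`; the derivatives are
integrable since they contain a factor of class `3/4 3/4`), `(Q⁴)' = 4 Q³ Q'`.
-/

open MeasureTheory Filter Topology Set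
open scoped ContDiff

noncomputable section

namespace H68KC

open H98KB

variable {P E : ℝ → ℝ}

theorem PRh_top {f : ℝ → ℝ} {C : ℝ} (h : ∀ y, 0 ≤ y → |f y| ≤ C * Real.exp (-(3 / 4) * y)) :
    Tendsto f atTop (𝓝 0) := by
  have h1 : Tendsto (fun y : ℝ => C * Real.exp (-(3 / 4) * y)) atTop (𝓝 0) := by
    have h2 : Tendsto (fun y : ℝ => (3 / 4 : ℝ) * y) atTop atTop :=
      tendsto_id.const_mul_atTop (by norm_num)
    have h3 := (Real.tendsto_exp_neg_atTop_nhds_zero.comp h2).const_mul C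
    rw [mul_zero] at h3
    refine h3.congr fun y => ?_
    simp only [Function.comp_apply, neg_mul]
  refine squeeze_zero_norm' ?_ h1
  filter_upwards [eventually_ge_atTop (0 : ℝ)] with y hy
  rw [Real.norm_eq_abs]
  exact h y hy

theorem PRh_bot {f : ℝ → ℝ} {C c : ℝ} (h : ∀ y, y ≤ 0 → |f y - c| ≤ C * Real.exp (3 / 4 * y)) :
    Tendsto f atBot (𝓝 c) := by
  have h1 : Tendsto (fun y => f (-y) - c) atTop (𝓝 0) := by
    refine PRh_top (C := C) fun y hy => ?_
    have h2 := h (-y) (by linarith)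
    have e : 3 / 4 * -y = -(3 / 4) * y := by ring
    rwa [e] at h2
  have h2 := (h1.comp tendsto_neg_atBot_atTop).add_const c
  rw [zero_add] at h2
  refine h2.congr fun y => ?_
  simp only [Function.comp_apply, neg_neg, sub_add_cancel]

theorem PRh_E (h : Prof P E) : Tendsto E atTop (𝓝 1) ∧ Tendsto E atBot (𝓝 1) := by
  have h1 := (Cl_tendsto_top h.E1 (by norm_num)).add_const 1
  have h2 := (Cl_tendsto_bot h.E1 (by norm_num)).add_const 1
  rw [zero_add] at h1 h2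
  simp only [sub_add_cancel] at h1 h2
  exact ⟨h1, h2⟩

theorem PRh_hd (h : Prof P E) (b α y : ℝ) :
    HasDerivAt (hf P E b α) (b * deriv P y + α * deriv E y) y :=
  ((Cl_hd h.cP y).const_mul b).add ((Cl_hd (E_cl h) y).const_mul α)

theorem PRh_dE (h : Prof P E) : Cl (3 / 4) (3 / 4) (deriv E) := by
  have h1 := Cl_der h.E1
  have h2 : deriv (fun y => E y - 1) = deriv E := by
    funext y
    rw [deriv_sub_const]
  rwa [h2] at h1

theorem PRh_hd2 (h : Prof P E) (b α y : ℝ) :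
    HasDerivAt (fun y => b * deriv P y + α * deriv E y)
      (b * deriv (deriv P) y + α * deriv (deriv E) y) y :=
  ((Cl_hd h.dP y).const_mul b).add ((Cl_hd (PRh_dE h) y).const_mul α)

theorem BL_id (h : Prof P E) (b α : ℝ) :
    1 / 2 * (∫ y, 4 * (Qf 4 y) ^ 3 * deriv (Qf 4) y * (hf P E b α y) ^ 2)
      + b * ip (hf P E b α) (Lam 4 (Qf 4)) = -(1 / 2) * α * b * Iq - 1 / 8 * b ^ 2 * Iq ^ 2 := by
  have hQ := Cl_Qf (k := 4) PRg_k
  have hH : Cl 0 0 (hf P E b α) := Cl_add (Cl_smul b h.cP) (Cl_smul α (E_cl h))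
  have hD : Cl (3 / 4) (3 / 4) (fun y => b * deriv P y + α * deriv E y) :=
    Cl_add (Cl_smul b h.dP) (Cl_smul α (PRh_dE h))
  have hcl1 : Cl 4 4 (fun y => 4 * (Qf 4 y) ^ 3 * deriv (Qf 4) y * (hf P E b α y) ^ 2) := by
    have a := Cl_mul (Cl_mul (Cl_smul 4 (Cl_pow hQ 3)) (Cl_der hQ)) (Cl_pow hH 2)
    exact Cl_mono a (by norm_num) (by norm_num)
  have hcl2 : Cl (1 / 2) (1 / 2) (fun y => hf P E b α y * Lam 4 (Qf 4) y) :=
    Cl_mul0 hH PRg_Lam
  have i1 := Cl_int hcl1 (by norm_num) (by norm_num)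
  have i2 := Cl_int hcl2 (by norm_num) (by norm_num)
  have hLop : ∀ y, -(b * deriv (deriv P) y + α * deriv (deriv E) y) + hf P E b α y -
      (Qf 4 y) ^ 4 * hf P E b α y = α - b * Jf y := by
    intro y
    have h1 := h.LP y
    have h2 := h.LE y
    unfold Lop at h1 h2
    unfold hf
    linear_combination b * h1 + α * h2
  have hder : ∀ y, HasDerivAt (fun y => -((b * deriv P y + α * deriv E y) ^ 2 / 2) +
      (hf P E b α y) ^ 2 / 2 - (Qf 4 y) ^ 4 * (hf P E b α y) ^ 2 / 2 -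
      (α - b * Jf y) * hf P E b α y)
      (-(1 / 2) * (4 * (Qf 4 y) ^ 3 * deriv (Qf 4) y * (hf P E b α y) ^ 2) -
        b * (hf P E b α y * Lam 4 (Qf 4) y)) y := by
    intro y
    have a1 := PRh_hd h b α y
    have a2 := PRh_hd2 h b α y
    have a3 := Cl_hd hQ y
    have a4 := Jf_hd y
    have b1 := ((a2.pow 2).div_const 2).neg
    have b2 := (a1.pow 2).div_const 2
    have b3 := ((a3.pow 4).mul (a1.pow 2)).div_const 2
    have b4 := ((a4.const_mul b).const_sub α).mul a1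
    refine (((b1.add b2).sub b3).sub b4).congr_deriv ?_
    have e := hLop y
    simp only [Pi.pow_apply]
    push_cast
    linear_combination (b * deriv P y + α * deriv E y) * e
  have hi : Integrable (fun y => -(1 / 2) * (4 * (Qf 4 y) ^ 3 * deriv (Qf 4) y * (hf P E b α y) ^ 2) -
        b * (hf P E b α y * Lam 4 (Qf 4) y)) := (i1.const_mul _).sub (i2.const_mul _)
  obtain ⟨C0, hC0⟩ := h.P0
  obtain ⟨C1, hC1⟩ := h.P1
  have tP1 := PRh_top hC0
  have tP2 := PRh_bot hC1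
  obtain ⟨tE1, tE2⟩ := PRh_E h
  have tQ1 := Cl_tendsto_top hQ one_pos
  have tQ2 := Cl_tendsto_bot hQ one_pos
  have tD1 := Cl_tendsto_top hD (by norm_num)
  have tD2 := Cl_tendsto_bot hD (by norm_num)
  have tH1 : Tendsto (hf P E b α) atTop (𝓝 (b * 0 + α * 1)) := (tP1.const_mul b).add (tE1.const_mul α)
  have tH2 : Tendsto (hf P E b α) atBot (𝓝 (b * (Iq / 2) + α * 1)) :=
    (tP2.const_mul b).add (tE2.const_mul α)
  have l1 := ((((tD1.pow 2).div_const 2).neg.add ((tH1.pow 2).div_const 2)).sub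
    (((tQ1.pow 4).mul (tH1.pow 2)).div_const 2)).sub (((PRg_top.const_mul b).const_sub α).mul tH1)
  have l2 := ((((tD2.pow 2).div_const 2).neg.add ((tH2.pow 2).div_const 2)).sub
    (((tQ2.pow 4).mul (tH2.pow 2)).div_const 2)).sub (((PRg_bot.const_mul b).const_sub α).mul tH2)
  have hmain := integral_of_hasDerivAt_of_tendsto hder hi l2 l1
  rw [integral_sub (i1.const_mul _) (i2.const_mul _), integral_const_mul, integral_const_mul] at hmain
  unfold ip
  linear_combination -hmain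

end H68KC

end
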