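import Pool.Agent.H68.KC.MOc
import Pool.Agent.H68.KC.MOd
import Pool.Agent.H68.KC.PRh

/-!
# Row MOe (MP_95be7d_K4): the law of `b`

Notation: `e = W - Q = h + ε`, `n = √(ln ε)`, `ne = √(ne2 et)`, `l = r^8`, `K = ∫ Q'²`, `I = Iq`, `b = bq`, `α = alf`,
`Z = ze w m l W et`, `q = ip W Q'`, `A = alm (r^2) w W Z`.

## Proof
`pair_ze` with `φ = Q`: `L Q' = 0`, `(ΛQ,Q) = 0` (`ip_LamQ_Q`, `sc 4 = 0`), `(Q',Q) = 0`, `(Q'',Q) = -K`, `(e,Q') = q` (`ep_Qd`):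
`(Z,Q) = (R,Q') - l K + w (e,ΛQ) - m q + l (e,Q'') + (et,Q')`.
`alD = A - w α/2`. So
`bqD I²/16 = (Z,Q) - alD I/4 = (R,Q') + w (e,ΛQ) - l K + w α I/8 - A I/4 - m q + l (e,Q'') + (et,Q')`.
Now (errors `Er = C (r^{12} + r⁴ n + n² + |A| + |q| + ne)`):
* `(R,Q') = (1/2)∫ 4Q³Q' h² + Er` (`R_exp`);
* `w (e,ΛQ) = w (h,ΛQ) + w (ε,ΛQ) = b (h,ΛQ) + (w - b)(h,ΛQ) + w (ε,ΛQ)`, `|(h,ΛQ)| ≤ C r⁴` (`h_le`), `|w - b| ≤ C (n + r^8 + ne)` (`bw_le`),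
  `|(ε,ΛQ)| ≤ C n` (`ip_ln`, `Cl_LamQ`), `0 ≤ w ≤ 5c₀ r⁴`;
* `(1/2)∫ 4Q³Q' h² + b (h,ΛQ) = -α b I/2 - b² I²/8` (`BL_id`);
* `w α I/8 = b α I/8 + (w - b) α I/8`, `|α| ≤ C r⁴` (`a1`);
* `|m q| ≤ C |q|` (`m_le`: `|m| ≤ C (n + r^8 + ne) ≤ 3 C` as `n² ≤ c ≤ 1`, `ne² ≤ 1`, `r ≤ 1`), `|l (e,Q'')| ≤ C r^8 (r⁴ + n)` (`e_ip`), `|(et,Q')| ≤ C ne`.
Sum: `bqD I²/16 = -(3/8) α b I - b² I²/8 - l K + Er`; multiply by `16/I²` (`Iq_pos`): `-(6/I) α b - 2 b² - cnu l`.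
-/

open MeasureTheory Filter Topology Set
open scoped ContDiff

noncomputable section

namespace H68KC

open H98KB

variable {P E : ℝ → ℝ} {γ B : ℝ}

theorem MOe_alg {Z1 D A w al b I K R X hL eL l q m eQ2 tQ cn : ℝ} (hI : 0 < I)
    (hZ : Z1 = R - l * K + w * (hL + eL) - m * q + l * eQ2 + tQ)
    (hD : D = (Z1 - (A - 1 / 2 * w * al) * (I / 4)) * (16 / I ^ 2))
    (hX : X + b * hL = -(1 / 2) * al * b * I - 1 / 8 * b ^ 2 * I ^ 2)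
    (hc : cn = 16 * K / I ^ 2) :
    D + 2 * b ^ 2 + 6 / I * al * b + cn * l =
      16 / I ^ 2 * ((R - X) + (w - b) * (hL + al * I / 8) + w * eL - m * q + l * eQ2 + tQ
        - A * (I / 4)) := by
  have e1 : (16 : ℝ) / I ^ 2 = 16 * (I⁻¹) ^ 2 := by rw [inv_pow]; rfl
  have e2 : 16 * K / I ^ 2 = 16 * K * (I⁻¹) ^ 2 := by rw [inv_pow]; rfl
  have e3 : (6 : ℝ) / I = 6 * I⁻¹ := rfl
  have h1 : I⁻¹ * I = 1 := inv_mul_cancel₀ hI.ne'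
  rw [hc, hD, hZ, e1, e2, e3]
  linear_combination 16 * (I⁻¹) ^ 2 * hX
    - (6 * I⁻¹ * al * b + 2 * b ^ 2 * (1 + I⁻¹ * I)) * h1

theorem MOe_bound {r N Lq ne A q C1 C2 C3 C4 C5 C6 C7 c w b G eL m eQ2 tQ I D1 : ℝ}
    (hr : 0 ≤ r) (hr1 : r ≤ 1) (hN : 0 ≤ N) (hN1 : N ≤ 1) (hL : 0 ≤ Lq) (hne : 0 ≤ ne)
    (hne1 : ne ≤ 1) (hC1 : 0 ≤ C1) (hC2 : 0 ≤ C2) (hC3 : 0 ≤ C3) (hC4 : 0 ≤ C4) (hC5 : 0 ≤ C5)
    (hC6 : 0 ≤ C6) (hC7 : 0 ≤ C7) (hc : 0 ≤ c) (hI : 0 < I)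
    (h1 : |D1| ≤ C1 * (r ^ 12 + r ^ 4 * N + Lq)) (h2 : |w - b| ≤ C2 * (N + r ^ 8 + ne))
    (h3 : |G| ≤ C3 * r ^ 4) (hw0 : 0 ≤ w) (hw : w ≤ 5 * c * r ^ 4) (h4 : |eL| ≤ C4 * N)
    (h5 : |m| ≤ C5 * (N + r ^ 8 + ne)) (h6 : |eQ2| ≤ C6 * (r ^ 4 + N)) (h7 : |tQ| ≤ C7 * ne) :
    |D1 + (w - b) * G + w * eL - m * q + r ^ 8 * eQ2 + tQ - A * (I / 4)| ≤
      (C1 + C2 * C3 + 5 * c * C4 + 3 * C5 + C6 + C7 + I / 4) *
        (r ^ 12 + r ^ 4 * N + Lq + |A| + |q| + ne) := by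
  have r4 : 0 ≤ r ^ 4 := by positivity
  have r41 : r ^ 4 ≤ 1 := pow_le_one₀ hr hr1
  have r8 : 0 ≤ r ^ 8 := by positivity
  have r81 : r ^ 8 ≤ 1 := pow_le_one₀ hr hr1
  have r84 : r ^ 8 ≤ r ^ 4 := pow_le_pow_of_le_one hr hr1 (by norm_num)
  have r12 : 0 ≤ r ^ 12 := by positivity
  have hA := abs_nonneg A
  have hq := abs_nonneg q
  have h4N : 0 ≤ r ^ 4 * N := mul_nonneg r4 hN
  have h4ne : r ^ 4 * ne ≤ ne := by
    have := mul_le_mul_of_nonneg_right r41 hne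
    linarith
  have h8N : r ^ 8 * N ≤ r ^ 4 * N := mul_le_mul_of_nonneg_right r84 hN
  set S := r ^ 12 + r ^ 4 * N + Lq + |A| + |q| + ne with hS
  have k1 : |D1| ≤ C1 * S :=
    h1.trans (mul_le_mul_of_nonneg_left (by rw [hS]; linarith) hC1)
  have k2 : |(w - b) * G| ≤ C2 * C3 * S := by
    rw [abs_mul]
    calc |w - b| * |G| ≤ (C2 * (N + r ^ 8 + ne)) * (C3 * r ^ 4) :=
          mul_le_mul h2 h3 (abs_nonneg _) (by positivity)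
      _ = C2 * C3 * (r ^ 4 * N + r ^ 12 + r ^ 4 * ne) := by ring
      _ ≤ C2 * C3 * S := mul_le_mul_of_nonneg_left (by rw [hS]; linarith) (mul_nonneg hC2 hC3)
  have k3 : |w * eL| ≤ 5 * c * C4 * S := by
    rw [abs_mul, abs_of_nonneg hw0]
    calc w * |eL| ≤ (5 * c * r ^ 4) * (C4 * N) :=
          mul_le_mul hw h4 (abs_nonneg _) (by positivity)
      _ = 5 * c * C4 * (r ^ 4 * N) := by ring
      _ ≤ 5 * c * C4 * S := mul_le_mul_of_nonneg_left (by rw [hS]; linarith) (by positivity)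
  have k4 : |m * q| ≤ 3 * C5 * S := by
    rw [abs_mul]
    have hm : |m| ≤ 3 * C5 := by
      refine h5.trans ?_
      have : C5 * (N + r ^ 8 + ne) ≤ C5 * 3 := mul_le_mul_of_nonneg_left (by linarith) hC5
      linarith
    calc |m| * |q| ≤ (3 * C5) * |q| := mul_le_mul_of_nonneg_right hm hq
      _ ≤ 3 * C5 * S := mul_le_mul_of_nonneg_left (by rw [hS]; linarith) (by positivity)
  have k5 : |r ^ 8 * eQ2| ≤ C6 * S := by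
    rw [abs_mul, abs_of_nonneg r8]
    calc r ^ 8 * |eQ2| ≤ r ^ 8 * (C6 * (r ^ 4 + N)) := mul_le_mul_of_nonneg_left h6 r8
      _ = C6 * (r ^ 12 + r ^ 8 * N) := by ring
      _ ≤ C6 * S := mul_le_mul_of_nonneg_left (by rw [hS]; linarith) hC6
  have k6 : |tQ| ≤ C7 * S :=
    h7.trans (mul_le_mul_of_nonneg_left (by rw [hS]; linarith) hC7)
  have k7 : |A * (I / 4)| ≤ I / 4 * S := by
    rw [abs_mul, abs_of_pos (by positivity : 0 < I / 4), mul_comm]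
    exact mul_le_mul_of_nonneg_left (by rw [hS]; linarith) (by positivity)
  have e : (C1 + C2 * C3 + 5 * c * C4 + 3 * C5 + C6 + C7 + I / 4) * S =
      C1 * S + C2 * C3 * S + 5 * c * C4 * S + 3 * C5 * S + C6 * S + C7 * S + I / 4 * S := by ring
  rw [e]
  obtain ⟨a1, b1⟩ := abs_le.1 k1
  obtain ⟨a2, b2⟩ := abs_le.1 k2
  obtain ⟨a3, b3⟩ := abs_le.1 k3
  obtain ⟨a4, b4⟩ := abs_le.1 k4
  obtain ⟨a5, b5⟩ := abs_le.1 k5
  obtain ⟨a6, b6⟩ := abs_le.1 k6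
  obtain ⟨a7, b7⟩ := abs_le.1 k7
  exact abs_le.2 ⟨by linarith, by linarith⟩

theorem MOe_hL (hp : Prof P E) (b α : ℝ) {K : ℝ} (hK : ∀ y, |hf P E b α y| ≤ K) :
    |ip (hf P E b α) (Lam 4 (Qf 4))| ≤ K * ∫ y, |Lam 4 (Qf 4) y| := by
  have hc : Cl (1 / 2) (1 / 2) (Lam 4 (Qf 4)) := PRg_Lam
  have h1 : Integrable (fun y => hf P E b α y * Lam 4 (Qf 4) y) :=
    Cl_int (Cl_mul0 (hf_cl hp b α) hc) (by norm_num) (by norm_num)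
  have h2 : Integrable (Lam 4 (Qf 4)) := Cl_int hc (by norm_num) (by norm_num)
  unfold ip
  refine abs_integral_le_integral_abs.trans ?_
  rw [← integral_const_mul]
  refine integral_mono h1.abs (h2.abs.const_mul K) fun y => ?_
  show |hf P E b α y * Lam 4 (Qf 4) y| ≤ K * |Lam 4 (Qf 4) y|
  rw [abs_mul]
  exact mul_le_mul_of_nonneg_right (hK y) (abs_nonneg _)

theorem MOe_comm (f g : ℝ → ℝ) : ip f g = ip g f := by
  unfold ip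
  exact integral_congr_ae (Eventually.of_forall fun y => mul_comm _ _)

theorem MOe_c0 : 0 ≤ c0 := by
  unfold c0 cnu
  have h1 : 0 ≤ ∫ y, (deriv (Qf 4) y) ^ 2 := integral_nonneg fun y => sq_nonneg _
  have h2 : 0 ≤ 16 * (∫ y, (deriv (Qf 4) y) ^ 2) / Iq ^ 2 :=
    div_nonneg (by linarith) (sq_nonneg _)
  linarith

theorem MOe_ip {p q w m r : ℝ} {W et : ℝ → ℝ} (hpr : Prof P E) (hp : 0 < p) (hq : 0 < q)
    (hp1 : p ≤ 1) (hq1 : q ≤ 1) (hW : Cl p q (fun y => W y - Qf 4 y)) (he : Cl p q et) :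
    ip (ze w m (r ^ 8) W et) (Qf 4) =
      ip (Rf 4 (fun y => W y - Qf 4 y)) (deriv (Qf 4)) - r ^ 8 * (∫ y, (deriv (Qf 4) y) ^ 2)
      + w * (ip (hf P E (bq (r ^ 2) W) (alf (r ^ 2) W)) (Lam 4 (Qf 4))
        + ip (ep P E (r ^ 2) W) (Lam 4 (Qf 4)))
      - m * ip W (deriv (Qf 4))
      + r ^ 8 * ip (fun y => W y - Qf 4 y) (deriv (deriv (Qf 4))) + ip et (deriv (Qf 4)) := by
  have h0 := pair_ze (w := w) (m := m) (l := r ^ 8) hp hq hp1 hq1 hW he (Cl_Qf (k := 4) PRg_k)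
  have h1 : ip (fun y => W y - Qf 4 y) (Lop 4 (deriv (Qf 4))) = 0 := by
    unfold ip
    have : (fun y => (W y - Qf 4 y) * Lop 4 (deriv (Qf 4)) y) = fun _ => 0 := by
      funext y
      rw [L_Qd PRg_k, mul_zero]
    rw [this, integral_zero]
  have h2 : ip (Lam 4 (Qf 4)) (Qf 4) = 0 := by
    rw [ip_LamQ_Q PRg_k]
    unfold sc
    norm_num
  have h3 : ip (deriv (Qf 4)) (Qf 4) = 0 := by
    rw [MOe_comm]
    exact ip_Q_Qd PRg_k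
  have h4 : ip (deriv (deriv (Qf 4))) (Qf 4) = -∫ y, (deriv (Qf 4) y) ^ 2 := ip_Qdd_Q PRg_k
  have h5 : ip (fun y => W y - Qf 4 y) (deriv (Qf 4)) = ip W (deriv (Qf 4)) :=
    (ep_Qd (s := r ^ 2) hpr hp hq hW).2
  have hc : Cl (1 / 2) (1 / 2) (Lam 4 (Qf 4)) := PRg_Lam
  have h6 : ip (fun y => W y - Qf 4 y) (Lam 4 (Qf 4)) =
      ip (hf P E (bq (r ^ 2) W) (alf (r ^ 2) W)) (Lam 4 (Qf 4))
        + ip (ep P E (r ^ 2) W) (Lam 4 (Qf 4)) := by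
    unfold ip
    rw [← integral_add]
    · refine integral_congr_ae (Eventually.of_forall fun y => ?_)
      show (W y - Qf 4 y) * Lam 4 (Qf 4) y = _
      rw [ep_split P E (r ^ 2) W y]
      ring
    · exact Cl_int (Cl_mul0 (hf_cl hpr _ _) hc) (by norm_num) (by norm_num)
    · exact Cl_int (Cl_mul0 (ep_cl hpr hp.le hq.le hW) hc) (by norm_num) (by norm_num)
  rw [h0, h1, h2, h3, h4, h5, h6]
  ring

theorem b_law (hp : Prof P E) (hγ : 0 < γ) (hγ1 : γ ≤ 1 / 4) (hB : 16 ≤ B) :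
    ∃ C r1 c1 : ℝ, 0 < C ∧ 0 < r1 ∧ 0 < c1 ∧ c1 ≤ 1 ∧ ∀ c Ca r w m W et, c ≤ c1 → r ≤ r1 →
      Sit P E γ B c Ca r w m W et →
      |bqD (r ^ 2) w W (ze w m (r ^ 8) W et) + 2 * (bq (r ^ 2) W) ^ 2
        + 6 / Iq * alf (r ^ 2) W * bq (r ^ 2) W + cnu * r ^ 8| ≤
      C * (r ^ 12 + r ^ 4 * √(ln γ B (ep P E (r ^ 2) W)) + ln γ B (ep P E (r ^ 2) W)
        + |alm (r ^ 2) w W (ze w m (r ^ 8) W et)| + |ip W (deriv (Qf 4))| + √(ne2 et)) := by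
  obtain ⟨C1, hC1, H1⟩ := R_exp hp hγ hγ1 hB
  obtain ⟨C2, ra, ca, hC2, hra, hca, hca1, H2⟩ := bw_le hp hγ hγ1 hB
  obtain ⟨Ch, hCh, Hh⟩ := h_le (γ := γ) (B := B) hp
  obtain ⟨C4, hC4, H4⟩ := ip_ln hγ hγ1 hB (ψ := Lam 4 (Qf 4)) PRg_Lam
  obtain ⟨C5, rb, cb, hC5, hrb, hcb, hcb1, H5⟩ := m_le hp hγ hγ1 hB
  have hQ1 : Cl 1 1 (deriv (Qf 4)) := Cl_der (Cl_Qf PRg_k)
  obtain ⟨C6, hC6, H6⟩ := e_ip hp hγ hγ1 hB (ψ := deriv (deriv (Qf 4)))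
    (Cl_mono PRg_Qdd (by norm_num) (by norm_num))
  obtain ⟨C7, hC7, H7⟩ := et_ip (ψ := deriv (Qf 4)) (Cl_mono hQ1 (by norm_num) (by norm_num))
  have hI := Iq_pos
  have hc0 := MOe_c0
  set IL := ∫ y, |Lam 4 (Qf 4) y| with hIL
  have hIL0 : 0 ≤ IL := integral_nonneg fun y => abs_nonneg _
  set C3 := Ch * IL + (|f0| + 1) * Iq / 8 with hC3d
  have hC3 : 0 ≤ C3 := by
    have := abs_nonneg f0
    positivity
  refine ⟨16 / Iq ^ 2 * (C1 + C2 * C3 + 5 * c0 * C4 + 3 * C5 + C6 + C7 + Iq / 4),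
    min (min ra rb) 1, min (min ca cb) 1, ?_, ?_, ?_, min_le_right _ _, ?_⟩
  · positivity
  · exact lt_min (lt_min hra hrb) one_pos
  · exact lt_min (lt_min hca hcb) one_pos
  intro c Ca r w m W et hc hr hS
  have hca' : c ≤ ca := hc.trans ((min_le_left _ _).trans (min_le_left _ _))
  have hcb' : c ≤ cb := hc.trans ((min_le_left _ _).trans (min_le_right _ _))
  have hc1 : c ≤ 1 := hc.trans (min_le_right _ _)
  have hra' : r ≤ ra := hr.trans ((min_le_left _ _).trans (min_le_left _ _))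
  have hrb' : r ≤ rb := hr.trans ((min_le_left _ _).trans (min_le_right _ _))
  have hr1 : r ≤ 1 := hr.trans (min_le_right _ _)
  obtain ⟨p, q, hp0, hp1, hq0, hq1, hW, he⟩ := hS.cl
  have hL0 : 0 ≤ ln γ B (ep P E (r ^ 2) W) :=
    integral_nonneg fun z => by
      unfold loc se2 ch
      positivity
  have hN1 : √(ln γ B (ep P E (r ^ 2) W)) ≤ 1 := by
    rw [Real.sqrt_le_one]
    exact hS.lnc.trans hc1
  have hne1 : √(ne2 et) ≤ 1 := by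
    rw [Real.sqrt_le_one]
    exact hS.e1.trans hc1
  have hε : Cl 0 0 (ep P E (r ^ 2) W) := ep_cl hp hp0.le hq0.le hW
  have hh := Hh c Ca r w m W et hS
  have hhL : |ip (hf P E (bq (r ^ 2) W) (alf (r ^ 2) W)) (Lam 4 (Qf 4))| ≤ Ch * r ^ 4 * IL :=
    MOe_hL hp _ _ hh
  have hr0 : 0 ≤ r := hS.r0.le
  have h3 : |ip (hf P E (bq (r ^ 2) W) (alf (r ^ 2) W)) (Lam 4 (Qf 4))
      + alf (r ^ 2) W * Iq / 8| ≤ C3 * r ^ 4 := by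
    refine (abs_add_le _ _).trans ?_
    have h31 : |alf (r ^ 2) W * Iq / 8| ≤ (|f0| + 1) * r ^ 4 * Iq / 8 := by
      rw [abs_div, abs_mul, abs_of_pos hI, abs_of_pos (by norm_num : (0 : ℝ) < 8)]
      have := mul_le_mul_of_nonneg_right hS.a1 hI.le
      linarith
    have h32 : C3 * r ^ 4 = Ch * r ^ 4 * IL + (|f0| + 1) * r ^ 4 * Iq / 8 := by
      rw [hC3d]; ring
    rw [h32]
    exact add_le_add hhL h31
  have h2 : |w - bq (r ^ 2) W| ≤ C2 * (√(ln γ B (ep P E (r ^ 2) W)) + r ^ 8 + √(ne2 et)) := by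
    rw [abs_sub_comm]
    exact H2 c Ca r w m W et hca' hra' hS
  have hb := MOe_bound (A := alm (r ^ 2) w W (ze w m (r ^ 8) W et)) (q := ip W (deriv (Qf 4)))
    hr0 hr1 (Real.sqrt_nonneg _) hN1 hL0 (Real.sqrt_nonneg _) hne1 hC1.le hC2.le hC3 hC4 hC5.le
    hC6 hC7 hc0 hI (H1 c Ca r w m W et hc1 hr1 hS) h2 h3 hS.w0 hS.w1 (H4 _ hε)
    (H5 c Ca r w m W et hcb' hrb' hS) (H6 c Ca r w m W et hS) (H7 p q et hp0 hq0 he)
  have hal : alD (r ^ 2) w W (ze w m (r ^ 8) W et) =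
      alm (r ^ 2) w W (ze w m (r ^ 8) W et) - 1 / 2 * w * alf (r ^ 2) W := by
    unfold alm; ring
  have hD : bqD (r ^ 2) w W (ze w m (r ^ 8) W et) = (ip (ze w m (r ^ 8) W et) (Qf 4)
      - (alm (r ^ 2) w W (ze w m (r ^ 8) W et) - 1 / 2 * w * alf (r ^ 2) W) * (Iq / 4))
        * (16 / Iq ^ 2) := by
    unfold bqD; rw [hal]
  have hA := MOe_alg (cn := cnu) (K := ∫ y, (deriv (Qf 4) y) ^ 2) hI
    (MOe_ip hp hp0 hq0 (by linarith) (by linarith) hW he) hD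
    (BL_id hp (bq (r ^ 2) W) (alf (r ^ 2) W)) rfl
  rw [hA, abs_mul, abs_of_pos (by positivity : (0 : ℝ) < 16 / Iq ^ 2), mul_assoc]
  exact mul_le_mul_of_nonneg_left hb (by positivity)

end H68KC

end
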