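import Pool.Agent.H68.KC.PRe

/-!
# Row PRg (MP_95be7d_K4): identities for the profiles

Here `Prof P E`; `E` is of class `Cl 0 0` (`E = 1 + (E - 1)`), `Lop_symm` (`Som`) with classes `0 0` and `c c`, `c > 0`.

## Proofs
* `E_cl`: `Cl_add (Cl_const 1)` and `Cl_mono`.
* `ip_PQ`: `Lop 4 (ΛQ) = -2 Q` (`L_LamQ`), so `-2 (P,Q) = (P, L ΛQ) = (LP, ΛQ) = -(J, ΛQ) = ∫ J J'` and
  `∫ J J' = (1/2)[J²]_{-∞}^{∞} = -(1/2)(I/2)² = -I²/8` (`Jf_bd` gives the limits; e.g.
  `integral_of_hasDerivAt_of_tendsto`). Hence `(P,Q) = I²/16`.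
* `ip_EQ`: `-2 (E,Q) = (LE, ΛQ) = ∫ ΛQ = -I/2` (`int_LamQ`).
* `L_Qdd`: `Lop 4 Q'' = 4 ρ`: differentiate `Lop 4 Q' = 0` (`L_Qd`): `-Q'''' + Q'' - Q⁴ Q'' - 4 Q³ Q'² = 0`.
  (Or direct computation with `t`, `Q⁴ = 15 (1-t²)`.)
* `rho_cl`: `Cl_mul (Cl_pow ..) (Cl_pow ..)` and `Cl_mono`.
* `ip_Erho`: `4 (E,ρ) = (E, LQ'') = (LE, Q'') = ∫ Q'' = 0`.
* `ip_Prho`: `4 (P,ρ) = (P, LQ'') = (LP,Q'') = -∫ J Q'' = ∫ J' Q' = -∫ ΛQ Q' = 0` (`Cl_ibp` with `Jf_cl`, `ip_LamQ_Qd`).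
* `ip_Qdrho`: odd integrand (`Sol2_odd`), or `4 (Q',ρ) = (LQ',Q'') = 0`.
* `ip_LamQrho`: `4 (ΛQ,ρ) = (LΛQ, Q'') = -2 (Q,Q'') = 2 ∫ Q'²` (`ip_Qdd_Q`).
-/

open MeasureTheory Filter Topology Set
open scoped ContDiff

noncomputable section

namespace H68KC

open H98KB

variable {P E : ℝ → ℝ}

theorem PRg_k : 1 ≤ 4 := by norm_num

theorem PRg_Lam : Cl (1 / 2) (1 / 2) (Lam 4 (Qf 4)) := Cl_LamQ PRg_k (by norm_num)

theorem PRg_Qdd : Cl 1 1 (deriv (deriv (Qf 4))) := Cl_der (Cl_der (Cl_Qf PRg_k))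

theorem E_cl (h : Prof P E) : Cl 0 0 E := by
  have h1 := Cl_add (Cl_mono h.E1 (p' := 0) (q' := 0) (by norm_num) (by norm_num)) (Cl_const 1)
  simpa only [sub_add_cancel] using h1

theorem rho_cl : Cl 3 3 rho := by
  have h1 := Cl_pow (Cl_Qf PRg_k) 3
  have h2 := Cl_pow (Cl_der (Cl_Qf PRg_k)) 2
  have h3 := Cl_mul h1 h2
  exact Cl_mono h3 (by norm_num) (by norm_num)

theorem PRg_top : Tendsto Jf atTop (𝓝 0) := by
  obtain ⟨C, _, hC, _⟩ := Jf_bd
  have h1 : Tendsto (fun y : ℝ => C * Real.exp (-(3 / 4) * y)) atTop (𝓝 0) := by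
    have h2 : Tendsto (fun y : ℝ => (3 / 4 : ℝ) * y) atTop atTop :=
      tendsto_id.const_mul_atTop (by norm_num)
    have h3 := (Real.tendsto_exp_neg_atTop_nhds_zero.comp h2).const_mul C
    rw [mul_zero] at h3
    refine h3.congr fun y => ?_
    simp only [Function.comp_apply, neg_mul]
  refine squeeze_zero_norm' ?_ h1
  filter_upwards [eventually_ge_atTop (0 : ℝ)] with y hy
  rw [Real.norm_eq_abs]
  exact hC y hy

theorem PRg_bot : Tendsto Jf atBot (𝓝 (-(Iq / 2))) := by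
  have h1 : Tendsto (fun y => -(Iq / 2) - Jf (-y)) atBot (𝓝 (-(Iq / 2) - 0)) :=
    (PRg_top.comp tendsto_neg_atBot_atTop).const_sub _
  rw [sub_zero] at h1
  refine h1.congr fun y => ?_
  rw [← Jf_neg (-y), neg_neg]

theorem PRg_JL : ∫ y, Jf y * -Lam 4 (Qf 4) y = -(Iq ^ 2 / 8) := by
  have hd : ∀ y, HasDerivAt (fun y => (Jf y) ^ 2 / 2) (Jf y * -Lam 4 (Qf 4) y) y := by
    intro y
    have := ((Jf_hd y).pow 2).div_const 2
    refine this.congr_deriv ?_
    push_cast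
    ring
  have hi : Integrable (fun y => Jf y * -Lam 4 (Qf 4) y) :=
    Cl_int (Cl_mul Jf_cl (Cl_neg PRg_Lam)) (by norm_num) (by norm_num)
  have h1 := integral_of_hasDerivAt_of_tendsto hd hi ((PRg_bot.pow 2).div_const 2)
    ((PRg_top.pow 2).div_const 2)
  rw [h1]
  ring

theorem ip_PQ (h : Prof P E) : ip P (Qf 4) = Iq ^ 2 / 16 := by
  have h1 := Lop_symm PRg_k h.cP PRg_Lam (by norm_num) (by norm_num)
  have h2 : ip P (Lop 4 (Lam 4 (Qf 4))) = -2 * ip P (Qf 4) := by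
    unfold ip
    rw [← integral_const_mul]
    refine integral_congr_ae (Eventually.of_forall fun y => ?_)
    simp only
    rw [L_LamQ PRg_k]
    ring
  have h3 : ip (Lop 4 P) (Lam 4 (Qf 4)) = -(Iq ^ 2 / 8) := by
    rw [← PRg_JL]
    unfold ip
    refine integral_congr_ae (Eventually.of_forall fun y => ?_)
    simp only
    rw [h.LP]
    ring
  rw [h2, h3] at h1
  linarith

theorem ip_EQ (h : Prof P E) : ip E (Qf 4) = Iq / 4 := by
  have h1 := Lop_symm PRg_k (E_cl h) PRg_Lam (by norm_num) (by norm_num)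
  have h2 : ip E (Lop 4 (Lam 4 (Qf 4))) = -2 * ip E (Qf 4) := by
    unfold ip
    rw [← integral_const_mul]
    refine integral_congr_ae (Eventually.of_forall fun y => ?_)
    simp only
    rw [L_LamQ PRg_k]
    ring
  have h3 : ip (Lop 4 E) (Lam 4 (Qf 4)) = -(Iq / 2) := by
    rw [← int_LamQ]
    unfold ip
    refine integral_congr_ae (Eventually.of_forall fun y => ?_)
    simp only
    rw [h.LE]
    ring
  rw [h2, h3] at h1
  linarith

theorem ip_EQd (h : Prof P E) : ip E (deriv (Qf 4)) = 0 := by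
  unfold ip
  rw [Qf_deriv PRg_k]
  refine Sol2_odd fun y => ?_
  simp only [th_neg, Qf_neg, h.Ee]
  ring

theorem L_Qdd (y : ℝ) : Lop 4 (deriv (deriv (Qf 4))) y = 4 * rho y := by
  have hQ := Cl_Qf (k := 4) PRg_k
  have h3 : deriv (deriv (deriv (Qf 4))) = fun y => deriv (Qf 4) y - (Qf 4 y) ^ 4 * deriv (Qf 4) y := by
    funext z
    have := L_Qd (k := 4) PRg_k z
    unfold Lop at this
    linarith
  have h4 : HasDerivAt (fun y => deriv (Qf 4) y - (Qf 4 y) ^ 4 * deriv (Qf 4) y)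
      (deriv (deriv (Qf 4)) y - (4 * (Qf 4 y) ^ 3 * deriv (Qf 4) y * deriv (Qf 4) y +
        (Qf 4 y) ^ 4 * deriv (deriv (Qf 4)) y)) y := by
    have a := Cl_hd (Cl_der hQ) y
    have b := Cl_hd hQ y
    refine (a.sub ((b.pow 4).mul a)).congr_deriv ?_
    simp only [Pi.pow_apply]
    push_cast
    ring
  unfold Lop
  rw [h3, h4.deriv, rho]
  ring

theorem PRg_rho {f : ℝ → ℝ} (hf : Cl 0 0 f) : 4 * ip f rho = ip (Lop 4 f) (deriv (deriv (Qf 4))) := by
  rw [Lop_symm PRg_k hf PRg_Qdd (by norm_num) (by norm_num)]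
  unfold ip
  rw [← integral_const_mul]
  refine integral_congr_ae (Eventually.of_forall fun y => ?_)
  simp only
  rw [L_Qdd]
  ring

theorem ip_Erho (h : Prof P E) : ip E rho = 0 := by
  have h1 := PRg_rho (E_cl h)
  have h2 : ip (Lop 4 E) (deriv (deriv (Qf 4))) = 0 := by
    have h3 := Cl_int_deriv (Cl_der (Cl_Qf (k := 4) PRg_k)) (by norm_num) (by norm_num)
    rw [← h3]
    unfold ip
    refine integral_congr_ae (Eventually.of_forall fun y => ?_)
    simp only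
    rw [h.LE]
    ring
  rw [h2] at h1
  linarith

theorem ip_Prho (h : Prof P E) : ip P rho = 0 := by
  have h1 := PRg_rho h.cP
  have h2 : ip (Lop 4 P) (deriv (deriv (Qf 4))) = 0 := by
    have h3 := Cl_ibp (Cl_der (Cl_Qf (k := 4) PRg_k)) Jf_cl (by norm_num) (by norm_num)
    have h4 : ∫ y, deriv (Qf 4) y * deriv Jf y = 0 := by
      have h5 := ip_LamQ_Qd (k := 4) PRg_k
      have h6 : ∫ y, deriv (Qf 4) y * deriv Jf y = -ip (Lam 4 (Qf 4)) (deriv (Qf 4)) := by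
        unfold ip
        rw [← integral_neg]
        refine integral_congr_ae (Eventually.of_forall fun y => ?_)
        simp only
        rw [(Jf_hd y).deriv]
        ring
      rw [h6, h5, neg_zero]
    rw [h4, neg_zero] at h3
    have h7 : ip (Lop 4 P) (deriv (deriv (Qf 4))) = -∫ y, deriv (deriv (Qf 4)) y * Jf y := by
      unfold ip
      rw [← integral_neg]
      refine integral_congr_ae (Eventually.of_forall fun y => ?_)
      simp only
      rw [h.LP]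
      ring
    rw [h7, h3, neg_zero]
  rw [h2] at h1
  linarith

theorem ip_Qdrho : ip (deriv (Qf 4)) rho = 0 := by
  have e : rho = fun y => (Qf 4 y) ^ 3 * (deriv (Qf 4) y) ^ 2 := rfl
  unfold ip
  rw [e, Qf_deriv PRg_k]
  refine Sol2_odd fun y => ?_
  simp only [th_neg, Qf_neg]
  ring

theorem ip_LamQrho : ip (Lam 4 (Qf 4)) rho = 1 / 2 * ∫ y, (deriv (Qf 4) y) ^ 2 := by
  have h1 := PRg_rho (Cl_mono PRg_Lam (p' := 0) (q' := 0) (by norm_num) (by norm_num))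
  have h2 : ip (Lop 4 (Lam 4 (Qf 4))) (deriv (deriv (Qf 4))) =
      -2 * ip (deriv (deriv (Qf 4))) (Qf 4) := by
    unfold ip
    rw [← integral_const_mul]
    refine integral_congr_ae (Eventually.of_forall fun y => ?_)
    simp only
    rw [L_LamQ PRg_k]
    ring
  rw [h2, ip_Qdd_Q PRg_k] at h1
  linarith

end H68KC

end
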