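import Pool.Agent.H68.KC.INh
import Pool.Agent.H68.KC.TRf
import Pool.Agent.H68.KC.GC
import Pool.Agent.H68.KC.PRf
import Pool.Agent.H98.KC.Gog
import Pool.Agent.H72.KC.Fin4

/-!
# MP_95be7d, `k = 4`: final theorem
-/

open MeasureTheory Filter Topology Set
open scoped ContDiff

noncomputable section

namespace H68KC

open H98KB

theorem good_all : ∃ (P E : ℝ → ℝ) (γ η δ M B c C : ℝ), Prof P E ∧ GoodA P E γ η δ M B c C ∧
    GoodB P E γ B c ∧ GoodC P E γ B c C := by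
  obtain ⟨P, E, hp⟩ := prof_exists
  obtain ⟨γ, η, δ, M, B, cA, h1, h2, -, -, -, -, -, h8, h9, h10, hA⟩ := H98KC.goodA hp
  obtain ⟨cC, hcC, hC⟩ := goodC hp h1 h2 h8
  have hc : 0 < min cA cC := lt_min h9 hcC
  obtain ⟨C1, hC1, hA2⟩ := hA (min cA cC) hc (min_le_left _ _)
  obtain ⟨C2, hC2⟩ := hC (min cA cC) (min_le_right _ _)
  exact ⟨P, E, γ, η, δ, M, B, min cA cC, max C1 C2, hp, hA2 _ (le_max_left _ _),
    goodB hp ((min_le_left _ _).trans h10), hC2 _ (le_max_right _ _)⟩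

/-- finite time blow-up in the critical case -/
theorem blowup_k4 : ∃ φ p₀ : ℝ → ℝ, IsH1 φ p₀ ∧ ¬ ∃ u p : ℝ → ℝ → ℝ, IsGlobalSol 4 φ u p :=
  H72KC.blowup4 thmTrap thmIni good_all

end H68KC

end
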