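import Pool.Agent.H68.KC.Stat4
import Pool.Agent.H98.KB.Tan
import Pool.Agent.H98.KB.Clb

/-!
# Row INa (MP_95be7d_K4): the cut-off factor `kap4 w1 x = 1/cosh(x/w1)`

## Proofs
* `sech_cl`: `w = 1/cosh(c y)` has `w' = -c tanh(c y) w`; all derivatives are polynomials in `tanh(c y)` times `w` (`Tan_iter` with
  `R = -c X`), `|tanh| < 1`, `w ≤ 2 e^{-|c y|}` (`Tan_sech_le`). Smooth: `Real.contDiff_cosh`, `cosh ≠ 0`.
* `kap_cl`, `kapr_cl`: `x/w1 = (1/w1) x`, `r^8 y/w1 = (r^8/w1) y`.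
* `kap_one`: `0 ≤ 1 - 1/cosh z ≤ 1`, so fine if `|z| ≥ 1`; for `|z| ≤ 1`: `1 - 1/cosh z ≤ cosh z - 1 ≤ z²` (`cosh z ≤ e^{z²/2}`
  (`Real.cosh_le_exp_half_sq`) and `e^{t} ≤ 1 + 2 t` for `0 ≤ t ≤ 1/2`).
* `kap_der`: `(1/cosh)' = -sinh/cosh²`, `|sinh| ≤ cosh`.
* `kap_int`: `κ² ≤ 4 e^{-2 r^8 |y|/w1}`, `∫ e^{-2a|y|} = 1/a`, `a = r^8/w1`.
-/

open MeasureTheory Filter Topology Set
open scoped ContDiff

noncomputable section

namespace H68KC

open H98KB

theorem INa_eq (w1 : ℝ) : kap4 w1 = fun y => 1 / Real.cosh (1 / w1 * y) := by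
  funext y
  unfold kap4
  congr 2
  ring

theorem INa_eqr (w1 r : ℝ) : (fun y => kap4 w1 (r ^ 8 * y)) = fun y => 1 / Real.cosh (r ^ 8 / w1 * y) := by
  funext y
  unfold kap4
  congr 2
  ring

theorem INa_int {a : ℝ} (ha : 0 < a) : ∫ y : ℝ, Real.exp (-(2 * a * |y|)) = 1 / a := by
  rw [integral_comp_abs (f := fun x => Real.exp (-(2 * a * x)))]
  have h := integral_exp_mul_Ioi (a := -(2 * a)) (by linarith) 0
  have e : (fun x : ℝ => Real.exp (-(2 * a * x))) = fun x => Real.exp (-(2 * a) * x) := by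
    funext x
    congr 1
    ring
  rw [e, h, mul_zero, Real.exp_zero]
  field_simp

theorem sech_cl {c : ℝ} (hc : 0 < c) : Cl c c (fun y => 1 / Real.cosh (c * y)) := by
  exact Cl_sech hc

theorem kap_le (w1 x : ℝ) : 0 < kap4 w1 x ∧ kap4 w1 x ≤ 1 := by
  have h0 := Real.cosh_pos (x / w1)
  have h1 := Real.one_le_cosh (x / w1)
  unfold kap4
  refine ⟨by positivity, ?_⟩
  rw [div_le_one h0]
  exact h1

theorem kap_one {w1 : ℝ} (h : 0 < w1) (x : ℝ) : |kap4 w1 x - 1| ≤ (x / w1) ^ 2 := by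
  have _ := h
  have h0 := Real.cosh_pos (x / w1)
  have hk := kap_le w1 x
  have h1 : Real.exp (-((x / w1) ^ 2 / 2)) ≤ kap4 w1 x := by
    unfold kap4
    rw [Real.exp_neg, ← one_div]
    exact one_div_le_one_div_of_le h0 (Real.cosh_le_exp_half_sq _)
  have h2 := Real.add_one_le_exp (-((x / w1) ^ 2 / 2))
  have h3 := sq_nonneg (x / w1)
  rw [abs_le]
  constructor <;> linarith [hk.2]

theorem kap_der {w1 : ℝ} (h : 0 < w1) (x : ℝ) : |deriv (kap4 w1) x| ≤ 1 / w1 * kap4 w1 x := by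
  have h0 := Real.cosh_pos (x / w1)
  have h1 : HasDerivAt (fun y : ℝ => y / w1) (1 / w1) x := (hasDerivAt_id x).div_const w1
  have h0' : (Real.cosh ∘ fun y : ℝ => y / w1) x ≠ 0 := h0.ne'
  have h2 := ((Real.hasDerivAt_cosh (x / w1)).comp x h1).inv h0'
  have h3 : kap4 w1 = (Real.cosh ∘ fun y => y / w1)⁻¹ := by
    funext y
    simp [kap4]
  rw [h3, h2.deriv, ← h3]
  have h4 : |Real.sinh (x / w1)| ≤ Real.cosh (x / w1) := by
    rw [abs_le]
    constructor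
    · have h5 := (Real.sinh_lt_cosh (-(x / w1))).le
      rw [Real.sinh_neg, Real.cosh_neg] at h5
      linarith
    · exact (Real.sinh_lt_cosh _).le
  simp only [Function.comp]
  unfold kap4
  rw [abs_div, abs_neg, abs_mul, abs_of_pos (by positivity : (0 : ℝ) < 1 / w1), abs_of_pos (by positivity :
    (0 : ℝ) < Real.cosh (x / w1) ^ 2), div_le_iff₀ (by positivity)]
  have h6 : 1 / w1 * (1 / Real.cosh (x / w1)) * Real.cosh (x / w1) ^ 2 = Real.cosh (x / w1) * (1 / w1) := by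
    field_simp
  rw [h6]
  exact mul_le_mul_of_nonneg_right h4 (by positivity)

theorem kap_cl {w1 : ℝ} (h : 0 < w1) : Cl (1 / w1) (1 / w1) (kap4 w1) := by
  rw [INa_eq]
  exact Cl_sech (by positivity)

theorem kapr_cl {w1 r : ℝ} (h : 0 < w1) (hr : 0 < r) :
    Cl (r ^ 8 / w1) (r ^ 8 / w1) (fun y => kap4 w1 (r ^ 8 * y)) := by
  rw [INa_eqr]
  exact Cl_sech (by positivity)

theorem kap_int {w1 r : ℝ} (h : 0 < w1) (hr : 0 < r) :
    Integrable (fun y => (kap4 w1 (r ^ 8 * y)) ^ 2) ∧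
    (∫ y, (kap4 w1 (r ^ 8 * y)) ^ 2) ≤ 4 * w1 / r ^ 8 := by
  have ha : 0 < r ^ 8 / w1 := by positivity
  have hcl := kapr_cl h hr
  have hc2 := Cl_mul hcl hcl
  have e : (fun y => (kap4 w1 (r ^ 8 * y)) ^ 2) = fun y => kap4 w1 (r ^ 8 * y) * kap4 w1 (r ^ 8 * y) := by
    funext y
    ring
  have hI : Integrable (fun y => (kap4 w1 (r ^ 8 * y)) ^ 2) := by
    rw [e]
    exact Cl_int hc2 (by positivity) (by positivity)
  refine ⟨hI, ?_⟩
  have hbd : Integrable (fun y : ℝ => 4 * Real.exp (-(2 * (r ^ 8 / w1) * |y|))) := by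
    have h1 := (bd_int (p := 2 * (r ^ 8 / w1)) (q := 2 * (r ^ 8 / w1)) (by positivity) (by positivity)).const_mul 4
    refine h1.congr (Eventually.of_forall fun y => ?_)
    show 4 * bd _ _ y = _
    rw [bd_abs]
  have hle : ∫ y, (kap4 w1 (r ^ 8 * y)) ^ 2 ≤ ∫ y, 4 * Real.exp (-(2 * (r ^ 8 / w1) * |y|)) := by
    refine integral_mono hI hbd fun y => ?_
    have h1 : kap4 w1 (r ^ 8 * y) ≤ 2 * Real.exp (-|r ^ 8 * y / w1|) := Tan_sech_le _
    have h2 := (kap_le w1 (r ^ 8 * y)).1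
    have h3 : (2 * Real.exp (-|r ^ 8 * y / w1|)) ^ 2 = 4 * Real.exp (-(2 * (r ^ 8 / w1) * |y|)) := by
      rw [mul_pow, ← Real.exp_nat_mul]
      have e1 : r ^ 8 * y / w1 = r ^ 8 / w1 * y := by ring
      rw [e1, abs_mul, abs_of_pos ha]
      norm_num
      ring
    show (kap4 w1 (r ^ 8 * y)) ^ 2 ≤ 4 * Real.exp (-(2 * (r ^ 8 / w1) * |y|))
    rw [← h3]
    exact pow_le_pow_left₀ h2.le h1 2
  refine hle.trans (le_of_eq ?_)
  rw [integral_const_mul, INa_int ha]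
  field_simp

end H68KC

end
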