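import Pool.Agent.H68.KC.PRg
import Pool.Agent.H98.KB.Nla
import Pool.Agent.H98.KB.Nlb

/-!
# Row MOa (MP_95be7d_K4): the function `ε`, orthogonality, pairing formula for `ζ`

`e := fun y => W y - Qf 4 y` is of class `Cl p q`, `0 < p`, `0 < q`.

## Proofs
* `ep_cl`: `Cl_mono` (to class `0 0`), `cP`, `E_cl`, `Cl_smul`, `Cl_sub`.
* `ep_split`: definitions, `ring`.
* `ep_Q`: `(ε,Q) = (e,Q) - b (P,Q) - α (E,Q) = (e,Q) - b I²/16 - α I/4 = 0` by the definition of `bq` (`ip_PQ`, `ip_EQ`, `Iq_pos`).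
* `ep_rho`, `ep_Qd`: `ip_Prho`, `ip_Erho`, `Prof.PQ`, `ip_EQd`, `ip_Q_Qd`.
* `pair_ze`: for `φ` of class `1 1`; `zeta = g' + N - et'`, `g = L e - R` (`gf_eq`).
  `(g',φ) = -(g,φ') = -(Le,φ') + (R,φ') = -(e,Lφ') + (R,φ')` (`Cl_ibp`, `Cl_gf`, `Lop_symm`, `Cl_Rf`);
  `(Λe,φ) = ∫ (e/2 + y e') φ = (1/2)(e,φ) - ∫ e (yφ)' = -(e,Λφ)` (here `2/(4:ℝ) = 1/2`);
  `(e',φ) = -(e,φ')`, `(e'',φ) = (e,φ'')`, `(et',φ) = -(et,φ')`. All functions are of class `Cl` with positive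
  exponents after multiplication (`y φ` is of class `3/4 3/4`: `Cl_id` with `c = 1/4`).
* `ze_cl`: `Cl_zeta` with `p' = p/2`, `q' = q/2`.
-/

open MeasureTheory Filter Topology Set
open scoped ContDiff

noncomputable section

namespace H68KC

open H98KB

variable {P E : ℝ → ℝ}

theorem hf_cl (h : Prof P E) (b α : ℝ) : Cl 0 0 (hf P E b α) :=
  Cl_add (Cl_smul b h.cP) (Cl_smul α (E_cl h))

theorem ep_cl (h : Prof P E) {p q s : ℝ} {W : ℝ → ℝ} (hp : 0 ≤ p) (hq : 0 ≤ q)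
    (hW : Cl p q (fun y => W y - Qf 4 y)) : Cl 0 0 (ep P E s W) :=
  Cl_sub (Cl_mono hW hp hq) (hf_cl h _ _)

theorem ep_split (P E : ℝ → ℝ) (s : ℝ) (W : ℝ → ℝ) (y : ℝ) :
    W y - Qf 4 y = hf P E (bq s W) (alf s W) y + ep P E s W y := by
  unfold ep
  ring

theorem MOa_c {p q : ℝ} {f φ : ℝ → ℝ} (hp : 0 ≤ p) (hq : 0 ≤ q) (hf : Cl p q f) (hφ : Cl 1 1 φ) :
    Cl (1 / 2) (1 / 2) (fun y => f y * φ y) :=
  Cl_mono (Cl_mul hf hφ) (by linarith) (by linarith)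

theorem MOa_i {p q : ℝ} {f φ : ℝ → ℝ} (hp : 0 ≤ p) (hq : 0 ≤ q) (hf : Cl p q f) (hφ : Cl 1 1 φ) :
    Integrable (fun y => f y * φ y) :=
  Cl_int (MOa_c hp hq hf hφ) (by norm_num) (by norm_num)

theorem MOa_rho : Cl 1 1 rho := Cl_mono rho_cl (by norm_num) (by norm_num)

theorem MOa_Q : Cl 1 1 (Qf 4) := Cl_Qf (by norm_num)

theorem MOa_ep (h : Prof P E) {p q s : ℝ} {W φ : ℝ → ℝ} (hp : 0 ≤ p) (hq : 0 ≤ q)
    (hW : Cl p q (fun y => W y - Qf 4 y)) (hφ : Cl 1 1 φ) :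
    ip (ep P E s W) φ = ip (fun y => W y - Qf 4 y) φ - bq s W * ip P φ - alf s W * ip E φ := by
  have i1 := MOa_i hp hq hW hφ
  have i2 := MOa_i le_rfl le_rfl h.cP hφ
  have i3 := MOa_i le_rfl le_rfl (E_cl h) hφ
  have k1 := integral_sub (i1.sub (i2.const_mul (bq s W))) (i3.const_mul (alf s W))
  have k2 := integral_sub i1 (i2.const_mul (bq s W))
  simp only [Pi.sub_apply] at k1 k2
  rw [integral_const_mul] at k1 k2
  unfold ip
  rw [← k2, ← k1]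
  congr 1
  funext y
  simp only [ep, hf]
  ring

theorem ep_Q (h : Prof P E) {p q s : ℝ} {W : ℝ → ℝ} (hp : 0 < p) (hq : 0 < q)
    (hW : Cl p q (fun y => W y - Qf 4 y)) : ip (ep P E s W) (Qf 4) = 0 := by
  rw [MOa_ep h hp.le hq.le hW MOa_Q, ip_PQ h, ip_EQ h, bq]
  have hI := Iq_pos
  field_simp
  ring

theorem ep_rho (h : Prof P E) {p q s : ℝ} {W : ℝ → ℝ} (hp : 0 < p) (hq : 0 < q)
    (hW : Cl p q (fun y => W y - Qf 4 y)) :
    ip (ep P E s W) rho = ip (fun y => W y - Qf 4 y) rho := by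
  rw [MOa_ep h hp.le hq.le hW MOa_rho, ip_Prho h, ip_Erho h]
  ring

theorem ep_Qd (h : Prof P E) {p q s : ℝ} {W : ℝ → ℝ} (hp : 0 < p) (hq : 0 < q)
    (hW : Cl p q (fun y => W y - Qf 4 y)) :
    ip (ep P E s W) (deriv (Qf 4)) = ip W (deriv (Qf 4)) ∧
    ip (fun y => W y - Qf 4 y) (deriv (Qf 4)) = ip W (deriv (Qf 4)) := by
  have hQd : Cl 1 1 (deriv (Qf 4)) := Cl_der MOa_Q
  have i1 := MOa_i hp.le hq.le hW hQd
  have i2 := MOa_i zero_le_one zero_le_one MOa_Q hQd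
  have h1 : ip W (deriv (Qf 4)) = ip (fun y => W y - Qf 4 y) (deriv (Qf 4)) + ip (Qf 4) (deriv (Qf 4)) := by
    unfold ip
    rw [← integral_add i1 i2]
    congr 1
    funext y
    ring
  have h2 := ip_Q_Qd (k := 4) (by norm_num)
  rw [h2, add_zero] at h1
  refine ⟨?_, h1.symm⟩
  rw [MOa_ep h hp.le hq.le hW hQd, h.PQ, ip_EQd h, h1]
  ring

theorem ze_cl {p q w m l : ℝ} {W et : ℝ → ℝ} (hp : 0 < p) (hq : 0 < q) (hp1 : p ≤ 1) (hq1 : q ≤ 1)
    (hW : Cl p q (fun y => W y - Qf 4 y)) (he : Cl p q et) :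
    Cl (p / 2) (q / 2) (ze w m l W et) :=
  Cl_zeta (by norm_num) hp hq hp1 hq1 hW he w m l (by linarith) (by linarith)

theorem MOa_pair {p q w m l : ℝ} {e et φ : ℝ → ℝ} (hp : 0 < p) (hq : 0 < q) (hp1 : p ≤ 1) (hq1 : q ≤ 1)
    (hW : Cl p q e) (he : Cl p q et) (hφ : Cl 1 1 φ) :
    ip (zeta 4 w m l e et) φ =
      -ip e (Lop 4 (deriv φ)) + ip (Rf 4 e) (deriv φ)
      - w * ip (Lam 4 (Qf 4)) φ + m * ip (deriv (Qf 4)) φ + l * ip (deriv (deriv (Qf 4))) φ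
      + w * ip e (Lam 4 φ) - m * ip e (deriv φ)
      + l * ip e (deriv (deriv φ)) + ip et (deriv φ) := by
  have hφ1 := Cl_der hφ
  have hφ2 := Cl_der hφ1
  have hLQ : Cl 0 0 (Lam 4 (Qf 4)) := Cl_LamQ (by norm_num) (by norm_num)
  have hQ1 : Cl 1 1 (deriv (Qf 4)) := Cl_der MOa_Q
  have hQ2 : Cl 1 1 (deriv (deriv (Qf 4))) := Cl_der hQ1
  have hR : Cl p q (Rf 4 e) := Cl_Rf (by norm_num) hp.le hq.le hW
  have hg : Cl p q (gf 4 e) := Cl_gf (by norm_num) hp.le hq.le hW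
  have hz : Cl (p / 2) (q / 2) (zeta 4 w m l e et) :=
    Cl_zeta (by norm_num) hp hq hp1 hq1 hW he w m l (by linarith) (by linarith)
  have hLφ : Cl 1 1 (Lop 4 (deriv φ)) := Cl_Lop (by norm_num) hφ1
  have hΛφ : Cl (3 / 4) (3 / 4) (Lam 4 φ) := by
    have h := Cl_Lam 4 hφ (c := 1 / 4) (by norm_num)
    have e1 : (1 : ℝ) - 1 / 4 = 3 / 4 := by norm_num
    rwa [e1] at h
  have i0 := MOa_i (by linarith : 0 ≤ p / 2) (by linarith : 0 ≤ q / 2) hz hφ
  have i1 := MOa_i hp.le hq.le hW hLφ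
  have i2 := MOa_i hp.le hq.le hR hφ1
  have i3 := MOa_i le_rfl le_rfl hLQ hφ
  have i4 := MOa_i zero_le_one zero_le_one hQ1 hφ
  have i5 := MOa_i zero_le_one zero_le_one hQ2 hφ
  have i6 : Integrable (fun y => e y * Lam 4 φ y) :=
    Cl_int (Cl_mul hW hΛφ) (by linarith) (by linarith)
  have i7 := MOa_i hp.le hq.le hW hφ1
  have i8 := MOa_i hp.le hq.le hW hφ2
  have i9 := MOa_i hp.le hq.le he hφ1
  have hH : Cl (1 / 2) (1 / 2) (fun y => (((((gf 4 e y * φ y + (deriv e y * deriv φ y -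
      e y * deriv (deriv φ) y)) - w * (y * (e y * φ y))) + m * (e y * φ y))
      + l * (deriv e y * φ y - e y * deriv φ y)) - et y * φ y)) := by
    refine Cl_sub (Cl_add (Cl_add (Cl_sub (Cl_add (MOa_c hp.le hq.le hg hφ)
      (Cl_sub (MOa_c hp.le hq.le (Cl_der hW) hφ1) (MOa_c hp.le hq.le hW hφ2))) (Cl_smul w ?_))
      (Cl_smul m (MOa_c hp.le hq.le hW hφ))) (Cl_smul l (Cl_sub (MOa_c hp.le hq.le (Cl_der hW) hφ)
      (MOa_c hp.le hq.le hW hφ1)))) (MOa_c hp.le hq.le he hφ)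
    exact Cl_mono (Cl_mul (Cl_id (c := 1 / 4) (by norm_num)) (Cl_mul hW hφ)) (by linarith) (by linarith)
  have key : ∫ y, zeta 4 w m l e et y * φ y = ∫ y, (((((((((-(e y * Lop 4 (deriv φ) y)
      + Rf 4 e y * deriv φ y) - w * (Lam 4 (Qf 4) y * φ y)) + m * (deriv (Qf 4) y * φ y))
      + l * (deriv (deriv (Qf 4)) y * φ y)) + w * (e y * Lam 4 φ y)) - m * (e y * deriv φ y))
      + l * (e y * deriv (deriv φ) y)) + et y * deriv φ y)) := by
    refine Cl_int_eq i0 ?_ hH (by norm_num) (by norm_num) ?_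
    · exact ((((((((i1.neg.add i2).sub (i3.const_mul w)).add (i4.const_mul m)).add
        (i5.const_mul l)).add (i6.const_mul w)).sub (i7.const_mul m)).add (i8.const_mul l)).add i9)
    · intro y
      have d1 := Cl_hd hg y
      have d2 := Cl_hd hφ y
      have d3 := Cl_hd (Cl_der hW) y
      have d4 := Cl_hd hφ1 y
      have d5 := Cl_hd hW y
      have d6 := Cl_hd hφ2 y
      have d7 := Cl_hd he y
      have d8 := hasDerivAt_id y
      have hd := ((((((d1.mul d2).add ((d3.mul d4).sub (d5.mul d6))).sub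
        ((d8.mul (d5.mul d2)).const_mul w)).add ((d5.mul d2).const_mul m)).add
        (((d3.mul d2).sub (d5.mul d4)).const_mul l)).sub (d7.mul d2))
      have hd2 := hd.deriv
      have e1 : deriv (fun y => (((((gf 4 e y * φ y + (deriv e y * deriv φ y -
          e y * deriv (deriv φ) y)) - w * (y * (e y * φ y))) + m * (e y * φ y))
          + l * (deriv e y * φ y - e y * deriv φ y)) - et y * φ y)) y = _ := hd2
      rw [e1]
      simp only [zeta, Nf, Lam, Lop, Rf, gf, id, Pi.mul_apply]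
      push_cast
      ring
  unfold ip
  rw [key]
  have j1 := i1.neg.add i2
  have j2 := j1.sub (i3.const_mul w)
  have j3 := j2.add (i4.const_mul m)
  have j4 := j3.add (i5.const_mul l)
  have j5 := j4.add (i6.const_mul w)
  have j6 := j5.sub (i7.const_mul m)
  have j7 := j6.add (i8.const_mul l)
  have k1 := integral_add j7 i9
  have k2 := integral_add j6 (i8.const_mul l)
  have k3 := integral_sub j5 (i7.const_mul m)
  have k4 := integral_add j4 (i6.const_mul w)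
  have k5 := integral_add j3 (i5.const_mul l)
  have k6 := integral_add j2 (i4.const_mul m)
  have k7 := integral_sub j1 (i3.const_mul w)
  have k8 := integral_add i1.neg i2
  simp only [Pi.add_apply, Pi.sub_apply, Pi.neg_apply] at k1 k2 k3 k4 k5 k6 k7 k8
  rw [k1, k2, k3, k4, k5, k6, k7, k8]
  simp only [integral_const_mul, integral_neg]

theorem pair_ze {p q w m l : ℝ} {W et φ : ℝ → ℝ} (hp : 0 < p) (hq : 0 < q) (hp1 : p ≤ 1) (hq1 : q ≤ 1)
    (hW : Cl p q (fun y => W y - Qf 4 y)) (he : Cl p q et) (hφ : Cl 1 1 φ) :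
    ip (ze w m l W et) φ =
      -ip (fun y => W y - Qf 4 y) (Lop 4 (deriv φ)) + ip (Rf 4 (fun y => W y - Qf 4 y)) (deriv φ)
      - w * ip (Lam 4 (Qf 4)) φ + m * ip (deriv (Qf 4)) φ + l * ip (deriv (deriv (Qf 4))) φ
      + w * ip (fun y => W y - Qf 4 y) (Lam 4 φ) - m * ip (fun y => W y - Qf 4 y) (deriv φ)
      + l * ip (fun y => W y - Qf 4 y) (deriv (deriv φ)) + ip et (deriv φ) :=
  MOa_pair hp hq hp1 hq1 hW he hφ

end H68KC

end
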