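import Pool.Agent.H68.KC.INa
import Pool.Agent.H68.KC.MOa

/-!
# Row INb (MP_95be7d_K4): the background `hk4 = h₀ κ`

`h₀ = hf P E (3 c₀ r⁴) (f₀ r⁴)`, `κ = kap4 w1 (r^8 y)`.

## Proofs
* `h0_le`: `P`, `E` bounded (`cP`, `E_cl`, `Cl_bnd`, `bd_zero`), `P'`, `E'` are of class `3/4 3/4` (`dP`, `Cl_der E1` since `E' = (E-1)'`),
  `Cl_bnd`, `bd_abs`; `Ch := max 1 (3 c₀ C_P + |f₀| C_E)` etc.
* `hk_le`: `|κ| ≤ 1`, `kap_one` at `r^8 y`, `(h₀κ)' = h₀' κ + h₀ r^8 κ'(r^8 y)` (`kap_der`).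
* `hk_int`: `hk4² ≤ Ch² r^8 κ²`, `kap_int`.
* `hk_cl`: `Cl_mul` of class `0 0` (`hf_cl`) and `kapr_cl`.
-/

open MeasureTheory Filter Topology Set
open scoped ContDiff

noncomputable section

namespace H68KC

open H98KB

variable {P E : ℝ → ℝ}

theorem h0_le (hp : Prof P E) : ∃ Ch : ℝ, 1 ≤ Ch ∧ ∀ r, 0 < r → ∀ y,
    |hf P E (3 * c0 * r ^ 4) (f0 * r ^ 4) y| ≤ Ch * r ^ 4 ∧
    |deriv (hf P E (3 * c0 * r ^ 4) (f0 * r ^ 4)) y| ≤ Ch * r ^ 4 * Real.exp (-(3 / 4 * |y|)) := by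
  obtain ⟨C1, hC1, h1⟩ := Cl_bnd hp.cP
  obtain ⟨C2, hC2, h2⟩ := Cl_bnd (E_cl hp)
  obtain ⟨C3, hC3, h3⟩ := Cl_bnd hp.dP
  obtain ⟨C4, hC4, h4⟩ := Cl_bnd (Cl_der hp.E1)
  have a1 : 0 ≤ |3 * c0| := abs_nonneg _
  have a2 : 0 ≤ |f0| := abs_nonneg _
  have a3 : 0 ≤ |3 * c0| * (C1 + C3) := mul_nonneg a1 (add_nonneg hC1 hC3)
  have a4 : 0 ≤ |f0| * (C2 + C4) := mul_nonneg a2 (add_nonneg hC2 hC4)
  refine ⟨1 + |3 * c0| * (C1 + C3) + |f0| * (C2 + C4), by linarith, fun r hr y => ?_⟩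
  have b1 := h1 y
  have b2 := h2 y
  have b3 := h3 y
  have b4 := h4 y
  rw [bd_zero, mul_one] at b1 b2
  rw [bd_abs] at b3 b4
  have hE : deriv (fun z => E z - 1) y = deriv E y := deriv_sub_const (1 : ℝ)
  rw [hE] at b4
  have r4 : (0:ℝ) < r ^ 4 := by positivity
  have e0 := Real.exp_pos (-(3 / 4 * |y|))
  have d1 : ∀ a p c : ℝ, |p| ≤ c → |a * r ^ 4 * p| ≤ |a| * c * r ^ 4 := by
    intro a p c hpc
    rw [abs_mul, abs_mul, abs_of_pos r4]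
    nlinarith [mul_le_mul_of_nonneg_left hpc (mul_nonneg (abs_nonneg a) r4.le)]
  constructor
  · unfold hf
    have c1 := abs_add_le (3 * c0 * r ^ 4 * P y) (f0 * r ^ 4 * E y)
    have c2 := d1 (3 * c0) _ _ b1
    have c3 := d1 f0 _ _ b2
    have c4 : 0 ≤ |3 * c0| * C3 * r ^ 4 := by positivity
    have c5 : 0 ≤ |f0| * C4 * r ^ 4 := by positivity
    nlinarith
  · have hd : HasDerivAt (hf P E (3 * c0 * r ^ 4) (f0 * r ^ 4))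
        (3 * c0 * r ^ 4 * deriv P y + f0 * r ^ 4 * deriv E y) y :=
      ((Cl_hd hp.cP y).const_mul _).add ((Cl_hd (E_cl hp) y).const_mul _)
    rw [hd.deriv]
    have c1 := abs_add_le (3 * c0 * r ^ 4 * deriv P y) (f0 * r ^ 4 * deriv E y)
    have c2 := d1 (3 * c0) _ _ b3
    have c3 := d1 f0 _ _ b4
    have c4 : 0 ≤ |3 * c0| * C1 * r ^ 4 * Real.exp (-(3 / 4 * |y|)) := by positivity
    have c5 : 0 ≤ |f0| * C2 * r ^ 4 * Real.exp (-(3 / 4 * |y|)) := by positivity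
    have c6 : 0 ≤ r ^ 4 * Real.exp (-(3 / 4 * |y|)) := by positivity
    nlinarith

theorem INb_d {P E : ℝ → ℝ} (hp : Prof P E) {w1 r : ℝ} (h : 0 < w1) (y : ℝ) :
    HasDerivAt (hk4 P E w1 r)
      (deriv (hf P E (3 * c0 * r ^ 4) (f0 * r ^ 4)) y * kap4 w1 (r ^ 8 * y) +
        hf P E (3 * c0 * r ^ 4) (f0 * r ^ 4) y * (deriv (kap4 w1) (r ^ 8 * y) * r ^ 8)) y := by
  have h1 := Cl_hd (hf_cl hp (3 * c0 * r ^ 4) (f0 * r ^ 4)) y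
  have h2 := Cl_hd (kap_cl h) (r ^ 8 * y)
  have h3 : HasDerivAt (fun z : ℝ => r ^ 8 * z) (r ^ 8) y := by
    simpa using (hasDerivAt_id y).const_mul (r ^ 8)
  have h4 : HasDerivAt (fun z : ℝ => kap4 w1 (r ^ 8 * z)) (deriv (kap4 w1) (r ^ 8 * y) * r ^ 8) y :=
    h2.comp y h3
  exact h1.mul h4

theorem hk_le (hp : Prof P E) {Ch : ℝ} (hCh : 0 ≤ Ch) {w1 r : ℝ} (h : 0 < w1) (hr : 0 < r)
    (h0 : ∀ y, |hf P E (3 * c0 * r ^ 4) (f0 * r ^ 4) y| ≤ Ch * r ^ 4 ∧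
      |deriv (hf P E (3 * c0 * r ^ 4) (f0 * r ^ 4)) y| ≤ Ch * r ^ 4 * Real.exp (-(3 / 4 * |y|)))
    (y : ℝ) :
    |hk4 P E w1 r y| ≤ Ch * r ^ 4 * kap4 w1 (r ^ 8 * y) ∧
    |hk4 P E w1 r y - hf P E (3 * c0 * r ^ 4) (f0 * r ^ 4) y| ≤ Ch * r ^ 4 * (r ^ 8 * y / w1) ^ 2 ∧
    |deriv (hk4 P E w1 r) y| ≤ Ch * r ^ 4 * Real.exp (-(3 / 4 * |y|))
      + Ch * r ^ 12 / w1 * kap4 w1 (r ^ 8 * y) ∧
    |deriv (hk4 P E w1 r) y - deriv (hf P E (3 * c0 * r ^ 4) (f0 * r ^ 4)) y| ≤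
      Ch * r ^ 4 * Real.exp (-(3 / 4 * |y|)) * (r ^ 8 * y / w1) ^ 2
        + Ch * r ^ 12 / w1 * kap4 w1 (r ^ 8 * y) := by
  obtain ⟨g1, g2⟩ := h0 y
  obtain ⟨k0, k1⟩ := kap_le w1 (r ^ 8 * y)
  have k2 := kap_one h (r ^ 8 * y)
  have k3 := kap_der h (r ^ 8 * y)
  have hd := INb_d hp (r := r) h y
  set H := hf P E (3 * c0 * r ^ 4) (f0 * r ^ 4) y with hH
  set H' := deriv (hf P E (3 * c0 * r ^ 4) (f0 * r ^ 4)) y with hH'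
  set κ := kap4 w1 (r ^ 8 * y) with hκ
  set κ' := deriv (kap4 w1) (r ^ 8 * y) with hκ'
  have hk : hk4 P E w1 r y = H * κ := rfl
  have r4 : (0:ℝ) < r ^ 4 := by positivity
  have r8 : (0:ℝ) < r ^ 8 := by positivity
  have e0 := Real.exp_pos (-(3 / 4 * |y|))
  have C0 : 0 ≤ Ch * r ^ 4 := by positivity
  have m3 : |H * (κ' * r ^ 8)| ≤ Ch * r ^ 12 / w1 * κ := by
    rw [abs_mul, abs_mul, abs_of_pos r8]
    calc |H| * (|κ'| * r ^ 8) ≤ Ch * r ^ 4 * ((1 / w1 * κ) * r ^ 8) :=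
          mul_le_mul g1 (mul_le_mul_of_nonneg_right k3 r8.le) (by positivity) C0
      _ = Ch * r ^ 12 / w1 * κ := by ring
  refine ⟨?_, ?_, ?_, ?_⟩
  · rw [hk, abs_mul, abs_of_pos k0]
    exact mul_le_mul_of_nonneg_right g1 k0.le
  · rw [hk, show H * κ - H = H * (κ - 1) by ring, abs_mul]
    exact mul_le_mul g1 k2 (abs_nonneg _) C0
  · rw [hd.deriv]
    refine (abs_add_le _ _).trans (add_le_add ?_ m3)
    rw [abs_mul, abs_of_pos k0]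
    calc |H'| * κ ≤ |H'| * 1 := mul_le_mul_of_nonneg_left k1 (abs_nonneg _)
      _ ≤ _ := by rw [mul_one]; exact g2
  · rw [hd.deriv, show H' * κ + H * (κ' * r ^ 8) - H' = H' * (κ - 1) + H * (κ' * r ^ 8) by ring]
    refine (abs_add_le _ _).trans (add_le_add ?_ m3)
    rw [abs_mul]
    exact mul_le_mul g2 k2 (abs_nonneg _) (by positivity)

theorem hk_cl (hp : Prof P E) {w1 r : ℝ} (h : 0 < w1) (hr : 0 < r) :
    Cl (r ^ 8 / w1) (r ^ 8 / w1) (hk4 P E w1 r) := by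
  exact Cl_mul0 (hf_cl hp (3 * c0 * r ^ 4) (f0 * r ^ 4)) (kapr_cl h hr)

theorem hk_int (hp : Prof P E) {Ch : ℝ} (hCh : 0 ≤ Ch) {w1 r : ℝ} (h : 0 < w1) (hr : 0 < r)
    (h0 : ∀ y, |hk4 P E w1 r y| ≤ Ch * r ^ 4 * kap4 w1 (r ^ 8 * y)) :
    (∫ y, (hk4 P E w1 r y) ^ 2) ≤ 4 * Ch ^ 2 * w1 := by
  obtain ⟨i1, i2⟩ := kap_int h hr
  have r8 : (0:ℝ) < r ^ 8 := by positivity
  calc (∫ y, (hk4 P E w1 r y) ^ 2) ≤ ∫ y, Ch ^ 2 * r ^ 8 * (kap4 w1 (r ^ 8 * y)) ^ 2 := by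
        refine integral_mono_of_nonneg (Eventually.of_forall fun y => sq_nonneg _)
          (i1.const_mul _) (Eventually.of_forall fun y => ?_)
        have h1 := h0 y
        have h2 := pow_le_pow_left₀ (abs_nonneg _) h1 2
        rw [sq_abs] at h2
        refine h2.trans (le_of_eq ?_)
        ring
    _ = Ch ^ 2 * r ^ 8 * ∫ y, (kap4 w1 (r ^ 8 * y)) ^ 2 := integral_const_mul _ _
    _ ≤ Ch ^ 2 * r ^ 8 * (4 * w1 / r ^ 8) := mul_le_mul_of_nonneg_left i2 (by positivity)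
    _ = 4 * Ch ^ 2 * w1 := by field_simp

end H68KC

end
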