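import Pool.Agent.H68.KC.INb

/-!
# Row INc (MP_95be7d_K4): the datum `W0`: coefficients, orthogonality, classes

`ck1 = - (hk4,Q')/∫Q'²`, `ck2 = -(hk4,ρ)/(ΛQ,ρ)`, `W0 = Q + hk4 + ck1 Q' + ck2 ΛQ`.

## Proofs
* `W0_eq`: definitions, `ring`.
* `ck_le`: `(h₀,Q') = 0`, `(h₀,ρ) = 0` (`Prof.PQ`, `ip_EQd`, `ip_Prho`, `ip_Erho`), so `(hk4,Q') = (hk4 - h₀, Q')`, and by `hk_le`
  `|(hk4 - h₀,ψ)| ≤ Ch r⁴ (r^8/w1)² ∫ y² |ψ| = C r^20`, `C = Ch ∫ y²|ψ| / w1²` (`ψ = Q', ρ` of class `1 1`, `3 3`).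
* `W0_orth`: `(W0 - Q,Q') = (hk4,Q') + ck1 ∫Q'² + ck2 (ΛQ,Q') = 0` (`ip_LamQ_Qd`), `(W0-Q,ρ) = (hk4,ρ) + ck1 (Q',ρ) + ck2 (ΛQ,ρ) = 0`
  (`ip_Qdrho`, `ip_LamQrho ≠ 0`), and `(Q,Q') = 0` (`ip_Q_Qd`).
* `W0_cl`: `Cl_add`, `hk_cl`, `Cl_smul`, `Sol2_Cd`, `Cl_LamQ` and `Cl_mono`; `μ = min (r^8/w1) (1/2)`.
* `dat_cl`: `dat4 x = r^{-4} (Q(x/r^8) + h₀(x/r^8) kap4 w1 x + ck1 Q'(x/r^8) + ck2 ΛQ(x/r^8))`; the class `p q` becomes `p/r^8`, `q/r^8` under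
  `x ↦ x/r^8` (chain rule `iteratedDeriv_comp_const_mul`; see `H72KB.Cl_comp` in `Pool/Agent/H72/KB/ClB.lean` for a proof to copy), `kap_cl` with
  `1/w1 ≥ 1`, `1/r^8 ≥ 4/3` for `r ≤ 1/2`.
-/

open MeasureTheory Filter Topology Set
open scoped ContDiff

noncomputable section

namespace H68KC

open H98KB

variable {P E : ℝ → ℝ}

def ck1 (P E : ℝ → ℝ) (w1 r : ℝ) : ℝ :=
  -(ip (hk4 P E w1 r) (deriv (Qf 4)) / (∫ y, (deriv (Qf 4) y) ^ 2))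

def ck2 (P E : ℝ → ℝ) (w1 r : ℝ) : ℝ := -(ip (hk4 P E w1 r) rho / ip (Lam 4 (Qf 4)) rho)

theorem W0_eq (P E : ℝ → ℝ) (w1 r y : ℝ) : W0 P E w1 r y - Qf 4 y =
    hk4 P E w1 r y + ck1 P E w1 r * deriv (Qf 4) y + ck2 P E w1 r * Lam 4 (Qf 4) y := by
  unfold W0 ck1 ck2
  ring

theorem INc_k : 1 ≤ 4 := by norm_num

theorem INc_y2 {φ : ℝ → ℝ} (hφ : Cl 1 1 φ) : Integrable (fun y => y ^ 2 * |φ y|) := by
  have hid := Cl_id (c := 1 / 4) (by norm_num)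
  have h1 : Cl (-(1 / 4) + (-(1 / 4) + 1)) (-(1 / 4) + (-(1 / 4) + 1)) (fun y => y * (y * φ y)) :=
    Cl_mul hid (Cl_mul hid hφ)
  obtain ⟨C, hC0, hC⟩ := Cl_bnd h1
  have hc : Continuous φ := Cl_cont hφ
  refine int_of_bd (p := -(1 / 4) + (-(1 / 4) + 1)) (q := -(1 / 4) + (-(1 / 4) + 1))
    ((continuous_id.pow 2).mul hc.abs) (by norm_num) (by norm_num) ⟨C, fun y => ?_⟩
  refine le_trans (le_of_eq ?_) (hC y)
  rw [abs_mul, abs_mul, abs_mul, abs_abs, abs_pow]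
  ring

theorem INc_pair (hp : Prof P E) {w1 : ℝ} (h : 0 < w1) {φ : ℝ → ℝ} (hφ : Cl 1 1 φ)
    (hP : ip P φ = 0) (hE : ip E φ = 0) :
    ∃ C : ℝ, 0 ≤ C ∧ ∀ r, 0 < r → r ≤ 1 → |ip (hk4 P E w1 r) φ| ≤ C * r ^ 20 := by
  obtain ⟨Ch, hCh1, hCh⟩ := h0_le hp
  have hI0 : 0 ≤ ∫ y, y ^ 2 * |φ y| :=
    integral_nonneg (fun y => mul_nonneg (sq_nonneg y) (abs_nonneg _))
  have hI := INc_y2 hφ
  refine ⟨Ch / w1 ^ 2 * ∫ y, y ^ 2 * |φ y|, by positivity, fun r hr _ => ?_⟩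
  have hk := hk_cl hp h hr
  have hr8 : 0 ≤ r ^ 8 / w1 := by positivity
  have i1 : Integrable (fun y => hk4 P E w1 r y * φ y) := MOa_i hr8 hr8 hk hφ
  have i2 : Integrable (fun y => P y * φ y) := MOa_i le_rfl le_rfl hp.cP hφ
  have i3 : Integrable (fun y => E y * φ y) := MOa_i le_rfl le_rfl (E_cl hp) hφ
  have e0 : ∫ y, hf P E (3 * c0 * r ^ 4) (f0 * r ^ 4) y * φ y = 0 := by
    have e1 : (fun y => hf P E (3 * c0 * r ^ 4) (f0 * r ^ 4) y * φ y)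
        = fun y => 3 * c0 * r ^ 4 * (P y * φ y) + f0 * r ^ 4 * (E y * φ y) := by
      funext y; unfold hf; ring
    rw [e1, integral_add (i2.const_mul _) (i3.const_mul _), integral_const_mul, integral_const_mul]
    unfold ip at hP hE
    rw [hP, hE]
    ring
  have i4 : Integrable (fun y => hf P E (3 * c0 * r ^ 4) (f0 * r ^ 4) y * φ y) :=
    MOa_i le_rfl le_rfl (hf_cl hp _ _) hφ
  have e2 : ip (hk4 P E w1 r) φ =
      ∫ y, (hk4 P E w1 r y * φ y - hf P E (3 * c0 * r ^ 4) (f0 * r ^ 4) y * φ y) := by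
    rw [integral_sub i1 i4, e0]
    unfold ip
    ring
  rw [e2]
  have b1 : |∫ y, (hk4 P E w1 r y * φ y - hf P E (3 * c0 * r ^ 4) (f0 * r ^ 4) y * φ y)| ≤
      ∫ y, |hk4 P E w1 r y * φ y - hf P E (3 * c0 * r ^ 4) (f0 * r ^ 4) y * φ y| :=
    abs_integral_le_integral_abs
  refine b1.trans ?_
  have b2 : (∫ y, |hk4 P E w1 r y * φ y - hf P E (3 * c0 * r ^ 4) (f0 * r ^ 4) y * φ y|) ≤
      ∫ y, Ch * r ^ 20 / w1 ^ 2 * (y ^ 2 * |φ y|) := by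
    refine integral_mono (i1.sub i4).abs (hI.const_mul _) (fun y => ?_)
    show |hk4 P E w1 r y * φ y - hf P E (3 * c0 * r ^ 4) (f0 * r ^ 4) y * φ y| ≤
      Ch * r ^ 20 / w1 ^ 2 * (y ^ 2 * |φ y|)
    have h2 := (hk_le hp (by linarith) h hr (hCh r hr) y).2.1
    rw [← sub_mul, abs_mul]
    have h3 := mul_le_mul_of_nonneg_right h2 (abs_nonneg (φ y))
    refine h3.trans (le_of_eq ?_)
    field_simp
  refine b2.trans (le_of_eq ?_)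
  rw [integral_const_mul]
  ring

theorem ck_le (hp : Prof P E) {w1 : ℝ} (h : 0 < w1) : ∃ C : ℝ, 1 ≤ C ∧ ∀ r, 0 < r → r ≤ 1 →
    |ck1 P E w1 r| ≤ C * r ^ 20 ∧ |ck2 P E w1 r| ≤ C * r ^ 20 := by
  obtain ⟨C1, hC1, h1⟩ := INc_pair hp h (Sol2_Cd (k := 4) INc_k) hp.PQ (ip_EQd hp)
  obtain ⟨C2, hC2, h2⟩ := INc_pair hp h MOa_rho (ip_Prho hp) (ip_Erho hp)
  have hD : 0 < ∫ y, (deriv (Qf 4) y) ^ 2 := Qd2_pos (k := 4) INc_k
  refine ⟨1 + C1 / (∫ y, (deriv (Qf 4) y) ^ 2) + C2 / (1 / 2 * ∫ y, (deriv (Qf 4) y) ^ 2),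
    ?_, fun r hr hr1 => ⟨?_, ?_⟩⟩
  · have a1 : 0 ≤ C1 / (∫ y, (deriv (Qf 4) y) ^ 2) := by positivity
    have a2 : 0 ≤ C2 / (1 / 2 * ∫ y, (deriv (Qf 4) y) ^ 2) := by positivity
    linarith
  · unfold ck1
    rw [abs_neg, abs_div, abs_of_pos hD]
    have a1 : |ip (hk4 P E w1 r) (deriv (Qf 4))| / (∫ y, (deriv (Qf 4) y) ^ 2) ≤
        C1 * r ^ 20 / (∫ y, (deriv (Qf 4) y) ^ 2) :=
      div_le_div_of_nonneg_right (h1 r hr hr1) hD.le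
    refine a1.trans ?_
    have a2 : 0 ≤ C2 / (1 / 2 * ∫ y, (deriv (Qf 4) y) ^ 2) := by positivity
    have a3 : C1 * r ^ 20 / (∫ y, (deriv (Qf 4) y) ^ 2) =
        C1 / (∫ y, (deriv (Qf 4) y) ^ 2) * r ^ 20 := by ring
    rw [a3]
    exact mul_le_mul_of_nonneg_right (by linarith) (by positivity)
  · unfold ck2
    rw [ip_LamQrho]
    have hD2 : 0 < 1 / 2 * ∫ y, (deriv (Qf 4) y) ^ 2 := by positivity
    rw [abs_neg, abs_div, abs_of_pos hD2]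
    have a1 : |ip (hk4 P E w1 r) rho| / (1 / 2 * ∫ y, (deriv (Qf 4) y) ^ 2) ≤
        C2 * r ^ 20 / (1 / 2 * ∫ y, (deriv (Qf 4) y) ^ 2) :=
      div_le_div_of_nonneg_right (h2 r hr hr1) hD2.le
    refine a1.trans ?_
    have a2 : 0 ≤ C1 / (∫ y, (deriv (Qf 4) y) ^ 2) := by positivity
    have a3 : C2 * r ^ 20 / (1 / 2 * ∫ y, (deriv (Qf 4) y) ^ 2) =
        C2 / (1 / 2 * ∫ y, (deriv (Qf 4) y) ^ 2) * r ^ 20 := by ring
    rw [a3]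
    exact mul_le_mul_of_nonneg_right (by linarith) (by positivity)

theorem INc_cl (hp : Prof P E) {w1 r : ℝ} (h : 0 < w1) (hr : 0 < r) :
    Cl (min (r ^ 8 / w1) (1 / 2)) (min (r ^ 8 / w1) (1 / 2)) (fun y => W0 P E w1 r y - Qf 4 y) := by
  have e : (fun y => W0 P E w1 r y - Qf 4 y) = fun y =>
      hk4 P E w1 r y + ck1 P E w1 r * deriv (Qf 4) y + ck2 P E w1 r * Lam 4 (Qf 4) y := by
    funext y; exact W0_eq P E w1 r y
  rw [e]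
  have m1 : min (r ^ 8 / w1) (1 / 2) ≤ r ^ 8 / w1 := min_le_left _ _
  have m2 : min (r ^ 8 / w1) (1 / 2) ≤ 1 / 2 := min_le_right _ _
  have m3 : min (r ^ 8 / w1) (1 / 2) ≤ 1 := m2.trans (by norm_num)
  refine Cl_add (Cl_add (Cl_mono (hk_cl hp h hr) m1 m1)
    (Cl_smul _ (Cl_mono (Sol2_Cd (k := 4) INc_k) m3 m3))) (Cl_smul _ ?_)
  exact Cl_mono PRg_Lam m2 m2

theorem INc_ip (hp : Prof P E) {w1 r : ℝ} (h : 0 < w1) (hr : 0 < r) {φ : ℝ → ℝ} (hφ : Cl 1 1 φ) :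
    ip (fun y => W0 P E w1 r y - Qf 4 y) φ = ip (hk4 P E w1 r) φ
      + ck1 P E w1 r * ip (deriv (Qf 4)) φ + ck2 P E w1 r * ip (Lam 4 (Qf 4)) φ := by
  have hr8 : 0 ≤ r ^ 8 / w1 := by positivity
  have i1 : Integrable (fun y => hk4 P E w1 r y * φ y) := MOa_i hr8 hr8 (hk_cl hp h hr) hφ
  have i2 : Integrable (fun y => deriv (Qf 4) y * φ y) :=
    MOa_i zero_le_one zero_le_one (Sol2_Cd (k := 4) INc_k) hφ
  have i3 : Integrable (fun y => Lam 4 (Qf 4) y * φ y) :=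
    MOa_i (by norm_num) (by norm_num) PRg_Lam hφ
  unfold ip
  have e : (fun y => (W0 P E w1 r y - Qf 4 y) * φ y) = fun y => (hk4 P E w1 r y * φ y
      + ck1 P E w1 r * (deriv (Qf 4) y * φ y)) + ck2 P E w1 r * (Lam 4 (Qf 4) y * φ y) := by
    funext y; rw [W0_eq]; ring
  have i4 : Integrable (fun y => hk4 P E w1 r y * φ y
      + ck1 P E w1 r * (deriv (Qf 4) y * φ y)) := i1.add (i2.const_mul _)
  rw [e, integral_add i4 (i3.const_mul _),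
    integral_add i1 (i2.const_mul _), integral_const_mul, integral_const_mul]

theorem W0_orth (hp : Prof P E) {w1 r : ℝ} (h : 0 < w1) (hr : 0 < r) :
    ip (W0 P E w1 r) (deriv (Qf 4)) = 0 ∧ ip (fun y => W0 P E w1 r y - Qf 4 y) rho = 0 := by
  have hD : 0 < ∫ y, (deriv (Qf 4) y) ^ 2 := Qd2_pos (k := 4) INc_k
  have hmp : 0 < min (r ^ 8 / w1) (1 / 2) := lt_min (by positivity) (by norm_num)
  constructor
  · have h1 := (ep_Qd (s := r) hp hmp hmp (INc_cl hp h hr)).2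
    rw [← h1, INc_ip hp h hr (Sol2_Cd (k := 4) INc_k), ip_LamQ_Qd INc_k]
    have e : ip (deriv (Qf 4)) (deriv (Qf 4)) = ∫ y, (deriv (Qf 4) y) ^ 2 := by
      unfold ip
      refine integral_congr_ae (Filter.Eventually.of_forall (fun y => ?_))
      show deriv (Qf 4) y * deriv (Qf 4) y = deriv (Qf 4) y ^ 2
      ring
    rw [e]
    unfold ck1
    field_simp
    ring
  · rw [INc_ip hp h hr MOa_rho, ip_Qdrho]
    unfold ck2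
    have hD2 : ip (Lam 4 (Qf 4)) rho ≠ 0 := by
      rw [ip_LamQrho]
      positivity
    field_simp
    ring

theorem W0_cl (hp : Prof P E) {w1 r : ℝ} (h : 0 < w1) (hr : 0 < r) :
    Cl (min (r ^ 8 / w1) (1 / 2)) (min (r ^ 8 / w1) (1 / 2)) (fun y => W0 P E w1 r y - Qf 4 y) :=
  INc_cl hp h hr

theorem INc_comp {p q l : ℝ} {f : ℝ → ℝ} (hl : 0 ≤ l) (hf : Cl p q f) :
    Cl (l * p) (l * q) (fun y => f (l * y)) := by
  refine ⟨hf.1.comp (contDiff_const.mul contDiff_fun_id), fun j => ?_⟩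
  obtain ⟨C, hC0, hC⟩ := Cl_bndj hf j
  refine ⟨l ^ j * C, fun y => ?_⟩
  have h1 := congrFun (iteratedDeriv_comp_const_mul (contDiff_infty.1 hf.1 j) l) y
  have h2 : bd p q (l * y) = bd (l * p) (l * q) y := by
    unfold bd
    have e1 : max (l * y) 0 = l * max y 0 := by
      rw [mul_max_of_nonneg _ _ hl, mul_zero]
    have e2 : max (-(l * y)) 0 = l * max (-y) 0 := by
      rw [mul_max_of_nonneg _ _ hl, mul_zero, mul_neg]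
    rw [e1, e2]
    ring_nf
  rw [h1, abs_mul, abs_of_nonneg (pow_nonneg hl j), mul_assoc, ← h2]
  exact mul_le_mul_of_nonneg_left (hC _) (pow_nonneg hl j)

theorem dat_cl (hp : Prof P E) {w1 r : ℝ} (h : 0 < w1) (h1 : w1 ≤ 1 / 4) (hr : 0 < r) (hr1 : r ≤ 1 / 2) :
    Cl 4 4 (dat4 P E w1 r) := by
  have hr8 : 0 < r ^ 8 := by positivity
  have hr8' : r ^ 8 ≤ 3 / 16 := by
    have := pow_le_pow_left₀ hr.le hr1 8
    norm_num at this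
    linarith
  have hl : 0 ≤ 1 / r ^ 8 := by positivity
  have hl1 : 4 ≤ 1 / r ^ 8 * (3 / 4) := by
    rw [one_div, inv_mul_eq_div, le_div_iff₀ hr8]
    linarith
  have hl2 : 4 ≤ 1 / r ^ 8 * 1 := by linarith
  have hw : 4 ≤ 1 / w1 := by
    rw [le_div_iff₀ h]
    linarith
  have e : dat4 P E w1 r = fun x => 1 / r ^ 4 *
      (((Qf 4 (1 / r ^ 8 * x) + hf P E (3 * c0 * r ^ 4) (f0 * r ^ 4) (1 / r ^ 8 * x) * kap4 w1 x)
        + ck1 P E w1 r * deriv (Qf 4) (1 / r ^ 8 * x))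
        + ck2 P E w1 r * Lam 4 (Qf 4) (1 / r ^ 8 * x)) := by
    funext x
    have e1 : x / r ^ 8 = 1 / r ^ 8 * x := by ring
    have e2 := W0_eq P E w1 r (1 / r ^ 8 * x)
    have e3 : r ^ 8 * (1 / r ^ 8 * x) = x := by field_simp
    unfold dat4
    rw [e1]
    unfold hk4 at e2
    rw [e3] at e2
    have e4 : W0 P E w1 r (1 / r ^ 8 * x) =
        ((Qf 4 (1 / r ^ 8 * x) + hf P E (3 * c0 * r ^ 4) (f0 * r ^ 4) (1 / r ^ 8 * x) * kap4 w1 x)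
        + ck1 P E w1 r * deriv (Qf 4) (1 / r ^ 8 * x))
        + ck2 P E w1 r * Lam 4 (Qf 4) (1 / r ^ 8 * x) := by linarith
    rw [e4]
  rw [e]
  have c1 : Cl 4 4 (fun x => Qf 4 (1 / r ^ 8 * x)) :=
    Cl_mono (INc_comp hl (Cl_Qf (k := 4) INc_k)) hl2 hl2
  have c2 : Cl 4 4 (fun x => deriv (Qf 4) (1 / r ^ 8 * x)) :=
    Cl_mono (INc_comp hl (Sol2_Cd (k := 4) INc_k)) hl2 hl2
  have c3 : Cl 4 4 (fun x => Lam 4 (Qf 4) (1 / r ^ 8 * x)) :=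
    Cl_mono (INc_comp hl PRe_CL) hl1 hl1
  have c4 : Cl (1 / r ^ 8 * 0) (1 / r ^ 8 * 0)
      (fun x => hf P E (3 * c0 * r ^ 4) (f0 * r ^ 4) (1 / r ^ 8 * x)) :=
    INc_comp hl (hf_cl hp _ _)
  rw [mul_zero] at c4
  have c5 : Cl 4 4 (fun x => hf P E (3 * c0 * r ^ 4) (f0 * r ^ 4) (1 / r ^ 8 * x) * kap4 w1 x) :=
    Cl_mono (Cl_mul0 c4 (kap_cl h)) hw hw
  exact Cl_smul _ (Cl_add (Cl_add (Cl_add c1 c5) (Cl_smul _ c2)) (Cl_smul _ c3))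

end H68KC

end
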