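import Pool.Agent.H68.KC.INc

/-!
# Row INd (MP_95be7d_K4): `α` and `b` of the datum

## Proofs
* `pw_int`: `∫_1^2 630 (ξ-1)^4 (2-ξ)^4 dξ = 1` (expand the polynomial, or substitute `x = ξ - 1`: `∫_0^1 x^4 (1-x)^4 = 1/630`), `0 ≤ pw ≤ 630` on `[1,2]`.
* `exp_small`: `e^{-z} ≤ n! / z^n` (from `z^n/n! ≤ e^z`, `Real.pow_div_factorial_le_exp`), with `z = 3/(4 r²)`, `n = 10`: `e^{-3/(4r²)} ≤ C r^20`.
* `alf_W0`: for `ξ ∈ [1,2]`, `y = ξ/r² ≥ 1/r²`: `|W0 y - f₀ r⁴| ≤ |Q y| + 3c₀ r⁴ |P y| + |f₀| r⁴ |E y - 1| + |hk4 y - h₀ y| + |ck1 Q'| + |ck2 ΛQ| ≤ C r^16`: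
  the first three by `Qf_hi`, `Prof.P0`, `Prof.E1` (`Cl_bnd`, `bd_of_nonneg`) and `exp_small`; `|hk4 - h₀| ≤ Ch r⁴ (r^8 · 2/(r² w1))² = 4 Ch r^16/w1²`.
  Then `alf - f₀ r⁴ = ∫ (W0(ξ/r²) - f₀ r⁴) pw` by `pw_int`.
* `bq_W0`: `(W0 - Q,Q) = (hk4,Q)` because `(Q',Q) = 0`, `(ΛQ,Q) = 0` (`ip_LamQ_Q`, `sc 4 = 0`); `(hk4,Q) = (h₀,Q) + O(r^20)` as in `ck_le`;
  `(h₀,Q) = 3c₀ r⁴ I²/16 + f₀ r⁴ I/4` (`ip_PQ`, `ip_EQ`). So `bq - 3c₀ r⁴ = (16/I²)(O(r^20) - (alf - f₀ r⁴) I/4)`.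
-/

open MeasureTheory Filter Topology Set
open scoped ContDiff

noncomputable section

namespace H68KC

open H98KB

variable {P E : ℝ → ℝ}

theorem pw_int : (∫ ξ in (1:ℝ)..2, pw ξ) = 1 := by
  have h1 : (∫ ξ in (1:ℝ)..2, pw ξ) = ∫ x in (0:ℝ)..1, pw (x + 1) := by
    rw [intervalIntegral.integral_comp_add_right (fun x => pw x) 1]
    norm_num
  rw [h1]
  have h2 : (fun x : ℝ => pw (x + 1)) =
      fun x => 630 * x ^ 4 - 2520 * x ^ 5 + 3780 * x ^ 6 - 2520 * x ^ 7 + 630 * x ^ 8 := by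
    funext x
    simp only [pw]
    ring
  rw [h2]
  have i : ∀ (c : ℝ) (n : ℕ), IntervalIntegrable (fun x : ℝ => c * x ^ n) volume 0 1 := fun c n =>
    (Continuous.intervalIntegrable (by fun_prop) _ _)
  rw [intervalIntegral.integral_add ((((i _ _).sub (i _ _)).add (i _ _)).sub (i _ _)) (i _ _),
    intervalIntegral.integral_sub (((i _ _).sub (i _ _)).add (i _ _)) (i _ _),
    intervalIntegral.integral_add ((i _ _).sub (i _ _)) (i _ _),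
    intervalIntegral.integral_sub (i _ _) (i _ _)]
  simp only [intervalIntegral.integral_const_mul, integral_pow]
  norm_num

theorem pw_bd {ξ : ℝ} (h : ξ ∈ Icc (1:ℝ) 2) : 0 ≤ pw ξ ∧ pw ξ ≤ 630 := by
  obtain ⟨h1, h2⟩ := h
  have a1 : 0 ≤ ξ - 1 := by linarith
  have a2 : ξ - 1 ≤ 1 := by linarith
  have b1 : 0 ≤ 2 - ξ := by linarith
  have b2 : 2 - ξ ≤ 1 := by linarith
  have a3 : (ξ - 1) ^ 4 ≤ 1 := pow_le_one₀ a1 a2
  have b3 : (2 - ξ) ^ 4 ≤ 1 := pow_le_one₀ b1 b2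
  have a4 : 0 ≤ (ξ - 1) ^ 4 := by positivity
  have b4 : 0 ≤ (2 - ξ) ^ 4 := by positivity
  unfold pw
  refine ⟨by positivity, ?_⟩
  nlinarith [mul_le_one₀ a3 b4 b3]

theorem exp_small : ∃ C : ℝ, 1 ≤ C ∧ ∀ r y : ℝ, 0 < r → 1 / r ^ 2 ≤ y →
    Real.exp (-(3 / 4) * y) ≤ C * r ^ 20 := by
  refine ⟨(Nat.factorial 10 : ℝ) * (4 / 3) ^ 10, ?_, fun r y hr hy => ?_⟩
  · norm_num [Nat.factorial]
  have hz : 0 < 3 / 4 * (1 / r ^ 2) := by positivity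
  have h1 : Real.exp (-(3 / 4) * y) ≤ Real.exp (-(3 / 4 * (1 / r ^ 2))) := by
    apply Real.exp_le_exp.mpr
    linarith
  refine h1.trans ?_
  have h2 := Real.pow_div_factorial_le_exp (3 / 4 * (1 / r ^ 2)) hz.le 10
  have hf : (0 : ℝ) < (Nat.factorial 10 : ℝ) := by positivity
  rw [Real.exp_neg]
  have h3 : 0 < (3 / 4 * (1 / r ^ 2)) ^ 10 / (Nat.factorial 10 : ℝ) := by positivity
  have h4 := inv_anti₀ h3 h2
  refine h4.trans (le_of_eq ?_)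
  field_simp

theorem INd_ck (hp : Prof P E) {w1 : ℝ} (h : 0 < w1) : ∃ C : ℝ, 0 ≤ C ∧ ∀ r, 0 < r → r ≤ 1 →
    ∀ y, |ck1 P E w1 r * deriv (Qf 4) y + ck2 P E w1 r * Lam 4 (Qf 4) y| ≤ C * r ^ 20 := by
  obtain ⟨C, hC1, hC⟩ := ck_le hp h
  obtain ⟨A, hA0, hA⟩ := Cl_bnd (Cl_mono (Sol2_Cd (k := 4) (by norm_num)) (p' := 0) (q' := 0)
    (by norm_num) (by norm_num))
  obtain ⟨B, hB0, hB⟩ := Cl_bnd (Cl_LamQ (k := 4) (by norm_num) (c := 0) (by norm_num))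
  refine ⟨C * A + C * B, by positivity, fun r hr hr1 y => ?_⟩
  obtain ⟨c1, c2⟩ := hC r hr hr1
  have a1 := hA y
  have b1 := hB y
  rw [bd_zero, mul_one] at a1 b1
  have hCr : 0 ≤ C * r ^ 20 := by positivity
  calc |ck1 P E w1 r * deriv (Qf 4) y + ck2 P E w1 r * Lam 4 (Qf 4) y|
      ≤ |ck1 P E w1 r * deriv (Qf 4) y| + |ck2 P E w1 r * Lam 4 (Qf 4) y| := abs_add_le _ _
    _ = |ck1 P E w1 r| * |deriv (Qf 4) y| + |ck2 P E w1 r| * |Lam 4 (Qf 4) y| := by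
        rw [abs_mul, abs_mul]
    _ ≤ C * r ^ 20 * A + C * r ^ 20 * B :=
        add_le_add (mul_le_mul c1 a1 (abs_nonneg _) hCr) (mul_le_mul c2 b1 (abs_nonneg _) hCr)
    _ = (C * A + C * B) * r ^ 20 := by ring

theorem INd_h0 (hp : Prof P E) : ∃ C : ℝ, 0 ≤ C ∧ ∀ r, 0 < r → r ≤ 1 → ∀ y, 1 / r ^ 2 ≤ y →
    |Qf 4 y + (hf P E (3 * c0 * r ^ 4) (f0 * r ^ 4) y - f0 * r ^ 4)| ≤ C * r ^ 20 := by
  obtain ⟨K, hK1, hK⟩ := exp_small
  obtain ⟨A, hA0, hA⟩ := Qf_hi (k := 4) (by norm_num)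
  obtain ⟨B, hB⟩ := hp.P0
  obtain ⟨D, hD0, hD⟩ := Cl_bnd hp.E1
  refine ⟨(A + |3 * c0| * |B| + |f0| * D) * K, by positivity, fun r hr hr1 y hy => ?_⟩
  have hy0 : 0 ≤ y := le_trans (by positivity) hy
  have e0 := hK r y hr hy
  have ep : 0 < Real.exp (-(3 / 4) * y) := Real.exp_pos _
  have a1 : |Qf 4 y| ≤ A * Real.exp (-(3 / 4) * y) := by
    rw [abs_of_pos (Qf_pos 4 y)]
    refine (hA y).trans (mul_le_mul_of_nonneg_left ?_ hA0.le)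
    apply Real.exp_le_exp.mpr
    rw [abs_of_nonneg hy0]
    linarith
  have b1 : |P y| ≤ |B| * Real.exp (-(3 / 4) * y) :=
    (hB y hy0).trans (mul_le_mul_of_nonneg_right (le_abs_self B) ep.le)
  have d1 : |E y - 1| ≤ D * Real.exp (-(3 / 4) * y) := by
    have h1 := hD y
    rw [bd_of_nonneg hy0] at h1
    have e1 : -(3 / 4 * y) = -(3 / 4) * y := by ring
    rwa [e1] at h1
  have hr4 : r ^ 4 ≤ 1 := pow_le_one₀ hr.le hr1
  have hr40 : 0 < r ^ 4 := by positivity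
  have e1 : Qf 4 y + (hf P E (3 * c0 * r ^ 4) (f0 * r ^ 4) y - f0 * r ^ 4) =
      Qf 4 y + ((3 * c0) * P y + f0 * (E y - 1)) * r ^ 4 := by
    unfold hf
    ring
  have h2 : |(3 * c0) * P y + f0 * (E y - 1)| ≤
      (|3 * c0| * |B| + |f0| * D) * Real.exp (-(3 / 4) * y) := by
    calc |(3 * c0) * P y + f0 * (E y - 1)| ≤ |(3 * c0) * P y| + |f0 * (E y - 1)| := abs_add_le _ _
      _ = |3 * c0| * |P y| + |f0| * |E y - 1| := by rw [abs_mul (3 * c0), abs_mul f0]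
      _ ≤ |3 * c0| * (|B| * Real.exp (-(3 / 4) * y)) + |f0| * (D * Real.exp (-(3 / 4) * y)) :=
          add_le_add (mul_le_mul_of_nonneg_left b1 (abs_nonneg _))
            (mul_le_mul_of_nonneg_left d1 (abs_nonneg _))
      _ = (|3 * c0| * |B| + |f0| * D) * Real.exp (-(3 / 4) * y) := by ring
  have hG : 0 ≤ |3 * c0| * |B| + |f0| * D := by positivity
  rw [e1]
  calc |Qf 4 y + ((3 * c0) * P y + f0 * (E y - 1)) * r ^ 4|
      ≤ |Qf 4 y| + |((3 * c0) * P y + f0 * (E y - 1)) * r ^ 4| := abs_add_le _ _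
    _ = |Qf 4 y| + |(3 * c0) * P y + f0 * (E y - 1)| * r ^ 4 := by
        rw [abs_mul _ (r ^ 4), abs_of_pos hr40]
    _ ≤ |Qf 4 y| + |(3 * c0) * P y + f0 * (E y - 1)| * 1 :=
        add_le_add le_rfl (mul_le_mul_of_nonneg_left hr4 (abs_nonneg _))
    _ ≤ A * Real.exp (-(3 / 4) * y) + (|3 * c0| * |B| + |f0| * D) * Real.exp (-(3 / 4) * y) := by
        rw [mul_one]
        exact add_le_add a1 h2
    _ = (A + |3 * c0| * |B| + |f0| * D) * Real.exp (-(3 / 4) * y) := by ring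
    _ ≤ (A + |3 * c0| * |B| + |f0| * D) * (K * r ^ 20) :=
        mul_le_mul_of_nonneg_left e0 (by positivity)
    _ = (A + |3 * c0| * |B| + |f0| * D) * K * r ^ 20 := by ring

theorem INd_pt (hp : Prof P E) {w1 : ℝ} (h : 0 < w1) : ∃ C : ℝ, 0 ≤ C ∧ ∀ r, 0 < r → r ≤ 1 →
    ∀ y, 1 / r ^ 2 ≤ y → y ≤ 2 / r ^ 2 → |W0 P E w1 r y - f0 * r ^ 4| ≤ C * r ^ 16 := by
  obtain ⟨C1, hC10, hC1⟩ := INd_ck hp h
  obtain ⟨C2, hC20, hC2⟩ := INd_h0 hp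
  obtain ⟨Ch, hCh, hh0⟩ := h0_le hp
  refine ⟨C1 + C2 + Ch * 4 / w1 ^ 2, by positivity, fun r hr hr1 y hy1 hy2 => ?_⟩
  have hCh0 : 0 ≤ Ch := by linarith
  have hy0 : 0 < y := lt_of_lt_of_le (by positivity) hy1
  have k1 := (hk_le hp hCh0 h hr (fun z => hh0 r hr z) y).2.1
  have k2 : (r ^ 8 * y / w1) ^ 2 ≤ (2 * r ^ 6 / w1) ^ 2 := by
    have q0 : r ^ 8 * y ≤ 2 * r ^ 6 := by
      have q1 : r ^ 8 * y ≤ r ^ 8 * (2 / r ^ 2) := mul_le_mul_of_nonneg_left hy2 (by positivity)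
      have q2 : r ^ 8 * (2 / r ^ 2) = 2 * r ^ 6 := by field_simp
      linarith
    have q3 : r ^ 8 * y / w1 ≤ 2 * r ^ 6 / w1 := div_le_div_of_nonneg_right q0 h.le
    exact pow_le_pow_left₀ (by positivity) q3 2
  have k3 : |hk4 P E w1 r y - hf P E (3 * c0 * r ^ 4) (f0 * r ^ 4) y| ≤ Ch * 4 / w1 ^ 2 * r ^ 16 := by
    refine k1.trans ((mul_le_mul_of_nonneg_left k2 (by positivity)).trans (le_of_eq ?_))
    field_simp
    ring
  have a1 := hC1 r hr hr1 y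
  have a2 := hC2 r hr hr1 y hy1
  have hr20 : r ^ 20 ≤ r ^ 16 := pow_le_pow_of_le_one hr.le hr1 (by norm_num)
  have e1 : W0 P E w1 r y - f0 * r ^ 4 =
      (ck1 P E w1 r * deriv (Qf 4) y + ck2 P E w1 r * Lam 4 (Qf 4) y)
      + (Qf 4 y + (hf P E (3 * c0 * r ^ 4) (f0 * r ^ 4) y - f0 * r ^ 4))
      + (hk4 P E w1 r y - hf P E (3 * c0 * r ^ 4) (f0 * r ^ 4) y) := by
    have q := W0_eq P E w1 r y
    linarith
  rw [e1]
  refine (abs_add_three _ _ _).trans ?_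
  have a3 : C1 * r ^ 20 ≤ C1 * r ^ 16 := mul_le_mul_of_nonneg_left hr20 hC10
  have a4 : C2 * r ^ 20 ≤ C2 * r ^ 16 := mul_le_mul_of_nonneg_left hr20 hC20
  have e2 : (C1 + C2 + Ch * 4 / w1 ^ 2) * r ^ 16 =
      C1 * r ^ 16 + C2 * r ^ 16 + Ch * 4 / w1 ^ 2 * r ^ 16 := by ring
  rw [e2]
  linarith

theorem INd_W0_cont (hp : Prof P E) {w1 r : ℝ} (h : 0 < w1) (hr : 0 < r) :
    Continuous (W0 P E w1 r) := by
  have h1 := Cl_cont (W0_cl hp h hr)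
  have h2 := Cl_cont (Cl_Qf (k := 4) (by norm_num))
  have h3 := h1.add h2
  refine h3.congr fun y => ?_
  change (W0 P E w1 r y - Qf 4 y) + Qf 4 y = W0 P E w1 r y
  ring

theorem alf_W0 (hp : Prof P E) {w1 : ℝ} (h : 0 < w1) : ∃ C : ℝ, 1 ≤ C ∧ ∀ r, 0 < r → r ≤ 1 →
    |alf (r ^ 2) (W0 P E w1 r) - f0 * r ^ 4| ≤ C * r ^ 16 := by
  obtain ⟨C, hC0, hC⟩ := INd_pt hp h
  refine ⟨630 * C + 1, by linarith, fun r hr hr1 => ?_⟩
  have hc := INd_W0_cont hp h hr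
  have hpw : Continuous pw := by
    unfold pw
    fun_prop
  have hc2 : Continuous (fun ξ : ℝ => W0 P E w1 r (ξ / r ^ 2)) :=
    hc.comp (continuous_id.div_const _)
  have i1 : IntervalIntegrable (fun ξ : ℝ => W0 P E w1 r (ξ / r ^ 2) * pw ξ) volume 1 2 :=
    (hc2.mul hpw).intervalIntegrable _ _
  have i2 : IntervalIntegrable (fun ξ : ℝ => f0 * r ^ 4 * pw ξ) volume 1 2 :=
    (continuous_const.mul hpw).intervalIntegrable _ _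
  have e1 : alf (r ^ 2) (W0 P E w1 r) - f0 * r ^ 4 =
      ∫ ξ in (1:ℝ)..2, (W0 P E w1 r (ξ / r ^ 2) * pw ξ - f0 * r ^ 4 * pw ξ) := by
    rw [intervalIntegral.integral_sub i1 i2, intervalIntegral.integral_const_mul, pw_int, mul_one]
    rfl
  rw [e1]
  have b1 : ∀ ξ ∈ Set.uIoc (1:ℝ) 2,
      ‖W0 P E w1 r (ξ / r ^ 2) * pw ξ - f0 * r ^ 4 * pw ξ‖ ≤ 630 * (C * r ^ 16) := by
    intro ξ hξ
    rw [Set.uIoc_of_le (by norm_num)] at hξ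
    obtain ⟨p0, p1⟩ := pw_bd (ξ := ξ) ⟨hξ.1.le, hξ.2⟩
    have w1' := hC r hr hr1 (ξ / r ^ 2) (div_le_div_of_nonneg_right hξ.1.le (by positivity))
      (div_le_div_of_nonneg_right hξ.2 (by positivity))
    rw [← sub_mul, Real.norm_eq_abs, abs_mul, abs_of_nonneg p0, mul_comm (630 : ℝ)]
    exact mul_le_mul w1' p1 p0 (by positivity)
  have b2 := intervalIntegral.norm_integral_le_of_norm_le_const b1
  rw [Real.norm_eq_abs] at b2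
  refine b2.trans ?_
  have r16 : 0 ≤ r ^ 16 := by positivity
  have e2 : |(2:ℝ) - 1| = 1 := by norm_num
  rw [e2]
  nlinarith

theorem INd_dh (hp : Prof P E) {w1 : ℝ} (h : 0 < w1) : ∃ C : ℝ, 0 ≤ C ∧ ∀ r, 0 < r → r ≤ 1 →
    |ip (hk4 P E w1 r) (Qf 4) - ip (hf P E (3 * c0 * r ^ 4) (f0 * r ^ 4)) (Qf 4)| ≤ C * r ^ 16 := by
  obtain ⟨Ch, hCh, hh0⟩ := h0_le hp
  have hQ : Cl 1 1 (Qf 4) := Cl_Qf (k := 4) (by norm_num)
  have hid : Cl (-(1 / 4)) (-(1 / 4)) (fun y : ℝ => y) := Cl_id (by norm_num)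
  have iy : Integrable (fun y => y * (y * Qf 4 y)) :=
    Cl_int (Cl_mul hid (Cl_mul hid hQ)) (by norm_num) (by norm_num)
  have hI : 0 ≤ ∫ y, y * (y * Qf 4 y) := by
    refine integral_nonneg fun y => ?_
    change 0 ≤ y * (y * Qf 4 y)
    rw [← mul_assoc]
    exact mul_nonneg (mul_self_nonneg y) (Qf_pos 4 y).le
  refine ⟨Ch / w1 ^ 2 * ∫ y, y * (y * Qf 4 y), by positivity, fun r hr hr1 => ?_⟩
  have hCh0 : 0 ≤ Ch := by linarith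
  have hr8 : 0 < r ^ 8 / w1 := by positivity
  have i1 : Integrable (fun y => hk4 P E w1 r y * Qf 4 y) :=
    Cl_int (Cl_mul (hk_cl hp h hr) hQ) (by linarith) (by linarith)
  have i2 : Integrable (fun y => hf P E (3 * c0 * r ^ 4) (f0 * r ^ 4) y * Qf 4 y) :=
    Cl_int (Cl_mul (hf_cl hp _ _) hQ) (by norm_num) (by norm_num)
  unfold ip
  rw [← integral_sub i1 i2]
  have b1 : |∫ y, (hk4 P E w1 r y * Qf 4 y - hf P E (3 * c0 * r ^ 4) (f0 * r ^ 4) y * Qf 4 y)| ≤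
      ∫ y, |hk4 P E w1 r y * Qf 4 y - hf P E (3 * c0 * r ^ 4) (f0 * r ^ 4) y * Qf 4 y| :=
    abs_integral_le_integral_abs
  refine b1.trans ?_
  have b2 : ∫ y, |hk4 P E w1 r y * Qf 4 y - hf P E (3 * c0 * r ^ 4) (f0 * r ^ 4) y * Qf 4 y| ≤
      ∫ y, (Ch / w1 ^ 2 * r ^ 20) * (y * (y * Qf 4 y)) := by
    refine integral_mono (i1.sub i2).abs (iy.const_mul _) fun y => ?_
    change |hk4 P E w1 r y * Qf 4 y - hf P E (3 * c0 * r ^ 4) (f0 * r ^ 4) y * Qf 4 y| ≤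
      (Ch / w1 ^ 2 * r ^ 20) * (y * (y * Qf 4 y))
    rw [← sub_mul, abs_mul, abs_of_pos (Qf_pos 4 y)]
    have k1 := (hk_le hp hCh0 h hr (fun z => hh0 r hr z) y).2.1
    refine (mul_le_mul_of_nonneg_right k1 (Qf_pos 4 y).le).trans (le_of_eq ?_)
    field_simp
  refine b2.trans ?_
  rw [integral_const_mul]
  have hr20 : r ^ 20 ≤ r ^ 16 := pow_le_pow_of_le_one hr.le hr1 (by norm_num)
  have q1 : 0 ≤ Ch / w1 ^ 2 * ∫ y, y * (y * Qf 4 y) := by positivity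
  calc Ch / w1 ^ 2 * r ^ 20 * ∫ y, y * (y * Qf 4 y)
      = (Ch / w1 ^ 2 * ∫ y, y * (y * Qf 4 y)) * r ^ 20 := by ring
    _ ≤ (Ch / w1 ^ 2 * ∫ y, y * (y * Qf 4 y)) * r ^ 16 := mul_le_mul_of_nonneg_left hr20 q1

theorem INd_ipW (hp : Prof P E) {w1 r : ℝ} (h : 0 < w1) (hr : 0 < r) :
    ip (fun y => W0 P E w1 r y - Qf 4 y) (Qf 4) = ip (hk4 P E w1 r) (Qf 4) := by
  have hQ : Cl 1 1 (Qf 4) := Cl_Qf (k := 4) (by norm_num)
  have hr8 : 0 < r ^ 8 / w1 := by positivity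
  have i1 : Integrable (fun y => hk4 P E w1 r y * Qf 4 y) :=
    Cl_int (Cl_mul (hk_cl hp h hr) hQ) (by linarith) (by linarith)
  have i2 : Integrable (fun y => deriv (Qf 4) y * Qf 4 y) :=
    Cl_int (Cl_mul (Sol2_Cd (k := 4) (by norm_num)) hQ) (by norm_num) (by norm_num)
  have i3 : Integrable (fun y => Lam 4 (Qf 4) y * Qf 4 y) :=
    Cl_int (Cl_mul (Cl_LamQ (k := 4) (by norm_num) (c := 0) (by norm_num)) hQ)
      (by norm_num) (by norm_num)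
  have e1 : ip (fun y => W0 P E w1 r y - Qf 4 y) (Qf 4) =
      ∫ y, (hk4 P E w1 r y * Qf 4 y + ck1 P E w1 r * (deriv (Qf 4) y * Qf 4 y)
        + ck2 P E w1 r * (Lam 4 (Qf 4) y * Qf 4 y)) := by
    unfold ip
    congr 1
    funext y
    change (W0 P E w1 r y - Qf 4 y) * Qf 4 y = _
    rw [W0_eq]
    ring
  have j1 : (∫ y, deriv (Qf 4) y * Qf 4 y) = 0 := by
    have h1 := ip_Q_Qd (k := 4) (by norm_num)
    unfold ip at h1
    rw [← h1]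
    congr 1
    funext y
    ring
  have j2 : (∫ y, Lam 4 (Qf 4) y * Qf 4 y) = 0 := by
    have h1 := ip_LamQ_Q (k := 4) (by norm_num)
    unfold ip at h1
    rw [h1]
    have h2 : sc 4 = 0 := by
      unfold sc
      norm_num
    rw [h2]
    ring
  have k1 := integral_add (i1.add (i2.const_mul (ck1 P E w1 r))) (i3.const_mul (ck2 P E w1 r))
  have k2 := integral_add i1 (i2.const_mul (ck1 P E w1 r))
  simp only [Pi.add_apply] at k1 k2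
  rw [e1, k1, k2, integral_const_mul, integral_const_mul, j1, j2]
  unfold ip
  ring

theorem INd_iph (hp : Prof P E) (b a : ℝ) :
    ip (hf P E b a) (Qf 4) = b * (Iq ^ 2 / 16) + a * (Iq / 4) := by
  have hQ : Cl 1 1 (Qf 4) := Cl_Qf (k := 4) (by norm_num)
  have i1 : Integrable (fun y => P y * Qf 4 y) :=
    Cl_int (Cl_mul hp.cP hQ) (by norm_num) (by norm_num)
  have i2 : Integrable (fun y => E y * Qf 4 y) :=
    Cl_int (Cl_mul (E_cl hp) hQ) (by norm_num) (by norm_num)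
  have e1 : ip (hf P E b a) (Qf 4) = ∫ y, (b * (P y * Qf 4 y) + a * (E y * Qf 4 y)) := by
    unfold ip hf
    congr 1
    funext y
    ring
  have k2 := integral_add (i1.const_mul b) (i2.const_mul a)
  have p1 := ip_PQ hp
  have p2 := ip_EQ hp
  unfold ip at p1 p2
  rw [e1, k2, integral_const_mul, integral_const_mul, p1, p2]

theorem bq_W0 (hp : Prof P E) {w1 : ℝ} (h : 0 < w1) : ∃ C : ℝ, 1 ≤ C ∧ ∀ r, 0 < r → r ≤ 1 →
    |bq (r ^ 2) (W0 P E w1 r) - 3 * c0 * r ^ 4| ≤ C * r ^ 16 := by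
  obtain ⟨C1, hC1, hA⟩ := alf_W0 hp h
  obtain ⟨C2, hC2, hB⟩ := INd_dh hp h
  have hI := Iq_pos
  refine ⟨(C2 + C1 * (Iq / 4)) * (16 / Iq ^ 2) + 1, ?_, fun r hr hr1 => ?_⟩
  · have q : 0 ≤ (C2 + C1 * (Iq / 4)) * (16 / Iq ^ 2) := by positivity
    linarith
  have a1 := hA r hr hr1
  have b1 := hB r hr hr1
  rw [INd_iph hp] at b1
  have e1 : bq (r ^ 2) (W0 P E w1 r) - 3 * c0 * r ^ 4 =
      ((ip (hk4 P E w1 r) (Qf 4) - (3 * c0 * r ^ 4 * (Iq ^ 2 / 16) + f0 * r ^ 4 * (Iq / 4)))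
        - (alf (r ^ 2) (W0 P E w1 r) - f0 * r ^ 4) * (Iq / 4)) * (16 / Iq ^ 2) := by
    unfold bq
    rw [INd_ipW hp h hr]
    field_simp
    ring
  rw [e1, abs_mul, abs_of_pos (by positivity : 0 < 16 / Iq ^ 2)]
  have r16 : 0 ≤ r ^ 16 := by positivity
  have c1 : |(ip (hk4 P E w1 r) (Qf 4) - (3 * c0 * r ^ 4 * (Iq ^ 2 / 16) + f0 * r ^ 4 * (Iq / 4)))
        - (alf (r ^ 2) (W0 P E w1 r) - f0 * r ^ 4) * (Iq / 4)| ≤
      C2 * r ^ 16 + C1 * r ^ 16 * (Iq / 4) := by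
    refine (abs_sub _ _).trans (add_le_add b1 ?_)
    rw [abs_mul, abs_of_pos (by positivity : 0 < Iq / 4)]
    exact mul_le_mul_of_nonneg_right a1 (by positivity)
  refine (mul_le_mul_of_nonneg_right c1 (by positivity)).trans ?_
  have e2 : ((C2 + C1 * (Iq / 4)) * (16 / Iq ^ 2) + 1) * r ^ 16 =
      (C2 * r ^ 16 + C1 * r ^ 16 * (Iq / 4)) * (16 / Iq ^ 2) + r ^ 16 := by ring
  rw [e2]
  linarith

end H68KC

end
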