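import Pool.Agent.H68.KC.INd

/-!
# Row INe (MP_95be7d_K4): perturbation of `W0` in `H¹`: parameters, `ε`, the norm `G4`

`ω = W - W0` of class `μ μ` (some `μ > 0`), `ne2 ω = ∫ (ω² + ω'²)`, `s = r²`.

## Proofs
* `om_sup`: `sup_le`: `ω² ≤ 2 √∫ω² √∫ω'² ≤ 2 ne2 ω`.
* `alf_pert`: `alf s W - alf s W0 = ∫_1^2 ω(ξ/s) pw ξ`, absolute value `≤ sup |ω| ≤ √(2 ne2 ω)` (`pw ≥ 0`, `∫ pw = 1`).
* `bq_pert`: `bq s W - bq s W0 = (16/I²)((ω,Q) - (alf s W - alf s W0) I/4)`, Cauchy-Schwarz (`cs_int`).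
* `ep_pert`: `ε(W) = hk4 - h₀ + ck1 Q' + ck2 ΛQ - (bq s W - 3c₀r⁴) P - (alf s W - f₀r⁴) E + ω` (`W0_eq`, definitions, `ring`). With
  `|bq s W - 3 c₀ r⁴|, |alf s W - f₀ r⁴| ≤ C (r^16 + √(ne2 ω))`.
  `sup`: `|hk4 - h₀| ≤ 2 Ch r⁴`. 
* `G4_pert`: `G4 = ∫ om4 (ε² + ε'²)`, `0 ≤ om4 B s y ≤ Z(r² y) ≤ 4 e^{-2|r² y - 2|} ≤ 4 e^4 e^{-2 r²|y|}`, so `∫ om4 ≤ C r^{-2}`, `∫ om4 y⁴ ≤ C r^{-10}`; `(a₁+…+a₆)² ≤ 6 Σ a_i²`:
  `∫ om4 (hk4-h₀)² ≤ Ch² r^8 (r^8/w1)^4 C r^{-10} ≤ C r^30`; derivative: `Ch² r^8 ∫ e^{-3|y|/2}(r^8 y/w1)^4 + Ch² r^24/w1² ∫ om4 ≤ C r^22`;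
  `ck` terms `≤ C r^40`; parameters: `C (r^32 + ne2 ω) r^{-2}`; `ω`: `∫ om4 (ω² + ω'²) ≤ 4 e^4 ne2 ω`. Total `≤ C (r^22 + ne2 ω / r²)` for `r ≤ 1`.
-/

open MeasureTheory Filter Topology Set
open scoped ContDiff

noncomputable section

namespace H68KC

open H98KB

variable {P E : ℝ → ℝ}

theorem INe_sq {p q : ℝ} {g : ℝ → ℝ} (h : Cl p q g) (hp : 0 < p) (hq : 0 < q) :
    Integrable (fun y => (g y) ^ 2) :=
  Cl_int (Cl_pow' h hp.le hq.le 2 (by norm_num)) hp hq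

theorem INe_nn (g : ℝ → ℝ) : 0 ≤ ne2 g := integral_nonneg fun y => by positivity

theorem INe_eq {μ : ℝ} (hμ : 0 < μ) {g : ℝ → ℝ} (h : Cl μ μ g) :
    ne2 g = (∫ y, (g y) ^ 2) + ∫ y, (deriv g y) ^ 2 :=
  integral_add (INe_sq h hμ hμ) (INe_sq (Cl_der h) hμ hμ)

theorem INe_A {μ : ℝ} (hμ : 0 < μ) {g : ℝ → ℝ} (h : Cl μ μ g) : (∫ y, (g y) ^ 2) ≤ ne2 g := by
  rw [INe_eq hμ h]
  have : 0 ≤ ∫ y, (deriv g y) ^ 2 := integral_nonneg fun y => by positivity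
  linarith

theorem INe_B {μ : ℝ} (hμ : 0 < μ) {g : ℝ → ℝ} (h : Cl μ μ g) : (∫ y, (deriv g y) ^ 2) ≤ ne2 g := by
  rw [INe_eq hμ h]
  have : 0 ≤ ∫ y, (g y) ^ 2 := integral_nonneg fun y => by positivity
  linarith

theorem om_sup {μ : ℝ} (hμ : 0 < μ) {g : ℝ → ℝ} (h : Cl μ μ g) (y : ℝ) : (g y) ^ 2 ≤ 2 * ne2 g := by
  have h1 := sup_le h hμ hμ y
  have h2 : √(∫ z, g z ^ 2) * √(∫ z, deriv g z ^ 2) ≤ ne2 g := by
    calc √(∫ z, g z ^ 2) * √(∫ z, deriv g z ^ 2) ≤ √(ne2 g) * √(ne2 g) :=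
          mul_le_mul (Real.sqrt_le_sqrt (INe_A hμ h)) (Real.sqrt_le_sqrt (INe_B hμ h))
            (Real.sqrt_nonneg _) (Real.sqrt_nonneg _)
      _ = ne2 g := Real.mul_self_sqrt (INe_nn g)
  have h3 : 2 * √(∫ z, g z ^ 2) * √(∫ z, deriv g z ^ 2) =
      2 * (√(∫ z, g z ^ 2) * √(∫ z, deriv g z ^ 2)) := by ring
  linarith

theorem INe_abs {μ : ℝ} (hμ : 0 < μ) {g : ℝ → ℝ} (h : Cl μ μ g) (y : ℝ) : |g y| ≤ 2 * √(ne2 g) := by
  apply abs_le_of_sq_le_sq _ (by positivity)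
  rw [mul_pow, Real.sq_sqrt (INe_nn g)]
  have h1 := om_sup hμ h y
  have h2 := INe_nn g
  linarith

theorem INe_W {μ : ℝ} (hμ : 0 < μ) {W : ℝ → ℝ} (h : Cl μ μ (fun y => W y - Qf 4 y)) : Cl 0 0 W := by
  have h1 := Cl_add (Cl_mono h hμ.le hμ.le) (Cl_mono MOa_Q (p' := 0) (q' := 0) (by norm_num) (by norm_num))
  simpa only [sub_add_cancel] using h1

theorem INe_mu {w1 r : ℝ} (h : 0 < w1) (hr : 0 < r) : 0 < min (r ^ 8 / w1) (1 / 2) := by positivity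

theorem INe_pw : Continuous pw := by
  unfold pw
  fun_prop

/-- auxiliary class facts: everything in this row may use `W0_cl` -/
theorem par_pert (hp : Prof P E) {w1 : ℝ} (h : 0 < w1) : ∃ C : ℝ, 1 ≤ C ∧ ∀ (r μ : ℝ) (W : ℝ → ℝ),
    0 < r → r ≤ 1 → 0 < μ → Cl μ μ (fun y => W y - Qf 4 y) →
    Cl μ μ (fun y => W y - W0 P E w1 r y) →
    |alf (r ^ 2) W - f0 * r ^ 4| ≤ C * (r ^ 16 + √(ne2 (fun y => W y - W0 P E w1 r y))) ∧
    |bq (r ^ 2) W - 3 * c0 * r ^ 4| ≤ C * (r ^ 16 + √(ne2 (fun y => W y - W0 P E w1 r y))) := by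
  obtain ⟨C1, hC1, h1⟩ := alf_W0 hp h
  obtain ⟨C2, hC2, h2⟩ := bq_W0 hp h
  have hI := Iq_pos
  have hK : 0 ≤ (√(∫ y, (Qf 4 y) ^ 2) + Iq / 2) * (16 / Iq ^ 2) := by positivity
  refine ⟨C1 + C2 + 2 + (√(∫ y, (Qf 4 y) ^ 2) + Iq / 2) * (16 / Iq ^ 2), by linarith, ?_⟩
  intro r μ W hr hr1 hμ hW hv
  have g1 := h1 r hr hr1
  have g2 := h2 r hr hr1
  set vv : ℝ → ℝ := fun y => W y - W0 P E w1 r y with hvd
  have hN := INe_nn vv
  set N := ne2 vv with hNd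
  have hsN : 0 ≤ √N := Real.sqrt_nonneg _
  have hr16 : 0 ≤ r ^ 16 := by positivity
  set s := r ^ 2 with hsd
  have cW : Continuous W := Cl_cont (INe_W hμ hW)
  have cW0 : Continuous (W0 P E w1 r) := Cl_cont (INe_W (INe_mu h hr) (W0_cl hp h hr))
  have cd : Continuous fun ξ : ℝ => ξ / s := by fun_prop
  have c1 : Continuous fun ξ => W (ξ / s) * pw ξ := (cW.comp cd).mul INe_pw
  have c2 : Continuous fun ξ => W0 P E w1 r (ξ / s) * pw ξ := (cW0.comp cd).mul INe_pw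
  have ea : alf s W - alf s (W0 P E w1 r) = ∫ ξ in (1:ℝ)..2, vv (ξ / s) * pw ξ := by
    unfold alf
    rw [← intervalIntegral.integral_sub (c1.intervalIntegrable _ _) (c2.intervalIntegrable _ _)]
    congr 1
    funext ξ
    rw [hvd]
    ring
  have ha : |alf s W - alf s (W0 P E w1 r)| ≤ 2 * √N := by
    rw [ea]
    have c3 : Continuous fun ξ => vv (ξ / s) * pw ξ := by
      have : Continuous vv := Cl_cont hv
      exact (this.comp cd).mul INe_pw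
    refine (intervalIntegral.abs_integral_le_integral_abs (by norm_num)).trans ?_
    have k1 : ∫ ξ in (1:ℝ)..2, |vv (ξ / s) * pw ξ| ≤ ∫ ξ in (1:ℝ)..2, 2 * √N * pw ξ := by
      refine intervalIntegral.integral_mono_on (by norm_num) (c3.abs.intervalIntegrable _ _)
        ((continuous_const.mul INe_pw).intervalIntegrable _ _) ?_
      intro ξ hξ
      have k2 := (pw_bd hξ).1
      rw [abs_mul, abs_of_nonneg k2]
      exact mul_le_mul_of_nonneg_right (INe_abs hμ hv _) k2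
    rw [intervalIntegral.integral_const_mul, pw_int, mul_one] at k1
    exact k1
  have i1 : Integrable (fun y => (W y - Qf 4 y) * Qf 4 y) := MOa_i hμ.le hμ.le hW MOa_Q
  have i2 : Integrable (fun y => (W0 P E w1 r y - Qf 4 y) * Qf 4 y) :=
    MOa_i (INe_mu h hr).le (INe_mu h hr).le (W0_cl hp h hr) MOa_Q
  have ei : ip (fun y => W y - Qf 4 y) (Qf 4) - ip (fun y => W0 P E w1 r y - Qf 4 y) (Qf 4) =
      ∫ y, vv y * Qf 4 y := by
    unfold ip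
    rw [← integral_sub i1 i2]
    congr 1
    funext y
    rw [hvd]
    ring
  have hi : |∫ y, vv y * Qf 4 y| ≤ √N * √(∫ y, (Qf 4 y) ^ 2) := by
    have k := (cs_int (Cl_cont hv) (Cl_cont MOa_Q) (INe_sq hv hμ hμ)
      (INe_sq MOa_Q one_pos one_pos)).2
    refine k.trans (mul_le_mul_of_nonneg_right (Real.sqrt_le_sqrt (INe_A hμ hv)) (Real.sqrt_nonneg _))
  have hb : |bq s W - bq s (W0 P E w1 r)| ≤
      (√(∫ y, (Qf 4 y) ^ 2) + Iq / 2) * (16 / Iq ^ 2) * √N := by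
    have e : bq s W - bq s (W0 P E w1 r) =
        ((∫ y, vv y * Qf 4 y) - (alf s W - alf s (W0 P E w1 r)) * (Iq / 4)) * (16 / Iq ^ 2) := by
      unfold bq
      rw [← ei]
      ring
    rw [e, abs_mul, abs_of_pos (by positivity : 0 < 16 / Iq ^ 2)]
    have k1 : |(∫ y, vv y * Qf 4 y) - (alf s W - alf s (W0 P E w1 r)) * (Iq / 4)| ≤
        √N * √(∫ y, (Qf 4 y) ^ 2) + 2 * √N * (Iq / 4) := by
      refine (abs_sub _ _).trans (add_le_add hi ?_)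
      rw [abs_mul, abs_of_pos (by positivity : 0 < Iq / 4)]
      exact mul_le_mul_of_nonneg_right ha (by positivity)
    calc _ ≤ (√N * √(∫ y, (Qf 4 y) ^ 2) + 2 * √N * (Iq / 4)) * (16 / Iq ^ 2) :=
          mul_le_mul_of_nonneg_right k1 (by positivity)
      _ = _ := by ring
  set K := (√(∫ y, (Qf 4 y) ^ 2) + Iq / 2) * (16 / Iq ^ 2) with hKd
  have q1 : 0 ≤ K * r ^ 16 := by positivity
  have q2 : 0 ≤ K * √N := by positivity
  have q3 : 0 ≤ C1 * √N := by positivity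
  have q4 : 0 ≤ C2 * √N := by positivity
  have q5 : 0 ≤ C1 * r ^ 16 := by positivity
  have q6 : 0 ≤ C2 * r ^ 16 := by positivity
  constructor
  · have e : alf s W - f0 * r ^ 4 = (alf s W - alf s (W0 P E w1 r)) + (alf s (W0 P E w1 r) - f0 * r ^ 4) := by
      ring
    rw [e]
    refine (abs_add_le _ _).trans ?_
    nlinarith
  · have e : bq s W - 3 * c0 * r ^ 4 =
        (bq s W - bq s (W0 P E w1 r)) + (bq s (W0 P E w1 r) - 3 * c0 * r ^ 4) := by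
      ring
    rw [e]
    refine (abs_add_le _ _).trans ?_
    nlinarith

theorem INe_bd {f : ℝ → ℝ} (h : Cl 0 0 f) : ∃ C : ℝ, 0 ≤ C ∧ ∀ y, |f y| ≤ C := by
  obtain ⟨C, hC, hb⟩ := Cl_bnd h
  refine ⟨C, hC, fun y => ?_⟩
  have := hb y
  rwa [bd_zero, mul_one] at this

theorem INe_Q0 : Cl 0 0 (deriv (Qf 4)) := Cl_mono (Cl_der MOa_Q) (by norm_num) (by norm_num)

theorem INe_L0 : Cl 0 0 (Lam 4 (Qf 4)) :=
  Cl_mono PRg_Lam (by norm_num) (by norm_num)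

theorem sup_pert (hp : Prof P E) {w1 : ℝ} (h : 0 < w1) : ∃ C : ℝ, 1 ≤ C ∧ ∀ (r μ : ℝ) (W : ℝ → ℝ),
    0 < r → r ≤ 1 → 0 < μ → Cl μ μ (fun y => W y - Qf 4 y) →
    Cl μ μ (fun y => W y - W0 P E w1 r y) →
    ∀ y, |ep P E (r ^ 2) W y| ≤ C * (r ^ 4 + √(ne2 (fun y => W y - W0 P E w1 r y))) ∧
      |W y - Qf 4 y| ≤ C * (r ^ 4 + √(ne2 (fun y => W y - W0 P E w1 r y))) := by
  obtain ⟨Cp, hCp, hpar⟩ := par_pert hp h
  obtain ⟨Cc, hCc, hck⟩ := ck_le hp h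
  obtain ⟨Ch, hCh, hh0⟩ := h0_le hp
  obtain ⟨CQ, hCQ, hQ⟩ := INe_bd INe_Q0
  obtain ⟨CL, hCL, hL⟩ := INe_bd INe_L0
  obtain ⟨CP, hCP, hP⟩ := INe_bd hp.cP
  obtain ⟨CE, hCE, hE⟩ := INe_bd (E_cl hp)
  have hc0 : 0 ≤ c0 := by
    unfold c0 cnu
    have : 0 ≤ ∫ y, (deriv (Qf 4) y) ^ 2 := integral_nonneg fun y => by positivity
    positivity
  have hf0 := abs_nonneg f0
  refine ⟨(Ch + Cc * CQ + Cc * CL + 2) + ((3 * c0 + Cp) * CP + (|f0| + Cp) * CE), ?_, ?_⟩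
  · have t1 : 0 ≤ Cc * CQ := by positivity
    have t2 : 0 ≤ Cc * CL := by positivity
    have t3 : 0 ≤ (3 * c0 + Cp) * CP := by positivity
    have t4 : 0 ≤ (|f0| + Cp) * CE := by positivity
    linarith
  intro r μ W hr hr1 hμ hW hv y
  obtain ⟨ga, gb⟩ := hpar r μ W hr hr1 hμ hW hv
  obtain ⟨k1, k2⟩ := hck r hr hr1
  have hk := (hk_le hp (by linarith : 0 ≤ Ch) h hr (hh0 r hr) y).1
  have hv1 := INe_abs hμ hv y
  set vv : ℝ → ℝ := fun y => W y - W0 P E w1 r y with hvd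
  set N := √(ne2 vv) with hNd
  have hN : 0 ≤ N := Real.sqrt_nonneg _
  have hr4 : 0 ≤ r ^ 4 := by positivity
  have h20 : r ^ 20 ≤ r ^ 4 := pow_le_pow_of_le_one hr.le hr1 (by norm_num)
  have h16 : r ^ 16 ≤ r ^ 4 := pow_le_pow_of_le_one hr.le hr1 (by norm_num)
  have hkap := kap_le w1 (r ^ 8 * y)
  have b1 : |hk4 P E w1 r y| ≤ Ch * r ^ 4 := by
    refine hk.trans ?_
    have : 0 ≤ Ch * r ^ 4 := by positivity
    nlinarith [hkap.1, hkap.2]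
  have b2 : |ck1 P E w1 r * deriv (Qf 4) y| ≤ Cc * CQ * r ^ 4 := by
    rw [abs_mul]
    calc _ ≤ (Cc * r ^ 20) * CQ := mul_le_mul k1 (hQ y) (abs_nonneg _) (by positivity)
      _ ≤ (Cc * r ^ 4) * CQ := by gcongr
      _ = _ := by ring
  have b3 : |ck2 P E w1 r * Lam 4 (Qf 4) y| ≤ Cc * CL * r ^ 4 := by
    rw [abs_mul]
    calc _ ≤ (Cc * r ^ 20) * CL := mul_le_mul k2 (hL y) (abs_nonneg _) (by positivity)
      _ ≤ (Cc * r ^ 4) * CL := by gcongr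
      _ = _ := by ring
  have hWQ : |W y - Qf 4 y| ≤ (Ch + Cc * CQ + Cc * CL + 2) * (r ^ 4 + N) := by
    have e : W y - Qf 4 y = hk4 P E w1 r y + ck1 P E w1 r * deriv (Qf 4) y
        + ck2 P E w1 r * Lam 4 (Qf 4) y + vv y := by
      rw [← W0_eq P E w1 r y, hvd]
      ring
    rw [e]
    refine (abs_add_le _ _).trans ?_
    have t1 := abs_add_le (hk4 P E w1 r y + ck1 P E w1 r * deriv (Qf 4) y) (ck2 P E w1 r * Lam 4 (Qf 4) y)
    have t2 := abs_add_le (hk4 P E w1 r y) (ck1 P E w1 r * deriv (Qf 4) y)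
    have t3 : 0 ≤ (Ch + Cc * CQ + Cc * CL) * N := by positivity
    nlinarith
  have hha : |hf P E (bq (r ^ 2) W) (alf (r ^ 2) W) y| ≤
      ((3 * c0 + Cp) * CP + (|f0| + Cp) * CE) * (r ^ 4 + N) := by
    unfold hf
    have u1 : |bq (r ^ 2) W| ≤ (3 * c0 + Cp) * (r ^ 4 + N) := by
      have e : bq (r ^ 2) W = (bq (r ^ 2) W - 3 * c0 * r ^ 4) + 3 * c0 * r ^ 4 := by ring
      rw [e]
      refine (abs_add_le _ _).trans ?_
      rw [abs_of_nonneg (by positivity : 0 ≤ 3 * c0 * r ^ 4)]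
      have t1 : Cp * (r ^ 16 + N) ≤ Cp * (r ^ 4 + N) := by gcongr
      have t2 : 0 ≤ 3 * c0 * N := by positivity
      nlinarith
    have u2 : |alf (r ^ 2) W| ≤ (|f0| + Cp) * (r ^ 4 + N) := by
      have e : alf (r ^ 2) W = (alf (r ^ 2) W - f0 * r ^ 4) + f0 * r ^ 4 := by ring
      rw [e]
      refine (abs_add_le _ _).trans ?_
      rw [abs_mul f0, abs_of_nonneg hr4]
      have t1 : Cp * (r ^ 16 + N) ≤ Cp * (r ^ 4 + N) := by gcongr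
      have t2 : 0 ≤ |f0| * N := by positivity
      nlinarith
    refine (abs_add_le _ _).trans ?_
    rw [abs_mul, abs_mul]
    have v1 : |bq (r ^ 2) W| * |P y| ≤ ((3 * c0 + Cp) * (r ^ 4 + N)) * CP :=
      mul_le_mul u1 (hP y) (abs_nonneg _) (by positivity)
    have v2 : |alf (r ^ 2) W| * |E y| ≤ ((|f0| + Cp) * (r ^ 4 + N)) * CE :=
      mul_le_mul u2 (hE y) (abs_nonneg _) (by positivity)
    linarith
  have z1 : 0 ≤ (Ch + Cc * CQ + Cc * CL + 2) * (r ^ 4 + N) := by positivity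
  have z2 : 0 ≤ ((3 * c0 + Cp) * CP + (|f0| + Cp) * CE) * (r ^ 4 + N) := by positivity
  constructor
  · have e : ep P E (r ^ 2) W y = (W y - Qf 4 y) - hf P E (bq (r ^ 2) W) (alf (r ^ 2) W) y := rfl
    rw [e, add_mul]
    exact (abs_sub _ _).trans (add_le_add hWQ hha)
  · rw [add_mul]
    linarith

/-- the derivative of `ε` -/
theorem INe_dep (hp : Prof P E) {w1 r μ : ℝ} (h : 0 < w1) (hr : 0 < r) {W : ℝ → ℝ}
    (hv : Cl μ μ (fun y => W y - W0 P E w1 r y)) (y : ℝ) :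
    deriv (ep P E (r ^ 2) W) y =
      (deriv (hk4 P E w1 r) y - deriv (hf P E (3 * c0 * r ^ 4) (f0 * r ^ 4)) y)
      + (ck1 P E w1 r * deriv (deriv (Qf 4)) y + ck2 P E w1 r * deriv (Lam 4 (Qf 4)) y
      - (bq (r ^ 2) W - 3 * c0 * r ^ 4) * deriv P y - (alf (r ^ 2) W - f0 * r ^ 4) * deriv E y)
      + deriv (fun y => W y - W0 P E w1 r y) y := by
  have d1 := Cl_hd (hk_cl hp h hr) y
  have d2 := Cl_hd INe_Q0 y
  have d3 := Cl_hd INe_L0 y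
  have d4 := Cl_hd hp.cP y
  have d5 := Cl_hd (E_cl hp) y
  have d6 := Cl_hd hv y
  have d7 : HasDerivAt (hf P E (3 * c0 * r ^ 4) (f0 * r ^ 4))
      (3 * c0 * r ^ 4 * deriv P y + f0 * r ^ 4 * deriv E y) y :=
    (d4.const_mul _).add (d5.const_mul _)
  have e : ep P E (r ^ 2) W = fun y => hk4 P E w1 r y + ck1 P E w1 r * deriv (Qf 4) y
      + ck2 P E w1 r * Lam 4 (Qf 4) y + (W y - W0 P E w1 r y)
      - (bq (r ^ 2) W * P y + alf (r ^ 2) W * E y) := by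
    funext z
    have := W0_eq P E w1 r z
    unfold ep hf
    linarith
  have d8 := (((d1.add (d2.const_mul (ck1 P E w1 r))).add (d3.const_mul (ck2 P E w1 r))).add d6).sub
    ((d4.const_mul (bq (r ^ 2) W)).add (d5.const_mul (alf (r ^ 2) W)))
  have d9 : HasDerivAt (ep P E (r ^ 2) W) (deriv (hk4 P E w1 r) y + ck1 P E w1 r * deriv (deriv (Qf 4)) y
      + ck2 P E w1 r * deriv (Lam 4 (Qf 4)) y + deriv (fun y => W y - W0 P E w1 r y) y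
      - (bq (r ^ 2) W * deriv P y + alf (r ^ 2) W * deriv E y)) y := by
    rw [e]
    exact d8
  rw [d9.deriv, d7.deriv]
  ring

theorem INe_epeq {w1 r : ℝ} {W : ℝ → ℝ} (y : ℝ) :
    ep P E (r ^ 2) W y =
      (hk4 P E w1 r y - hf P E (3 * c0 * r ^ 4) (f0 * r ^ 4) y)
      + (ck1 P E w1 r * deriv (Qf 4) y + ck2 P E w1 r * Lam 4 (Qf 4) y
      - (bq (r ^ 2) W - 3 * c0 * r ^ 4) * P y - (alf (r ^ 2) W - f0 * r ^ 4) * E y)
      + (W y - W0 P E w1 r y) := by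
  have := W0_eq P E w1 r y
  unfold ep hf
  linarith

theorem INe_om {B s y : ℝ} (hs : 0 < s) :
    0 ≤ om4 B s y ∧ om4 B s y ≤ 4 * Real.exp 4 * Real.exp (-(2 * s * |y|)) := by
  have hT0 : 0 ≤ Th B y := by unfold Th; positivity
  have hT1 : Th B y ≤ 1 := by
    unfold Th
    rw [div_le_one (by positivity)]
    have := Real.exp_pos (-y / B)
    linarith
  have hZ0 : 0 ≤ Zf (s * y) := by unfold Zf; positivity
  have hZ1 : Zf (s * y) ≤ 4 * Real.exp 4 * Real.exp (-(2 * s * |y|)) := by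
    unfold Zf
    have h1 := Tan_sech_le (s * y - 2)
    have h2 : 0 ≤ 1 / Real.cosh (s * y - 2) := by positivity
    have h3 : |s * y| - 2 ≤ |s * y - 2| := by
      have := abs_sub_abs_le_abs_sub (s * y) 2
      rw [abs_of_pos (by norm_num : (0:ℝ) < 2)] at this
      exact this
    rw [abs_mul, abs_of_pos hs] at h3
    calc (1 / Real.cosh (s * y - 2)) ^ 2 ≤ (2 * Real.exp (-|s * y - 2|)) ^ 2 :=
          pow_le_pow_left₀ h2 h1 2
      _ = 4 * Real.exp (-(2 * |s * y - 2|)) := by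
          rw [mul_pow, ← Real.exp_nat_mul]
          norm_num
      _ ≤ 4 * Real.exp (4 + -(2 * s * |y|)) := by
          have : -(2 * |s * y - 2|) ≤ 4 + -(2 * s * |y|) := by linarith
          have := Real.exp_le_exp.2 this
          linarith
      _ = _ := by rw [Real.exp_add]; ring
  unfold om4
  refine ⟨mul_nonneg hT0 hZ0, ?_⟩
  calc Th B y * Zf (s * y) ≤ 1 * Zf (s * y) := mul_le_mul_of_nonneg_right hT1 hZ0
    _ ≤ _ := by rw [one_mul]; exact hZ1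

theorem INe_y4 {s : ℝ} (hs : 0 < s) (y : ℝ) :
    y ^ 4 * Real.exp (-(2 * s * |y|)) ≤ 24 / s ^ 4 * Real.exp (-(s * |y|)) := by
  have h1 := Real.pow_div_factorial_le_exp (s * |y|) (by positivity) 4
  have h2 : ((4 : ℕ).factorial : ℝ) = 24 := by norm_num [Nat.factorial]
  rw [h2, div_le_iff₀ (by norm_num)] at h1
  have h3 : y ^ 4 = |y| ^ 4 := by rw [← abs_pow, abs_of_nonneg (by positivity)]
  have h4 : Real.exp (-(2 * s * |y|)) = Real.exp (-(s * |y|)) * Real.exp (-(s * |y|)) := by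
    rw [← Real.exp_add]; congr 1; ring
  have h5 : Real.exp (s * |y|) * Real.exp (-(s * |y|)) = 1 := by
    rw [← Real.exp_add]; simp
  have h6 := Real.exp_pos (-(s * |y|))
  rw [h3, h4, div_mul_eq_mul_div, le_div_iff₀ (by positivity)]
  have h7 : (s * |y|) ^ 4 * Real.exp (-(s * |y|)) ≤ 24 := by
    calc _ ≤ (Real.exp (s * |y|) * 24) * Real.exp (-(s * |y|)) := mul_le_mul_of_nonneg_right h1 h6.le
      _ = 24 * (Real.exp (s * |y|) * Real.exp (-(s * |y|))) := by ring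
      _ = 24 := by rw [h5, mul_one]
  calc _ = ((s * |y|) ^ 4 * Real.exp (-(s * |y|))) * Real.exp (-(s * |y|)) := by ring
    _ ≤ 24 * Real.exp (-(s * |y|)) := mul_le_mul_of_nonneg_right h7 h6.le

theorem INe_int {s : ℝ} (hs : 0 < s) : Integrable (fun y : ℝ => Real.exp (-(s * |y|))) ∧
    ∫ y : ℝ, Real.exp (-(s * |y|)) = 2 / s := by
  constructor
  · have := bd_int hs hs
    refine this.congr (Eventually.of_forall fun y => ?_)
    exact bd_abs s y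
  · have h1 := integral_comp_abs (f := fun y => Real.exp (-(s * y)))
    rw [h1]
    have h2 := integral_exp_mul_Ioi (a := -s) (by linarith) 0
    simp only [neg_mul, mul_zero, Real.exp_zero] at h2
    rw [h2]
    field_simp

/-- algebra for the pointwise bound -/
theorem INe_alg {o eL eS F x D1 D2 om dom a b K R : ℝ} (ho0 : 0 ≤ o)
    (hF : F = 4 * Real.exp 4) (ho : o ≤ F * eL) (heL : 0 ≤ eL) (heL1 : eL ≤ 1) (hLS : eL ≤ eS)
    (hR : 0 ≤ R)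
    (ha : |a| ≤ K * x) (hb : |b| ≤ K * x)
    (hD1 : D1 ^ 2 * eL ≤ R * eS) (hD2 : D2 ^ 2 ≤ R) :
    o * ((D1 + a + om) ^ 2 + (D2 + b + dom) ^ 2) ≤
      (3 * F * (2 * R + 2 * K ^ 2 * x ^ 2)) * eS + 3 * F * (om ^ 2 + dom ^ 2) := by
  have hF0 : 0 < F := by rw [hF]; positivity
  have h1 : (D1 + a + om) ^ 2 ≤ 3 * (D1 ^ 2 + a ^ 2 + om ^ 2) := by
    nlinarith [sq_nonneg (D1 - a), sq_nonneg (D1 - om), sq_nonneg (a - om)]
  have h2 : (D2 + b + dom) ^ 2 ≤ 3 * (D2 ^ 2 + b ^ 2 + dom ^ 2) := by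
    nlinarith [sq_nonneg (D2 - b), sq_nonneg (D2 - dom), sq_nonneg (b - dom)]
  have ha2 : a ^ 2 ≤ K ^ 2 * x ^ 2 := by
    rw [← mul_pow, ← sq_abs a]
    exact pow_le_pow_left₀ (abs_nonneg _) ha 2
  have hb2 : b ^ 2 ≤ K ^ 2 * x ^ 2 := by
    rw [← mul_pow, ← sq_abs b]
    exact pow_le_pow_left₀ (abs_nonneg _) hb 2
  have heS : 0 ≤ eS := heL.trans hLS
  have hW0 : 0 ≤ om ^ 2 + dom ^ 2 := by positivity
  have hKx : 0 ≤ K ^ 2 * x ^ 2 := by positivity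
  have h3 : o * ((D1 + a + om) ^ 2 + (D2 + b + dom) ^ 2) ≤
      o * (3 * (D1 ^ 2 + (R + 2 * (K ^ 2 * x ^ 2)) + (om ^ 2 + dom ^ 2))) := by
    apply mul_le_mul_of_nonneg_left _ ho0
    linarith
  have h4 : o * D1 ^ 2 ≤ F * (R * eS) := by
    calc o * D1 ^ 2 ≤ F * eL * D1 ^ 2 := mul_le_mul_of_nonneg_right ho (by positivity)
      _ = F * (D1 ^ 2 * eL) := by ring
      _ ≤ _ := mul_le_mul_of_nonneg_left hD1 hF0.le
  have h5 : o ≤ F * eS := ho.trans (mul_le_mul_of_nonneg_left hLS hF0.le)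
  have h6 : o * (R + 2 * (K ^ 2 * x ^ 2)) ≤ F * eS * (R + 2 * (K ^ 2 * x ^ 2)) :=
    mul_le_mul_of_nonneg_right h5 (by positivity)
  have h7 : o ≤ F := ho.trans (by nlinarith)
  have h8 : o * (om ^ 2 + dom ^ 2) ≤ F * (om ^ 2 + dom ^ 2) := mul_le_mul_of_nonneg_right h7 hW0
  calc _ ≤ _ := h3
    _ = 3 * (o * D1 ^ 2) + 3 * (o * (R + 2 * (K ^ 2 * x ^ 2))) + 3 * (o * (om ^ 2 + dom ^ 2)) := by ring
    _ ≤ 3 * (F * (R * eS)) + 3 * (F * eS * (R + 2 * (K ^ 2 * x ^ 2))) + 3 * (F * (om ^ 2 + dom ^ 2)) := by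
        linarith
    _ = _ := by ring

theorem INe_bd2 {f : ℝ → ℝ} (h : Cl 0 0 f) : ∃ C : ℝ, 0 ≤ C ∧ ∀ y, |f y| ≤ C ∧ |deriv f y| ≤ C := by
  obtain ⟨C, hC, hb⟩ := INe_bd h
  obtain ⟨D, hD, hd⟩ := INe_bd (Cl_der h)
  exact ⟨C + D, by positivity, fun y => ⟨by linarith [hb y], by linarith [hd y]⟩⟩

theorem INe_par {c1 c2 B A q l p e K Cc Cp CQ CL CP CE t x : ℝ}
    (hK : K = Cc * (CQ + CL) + Cp * (CP + CE)) (hCc : 0 ≤ Cc) (hCp : 0 ≤ Cp) (_hCQ : 0 ≤ CQ) (_hCL : 0 ≤ CL)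
    (ht : 0 ≤ t) (htx : t ≤ x) (h1 : |c1| ≤ Cc * t) (h2 : |c2| ≤ Cc * t) (h3 : |B| ≤ Cp * x)
    (h4 : |A| ≤ Cp * x) (hq : |q| ≤ CQ) (hl : |l| ≤ CL) (hp : |p| ≤ CP) (he : |e| ≤ CE) :
    |c1 * q + c2 * l - B * p - A * e| ≤ K * x := by
  have hx : 0 ≤ x := ht.trans htx
  have t1 := abs_sub (c1 * q + c2 * l - B * p) (A * e)
  have t2 := abs_sub (c1 * q + c2 * l) (B * p)
  have t3 := abs_add_le (c1 * q) (c2 * l)
  have u1 : |c1 * q| ≤ (Cc * x) * CQ := by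
    rw [abs_mul]
    exact mul_le_mul (h1.trans (mul_le_mul_of_nonneg_left htx hCc)) hq (abs_nonneg _) (by positivity)
  have u2 : |c2 * l| ≤ (Cc * x) * CL := by
    rw [abs_mul]
    exact mul_le_mul (h2.trans (mul_le_mul_of_nonneg_left htx hCc)) hl (abs_nonneg _) (by positivity)
  have u3 : |B * p| ≤ (Cp * x) * CP := by
    rw [abs_mul]
    exact mul_le_mul h3 hp (abs_nonneg _) (by positivity)
  have u4 : |A * e| ≤ (Cp * x) * CE := by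
    rw [abs_mul]
    exact mul_le_mul h4 he (abs_nonneg _) (by positivity)
  rw [hK]
  linarith

theorem INe_y2 (y : ℝ) : y ^ 2 * Real.exp (-(3 / 4 * |y|)) ≤ 4 := by
  have h1 := Real.pow_div_factorial_le_exp (3 / 4 * |y|) (by positivity) 2
  have h2 : ((2 : ℕ).factorial : ℝ) = 2 := by norm_num [Nat.factorial]
  rw [h2, div_le_iff₀ (by norm_num)] at h1
  have h3 : y ^ 2 = |y| ^ 2 := (sq_abs y).symm
  have h5 : Real.exp (3 / 4 * |y|) * Real.exp (-(3 / 4 * |y|)) = 1 := by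
    rw [← Real.exp_add]; simp
  have h6 := Real.exp_pos (-(3 / 4 * |y|))
  have h7 : (3 / 4 * |y|) ^ 2 * Real.exp (-(3 / 4 * |y|)) ≤ 2 := by
    calc _ ≤ (Real.exp (3 / 4 * |y|) * 2) * Real.exp (-(3 / 4 * |y|)) := mul_le_mul_of_nonneg_right h1 h6.le
      _ = 2 * (Real.exp (3 / 4 * |y|) * Real.exp (-(3 / 4 * |y|))) := by ring
      _ = 2 := by rw [h5, mul_one]
  rw [h3]
  nlinarith

theorem G4_pert (hp : Prof P E) {w1 : ℝ} (h : 0 < w1) {B : ℝ} (hB : 16 ≤ B) :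
    ∃ C : ℝ, 1 ≤ C ∧ ∀ (r μ : ℝ) (W : ℝ → ℝ),
    0 < r → r ≤ 1 → 0 < μ → Cl μ μ (fun y => W y - Qf 4 y) →
    Cl μ μ (fun y => W y - W0 P E w1 r y) →
    G4 B (r ^ 2) (ep P E (r ^ 2) W) ≤ C * (r ^ 22 + ne2 (fun y => W y - W0 P E w1 r y) / r ^ 2) := by
  obtain ⟨Cp, hCp, hpar⟩ := par_pert hp h
  obtain ⟨Cc, hCc, hck⟩ := ck_le hp h
  obtain ⟨Ch, hCh, hh0⟩ := h0_le hp
  obtain ⟨CQ, hCQ, hQ⟩ := INe_bd2 INe_Q0
  obtain ⟨CL, hCL, hL⟩ := INe_bd2 INe_L0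
  obtain ⟨CP, hCP, hP⟩ := INe_bd2 hp.cP
  obtain ⟨CE, hCE, hE⟩ := INe_bd2 (E_cl hp)
  obtain ⟨K, hK⟩ : ∃ K, K = Cc * (CQ + CL) + Cp * (CP + CE) := ⟨_, rfl⟩
  obtain ⟨R0, hR0⟩ : ∃ R0, R0 = 24 * Ch ^ 2 / w1 ^ 4 + (4 * Ch / w1 ^ 2 + Ch / w1) ^ 2 := ⟨_, rfl⟩
  obtain ⟨F, hF⟩ : ∃ F, F = 4 * Real.exp 4 := ⟨_, rfl⟩
  have hF0 : 0 < F := by rw [hF]; positivity
  have hR0' : 0 ≤ R0 := by rw [hR0]; positivity
  refine ⟨12 * F * R0 + 24 * F * K ^ 2 + 3 * F + 1, ?_, ?_⟩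
  · have t1 : 0 ≤ 12 * F * R0 + 24 * F * K ^ 2 + 3 * F := by positivity
    linarith
  intro r μ W hr hr1 hμ hW hv
  obtain ⟨ga, gb⟩ := hpar r μ W hr hr1 hμ hW hv
  obtain ⟨k1, k2⟩ := hck r hr hr1
  have hNN := INe_nn (fun y => W y - W0 P E w1 r y)
  have hvs := INe_sq hv hμ hμ
  have hvs' := INe_sq (Cl_der hv) hμ hμ
  set N := ne2 (fun y => W y - W0 P E w1 r y) with hNd
  set x := r ^ 16 + √N with hxd
  have hsN : 0 ≤ √N := Real.sqrt_nonneg _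
  have hr20 : (0:ℝ) ≤ r ^ 20 := by positivity
  have h20 : r ^ 20 ≤ x := by
    have : r ^ 20 ≤ r ^ 16 := pow_le_pow_of_le_one hr.le hr1 (by norm_num)
    linarith
  have hs : 0 < r ^ 2 := by positivity
  obtain ⟨iE, eE⟩ := INe_int hs
  have hR24 : 0 ≤ R0 * r ^ 24 := by positivity
  -- the pointwise bound
  have key : ∀ y, om4 B (r ^ 2) y * ((ep P E (r ^ 2) W y) ^ 2 + (deriv (ep P E (r ^ 2) W) y) ^ 2) ≤
      (3 * F * (2 * (R0 * r ^ 24) + 2 * K ^ 2 * x ^ 2)) * Real.exp (-(r ^ 2 * |y|)) +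
        3 * F * ((W y - W0 P E w1 r y) ^ 2 + (deriv (fun y => W y - W0 P E w1 r y) y) ^ 2) := by
    intro y
    obtain ⟨o0, o1⟩ := INe_om (B := B) (y := y) hs
    rw [INe_dep hp h hr hv y, INe_epeq (w1 := w1) y]
    obtain ⟨m1, m2, m3, m4⟩ := hk_le hp (by linarith : 0 ≤ Ch) h hr (hh0 r hr) y
    have hkap := kap_le w1 (r ^ 8 * y)
    refine INe_alg (eL := Real.exp (-(2 * r ^ 2 * |y|))) (F := F) o0 hF ?_ (Real.exp_pos _).le ?_ ?_ hR24 ?_ ?_ ?_ ?_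
    · rw [hF]; exact o1
    · rw [Real.exp_le_one_iff]
      have : 0 ≤ 2 * r ^ 2 * |y| := by positivity
      linarith
    · apply Real.exp_le_exp.2
      have : 0 ≤ r ^ 2 * |y| := by positivity
      linarith
    · exact INe_par hK (by linarith) (by linarith) hCQ hCL hr20 h20 k1 k2 gb ga (hQ y).1 (hL y).1 (hP y).1 (hE y).1
    · exact INe_par hK (by linarith) (by linarith) hCQ hCL hr20 h20 k1 k2 gb ga (hQ y).2 (hL y).2 (hP y).2 (hE y).2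
    · have e1 : (hk4 P E w1 r y - hf P E (3 * c0 * r ^ 4) (f0 * r ^ 4) y) ^ 2 ≤
          (Ch * r ^ 4 * (r ^ 8 * y / w1) ^ 2) ^ 2 := by
        rw [← sq_abs (hk4 P E w1 r y - hf P E (3 * c0 * r ^ 4) (f0 * r ^ 4) y)]
        exact pow_le_pow_left₀ (abs_nonneg _) m2 2
      have e2 : (Ch * r ^ 4 * (r ^ 8 * y / w1) ^ 2) ^ 2 = Ch ^ 2 * r ^ 40 / w1 ^ 4 * y ^ 4 := by
        field_simp
      rw [e2] at e1
      have e3 := INe_y4 hs y
      have e5 : r ^ 32 ≤ r ^ 24 := pow_le_pow_of_le_one hr.le hr1 (by norm_num)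
      have e6 := Real.exp_pos (-(r ^ 2 * |y|))
      calc _ ≤ Ch ^ 2 * r ^ 40 / w1 ^ 4 * y ^ 4 * Real.exp (-(2 * r ^ 2 * |y|)) :=
            mul_le_mul_of_nonneg_right e1 (Real.exp_pos _).le
        _ = Ch ^ 2 * r ^ 40 / w1 ^ 4 * (y ^ 4 * Real.exp (-(2 * r ^ 2 * |y|))) := by ring
        _ ≤ Ch ^ 2 * r ^ 40 / w1 ^ 4 * (24 / (r ^ 2) ^ 4 * Real.exp (-(r ^ 2 * |y|))) :=
            mul_le_mul_of_nonneg_left e3 (by positivity)
        _ = (24 * Ch ^ 2 / w1 ^ 4) * r ^ 32 * Real.exp (-(r ^ 2 * |y|)) := by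
            field_simp
        _ ≤ R0 * r ^ 24 * Real.exp (-(r ^ 2 * |y|)) := by
            apply mul_le_mul_of_nonneg_right _ e6.le
            apply mul_le_mul _ e5 (by positivity) hR0'
            rw [hR0]
            have : 0 ≤ (4 * Ch / w1 ^ 2 + Ch / w1) ^ 2 := by positivity
            linarith
    · have e0 : Ch * r ^ 4 * Real.exp (-(3 / 4 * |y|)) * (r ^ 8 * y / w1) ^ 2 ≤ 4 * Ch / w1 ^ 2 * r ^ 20 := by
        have e2 : Ch * r ^ 4 * Real.exp (-(3 / 4 * |y|)) * (r ^ 8 * y / w1) ^ 2 =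
            Ch / w1 ^ 2 * r ^ 20 * (y ^ 2 * Real.exp (-(3 / 4 * |y|))) := by
          field_simp
        rw [e2]
        calc _ ≤ Ch / w1 ^ 2 * r ^ 20 * 4 := mul_le_mul_of_nonneg_left (INe_y2 y) (by positivity)
          _ = _ := by ring
      have e20 : r ^ 20 ≤ r ^ 12 := pow_le_pow_of_le_one hr.le hr1 (by norm_num)
      have e3 : Ch * r ^ 12 / w1 * kap4 w1 (r ^ 8 * y) ≤ Ch / w1 * r ^ 12 := by
        calc _ ≤ Ch * r ^ 12 / w1 * 1 := mul_le_mul_of_nonneg_left hkap.2 (by positivity)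
          _ = _ := by ring
      have e4 : 4 * Ch / w1 ^ 2 * r ^ 20 ≤ 4 * Ch / w1 ^ 2 * r ^ 12 :=
        mul_le_mul_of_nonneg_left e20 (by positivity)
      have e5 : |deriv (hk4 P E w1 r) y - deriv (hf P E (3 * c0 * r ^ 4) (f0 * r ^ 4)) y| ≤
          (4 * Ch / w1 ^ 2 + Ch / w1) * r ^ 12 := by
        rw [add_mul]
        linarith
      calc _ = |deriv (hk4 P E w1 r) y - deriv (hf P E (3 * c0 * r ^ 4) (f0 * r ^ 4)) y| ^ 2 := (sq_abs _).symm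
        _ ≤ ((4 * Ch / w1 ^ 2 + Ch / w1) * r ^ 12) ^ 2 := pow_le_pow_left₀ (abs_nonneg _) e5 2
        _ = (4 * Ch / w1 ^ 2 + Ch / w1) ^ 2 * r ^ 24 := by ring
        _ ≤ R0 * r ^ 24 := by
            apply mul_le_mul_of_nonneg_right _ (by positivity)
            rw [hR0]
            have : 0 ≤ 24 * Ch ^ 2 / w1 ^ 4 := by positivity
            linarith
  have hint : Integrable (fun y => (3 * F * (2 * (R0 * r ^ 24) + 2 * K ^ 2 * x ^ 2)) * Real.exp (-(r ^ 2 * |y|)) +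
        3 * F * ((W y - W0 P E w1 r y) ^ 2 + (deriv (fun y => W y - W0 P E w1 r y) y) ^ 2)) :=
    (iE.const_mul _).add ((hvs.add hvs').const_mul _)
  have hG : G4 B (r ^ 2) (ep P E (r ^ 2) W) ≤
      (3 * F * (2 * (R0 * r ^ 24) + 2 * K ^ 2 * x ^ 2)) * (2 / r ^ 2) + 3 * F * N := by
    unfold G4
    refine (integral_mono_of_nonneg (Eventually.of_forall fun y => ?_) hint (Eventually.of_forall key)).trans ?_
    · obtain ⟨o0, o1⟩ := INe_om (B := B) (y := y) hs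
      show 0 ≤ om4 B (r ^ 2) y * ((ep P E (r ^ 2) W y) ^ 2 + (deriv (ep P E (r ^ 2) W) y) ^ 2)
      positivity
    · have e1 : ∫ y, ((3 * F * (2 * (R0 * r ^ 24) + 2 * K ^ 2 * x ^ 2)) * Real.exp (-(r ^ 2 * |y|)) +
          3 * F * ((W y - W0 P E w1 r y) ^ 2 + (deriv (fun y => W y - W0 P E w1 r y) y) ^ 2)) =
          (∫ y, (3 * F * (2 * (R0 * r ^ 24) + 2 * K ^ 2 * x ^ 2)) * Real.exp (-(r ^ 2 * |y|))) +
          ∫ y, 3 * F * ((W y - W0 P E w1 r y) ^ 2 + (deriv (fun y => W y - W0 P E w1 r y) y) ^ 2) :=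
        integral_add (iE.const_mul _) ((hvs.add hvs').const_mul _)
      rw [e1, integral_const_mul, integral_const_mul, eE]
      exact le_rfl
  refine hG.trans ?_
  have hx2 : x ^ 2 ≤ 2 * (r ^ 24 + N) := by
    have e1 : x ^ 2 ≤ 2 * (r ^ 32 + N) := by
      have e2 : √N ^ 2 = N := Real.sq_sqrt hNN
      have e3 : r ^ 32 = (r ^ 16) ^ 2 := by ring
      rw [hxd, e3]
      nlinarith [sq_nonneg (r ^ 16 - √N)]
    have e5 : r ^ 32 ≤ r ^ 24 := pow_le_pow_of_le_one hr.le hr1 (by norm_num)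
    linarith
  have hNr : N ≤ N / r ^ 2 := by
    rw [le_div_iff₀ hs]
    have : r ^ 2 ≤ 1 := pow_le_one₀ hr.le hr1
    nlinarith
  have e7 : r ^ 24 * (2 / r ^ 2) = 2 * r ^ 22 := by field_simp
  have e8 : (3 * F * (2 * (R0 * r ^ 24) + 2 * K ^ 2 * x ^ 2)) * (2 / r ^ 2) ≤
      (3 * F * (2 * (R0 * r ^ 24) + 2 * K ^ 2 * (2 * (r ^ 24 + N)))) * (2 / r ^ 2) := by
    apply mul_le_mul_of_nonneg_right _ (by positivity)
    apply mul_le_mul_of_nonneg_left _ (by positivity)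
    have : 2 * K ^ 2 * x ^ 2 ≤ 2 * K ^ 2 * (2 * (r ^ 24 + N)) :=
      mul_le_mul_of_nonneg_left hx2 (by positivity)
    linarith
  have e9 : (3 * F * (2 * (R0 * r ^ 24) + 2 * K ^ 2 * (2 * (r ^ 24 + N)))) * (2 / r ^ 2) =
      12 * F * R0 * r ^ 22 + 24 * F * K ^ 2 * (r ^ 22 + N / r ^ 2) := by
    field_simp
    ring
  have f1 : 0 ≤ F * R0 * (N / r ^ 2) := by positivity
  have f2 : 0 ≤ F * r ^ 22 := by positivity
  have f3 : 0 ≤ r ^ 22 + N / r ^ 2 := by positivity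
  have f4 : F * N ≤ F * (N / r ^ 2) := mul_le_mul_of_nonneg_left hNr hF0.le
  rw [e9] at e8
  nlinarith

end H68KC

end
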