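import Pool.Agent.H68.KC.INc

/-!
# Row INf (MP_95be7d_K4): front functional, gradient norm and mass of the perturbed datum

`ω = W - W0`, `W - Q = hk4 + ck1 Q' + ck2 ΛQ + ω`.

## Proofs
* `Nn_pert`: `W' = (Q' + hk4' ) + ck1 Q'' + ck2 (ΛQ)' + ω'`, with `|Q'| ≤ C e^{-3|y|/4}` and `|hk4'| ≤ Ch r⁴ e^{-3|y|/4} + Ch r^12/w1 κ` (`hk_le`, `h0_le`).
  `N ≤ 2 ∫ Φ (W0')² + 2 ∫ ω'²` (`0 ≤ Φ ≤ 1`), `∫Φ (W0')² ≤ 4 [C ∫ Φ e^{-3|y|/2} + Ch² r^24/w1² ∫ κ² + C (ck1² + ck2²)]`, `∫κ² ≤ 4 w1/r^8` (`kap_int`).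
  `Φ = Ph (r²) y = 1/(1 + e^{-(y - 1/(2r²))/4})`: for `y ≤ 1/(4r²)`: `Φ ≤ e^{-1/(16 r²)}`; for `y ≥ 1/(4r²)`: `e^{-3y/2} ≤ e^{-3y/4} e^{-3/(16r²)}`;
  and `e^{-1/(16r²)} ≤ C r^16` (`z^8/8! ≤ e^z`). So `N ≤ C1 r^16 + 2 ne2 ω`.
* `X_pert`: `Xn (W-Q) ≤ 4 (∫ hk4'² + ck1² ∫Q''² + ck2² ∫ (ΛQ)'² + ∫ω'²) ≤ C r^8 + 4 ne2 ω` (`∫ hk4'² ≤ 2 Ch² r^8 ∫e^{-3|y|/2} + 2 Ch² r^24/w1² · 4 w1/r^8`).
* `L_pert`: `∫ (W-Q)² ≤ 4 (∫hk4² + ck1²∫Q'² + ck2²∫(ΛQ)² + ∫ω²) ≤ 16 Ch² w1 + C r^40 + 4 ne2 ω` (`hk_int`).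
* `QW_pert`: `(Q, W-Q) = (Q,hk4) + ck1·0 + ck2·0 + (Q,ω)`, `|(Q,hk4)| ≤ Ch r⁴ ∫ Q`.
* `orth_pert`: `ip W Q' = ip ω Q' + ip W0 Q' = ip ω Q'` (`W0_orth`), Cauchy-Schwarz (`cs_int`); same for `ρ`.
The class hypotheses make everything integrable (`Cl_int (Cl_mul ..)`).
-/

open MeasureTheory Filter Topology Set
open scoped ContDiff

noncomputable section

namespace H68KC

open H98KB

variable {P E : ℝ → ℝ}

theorem INf_sq {μ : ℝ} {f : ℝ → ℝ} (hμ : 0 < μ) (hf : Cl μ μ f) :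
    Integrable (fun y => (f y) ^ 2) := by
  have h1 := Cl_int (Cl_mul hf hf) (by linarith) (by linarith)
  refine h1.congr (Eventually.of_forall fun y => ?_)
  show f y * f y = f y ^ 2
  ring

theorem INf_ne {μ : ℝ} {f : ℝ → ℝ} (hμ : 0 < μ) (hf : Cl μ μ f) :
    Integrable (fun y => (f y) ^ 2 + (deriv f y) ^ 2) :=
  (INf_sq hμ hf).add (INf_sq hμ (Cl_der hf))

theorem INf_ne0 {μ : ℝ} {f : ℝ → ℝ} (hμ : 0 < μ) (hf : Cl μ μ f) : (∫ y, (f y) ^ 2) ≤ ne2 f := by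
  unfold ne2
  refine integral_mono (INf_sq hμ hf) (INf_ne hμ hf) fun y => ?_
  show f y ^ 2 ≤ f y ^ 2 + deriv f y ^ 2
  nlinarith [sq_nonneg (deriv f y)]

theorem INf_nn (f : ℝ → ℝ) : 0 ≤ ne2 f := by
  unfold ne2
  exact integral_nonneg fun y => by positivity

theorem INf_b {f : ℝ → ℝ} (hf : Cl (3 / 4) (3 / 4) f) :
    ∃ C : ℝ, 0 ≤ C ∧ ∀ y, |f y| ≤ C * Real.exp (-(3 / 4 * |y|)) := by
  obtain ⟨C, h0, h1⟩ := Cl_bnd hf
  refine ⟨C, h0, fun y => ?_⟩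
  rw [← bd_abs]
  exact h1 y

theorem INf_der (hp : Prof P E) {w1 r : ℝ} (h : 0 < w1) (hr : 0 < r) (y : ℝ) :
    deriv (fun y => W0 P E w1 r y - Qf 4 y) y = deriv (hk4 P E w1 r) y
      + ck1 P E w1 r * deriv (deriv (Qf 4)) y + ck2 P E w1 r * deriv (Lam 4 (Qf 4)) y := by
  have e : (fun y => W0 P E w1 r y - Qf 4 y) = fun y =>
      hk4 P E w1 r y + ck1 P E w1 r * deriv (Qf 4) y + ck2 P E w1 r * Lam 4 (Qf 4) y := by
    funext y; exact W0_eq P E w1 r y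
  rw [e]
  exact (((Cl_hd (hk_cl hp h hr) y).add ((Cl_hd (Sol2_Cd (k := 4) INc_k) y).const_mul _)).add
    ((Cl_hd PRg_Lam y).const_mul _)).deriv

theorem INf_pt (hp : Prof P E) {w1 : ℝ} (h : 0 < w1) : ∃ C : ℝ, 1 ≤ C ∧ ∀ r, 0 < r → r ≤ 1 → ∀ y,
    |deriv (fun y => W0 P E w1 r y - Qf 4 y) y| ≤ C * r ^ 4 * Real.exp (-(3 / 4 * |y|))
      + C * r ^ 12 * kap4 w1 (r ^ 8 * y) := by
  obtain ⟨Ch, hCh1, hCh⟩ := h0_le hp
  obtain ⟨Ck, hCk1, hCk⟩ := ck_le hp h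
  obtain ⟨A, hA0, hA⟩ := INf_b (Cl_mono (Cl_der (Sol2_Cd (k := 4) INc_k)) (by norm_num) (by norm_num))
  obtain ⟨B, hB0, hB⟩ := INf_b (Cl_der PRe_CL)
  have hCh0 : 0 ≤ Ch := by linarith
  have hCk0 : 0 ≤ Ck := by linarith
  have c1 : 0 ≤ Ch / w1 := by positivity
  have c2 : 0 ≤ Ck * A := by positivity
  have c3 : 0 ≤ Ck * B := by positivity
  refine ⟨Ch + Ch / w1 + Ck * A + Ck * B, by linarith, fun r hr hr1 y => ?_⟩
  rw [INf_der hp h hr]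
  have h2 := (hk_le hp hCh0 h hr (hCh r hr) y).2.2.1
  obtain ⟨k1, k2⟩ := hCk r hr hr1
  have hE := Real.exp_pos (-(3 / 4 * |y|))
  have hk := (kap_le w1 (r ^ 8 * y)).1
  have h20 : r ^ 20 ≤ r ^ 4 := pow_le_pow_of_le_one hr.le hr1 (by norm_num)
  have k3 : |ck1 P E w1 r| ≤ Ck * r ^ 4 := k1.trans (mul_le_mul_of_nonneg_left h20 hCk0)
  have k4 : |ck2 P E w1 r| ≤ Ck * r ^ 4 := k2.trans (mul_le_mul_of_nonneg_left h20 hCk0)
  have a1 : |ck1 P E w1 r * deriv (deriv (Qf 4)) y| ≤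
      Ck * r ^ 4 * (A * Real.exp (-(3 / 4 * |y|))) := by
    rw [abs_mul]
    exact mul_le_mul k3 (hA y) (abs_nonneg _) (by positivity)
  have a2 : |ck2 P E w1 r * deriv (Lam 4 (Qf 4)) y| ≤
      Ck * r ^ 4 * (B * Real.exp (-(3 / 4 * |y|))) := by
    rw [abs_mul]
    exact mul_le_mul k4 (hB y) (abs_nonneg _) (by positivity)
  have a3 := abs_add_le (deriv (hk4 P E w1 r) y + ck1 P E w1 r * deriv (deriv (Qf 4)) y)
    (ck2 P E w1 r * deriv (Lam 4 (Qf 4)) y)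
  have a4 := abs_add_le (deriv (hk4 P E w1 r) y) (ck1 P E w1 r * deriv (deriv (Qf 4)) y)
  have p1 : 0 ≤ Ch / w1 * (r ^ 4 * Real.exp (-(3 / 4 * |y|))) := by positivity
  have p2 : 0 ≤ (Ch + Ck * A + Ck * B) * (r ^ 12 * kap4 w1 (r ^ 8 * y)) := by positivity
  have e1 : Ch * r ^ 12 / w1 * kap4 w1 (r ^ 8 * y) = Ch / w1 * r ^ 12 * kap4 w1 (r ^ 8 * y) := by ring
  rw [e1] at h2
  nlinarith

theorem INf_quad {D a b : ℝ} (h : |D| ≤ a + b) : D ^ 2 ≤ 2 * a ^ 2 + 2 * b ^ 2 := by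
  have h1 : D ^ 2 ≤ (a + b) ^ 2 := by
    rw [← sq_abs D]
    exact pow_le_pow_left₀ (abs_nonneg _) h 2
  nlinarith [sq_nonneg (a - b)]

theorem INf_esq (y : ℝ) : Real.exp (-(3 / 4 * |y|)) ^ 2 = bd (3 / 2) (3 / 2) y := by
  rw [bd_abs, ← Real.exp_nat_mul]
  congr 1
  push_cast
  ring

theorem INf_split (hp : Prof P E) {w1 r μ : ℝ} {W : ℝ → ℝ} (h : 0 < w1) (hr : 0 < r)
    (hW : Cl μ μ (fun y => W y - W0 P E w1 r y)) (y : ℝ) :
    deriv (fun y => W y - Qf 4 y) y = deriv (fun y => W0 P E w1 r y - Qf 4 y) y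
      + deriv (fun y => W y - W0 P E w1 r y) y := by
  have e : (fun y => W y - Qf 4 y) = fun y => (W0 P E w1 r y - Qf 4 y) + (W y - W0 P E w1 r y) := by
    funext y; ring
  rw [e]
  exact ((Cl_hd (W0_cl hp h hr) y).add (Cl_hd hW y)).deriv

theorem INf_splitW (hp : Prof P E) {w1 r μ : ℝ} {W : ℝ → ℝ} (h : 0 < w1) (hr : 0 < r)
    (hW : Cl μ μ (fun y => W y - W0 P E w1 r y)) (y : ℝ) :
    deriv W y = (deriv (Qf 4) y + deriv (fun y => W0 P E w1 r y - Qf 4 y) y)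
      + deriv (fun y => W y - W0 P E w1 r y) y := by
  have e : W = fun y => (Qf 4 y + (W0 P E w1 r y - Qf 4 y)) + (W y - W0 P E w1 r y) := by
    funext y; ring
  have h1 := (((Cl_hd (Cl_Qf (k := 4) INc_k) y).add (Cl_hd (W0_cl hp h hr) y)).add (Cl_hd hW y)).deriv
  calc deriv W y = deriv (fun y => (Qf 4 y + (W0 P E w1 r y - Qf 4 y)) + (W y - W0 P E w1 r y)) y := by
        rw [← e]
    _ = _ := h1

/-- integral of the dominating function -/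
theorem INf_dom {w1 r a b c p : ℝ} {v : ℝ → ℝ} {μ : ℝ} (h : 0 < w1) (hr : 0 < r) (hp : 0 < p)
    (hb : 0 ≤ b) (hμ : 0 < μ) (hv : Cl μ μ v) {F : ℝ → ℝ} (hF0 : ∀ y, 0 ≤ F y)
    (hF : ∀ y, F y ≤ a * bd p p y + b * (kap4 w1 (r ^ 8 * y)) ^ 2
      + c * ((v y) ^ 2 + (deriv v y) ^ 2)) :
    (∫ y, F y) ≤ a * (∫ y, bd p p y) + b * (4 * w1 / r ^ 8) + c * ne2 v := by
  obtain ⟨k1, k2⟩ := kap_int (r := r) h hr
  have i1 : Integrable (fun y => a * bd p p y) := (bd_int hp hp).const_mul a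
  have i2 : Integrable (fun y => b * (kap4 w1 (r ^ 8 * y)) ^ 2) := k1.const_mul b
  have i3 : Integrable (fun y => c * ((v y) ^ 2 + (deriv v y) ^ 2)) := (INf_ne hμ hv).const_mul c
  have i4 : Integrable (fun y => a * bd p p y + b * (kap4 w1 (r ^ 8 * y)) ^ 2) := i1.add i2
  have h1 : (∫ y, F y) ≤ ∫ y, (a * bd p p y + b * (kap4 w1 (r ^ 8 * y)) ^ 2
      + c * ((v y) ^ 2 + (deriv v y) ^ 2)) :=
    integral_mono_of_nonneg (Eventually.of_forall hF0) (i4.add i3) (Eventually.of_forall hF)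
  rw [integral_add i4 i3, integral_add i1 i2, integral_const_mul, integral_const_mul,
    integral_const_mul] at h1
  have h2 := mul_le_mul_of_nonneg_left k2 hb
  unfold ne2
  linarith

theorem INf_exp {r : ℝ} (hr : 0 < r) : Real.exp (-(1 / (8 * r ^ 2))) ≤ 40320 * 8 ^ 8 * r ^ 16 := by
  have hz : 0 ≤ 1 / (8 * r ^ 2) := by positivity
  have h1 := Real.pow_div_factorial_le_exp (1 / (8 * r ^ 2)) hz 8
  have h2 : ((Nat.factorial 8 : ℕ) : ℝ) = 40320 := by norm_num [Nat.factorial]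
  rw [h2] at h1
  rw [Real.exp_neg]
  have h3 : 0 < (1 / (8 * r ^ 2)) ^ 8 / 40320 := by positivity
  have h4 := inv_anti₀ h3 h1
  refine h4.trans (le_of_eq ?_)
  field_simp

theorem INf_Th (y : ℝ) : 0 < Th 4 y ∧ Th 4 y < 1 := by
  have h1 := Real.exp_pos (-y / 4)
  unfold Th
  refine ⟨by positivity, ?_⟩
  rw [div_lt_one (by positivity)]
  linarith

theorem INf_Ph {r : ℝ} (hr : 0 < r) (y : ℝ) : 0 < Ph (r ^ 2) y ∧ Ph (r ^ 2) y < 1 ∧
    Ph (r ^ 2) y * bd (3 / 2) (3 / 2) y ≤ 40320 * 8 ^ 8 * r ^ 16 * bd (5 / 4) (5 / 4) y := by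
  refine ⟨(INf_Th _).1, (INf_Th _).2, ?_⟩
  have h1 : Ph (r ^ 2) y ≤ Real.exp ((y - 1 / (2 * r ^ 2)) / 4) := by
    unfold Ph Th
    have h2 := Real.exp_pos (-(y - 1 / (2 * r ^ 2)) / 4)
    rw [div_le_iff₀ (by positivity), mul_add, ← Real.exp_add]
    have h3 : (y - 1 / (2 * r ^ 2)) / 4 + -(y - 1 / (2 * r ^ 2)) / 4 = 0 := by ring
    rw [h3, Real.exp_zero]
    have h4 := Real.exp_pos ((y - 1 / (2 * r ^ 2)) / 4)
    linarith
  have h5 := mul_le_mul_of_nonneg_right h1 (bd_pos (3 / 2) (3 / 2) y).le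
  refine h5.trans ?_
  have h6 : Real.exp ((y - 1 / (2 * r ^ 2)) / 4) * bd (3 / 2) (3 / 2) y ≤
      Real.exp (-(1 / (8 * r ^ 2))) * bd (5 / 4) (5 / 4) y := by
    rw [bd_abs, bd_abs, ← Real.exp_add, ← Real.exp_add]
    apply Real.exp_le_exp.mpr
    have e : 1 / (8 * r ^ 2) = 1 / (2 * r ^ 2) / 4 := by
      field_simp
      norm_num
    rw [e]
    have := le_abs_self y
    linarith
  refine h6.trans ?_
  exact mul_le_mul_of_nonneg_right (INf_exp hr) (bd_pos _ _ _).le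

theorem Nn_pert (hp : Prof P E) {w1 : ℝ} (h : 0 < w1) : ∃ C : ℝ, 1 ≤ C ∧ ∀ (r μ : ℝ) (W : ℝ → ℝ),
    0 < r → r ≤ 1 → 0 < μ → Cl μ μ (fun y => W y - Qf 4 y) →
    Cl μ μ (fun y => W y - W0 P E w1 r y) →
    Nn (r ^ 2) W ≤ C * r ^ 16 + 2 * ne2 (fun y => W y - W0 P E w1 r y) := by
  obtain ⟨C, hC1, hC⟩ := INf_pt hp h
  obtain ⟨A, hA0, hA⟩ := INf_b (Cl_mono (Sol2_Cd (k := 4) INc_k) (by norm_num) (by norm_num))
  have hI : 0 ≤ ∫ y, bd (5 / 4) (5 / 4) y := integral_nonneg fun y => (bd_pos _ _ _).le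
  refine ⟨1 + 4 * (A + C) ^ 2 * (40320 * 8 ^ 8) * (∫ y, bd (5 / 4) (5 / 4) y)
    + 16 * C ^ 2 * w1, ?_, fun r μ W hr hr1 hμ _ hW => ?_⟩
  · have a1 : 0 ≤ 4 * (A + C) ^ 2 * (40320 * 8 ^ 8) * (∫ y, bd (5 / 4) (5 / 4) y) := by positivity
    have a2 : 0 ≤ 16 * C ^ 2 * w1 := by positivity
    linarith
  · unfold Nn
    have hdom := INf_dom (a := 4 * (A + C) ^ 2 * (40320 * 8 ^ 8 * r ^ 16)) (b := 4 * C ^ 2 * r ^ 24)
      (c := 2) (p := 5 / 4) (v := fun y => W y - W0 P E w1 r y) (μ := μ) h hr (by norm_num)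
      (by positivity) hμ hW
      (F := fun y => Ph (r ^ 2) y * (deriv W y) ^ 2)
      (fun y => mul_nonneg (INf_Ph hr y).1.le (sq_nonneg _)) (fun y => ?_)
    · refine hdom.trans ?_
      have e1 : 4 * C ^ 2 * r ^ 24 * (4 * w1 / r ^ 8) = 16 * C ^ 2 * w1 * r ^ 16 := by
        field_simp
        ring
      rw [e1]
      have h16 : 0 ≤ r ^ 16 := by positivity
      nlinarith
    · show Ph (r ^ 2) y * (deriv W y) ^ 2 ≤ _
      obtain ⟨f0, f1, f2⟩ := INf_Ph hr y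
      rw [INf_splitW hp h hr hW y]
      have b1 := hC r hr hr1 y
      have b2 := hA y
      have hE := Real.exp_pos (-(3 / 4 * |y|))
      have hk := (kap_le w1 (r ^ 8 * y)).1
      have hr4 : r ^ 4 ≤ 1 := pow_le_one₀ hr.le hr1
      have b3 : |deriv (Qf 4) y + deriv (fun y => W0 P E w1 r y - Qf 4 y) y| ≤
          (A + C) * Real.exp (-(3 / 4 * |y|)) + C * r ^ 12 * kap4 w1 (r ^ 8 * y) := by
        refine (abs_add_le _ _).trans ?_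
        have b4 : C * r ^ 4 * Real.exp (-(3 / 4 * |y|)) ≤ C * Real.exp (-(3 / 4 * |y|)) := by
          refine mul_le_mul_of_nonneg_right ?_ hE.le
          nlinarith
        linarith
      have b5 := INf_quad b3
      have b6 : ((A + C) * Real.exp (-(3 / 4 * |y|))) ^ 2 = (A + C) ^ 2 * bd (3 / 2) (3 / 2) y := by
        rw [mul_pow, INf_esq]
      rw [b6] at b5
      have b7 : (deriv (Qf 4) y + deriv (fun y => W0 P E w1 r y - Qf 4 y) y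
          + deriv (fun y => W y - W0 P E w1 r y) y) ^ 2 ≤
          2 * (deriv (Qf 4) y + deriv (fun y => W0 P E w1 r y - Qf 4 y) y) ^ 2
          + 2 * (deriv (fun y => W y - W0 P E w1 r y) y) ^ 2 := by
        nlinarith [sq_nonneg ((deriv (Qf 4) y + deriv (fun y => W0 P E w1 r y - Qf 4 y) y)
          - deriv (fun y => W y - W0 P E w1 r y) y)]
      have b8 : (deriv (Qf 4) y + deriv (fun y => W0 P E w1 r y - Qf 4 y) y
          + deriv (fun y => W y - W0 P E w1 r y) y) ^ 2 ≤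
          4 * ((A + C) ^ 2 * bd (3 / 2) (3 / 2) y)
          + 4 * (C * r ^ 12 * kap4 w1 (r ^ 8 * y)) ^ 2
          + 2 * (deriv (fun y => W y - W0 P E w1 r y) y) ^ 2 := by linarith
      refine (mul_le_mul_of_nonneg_left b8 f0.le).trans ?_
      have g1 := mul_le_mul_of_nonneg_left f2 (by positivity : 0 ≤ 4 * (A + C) ^ 2)
      have g2 : Ph (r ^ 2) y * (4 * (C * r ^ 12 * kap4 w1 (r ^ 8 * y)) ^ 2) ≤
          4 * (C * r ^ 12 * kap4 w1 (r ^ 8 * y)) ^ 2 :=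
        mul_le_of_le_one_left (by positivity) f1.le
      have g3 : Ph (r ^ 2) y * (2 * (deriv (fun y => W y - W0 P E w1 r y) y) ^ 2) ≤
          2 * (deriv (fun y => W y - W0 P E w1 r y) y) ^ 2 :=
        mul_le_of_le_one_left (by positivity) f1.le
      have g4 : 0 ≤ 2 * (W y - W0 P E w1 r y) ^ 2 := by positivity
      have g5 : 4 * (C * r ^ 12 * kap4 w1 (r ^ 8 * y)) ^ 2 =
          4 * C ^ 2 * r ^ 24 * (kap4 w1 (r ^ 8 * y)) ^ 2 := by ring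
      linarith

theorem X_pert (hp : Prof P E) {w1 : ℝ} (h : 0 < w1) : ∃ C : ℝ, 1 ≤ C ∧ ∀ (r μ : ℝ) (W : ℝ → ℝ),
    0 < r → r ≤ 1 → 0 < μ → Cl μ μ (fun y => W y - Qf 4 y) →
    Cl μ μ (fun y => W y - W0 P E w1 r y) →
    Xn (fun y => W y - Qf 4 y) ≤ C * r ^ 8 + 4 * ne2 (fun y => W y - W0 P E w1 r y) := by
  obtain ⟨C, hC1, hC⟩ := INf_pt hp h
  have hI : 0 ≤ ∫ y, bd (3 / 2) (3 / 2) y := integral_nonneg fun y => (bd_pos _ _ _).le
  refine ⟨1 + 4 * C ^ 2 * (∫ y, bd (3 / 2) (3 / 2) y) + 16 * C ^ 2 * w1, ?_,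
    fun r μ W hr hr1 hμ _ hW => ?_⟩
  · have a1 : 0 ≤ 4 * C ^ 2 * (∫ y, bd (3 / 2) (3 / 2) y) := by positivity
    have a2 : 0 ≤ 16 * C ^ 2 * w1 := by positivity
    linarith
  · unfold Xn
    have hdom := INf_dom (a := 4 * C ^ 2 * r ^ 8) (b := 4 * C ^ 2 * r ^ 24)
      (c := 2) (p := 3 / 2) (v := fun y => W y - W0 P E w1 r y) (μ := μ) h hr (by norm_num)
      (by positivity) hμ hW
      (F := fun y => (deriv (fun y => W y - Qf 4 y) y) ^ 2)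
      (fun y => sq_nonneg _) (fun y => ?_)
    · refine hdom.trans ?_
      have e1 : 4 * C ^ 2 * r ^ 24 * (4 * w1 / r ^ 8) = 16 * C ^ 2 * w1 * r ^ 16 := by
        field_simp
        ring
      rw [e1]
      have h16 : r ^ 16 ≤ r ^ 8 := pow_le_pow_of_le_one hr.le hr1 (by norm_num)
      have h8 : 0 ≤ r ^ 8 := by positivity
      have h9 := INf_nn (fun y => W y - W0 P E w1 r y)
      have h10 := mul_le_mul_of_nonneg_left h16 (by positivity : 0 ≤ 16 * C ^ 2 * w1)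
      nlinarith
    · show (deriv (fun y => W y - Qf 4 y) y) ^ 2 ≤ _
      rw [INf_split hp h hr hW y]
      have b5 := INf_quad (hC r hr hr1 y)
      have b6 : (C * r ^ 4 * Real.exp (-(3 / 4 * |y|))) ^ 2 = C ^ 2 * r ^ 8 * bd (3 / 2) (3 / 2) y := by
        rw [mul_pow, INf_esq]
        ring
      rw [b6] at b5
      have b7 : (deriv (fun y => W0 P E w1 r y - Qf 4 y) y
          + deriv (fun y => W y - W0 P E w1 r y) y) ^ 2 ≤
          2 * (deriv (fun y => W0 P E w1 r y - Qf 4 y) y) ^ 2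
          + 2 * (deriv (fun y => W y - W0 P E w1 r y) y) ^ 2 := by
        nlinarith [sq_nonneg ((deriv (fun y => W0 P E w1 r y - Qf 4 y) y)
          - deriv (fun y => W y - W0 P E w1 r y) y)]
      have g4 : 0 ≤ 2 * (W y - W0 P E w1 r y) ^ 2 := by positivity
      have g5 : (C * r ^ 12 * kap4 w1 (r ^ 8 * y)) ^ 2 =
          C ^ 2 * r ^ 24 * (kap4 w1 (r ^ 8 * y)) ^ 2 := by ring
      rw [g5] at b5
      linarith

theorem L_pert (hp : Prof P E) : ∃ Ch : ℝ, 1 ≤ Ch ∧ ∀ w1 : ℝ, 0 < w1 → ∃ C : ℝ, 1 ≤ C ∧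
    ∀ (r μ : ℝ) (W : ℝ → ℝ),
    0 < r → r ≤ 1 → 0 < μ → Cl μ μ (fun y => W y - Qf 4 y) →
    Cl μ μ (fun y => W y - W0 P E w1 r y) →
    (∫ y, (W y - Qf 4 y) ^ 2) ≤ 16 * Ch ^ 2 * w1 + C * r ^ 40
      + 4 * ne2 (fun y => W y - W0 P E w1 r y) := by
  obtain ⟨Ch, hCh1, hCh⟩ := h0_le hp
  refine ⟨Ch, hCh1, fun w1 h => ?_⟩
  obtain ⟨Ck, hCk1, hCk⟩ := ck_le hp h
  have hCh0 : 0 ≤ Ch := by linarith
  have j1 : 0 ≤ ∫ y, (deriv (Qf 4) y) ^ 2 := integral_nonneg fun y => sq_nonneg _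
  have j2 : 0 ≤ ∫ y, (Lam 4 (Qf 4) y) ^ 2 := integral_nonneg fun y => sq_nonneg _
  refine ⟨1 + 4 * Ck ^ 2 * ((∫ y, (deriv (Qf 4) y) ^ 2) + ∫ y, (Lam 4 (Qf 4) y) ^ 2), ?_,
    fun r μ W hr hr1 hμ _ hW => ?_⟩
  · have a1 : 0 ≤ 4 * Ck ^ 2 * ((∫ y, (deriv (Qf 4) y) ^ 2) + ∫ y, (Lam 4 (Qf 4) y) ^ 2) := by
      positivity
    linarith
  · obtain ⟨k1, k2⟩ := hCk r hr hr1
    have q1 : (ck1 P E w1 r) ^ 2 ≤ Ck ^ 2 * r ^ 40 := by
      have := pow_le_pow_left₀ (abs_nonneg _) k1 2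
      rw [sq_abs] at this
      refine this.trans (le_of_eq ?_)
      ring
    have q2 : (ck2 P E w1 r) ^ 2 ≤ Ck ^ 2 * r ^ 40 := by
      have := pow_le_pow_left₀ (abs_nonneg _) k2 2
      rw [sq_abs] at this
      refine this.trans (le_of_eq ?_)
      ring
    have hr8 : 0 < r ^ 8 / w1 := by positivity
    have i1 : Integrable (fun y => 4 * (hk4 P E w1 r y) ^ 2) :=
      (INf_sq hr8 (hk_cl hp h hr)).const_mul 4
    have i2 : Integrable (fun y => 4 * (ck1 P E w1 r) ^ 2 * (deriv (Qf 4) y) ^ 2) :=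
      (INf_sq zero_lt_one (Sol2_Cd (k := 4) INc_k)).const_mul _
    have i3 : Integrable (fun y => 4 * (ck2 P E w1 r) ^ 2 * (Lam 4 (Qf 4) y) ^ 2) :=
      (INf_sq (by norm_num) PRg_Lam).const_mul _
    have i4 : Integrable (fun y => 4 * (W y - W0 P E w1 r y) ^ 2) :=
      (INf_sq hμ hW).const_mul 4
    have i12 : Integrable (fun y => 4 * (hk4 P E w1 r y) ^ 2
        + 4 * (ck1 P E w1 r) ^ 2 * (deriv (Qf 4) y) ^ 2) := i1.add i2
    have i123 : Integrable (fun y => 4 * (hk4 P E w1 r y) ^ 2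
        + 4 * (ck1 P E w1 r) ^ 2 * (deriv (Qf 4) y) ^ 2
        + 4 * (ck2 P E w1 r) ^ 2 * (Lam 4 (Qf 4) y) ^ 2) := i12.add i3
    have h1 : (∫ y, (W y - Qf 4 y) ^ 2) ≤ ∫ y, (4 * (hk4 P E w1 r y) ^ 2
        + 4 * (ck1 P E w1 r) ^ 2 * (deriv (Qf 4) y) ^ 2
        + 4 * (ck2 P E w1 r) ^ 2 * (Lam 4 (Qf 4) y) ^ 2
        + 4 * (W y - W0 P E w1 r y) ^ 2) := by
      refine integral_mono_of_nonneg (Eventually.of_forall fun y => sq_nonneg _) (i123.add i4)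
        (Eventually.of_forall fun y => ?_)
      show (W y - Qf 4 y) ^ 2 ≤ 4 * (hk4 P E w1 r y) ^ 2
        + 4 * (ck1 P E w1 r) ^ 2 * (deriv (Qf 4) y) ^ 2
        + 4 * (ck2 P E w1 r) ^ 2 * (Lam 4 (Qf 4) y) ^ 2
        + 4 * (W y - W0 P E w1 r y) ^ 2
      have e1 : W y - Qf 4 y = hk4 P E w1 r y + ck1 P E w1 r * deriv (Qf 4) y
          + ck2 P E w1 r * Lam 4 (Qf 4) y + (W y - W0 P E w1 r y) := by
        rw [← W0_eq]
        ring
      rw [e1]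
      have key : ∀ a b c d : ℝ, (a + b + c + d) ^ 2 ≤ 4 * a ^ 2 + 4 * b ^ 2 + 4 * c ^ 2 + 4 * d ^ 2 := by
        intro a b c d
        nlinarith [sq_nonneg (a - b), sq_nonneg (a - c), sq_nonneg (a - d), sq_nonneg (b - c),
          sq_nonneg (b - d), sq_nonneg (c - d)]
      refine (key _ _ _ _).trans (le_of_eq ?_)
      ring
    rw [integral_add i123 i4, integral_add i12 i3, integral_add i1 i2, integral_const_mul,
      integral_const_mul, integral_const_mul, integral_const_mul] at h1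
    have h2 := hk_int hp hCh0 h hr (fun y => (hk_le hp hCh0 h hr (hCh r hr) y).1)
    have h3 := INf_ne0 hμ hW
    have h4 := mul_le_mul_of_nonneg_right q1 j1
    have h5 := mul_le_mul_of_nonneg_right q2 j2
    have h6 : 0 ≤ r ^ 40 := by positivity
    nlinarith

/-- Cauchy-Schwarz against a fixed function -/
theorem INf_cs {μ : ℝ} {v φ : ℝ → ℝ} (hμ : 0 < μ) (hv : Cl μ μ v) (hφ : Cl 1 1 φ) :
    Integrable (fun y => v y * φ y) ∧ |∫ y, v y * φ y| ≤ √(∫ y, (φ y) ^ 2) * √(ne2 v) := by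
  obtain ⟨h1, h2⟩ := cs_int (Cl_cont hv) (Cl_cont hφ) (INf_sq hμ hv) (INf_sq zero_lt_one hφ)
  refine ⟨h1, h2.trans ?_⟩
  rw [mul_comm]
  exact mul_le_mul_of_nonneg_left (Real.sqrt_le_sqrt (INf_ne0 hμ hv)) (Real.sqrt_nonneg _)

theorem QW_pert (hp : Prof P E) {w1 : ℝ} (h : 0 < w1) : ∃ C : ℝ, 1 ≤ C ∧ ∀ (r μ : ℝ) (W : ℝ → ℝ),
    0 < r → r ≤ 1 → 0 < μ → Cl μ μ (fun y => W y - Qf 4 y) →
    Cl μ μ (fun y => W y - W0 P E w1 r y) →
    |ip (Qf 4) (fun y => W y - Qf 4 y)| ≤ C * (r ^ 4 + √(ne2 (fun y => W y - W0 P E w1 r y))) := by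
  obtain ⟨Ch, hCh1, hCh⟩ := h0_le hp
  obtain ⟨Ck, hCk1, hCk⟩ := ck_le hp h
  have hCh0 : 0 ≤ Ch := by linarith
  have hCk0 : 0 ≤ Ck := by linarith
  obtain ⟨A, hA0, hA⟩ := Cl_bnd (Cl_mono (Sol2_Cd (k := 4) INc_k) zero_le_one zero_le_one)
  obtain ⟨B, hB0, hB⟩ := Cl_bnd (Cl_mono PRe_CL (p' := 0) (q' := 0) (by norm_num) (by norm_num))
  have cQ : Cl 1 1 (Qf 4) := Cl_Qf (k := 4) INc_k
  have iQ : Integrable (fun y => |Qf 4 y|) := (Cl_int cQ zero_lt_one zero_lt_one).abs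
  have hI : 0 ≤ ∫ y, |Qf 4 y| := integral_nonneg fun y => abs_nonneg _
  have hs := Real.sqrt_nonneg (∫ y, (Qf 4 y) ^ 2)
  have hm : 0 ≤ (Ch + Ck * A + Ck * B) * ∫ y, |Qf 4 y| := by positivity
  refine ⟨1 + (Ch + Ck * A + Ck * B) * (∫ y, |Qf 4 y|) + √(∫ y, (Qf 4 y) ^ 2), by linarith,
    fun r μ W hr hr1 hμ _ hW => ?_⟩
  obtain ⟨k1, k2⟩ := hCk r hr hr1
  have h20 : r ^ 20 ≤ r ^ 4 := pow_le_pow_of_le_one hr.le hr1 (by norm_num)
  have k3 : |ck1 P E w1 r| ≤ Ck * r ^ 4 := k1.trans (mul_le_mul_of_nonneg_left h20 hCk0)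
  have k4 : |ck2 P E w1 r| ≤ Ck * r ^ 4 := k2.trans (mul_le_mul_of_nonneg_left h20 hCk0)
  have hpt : ∀ y, |W0 P E w1 r y - Qf 4 y| ≤ (Ch + Ck * A + Ck * B) * r ^ 4 := by
    intro y
    rw [W0_eq]
    have g1 := (hk_le hp hCh0 h hr (hCh r hr) y).1
    have hk := (kap_le w1 (r ^ 8 * y)).2
    have g2 : Ch * r ^ 4 * kap4 w1 (r ^ 8 * y) ≤ Ch * r ^ 4 * 1 :=
      mul_le_mul_of_nonneg_left hk (by positivity)
    have a0 := hA y
    have b0 := hB y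
    rw [bd_zero, mul_one] at a0 b0
    have a1 : |ck1 P E w1 r * deriv (Qf 4) y| ≤ Ck * r ^ 4 * A := by
      rw [abs_mul]
      exact mul_le_mul k3 a0 (abs_nonneg _) (by positivity)
    have a2 : |ck2 P E w1 r * Lam 4 (Qf 4) y| ≤ Ck * r ^ 4 * B := by
      rw [abs_mul]
      exact mul_le_mul k4 b0 (abs_nonneg _) (by positivity)
    have a3 := abs_add_le (hk4 P E w1 r y + ck1 P E w1 r * deriv (Qf 4) y)
      (ck2 P E w1 r * Lam 4 (Qf 4) y)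
    have a4 := abs_add_le (hk4 P E w1 r y) (ck1 P E w1 r * deriv (Qf 4) y)
    linarith
  have hm8 : 0 < min (r ^ 8 / w1) (1 / 2) := lt_min (by positivity) (by norm_num)
  have iE : Integrable (fun y => Qf 4 y * (W0 P E w1 r y - Qf 4 y)) :=
    Cl_int (Cl_mul cQ (W0_cl hp h hr)) (by linarith) (by linarith)
  obtain ⟨iO, hO⟩ := INf_cs hμ hW cQ
  have iO' : Integrable (fun y => Qf 4 y * (W y - W0 P E w1 r y)) := by
    refine iO.congr (Eventually.of_forall fun y => ?_)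
    show (W y - W0 P E w1 r y) * Qf 4 y = _
    ring
  have e1 : ip (Qf 4) (fun y => W y - Qf 4 y) = (∫ y, Qf 4 y * (W0 P E w1 r y - Qf 4 y))
      + ∫ y, (W y - W0 P E w1 r y) * Qf 4 y := by
    rw [← integral_add iE iO]
    unfold ip
    congr 1
    funext y
    ring
  rw [e1]
  refine (abs_add_le _ _).trans ?_
  have g5 : |∫ y, Qf 4 y * (W0 P E w1 r y - Qf 4 y)| ≤
      (Ch + Ck * A + Ck * B) * r ^ 4 * ∫ y, |Qf 4 y| := by
    refine abs_integral_le_integral_abs.trans ?_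
    rw [← integral_const_mul]
    refine integral_mono_of_nonneg (Eventually.of_forall fun y => abs_nonneg _)
      (iQ.const_mul _) (Eventually.of_forall fun y => ?_)
    show |Qf 4 y * (W0 P E w1 r y - Qf 4 y)| ≤ (Ch + Ck * A + Ck * B) * r ^ 4 * |Qf 4 y|
    rw [abs_mul, mul_comm]
    exact mul_le_mul_of_nonneg_right (hpt y) (abs_nonneg _)
  have hr4 : 0 ≤ r ^ 4 := by positivity
  have hn := Real.sqrt_nonneg (ne2 (fun y => W y - W0 P E w1 r y))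
  have m1 := mul_nonneg hs hr4
  have m2 := mul_nonneg hm hn
  nlinarith

theorem orth_pert (hp : Prof P E) {w1 : ℝ} (h : 0 < w1) : ∃ C : ℝ, 1 ≤ C ∧ ∀ (r μ : ℝ) (W : ℝ → ℝ),
    0 < r → r ≤ 1 → 0 < μ → Cl μ μ (fun y => W y - Qf 4 y) →
    Cl μ μ (fun y => W y - W0 P E w1 r y) →
    |ip W (deriv (Qf 4))| ≤ C * √(ne2 (fun y => W y - W0 P E w1 r y)) ∧
    |ip (fun y => W y - Qf 4 y) rho| ≤ C * √(ne2 (fun y => W y - W0 P E w1 r y)) := by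
  have hs1 := Real.sqrt_nonneg (∫ y, (deriv (Qf 4) y) ^ 2)
  have hs2 := Real.sqrt_nonneg (∫ y, (rho y) ^ 2)
  refine ⟨1 + √(∫ y, (deriv (Qf 4) y) ^ 2) + √(∫ y, (rho y) ^ 2), by linarith,
    fun r μ W hr _ hμ _ hW => ?_⟩
  have hn := Real.sqrt_nonneg (ne2 (fun y => W y - W0 P E w1 r y))
  have hm8 : 0 ≤ min (r ^ 8 / w1) (1 / 2) := le_min (by positivity) (by norm_num)
  obtain ⟨o1, o2⟩ := W0_orth hp h hr
  have cD : Cl 1 1 (deriv (Qf 4)) := Sol2_Cd (k := 4) INc_k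
  have cQ : Cl 1 1 (Qf 4) := Cl_Qf (k := 4) INc_k
  constructor
  · obtain ⟨iO, hO⟩ := INf_cs hμ hW cD
    have i1 : Integrable (fun y => (W0 P E w1 r y - Qf 4 y) * deriv (Qf 4) y) :=
      MOa_i hm8 hm8 (W0_cl hp h hr) cD
    have i2 : Integrable (fun y => Qf 4 y * deriv (Qf 4) y) := MOa_i zero_le_one zero_le_one cQ cD
    have i3 : Integrable (fun y => W0 P E w1 r y * deriv (Qf 4) y) := by
      refine (i1.add i2).congr (Eventually.of_forall fun y => ?_)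
      show (W0 P E w1 r y - Qf 4 y) * deriv (Qf 4) y + Qf 4 y * deriv (Qf 4) y = _
      ring
    have e1 : ip W (deriv (Qf 4)) = ∫ y, (W y - W0 P E w1 r y) * deriv (Qf 4) y := by
      have e2 : ip W (deriv (Qf 4)) = ip (W0 P E w1 r) (deriv (Qf 4))
          + ∫ y, (W y - W0 P E w1 r y) * deriv (Qf 4) y := by
        unfold ip
        rw [← integral_add i3 iO]
        congr 1
        funext y
        ring
      rw [e2, o1, zero_add]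
    rw [e1]
    refine hO.trans (mul_le_mul_of_nonneg_right ?_ hn)
    linarith
  · obtain ⟨iO, hO⟩ := INf_cs hμ hW MOa_rho
    have i1 : Integrable (fun y => (W0 P E w1 r y - Qf 4 y) * rho y) :=
      MOa_i hm8 hm8 (W0_cl hp h hr) MOa_rho
    have e1 : ip (fun y => W y - Qf 4 y) rho = ∫ y, (W y - W0 P E w1 r y) * rho y := by
      have e2 : ip (fun y => W y - Qf 4 y) rho = ip (fun y => W0 P E w1 r y - Qf 4 y) rho
          + ∫ y, (W y - W0 P E w1 r y) * rho y := by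
        unfold ip
        rw [← integral_add i1 iO]
        congr 1
        funext y
        ring
      rw [e2, o2, zero_add]
    rw [e1]
    refine hO.trans (mul_le_mul_of_nonneg_right ?_ hn)
    linarith

end H68KC

end
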