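import Pool.Agent.H68.KC.If4
import Pool.Agent.H68.KC.MOa

/-!
# Row INg (MP_95be7d_K4): the energy of `W = Q + e`

## Proofs
* `EQ_zero`: `(1/2)∫Q'² = (1/30)∫Q⁶`: `Q'² = Q² - Q⁶/15` (`Q' = -tQ`, `Q⁴ = 15(1-t²)`), and `∫ Q'² = -∫ Q'' Q = -∫ Q² + ∫ Q⁶/5` (`Qf_eq`, `Cl_ibp`).
  Add: `2∫Q'² = ∫Q⁶ (1/5 - 1/15) = (2/15)∫Q⁶`.
* `EW_id`: `W = Q + e`, `e` of class `p q`: `(1/2)∫(Q'+e')² = (1/2)∫Q'² + ∫Q'e' + (1/2)∫e'²`, `∫Q'e' = -∫Q''e = -∫Qe + ∫(Q⁵/5) e` and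
  `(Q+e)⁶/30 = Q⁶/30 + (Q⁵/5) e + bF 4 e` (definition of `bF`, `Fl`, `fl`). So `EW = (1/2) Xn e - ∫ Q e - ∫ bF 4 e`.
* `EW_up`: `|bF 4 e| ≤ C (Q⁴ + |e|⁴) e²` (`bF_le`), `|e| ≤ d ≤ 1`: `|∫ bF| ≤ C ∫ Q⁴ d² + C d⁴ ∫ e²`.
-/

open MeasureTheory Filter Topology Set
open scoped ContDiff

noncomputable section

namespace H68KC

open H98KB

theorem INg_k : 1 ≤ 4 := by norm_num

theorem INg_Q6 : Cl 6 6 (fun y => (Qf 4 y) ^ 6) := by
  have h := Cl_pow (Cl_Qf (k := 4) INg_k) 6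
  exact Cl_mono h (by norm_num) (by norm_num)

theorem INg_Q2 : Cl 2 2 (fun y => (Qf 4 y) ^ 2) := by
  have h := Cl_pow (Cl_Qf (k := 4) INg_k) 2
  exact Cl_mono h (by norm_num) (by norm_num)

theorem EQ_zero : 1 / 2 * (∫ y, (deriv (Qf 4) y) ^ 2) = 1 / 30 * ∫ y, (Qf 4 y) ^ 6 := by
  have hQ := Cl_Qf (k := 4) INg_k
  have i6 := Cl_int INg_Q6 (by norm_num) (by norm_num)
  have i2 := Cl_int INg_Q2 (by norm_num) (by norm_num)
  have e1 : ∫ y, (deriv (Qf 4) y) ^ 2 = (∫ y, (Qf 4 y) ^ 2) - 1 / 15 * ∫ y, (Qf 4 y) ^ 6 := by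
    rw [← integral_const_mul, ← integral_sub i2 (i6.const_mul _)]
    refine integral_congr_ae (Eventually.of_forall fun y => ?_)
    simp only
    have h1 := Qf_pow (k := 4) INg_k y
    have h2 : deriv (Qf 4) y = -(th 4 y) * Qf 4 y := by rw [Qf_deriv INg_k]
    unfold C0 at h1
    push_cast at h1
    rw [h2]
    have h3 : (Qf 4 y) ^ 6 = (Qf 4 y) ^ 4 * (Qf 4 y) ^ 2 := by ring
    rw [h3, h1]
    ring
  have e2 : ∫ y, (deriv (Qf 4) y) ^ 2 = -(∫ y, (Qf 4 y) ^ 2) + 1 / 5 * ∫ y, (Qf 4 y) ^ 6 := by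
    have h1 := ip_Qdd_Q (k := 4) INg_k
    have h2 : ip (deriv (deriv (Qf 4))) (Qf 4) =
        (∫ y, (Qf 4 y) ^ 2) - 1 / 5 * ∫ y, (Qf 4 y) ^ 6 := by
      rw [ip, ← integral_const_mul, ← integral_sub i2 (i6.const_mul _)]
      refine integral_congr_ae (Eventually.of_forall fun y => ?_)
      simp only
      rw [Qf_eq INg_k, fl]
      push_cast
      ring
    linarith
  linarith

theorem EW_id {p q : ℝ} {W : ℝ → ℝ} (hp : 0 < p) (hq : 0 < q) (hp1 : p ≤ 1) (hq1 : q ≤ 1)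
    (hW : Cl p q (fun y => W y - Qf 4 y)) :
    EW W = 1 / 2 * Xn (fun y => W y - Qf 4 y) - ip (Qf 4) (fun y => W y - Qf 4 y)
      - ∫ y, bF 4 (fun y => W y - Qf 4 y) y := by
  have hQ := Cl_Qf (k := 4) INg_k
  have hQd := Cl_der hQ
  set e : ℝ → ℝ := fun y => W y - Qf 4 y with he
  have hed := Cl_der hW
  have hWe : ∀ y, W y = Qf 4 y + e y := fun y => by rw [he]; ring
  have hWd : ∀ y, deriv W y = deriv (Qf 4) y + deriv e y := by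
    intro y
    have h1 : W = fun y => Qf 4 y + e y := funext hWe
    have h2 := ((Cl_hd hQ y).add (Cl_hd hW y)).deriv
    rw [h1]
    exact h2
  have iA : Integrable (fun y => (deriv (Qf 4) y) ^ 2) :=
    Cl_int (Cl_mono (Cl_pow hQd 2) (p' := 1) (q' := 1) (by norm_num) (by norm_num)) one_pos one_pos
  have iB : Integrable (fun y => deriv (Qf 4) y * deriv e y) :=
    Cl_int (Cl_mul hQd hed) (by linarith) (by linarith)
  have iC : Integrable (fun y => (deriv e y) ^ 2) :=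
    Cl_int (Cl_pow' hed hp.le hq.le 2 (by norm_num)) hp hq
  have iD := Cl_int INg_Q6 (by norm_num) (by norm_num)
  have hQ5 : Cl 1 1 (fun y => (Qf 4 y) ^ 5) :=
    Cl_pow' hQ zero_le_one zero_le_one 5 (by norm_num)
  have iE : Integrable (fun y => (Qf 4 y) ^ 5 * e y) :=
    Cl_int (Cl_mul hQ5 hW) (by linarith) (by linarith)
  have iF : Integrable (fun y => bF 4 e y) :=
    Cl_int (Cl_bF INg_k hp.le hq.le hp1 hq1 hW) (by linarith) (by linarith)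
  have iG : Integrable (fun y => Qf 4 y * e y) :=
    Cl_int (Cl_mul hQ hW) (by linarith) (by linarith)
  have e1 : ∫ y, (deriv W y) ^ 2 = (∫ y, (deriv (Qf 4) y) ^ 2) +
      2 * (∫ y, deriv (Qf 4) y * deriv e y) + ∫ y, (deriv e y) ^ 2 := by
    have iAB : Integrable (fun y => (deriv (Qf 4) y) ^ 2 + 2 * (deriv (Qf 4) y * deriv e y)) :=
      iA.add (iB.const_mul 2)
    rw [← integral_const_mul, ← integral_add iA (iB.const_mul 2), ← integral_add iAB iC]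
    refine integral_congr_ae (Eventually.of_forall fun y => ?_)
    simp only
    rw [hWd]
    ring
  have e2 : ∫ y, (W y) ^ 6 = (∫ y, (Qf 4 y) ^ 6) + 6 * (∫ y, (Qf 4 y) ^ 5 * e y) +
      30 * ∫ y, bF 4 e y := by
    have iDE : Integrable (fun y => (Qf 4 y) ^ 6 + 6 * ((Qf 4 y) ^ 5 * e y)) :=
      iD.add (iE.const_mul 6)
    rw [← integral_const_mul, ← integral_const_mul, ← integral_add iD (iE.const_mul 6),
      ← integral_add iDE (iF.const_mul 30)]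
    refine integral_congr_ae (Eventually.of_forall fun y => ?_)
    simp only
    rw [hWe, bF, Fl, Fl, fl]
    push_cast
    ring
  have e3 : ∫ y, deriv (Qf 4) y * deriv e y =
      -(ip (Qf 4) e) + 1 / 5 * ∫ y, (Qf 4 y) ^ 5 * e y := by
    have h1 := Cl_ibp hQd hW (by linarith) (by linarith)
    have h2 : ∫ y, deriv (deriv (Qf 4)) y * e y = ip (Qf 4) e - 1 / 5 * ∫ y, (Qf 4 y) ^ 5 * e y := by
      rw [ip, ← integral_const_mul, ← integral_sub iG (iE.const_mul _)]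
      refine integral_congr_ae (Eventually.of_forall fun y => ?_)
      simp only
      rw [Qf_eq INg_k, fl]
      push_cast
      ring
    linarith
  have e4 := EQ_zero
  have e5 : EW W = 1 / 2 * (∫ y, (deriv W y) ^ 2) - 1 / 30 * ∫ y, (W y) ^ 6 := rfl
  have e6 : Xn e = ∫ y, (deriv e y) ^ 2 := rfl
  rw [e5, e1, e2, e3, e6]
  linarith

theorem EW_up : ∃ C : ℝ, 1 ≤ C ∧ ∀ (p q d : ℝ) (W : ℝ → ℝ), 0 < p → 0 < q → p ≤ 1 → q ≤ 1 →
    Cl p q (fun y => W y - Qf 4 y) → 0 ≤ d → d ≤ 1 → (∀ y, |W y - Qf 4 y| ≤ d) →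
    EW W ≤ 1 / 2 * Xn (fun y => W y - Qf 4 y) + |ip (Qf 4) (fun y => W y - Qf 4 y)|
      + C * d ^ 2 * (1 + ∫ y, (W y - Qf 4 y) ^ 2) := by
  obtain ⟨C, hC, hbF⟩ := bF_le 4 (by norm_num)
  have hQ := Cl_Qf (k := 4) INg_k
  have i4 : Integrable (fun y => (Qf 4 y) ^ 4) :=
    Cl_int (Cl_pow' hQ zero_le_one zero_le_one 4 (by norm_num)) one_pos one_pos
  have hJ : 0 ≤ ∫ y, (Qf 4 y) ^ 4 := integral_nonneg fun y => by positivity
  refine ⟨1 + C * (∫ y, (Qf 4 y) ^ 4) + C, by nlinarith [mul_nonneg hC.le hJ],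
    fun p q d W hp hq hp1 hq1 hW hd hd1 hb => ?_⟩
  rw [EW_id hp hq hp1 hq1 hW]
  set e : ℝ → ℝ := fun y => W y - Qf 4 y with he
  have i2 : Integrable (fun y => (e y) ^ 2) := Cl_int (Cl_pow' hW hp.le hq.le 2 (by norm_num)) hp hq
  have hE : 0 ≤ ∫ y, (e y) ^ 2 := integral_nonneg fun y => sq_nonneg _
  have h1 : |∫ y, bF 4 e y| ≤ ∫ y, (C * d ^ 2 * (Qf 4 y) ^ 4 + C * d ^ 2 * (e y) ^ 2) := by
    rw [← Real.norm_eq_abs]
    refine norm_integral_le_of_norm_le ((i4.const_mul _).add (i2.const_mul _))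
      (Eventually.of_forall fun y => ?_)
    rw [Real.norm_eq_abs]
    refine (hbF e y).trans ?_
    have hy : |e y| ≤ d := hb y
    have hy2 : (e y) ^ 2 ≤ d ^ 2 := by
      rw [← sq_abs]
      exact pow_le_pow_left₀ (abs_nonneg _) hy 2
    have hy4 : |e y| ^ 4 ≤ d ^ 2 := by
      calc |e y| ^ 4 ≤ d ^ 4 := pow_le_pow_left₀ (abs_nonneg _) hy 4
        _ = d ^ 2 * d ^ 2 := by ring
        _ ≤ d ^ 2 * 1 := mul_le_mul_of_nonneg_left (pow_le_one₀ hd hd1) (sq_nonneg _)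
        _ = d ^ 2 := mul_one _
    have hQ4 : 0 ≤ (Qf 4 y) ^ 4 := by positivity
    have g1 : (Qf 4 y) ^ 4 * (e y) ^ 2 ≤ (Qf 4 y) ^ 4 * d ^ 2 := mul_le_mul_of_nonneg_left hy2 hQ4
    have g2 : |e y| ^ 4 * (e y) ^ 2 ≤ d ^ 2 * (e y) ^ 2 := mul_le_mul_of_nonneg_right hy4 (sq_nonneg _)
    calc C * ((Qf 4 y) ^ 4 + |e y| ^ 4) * (e y) ^ 2
        = C * ((Qf 4 y) ^ 4 * (e y) ^ 2 + |e y| ^ 4 * (e y) ^ 2) := by ring
      _ ≤ C * ((Qf 4 y) ^ 4 * d ^ 2 + d ^ 2 * (e y) ^ 2) :=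
          mul_le_mul_of_nonneg_left (add_le_add g1 g2) hC.le
      _ = C * d ^ 2 * (Qf 4 y) ^ 4 + C * d ^ 2 * (e y) ^ 2 := by ring
  rw [integral_add (i4.const_mul _) (i2.const_mul _), integral_const_mul, integral_const_mul] at h1
  have h2 := neg_abs_le (∫ y, bF 4 e y)
  have h3 := neg_abs_le (ip (Qf 4) e)
  have h4 : (1 + C * (∫ y, (Qf 4 y) ^ 4) + C) * d ^ 2 * (1 + ∫ y, (e y) ^ 2) ≥
      C * d ^ 2 * (∫ y, (Qf 4 y) ^ 4) + C * d ^ 2 * ∫ y, (e y) ^ 2 := by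
    have k1 : 0 ≤ d ^ 2 := sq_nonneg d
    have k2 : 0 ≤ C * (∫ y, (Qf 4 y) ^ 4) := mul_nonneg hC.le hJ
    have k3 := mul_nonneg (mul_nonneg k2 k1) hE
    have k4 := mul_nonneg k1 hE
    have k5 := mul_nonneg hC.le k1
    nlinarith
  have h5 : (∫ y, (W y - Qf 4 y) ^ 2) = ∫ y, (e y) ^ 2 := rfl
  rw [h5]
  linarith

end H68KC

end
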