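import Pool.Agent.H68.KC.INe
import Pool.Agent.H68.KC.INf
import Pool.Agent.H68.KC.INg

/-!
# Row INh (MP_95be7d_K4): assembly of the initial data theorem

## Proof of `thmIni`
`L_pert` gives `Ch`; `w1 := min 1 (1/(512 Ch²))`, so `16 Ch² w1 ≤ 1/32`. With this `w1` take the constants `C` of `par_pert`, `sup_pert`, `G4_pert` (with `B` of `GoodA`),
`Nn_pert` (`CN`), `X_pert` (`CX`), `L_pert` (`CL`), `QW_pert` (`CQ`), `orth_pert` (`CO`), `EW_up` (`CE`).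
`Ca := CN + 1`, `KI := CX + 2 CQ + 8 C² CE + 1` (any sufficiently large constant; see (g4)).
Given `K0 K9 KE KN K5`. Let `r` be small (finitely many conditions below, all of the form (constant)·r ≤ 1) and `ν` small depending on `r`: `ν ≤ r^60` is more than enough for
small `r`. `ω = W - W0` is of class `μ μ` with `μ` the minimum of the classes of `W - Q` and `W0 - Q` (`W0_cl`, `Cl_sub`, `Cl_mono`), `W - Q` also. Let `n = ne2 ω ≤ ν ≤ r^60`, `√n ≤ r^30`.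
* g1: `|ε| ≤ C (r⁴ + r^30) ≤ c`, `GoodA.CO` (second part): `M E4 + Vf ≤ CA G4 ≤ CA C (r^22 + r^58)`; `K0/r^6 N ≤ K0/r^6 (CN r^16 + 2 r^60)`. Sum `≤ K0 (CN + 1/2) r^10 + CA C 2 r^22 < K9 r^10`
  since `K9 ≥ 4 K0 (Ca + 1)`.
* g2, g3: `|bq - 3c₀r⁴| ≤ 2 C r^16 < c₀ r⁴` (`c₀ ≥ 1`: `cnu ≥ 0`).
* g4: `EW ≤ (1/2)(CX r^8 + 4 r^60) + CQ (r⁴ + r^30) + CE d² · 2`, `d = C (r⁴ + r^30) ≤ 2 C r⁴ ≤ 1` (`sup_pert`), total `< KI r⁴ ≤ KE r⁴`.
* g5: `N ≤ CN r^16 + 2 r^60 < (CN + 1) r^16`.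
* g6: `alf + K5 r^5 ≤ f₀ r⁴ + 2 C r^16 + K5 r^5 < (f₀ + 2 K5 r) r⁴` for `2 C r^11 < K5`. g7 likewise.
* g8: `CX r^8 + 4 r^60 < r²`. g9: `1/32 + CL r^40 + 4 r^60 < 1`.
* mass: `∫W² = ∫Q² + 2 (Q,W-Q) + ∫(W-Q)² ≤ ∫Q² + 2 CQ (r⁴ + r^30) + 1/16 ≤ ∫Q² + 1/4`.
* `C' := CO`. `Cl 1 1 (dat4 ..)`: `dat_cl`.
-/

open MeasureTheory Filter Topology Set
open scoped ContDiff

noncomputable section

namespace H68KC

open H98KB

private theorem INh_pw {r : ℝ} (h0 : 0 < r) (h1 : r ≤ 1 / 2) {a b : ℕ} (h : a ≤ b) : r ^ b ≤ r ^ a :=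
  pow_le_pow_of_le_one h0.le (by linarith) h

private theorem INh_div {a r D : ℝ} (h : a ≤ D) (hr : 0 ≤ r) (hD : D * r ≤ 1) : a * r ≤ 1 :=
  (mul_le_mul_of_nonneg_right h hr).trans hD

private theorem INh_mass {p q : ℝ} {W : ℝ → ℝ} (hp : 0 < p) (hq : 0 < q)
    (hW : Cl p q (fun y => W y - Qf 4 y)) :
    (∫ y, (W y) ^ 2) = (∫ y, (Qf 4 y) ^ 2) + 2 * ip (Qf 4) (fun y => W y - Qf 4 y)
      + ∫ y, (W y - Qf 4 y) ^ 2 := by
  have i1 : Integrable (fun y => (Qf 4 y) ^ 2) := by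
    have := MOa_i zero_le_one zero_le_one MOa_Q MOa_Q
    simpa only [pow_two] using this
  have i2 : Integrable (fun y => Qf 4 y * (W y - Qf 4 y)) := by
    have := MOa_i hp.le hq.le hW MOa_Q
    refine this.congr (Filter.Eventually.of_forall fun y => ?_)
    ring
  have i3 : Integrable (fun y => (W y - Qf 4 y) ^ 2) := by
    have := Cl_int (Cl_mul hW hW) (by linarith) (by linarith)
    simpa only [pow_two] using this
  have k1 := integral_add (i1.add (i2.const_mul 2)) i3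
  have k2 := integral_add i1 (i2.const_mul 2)
  simp only [Pi.add_apply] at k1 k2
  rw [integral_const_mul] at k2
  unfold ip
  rw [← k2, ← k1]
  refine integral_congr_ae (Filter.Eventually.of_forall fun y => ?_)
  simp only
  ring

theorem thmIni : ThmIni := by
  intro P E γ η δ M B c C hp hA
  obtain ⟨Ch, hCh, hL0⟩ := L_pert hp
  have hCh0 : 0 < Ch := by linarith
  set w1 : ℝ := min (1 / 4) (1 / (512 * Ch ^ 2)) with hw1d
  have hw1 : 0 < w1 := lt_min (by norm_num) (by positivity)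
  have hw14 : w1 ≤ 1 / 4 := min_le_left _ _
  have hw11 : w1 ≤ 1 := hw14.trans (by norm_num)
  have hw12 : 16 * Ch ^ 2 * w1 ≤ 1 / 32 := by
    have h1 : w1 ≤ 1 / (512 * Ch ^ 2) := min_le_right _ _
    calc 16 * Ch ^ 2 * w1 ≤ 16 * Ch ^ 2 * (1 / (512 * Ch ^ 2)) :=
          mul_le_mul_of_nonneg_left h1 (by positivity)
      _ = 1 / 32 := by field_simp; norm_num
  clear_value w1
  obtain ⟨CL, hCL, hL⟩ := hL0 w1 hw1
  obtain ⟨Cp, hCp, hpar⟩ := par_pert hp hw1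
  obtain ⟨Cs, hCs, hsup⟩ := sup_pert hp hw1
  obtain ⟨Cg, hCg, hG⟩ := G4_pert hp hw1 hA.hB
  obtain ⟨CN, hCN, hN⟩ := Nn_pert hp hw1
  obtain ⟨CX, hCX, hX⟩ := X_pert hp hw1
  obtain ⟨CQ, hCQ, hQ⟩ := QW_pert hp hw1
  obtain ⟨CO, hCO, hO⟩ := orth_pert hp hw1
  obtain ⟨CE, hCE, hE⟩ := EW_up
  obtain ⟨rA, hrA, hCo⟩ := hA.CO
  have hc0 : 1 ≤ c0 := by
    unfold c0 cnu
    have : 0 ≤ 16 * (∫ y, (deriv (Qf 4) y) ^ 2) / Iq ^ 2 :=
      div_nonneg (mul_nonneg (by norm_num) (integral_nonneg fun y => sq_nonneg _)) (sq_nonneg _)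
    linarith
  refine ⟨w1, CN + 1, CX + 2 + 2 * CQ + 8 * CE * Cs ^ 2 + 1, hw1, hw11, by linarith, ?_, ?_⟩
  · have : 0 ≤ 8 * CE * Cs ^ 2 := by positivity
    linarith
  intro K0 K9 KE KN K5 hK0 hK9 hKE hK5
  have hC := hA.hC
  have hc := hA.hc
  have hC0 : 0 < C := by linarith
  have hCs0 : 0 < Cs := by linarith
  have hCg0 : 0 < Cg := by linarith
  have hCp0 : 0 < Cp := by linarith
  have t1 : 0 < 2 * Cs / c := by positivity
  have t2 : 0 < 2 * C * Cg / K0 := by positivity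
  have t3 : 0 < 4 * Cp / K5 := by positivity
  set D : ℝ := 2 * Cs / c + 2 * C * Cg / K0 + 4 * Cp / K5 + 4 * Cp + 2 * Cs + 4 * CX + 64 * CQ
    + 32 * CL with hDd
  have hD0 : 0 < D := by linarith
  have d1 : 2 * Cs / c ≤ D := by linarith
  have d2 : 2 * C * Cg / K0 ≤ D := by linarith
  have d3 : 4 * Cp / K5 ≤ D := by linarith
  have d4 : 4 * Cp ≤ D := by linarith
  have d5 : 2 * Cs ≤ D := by linarith
  have d6 : 4 * CX ≤ D := by linarith
  have d7 : 64 * CQ ≤ D := by linarith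
  have d8 : 32 * CL ≤ D := by linarith
  clear_value D
  refine ⟨min (1 / 2) (min rA (1 / D)), lt_min (by norm_num) (lt_min hrA (by positivity)),
    min_le_left _ _, ?_⟩
  intro r hr0 hr
  have hr2 : r ≤ 1 / 2 := hr.trans (min_le_left _ _)
  have hrA' : r ≤ rA := hr.trans ((min_le_right _ _).trans (min_le_left _ _))
  have hrD : D * r ≤ 1 := by
    have : r ≤ 1 / D := hr.trans ((min_le_right _ _).trans (min_le_right _ _))
    rw [le_div_iff₀ hD0] at this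
    linarith
  have hr1 : r ≤ 1 := by linarith
  have e1 : 2 * Cs * r ≤ c := by
    have := INh_div d1 hr0.le hrD
    rw [div_mul_eq_mul_div, div_le_one hc] at this
    exact this
  have e2 : 2 * C * Cg * r ≤ K0 := by
    have := INh_div d2 hr0.le hrD
    rw [div_mul_eq_mul_div, div_le_one hK0] at this
    exact this
  have e3 : 4 * Cp * r ≤ K5 := by
    have := INh_div d3 hr0.le hrD
    rw [div_mul_eq_mul_div, div_le_one hK5] at this
    exact this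
  have e4 : 4 * Cp * r ≤ 1 := INh_div d4 hr0.le hrD
  have e5 : 2 * Cs * r ≤ 1 := INh_div d5 hr0.le hrD
  have e6 : 4 * CX * r ≤ 1 := INh_div d6 hr0.le hrD
  have e7 : 64 * CQ * r ≤ 1 := INh_div d7 hr0.le hrD
  have e8 : 32 * CL * r ≤ 1 := INh_div d8 hr0.le hrD
  have pos : ∀ n : ℕ, 0 < r ^ n := fun n => pow_pos hr0 n
  have pw : ∀ {a b : ℕ}, a ≤ b → r ^ b ≤ r ^ a := fun h => INh_pw hr0 hr2 h
  refine ⟨dat_cl hp hw1 hw14 hr0 hr2, r ^ 60, CO, pos 60, by linarith, ?_⟩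
  rintro W ⟨p, q, hp0, hp1, hq0, hq1, hW⟩ hn
  -- the class of om
  set om : ℝ → ℝ := fun y => W y - W0 P E w1 r y with homd
  set μ : ℝ := min (min p q) (min (r ^ 8 / w1) (1 / 2)) with hμd
  have hμ0 : 0 < μ := lt_min (lt_min hp0 hq0) (lt_min (by positivity) (by norm_num))
  have hWμ : Cl μ μ (fun y => W y - Qf 4 y) :=
    Cl_mono hW ((min_le_left _ _).trans (min_le_left _ _))
      ((min_le_left _ _).trans (min_le_right _ _))
  have homμ : Cl μ μ om := by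
    have h1 := Cl_sub hWμ (Cl_mono (W0_cl hp hw1 hr0) (min_le_right (min p q) _)
      (min_le_right (min p q) _))
    have h2 : (fun y => W y - Qf 4 y - (W0 P E w1 r y - Qf 4 y)) = om := by
      funext y
      simp only [homd]
      ring
    rw [h2] at h1
    exact h1
  clear_value μ
  have hn0 : 0 ≤ ne2 om := integral_nonneg fun y => by positivity
  have hsn : √(ne2 om) ≤ r ^ 30 := by
    rw [Real.sqrt_le_left (pos 30).le]
    calc ne2 om ≤ r ^ 60 := hn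
      _ = (r ^ 30) ^ 2 := by ring
  have hsn0 : 0 ≤ √(ne2 om) := Real.sqrt_nonneg _
  obtain ⟨ha, hb⟩ := hpar r μ W hr0 hr1 hμ0 hWμ homμ
  have hs := hsup r μ W hr0 hr1 hμ0 hWμ homμ
  have hg := hG r μ W hr0 hr1 hμ0 hWμ homμ
  have hNn := hN r μ W hr0 hr1 hμ0 hWμ homμ
  have hXx := hX r μ W hr0 hr1 hμ0 hWμ homμ
  have hLl := hL r μ W hr0 hr1 hμ0 hWμ homμ
  have hQq := hQ r μ W hr0 hr1 hμ0 hWμ homμ
  have hOo := hO r μ W hr0 hr1 hμ0 hWμ homμ
  change _ ≤ Cp * (r ^ 16 + √(ne2 om)) at ha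
  change _ ≤ Cp * (r ^ 16 + √(ne2 om)) at hb
  change ∀ y, _ ≤ Cs * (r ^ 4 + √(ne2 om)) ∧ _ ≤ Cs * (r ^ 4 + √(ne2 om)) at hs
  change _ ≤ Cg * (r ^ 22 + ne2 om / r ^ 2) at hg
  change _ ≤ CN * r ^ 16 + 2 * ne2 om at hNn
  change _ ≤ CX * r ^ 8 + 4 * ne2 om at hXx
  change _ ≤ 16 * Ch ^ 2 * w1 + CL * r ^ 40 + 4 * ne2 om at hLl
  change _ ≤ CQ * (r ^ 4 + √(ne2 om)) at hQq
  -- simple bounds
  have q16 : Cp * (r ^ 16 + √(ne2 om)) ≤ 2 * Cp * r ^ 16 := by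
    have h1 := pw (show 16 ≤ 30 by norm_num)
    calc Cp * (r ^ 16 + √(ne2 om)) ≤ Cp * (r ^ 16 + r ^ 16) :=
          mul_le_mul_of_nonneg_left (by linarith only [h1, hsn]) hCp0.le
      _ = 2 * Cp * r ^ 16 := by ring
  have q4 : r ^ 4 + √(ne2 om) ≤ 2 * r ^ 4 := by
    have := pw (show 4 ≤ 30 by norm_num)
    linarith
  have h60 : ∀ k : ℕ, k ≤ 50 → r ^ 60 ≤ 1 / 1024 * r ^ k := by
    intro k hk
    have h1 : r ^ 60 = r ^ 10 * r ^ 50 := by ring
    have h2 : r ^ 10 ≤ (1 / 2) ^ 10 := pow_le_pow_left₀ hr0.le hr2 10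
    rw [h1]
    calc r ^ 10 * r ^ 50 ≤ (1 / 2) ^ 10 * r ^ k :=
          mul_le_mul h2 (pw hk) (pos 50).le (by norm_num)
      _ = 1 / 1024 * r ^ k := by norm_num
  have f16 : 2 * Cp * r ^ 16 ≤ 1 / 2 * r ^ 15 := by
    have h1 : 2 * Cp * r ^ 16 = (4 * Cp * r) * (1 / 2 * r ^ 15) := by ring
    rw [h1]
    exact mul_le_of_le_one_left (by have := pos 15; positivity) e4
  have f16' : 2 * Cp * r ^ 16 ≤ K5 * (1 / 2 * r ^ 15) := by
    have h1 : 2 * Cp * r ^ 16 = (4 * Cp * r) * (1 / 2 * r ^ 15) := by ring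
    rw [h1]
    exact mul_le_mul_of_nonneg_right e3 (by have := pos 15; positivity)
  have hintL : (∫ y, (W y - Qf 4 y) ^ 2) ≤ 1 / 8 := by
    have h1 : CL * r ^ 40 ≤ 1 / 32 := by
      have h2 : CL * r ^ 40 ≤ CL * r ^ 1 := mul_le_mul_of_nonneg_left (pw (by norm_num)) (by linarith)
      linarith
    have h3 := h60 0 (by norm_num)
    rw [pow_zero] at h3
    linarith
  have hd4 : Cs * (r ^ 4 + √(ne2 om)) ≤ 2 * Cs * r ^ 4 := by
    calc Cs * (r ^ 4 + √(ne2 om)) ≤ Cs * (2 * r ^ 4) := mul_le_mul_of_nonneg_left q4 hCs0.le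
      _ = 2 * Cs * r ^ 4 := by ring
  have hd1 : 2 * Cs * r ^ 4 ≤ 2 * Cs * r := by
    have h1 := pw (show 1 ≤ 4 by norm_num)
    rw [pow_one] at h1
    exact mul_le_mul_of_nonneg_left h1 (by positivity)
  have hQ4 : CQ * (r ^ 4 + √(ne2 om)) ≤ 2 * CQ * r ^ 4 := by
    calc CQ * (r ^ 4 + √(ne2 om)) ≤ CQ * (2 * r ^ 4) :=
          mul_le_mul_of_nonneg_left q4 (by linarith only [hCQ])
      _ = 2 * CQ * r ^ 4 := by ring
  refine ⟨⟨?_, ?_, ?_, ?_, ?_, ?_, ?_, ?_, ?_⟩, ?_, hOo.1, hOo.2⟩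
  · -- g1
    have h1 := (hCo r W hr0 hrA' ⟨p, q, hp0, hp1, hq0, hq1, hW⟩ (fun y => by
      have := (hs y).1
      linarith)).2.1
    have h2 := (le_abs_self _).trans h1
    have h3 : ne2 om / r ^ 2 ≤ r ^ 22 := by
      rw [div_le_iff₀ (pos 2)]
      calc ne2 om ≤ r ^ 60 := hn
        _ ≤ r ^ 24 := pw (by norm_num)
        _ = r ^ 22 * r ^ 2 := by ring
    have h4 : C * G4 B (r ^ 2) (ep P E (r ^ 2) W) ≤ K0 * r ^ 10 := by
      calc C * G4 B (r ^ 2) (ep P E (r ^ 2) W) ≤ C * (Cg * (r ^ 22 + ne2 om / r ^ 2)) :=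
            mul_le_mul_of_nonneg_left hg hC0.le
        _ ≤ C * (Cg * (r ^ 22 + r ^ 22)) := by gcongr
        _ = (2 * C * Cg * r) * r ^ 21 := by ring
        _ ≤ K0 * r ^ 21 := mul_le_mul_of_nonneg_right e2 (pos 21).le
        _ ≤ K0 * r ^ 10 := mul_le_mul_of_nonneg_left (pw (by norm_num)) hK0.le
    have h5 : K0 / r ^ 6 * Nn (r ^ 2) W ≤ K0 * (CN + 2) * r ^ 10 := by
      have h6 : Nn (r ^ 2) W ≤ (CN + 2) * r ^ 16 := by
        have := h60 16 (by norm_num)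
        have := pos 16
        linarith
      calc K0 / r ^ 6 * Nn (r ^ 2) W ≤ K0 / r ^ 6 * ((CN + 2) * r ^ 16) :=
            mul_le_mul_of_nonneg_left h6 (by have := pos 6; positivity)
        _ = K0 * (CN + 2) * r ^ 10 := by
            have := (pos 6).ne'
            field_simp
    unfold LL4
    have h7 : 4 * K0 * (CN + 1 + 1) * r ^ 10 ≤ K9 * r ^ 10 :=
      mul_le_mul_of_nonneg_right hK9 (pos 10).le
    have h8 : 0 < K0 * r ^ 10 := mul_pos hK0 (pos 10)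
    have h9 : 0 < K0 * CN * r ^ 10 := mul_pos (mul_pos hK0 (by linarith)) (pos 10)
    linarith
  · -- g2
    have h1 := (abs_le.1 hb).2
    have h2 := pw (show 4 ≤ 15 by norm_num)
    have h3 : r ^ 4 ≤ c0 * r ^ 4 := le_mul_of_one_le_left (pos 4).le hc0
    have := pos 4
    linarith
  · -- g3
    have h1 := (abs_le.1 hb).1
    have h2 := pw (show 4 ≤ 15 by norm_num)
    have h3 : r ^ 4 ≤ c0 * r ^ 4 := le_mul_of_one_le_left (pos 4).le hc0
    have := pos 4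
    linarith
  · -- g4
    have hd0 : 0 ≤ 2 * Cs * r ^ 4 := by have := pos 4; positivity
    have h1 := hE p q (2 * Cs * r ^ 4) W hp0 hq0 (by linarith) (by linarith) hW hd0 (by linarith)
      (fun y => by
        have := (hs y).2
        linarith)
    have h2 : CE * (2 * Cs * r ^ 4) ^ 2 * (1 + ∫ y, (W y - Qf 4 y) ^ 2) ≤
        8 * CE * Cs ^ 2 * r ^ 4 := by
      calc CE * (2 * Cs * r ^ 4) ^ 2 * (1 + ∫ y, (W y - Qf 4 y) ^ 2) ≤
            CE * (2 * Cs * r ^ 4) ^ 2 * 2 :=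
            mul_le_mul_of_nonneg_left (by linarith) (by positivity)
        _ = 8 * CE * Cs ^ 2 * r ^ 8 := by ring
        _ ≤ 8 * CE * Cs ^ 2 * r ^ 4 :=
            mul_le_mul_of_nonneg_left (pw (by norm_num)) (by positivity)
    have h3 : CX * r ^ 8 ≤ CX * r ^ 4 := mul_le_mul_of_nonneg_left (pw (by norm_num)) (by linarith)
    have h4 := h60 4 (by norm_num)
    have h5 : (CX + 2 + 2 * CQ + 8 * CE * Cs ^ 2 + 1) * r ^ 4 ≤ KE * r ^ 4 :=
      mul_le_mul_of_nonneg_right hKE (pos 4).le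
    have h6 : 0 < CX * r ^ 4 := mul_pos (by linarith) (pos 4)
    have := pos 4
    linarith
  · -- g5
    have := h60 16 (by norm_num)
    have := pos 16
    have h1 : (CN + 1 + KN * 0) * r ^ 16 = CN * r ^ 16 + r ^ 16 := by ring
    rw [h1]
    linarith
  · -- g6
    have h1 := (abs_le.1 ha).2
    have h2 : K5 * (1 / 2 * r ^ 15) ≤ 1 / 2 * (K5 * r ^ 5) := by
      have := mul_le_mul_of_nonneg_left (pw (show 5 ≤ 15 by norm_num)) hK5.le
      linarith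
    have h3 : 0 < K5 * r ^ 5 := mul_pos hK5 (pos 5)
    have h4 : (f0 + 2 * K5 * r) * r ^ 4 = f0 * r ^ 4 + 2 * (K5 * r ^ 5) := by ring
    rw [h4]
    linarith
  · -- g7
    have h1 := (abs_le.1 ha).1
    have h2 : K5 * (1 / 2 * r ^ 15) ≤ 1 / 2 * (K5 * r ^ 5) := by
      have := mul_le_mul_of_nonneg_left (pw (show 5 ≤ 15 by norm_num)) hK5.le
      linarith
    have h3 : 0 < K5 * r ^ 5 := mul_pos hK5 (pos 5)
    have h4 : (f0 - 2 * K5 * r) * r ^ 4 = f0 * r ^ 4 - 2 * (K5 * r ^ 5) := by ring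
    rw [h4]
    linarith
  · -- g8
    have h1 : CX * r ^ 8 ≤ 1 / 4 * r ^ 2 := by
      have h2 : CX * r ^ 8 = (4 * CX * r) * (1 / 4 * r ^ 7) := by ring
      rw [h2]
      calc (4 * CX * r) * (1 / 4 * r ^ 7) ≤ 1 / 4 * r ^ 7 :=
            mul_le_of_le_one_left (by have := pos 7; positivity) e6
        _ ≤ 1 / 4 * r ^ 2 := mul_le_mul_of_nonneg_left (pw (by norm_num)) (by norm_num)
    have h3 := h60 2 (by norm_num)
    have := pos 2
    linarith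
  · -- g9
    linarith
  · -- mass
    rw [INh_mass hp0 hq0 hW]
    have h1 := (le_abs_self _).trans hQq
    have h2 : 2 * CQ * r ^ 4 ≤ 1 / 32 := by
      have h3 : CQ * r ^ 4 ≤ CQ * r ^ 1 := mul_le_mul_of_nonneg_left (pw (by norm_num)) (by linarith)
      linarith
    linarith

end H68KC

end
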