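import Pool.Agent.H68.KC.Defs

/-!
# Interfaces of the static parts for `k = 4`

Owners: ML4, CO4 helper98;  AH, AL, BA helper37;  MO, EN, XE, profiles, initial data, trap helper68.
-/

open MeasureTheory Filter Topology Set
open scoped ContDiff

noncomputable section

namespace H68KC

open H98KB

/-- `∫ (et² + et'²)` -/
def ne2 (et : ℝ → ℝ) : ℝ := ∫ y, ((et y) ^ 2 + (deriv et y) ^ 2)

/-- `α̇ = λ³ α_t + w α / 2` -/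
def alm (s w : ℝ) (W Z : ℝ → ℝ) : ℝ := alD s w W Z + 1 / 2 * w * alf s W

/-- the situation in all static inequalities (`r = λ^{1/8}`) -/
structure Sit (P E : ℝ → ℝ) (γ B c Ca r w m : ℝ) (W et : ℝ → ℝ) : Prop where
  pr : Prof P E
  r0 : 0 < r
  cl : ∃ p q : ℝ, 0 < p ∧ p ≤ 1 / 2 ∧ 0 < q ∧ q ≤ 1 / 2 ∧ Cl p q (fun y => W y - Qf 4 y) ∧ Cl p q et
  or1 : ip (ze w m (r ^ 8) W et) rho = 0
  or2 : ip (ze w m (r ^ 8) W et) (deriv (Qf 4)) = 0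
  w0 : 0 ≤ w
  w1 : w ≤ 5 * c0 * r ^ 4
  b1 : |bq (r ^ 2) W| ≤ 5 * c0 * r ^ 4
  a1 : |alf (r ^ 2) W| ≤ (|f0| + 1) * r ^ 4
  sup : ∀ y, |W y - Qf 4 y| ≤ c
  supe : ∀ y, |ep P E (r ^ 2) W y| ≤ c
  lnc : ln γ B (ep P E (r ^ 2) W) ≤ c
  N1 : Nn (r ^ 2) W ≤ Ca * r ^ 16
  X1 : Xn (fun y => W y - Qf 4 y) ≤ 1
  L1 : (∫ y, (W y - Qf 4 y) ^ 2) ≤ 1
  e1 : ne2 et ≤ c

/-- helper98: main inequality and coercivity -/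
structure GoodA (P E : ℝ → ℝ) (γ η δ M B c C : ℝ) : Prop where
  hγ : 0 < γ
  hγ1 : γ ≤ 1 / 8
  hη : 0 < η
  hδ : 0 < δ
  hM : 0 < M
  hB : 16 ≤ B
  hc : 0 < c
  hc1 : c ≤ 1 / 10
  hC : 1 ≤ C
  /-- main differential inequality -/
  ML : ∀ Ca : ℝ, ∃ r1 : ℝ, 0 < r1 ∧ ∀ r w m W et, r ≤ r1 → Sit P E γ B c Ca r w m W et →
    M * DE4 B (r ^ 2) w (ep P E (r ^ 2) W) (epD P E (r ^ 2) w W (ze w m (r ^ 8) W et))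
      + DV 4 η γ B δ (ep P E (r ^ 2) W) (epD P E (r ^ 2) w W (ze w m (r ^ 8) W et)) ≤
    -c * (T4 B (r ^ 2) (ep P E (r ^ 2) W) + ln γ B (ep P E (r ^ 2) W))
      + C * Bad (r ^ 2) (ep P E (r ^ 2) W)
      + C * (r ^ 16 + (alm (r ^ 2) w W (ze w m (r ^ 8) W et)) ^ 2 / r ^ 4
        + (ip W (deriv (Qf 4))) ^ 2 + (ip (fun y => W y - Qf 4 y) rho) ^ 2)
      + C / r ^ 2 * ne2 et
  /-- coercivity -/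
  CO : ∃ r1 : ℝ, 0 < r1 ∧ ∀ r W, 0 < r → r ≤ r1 →
    (∃ p q : ℝ, 0 < p ∧ p ≤ 1 / 2 ∧ 0 < q ∧ q ≤ 1 / 2 ∧ Cl p q (fun y => W y - Qf 4 y)) →
    (∀ y, |ep P E (r ^ 2) W y| ≤ c) →
    G4 B (r ^ 2) (ep P E (r ^ 2) W) ≤
      C * (M * E4 B (r ^ 2) (ep P E (r ^ 2) W) + Vf 4 η γ B δ (ep P E (r ^ 2) W)
        + C * ((ip W (deriv (Qf 4))) ^ 2 + (ip (fun y => W y - Qf 4 y) rho) ^ 2)) ∧
    |M * E4 B (r ^ 2) (ep P E (r ^ 2) W) + Vf 4 η γ B δ (ep P E (r ^ 2) W)| ≤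
      C * G4 B (r ^ 2) (ep P E (r ^ 2) W) ∧
    ln γ B (ep P E (r ^ 2) W) ≤ C * G4 B (r ^ 2) (ep P E (r ^ 2) W)

/-- helper37: ahead of the soliton -/
structure GoodB (P E : ℝ → ℝ) (γ B c : ℝ) : Prop where
  /-- front functional -/
  AH : ∀ Ca : ℝ, ∃ C r1 : ℝ, 0 < C ∧ 0 < r1 ∧ ∀ r w m W et, r ≤ r1 → |m| ≤ 1 / 4 →
    Sit P E γ B c Ca r w m W et →
    DNn (r ^ 2) w W (ze w m (r ^ 8) W et) ≤
      -2 * w * Nn (r ^ 2) W - r ^ 8 * (∫ y, Ph (r ^ 2) y * (deriv (deriv W) y) ^ 2)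
        + C * r ^ 40 + C / r ^ 8 * ne2 et
  /-- drift of `α` -/
  AL : ∃ C r1 : ℝ, 0 < C ∧ 0 < r1 ∧ ∀ Ca r w m W et, r ≤ r1 → |m| ≤ 1 / 4 →
    Sit P E γ B c Ca r w m W et →
    |alm (r ^ 2) w W (ze w m (r ^ 8) W et)| ≤ C * (r * √(Nn (r ^ 2) W) + √(ne2 et))
  /-- the bad set -/
  BA : ∃ C r1 : ℝ, 0 < C ∧ 0 < r1 ∧ ∀ Ca r w m W et, r ≤ r1 →
    Sit P E γ B c Ca r w m W et →
    Bad (r ^ 2) (ep P E (r ^ 2) W) ≤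
      C * (r ^ 2 * (∫ y, Ph (r ^ 2) y * (deriv (deriv W) y) ^ 2) + Nn (r ^ 2) W / r ^ 2 + r ^ 16)

/-- helper68: modulation equations, b-law, energy -/
structure GoodC (P E : ℝ → ℝ) (γ B c C : ℝ) : Prop where
  /-- modulation equations and the law of `b` -/
  MO : ∃ r1 : ℝ, 0 < r1 ∧ ∀ Ca r w m W et, r ≤ r1 → Sit P E γ B c Ca r w m W et →
    |m| ≤ C * (√(ln γ B (ep P E (r ^ 2) W)) + r ^ 8 + √(ne2 et)) ∧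
    |bq (r ^ 2) W - w| ≤ C * (√(ln γ B (ep P E (r ^ 2) W)) + r ^ 8 + √(ne2 et)) ∧
    |(bq (r ^ 2) W - w) * ip (Lam 4 (Qf 4)) rho - ip (Lop 4 (ep P E (r ^ 2) W)) (deriv rho)| ≤
      C * (r ^ 8 + r ^ 4 * √(ln γ B (ep P E (r ^ 2) W)) + ln γ B (ep P E (r ^ 2) W) + √(ne2 et)) ∧
    |bqD (r ^ 2) w W (ze w m (r ^ 8) W et) + 2 * (bq (r ^ 2) W) ^ 2
        + 6 / Iq * alf (r ^ 2) W * bq (r ^ 2) W + cnu * r ^ 8| ≤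
      C * (r ^ 12 + r ^ 4 * √(ln γ B (ep P E (r ^ 2) W)) + ln γ B (ep P E (r ^ 2) W)
        + |alm (r ^ 2) w W (ze w m (r ^ 8) W et)| + |ip W (deriv (Qf 4))| + √(ne2 et))
  /-- energy -/
  EN : ∀ Ca r w m W et, r ≤ 1 → Sit P E γ B c Ca r w m W et →
    DEW W (ze w m (r ^ 8) W et) ≤ -2 * w * EW W + C * r ^ 8 + C / r ^ 8 * ne2 et
  XE : ∃ r1 : ℝ, 0 < r1 ∧ ∀ Ca r w m W et, r ≤ r1 → Sit P E γ B c Ca r w m W et →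
    Xn (fun y => W y - Qf 4 y) ≤ 4 * EW W + C * (r ^ 4 + ln γ B (ep P E (r ^ 2) W)) ∧
    -C * (r ^ 4 + ln γ B (ep P E (r ^ 2) W)) ≤ EW W

end H68KC

end
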