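import Pool.Agent.H68.KC.If4
import Pool.Agent.H68.KC.MOa

/-!
# Row MOb (MP_95be7d_K4): pairings are controlled by the local norm

`loc γ B y = se2 γ y * ch B y ≥ exp(-2|γ y|) * exp(-2|y/B|) ≥ exp(-(5/8)|y|)` for `γ ≤ 1/4`, `B ≥ 16`
(`se2_lo`, `ch_eq'`).

## Proofs
* `ip_ln`: Cauchy-Schwarz with weight (`cs_wt` with `W = loc`, `φ = ψ`): `∫ ψ²/loc ≤ C ∫ e^{-|y|} e^{5|y|/8} < ∞`, and
  `∫ loc ε² ≤ ln` (`loc ε²`, `loc ε'²` integrable: `loc` has class `Cl (1/8)..`, it is `≤ 16 e^{-2γ|y|}`: `se2_hi`, `Tan`).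
* `ln_dom`: `|ψ| ≤ C e^{-3|y|/4} ≤ C loc`.
* `e_ip`: `e = h + ε` (`ep_split`), `|h| ≤ C r⁴` by `b1`, `a1`, `cP`, `E_cl` (`c0`, `f0` are fixed numbers), so
  `|ip h ψ| ≤ C r⁴ ∫ |ψ|`; `ip_ln` for `ε`.
* `e_sq`: `e² ≤ 2 h² + 2 ε²`, `ln_dom`.
* `R_ip`: `|Rf 4 e| ≤ C e²` (`R_le` with `|e| ≤ c ≤ 1`), `e_sq`.
* `et_ip`: Cauchy-Schwarz `cs_int`, `∫ et² ≤ ne2 et`.
-/

open MeasureTheory Filter Topology Set
open scoped ContDiff

noncomputable section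

namespace H68KC

open H98KB

variable {P E : ℝ → ℝ} {γ B : ℝ}

theorem MOb_pos (γ B y : ℝ) : 0 < loc γ B y := by
  rw [loc, ch_eq']
  exact mul_pos (se2_pos _ _) (se2_pos _ _)

theorem MOb_ch (hB : 0 < B) (y : ℝ) : Real.exp (-(2 * |y| / B)) ≤ ch B y := by
  rw [ch_eq']
  refine le_trans (le_of_eq ?_) (se2_lo _ _)
  rw [abs_mul, abs_of_pos (one_div_pos.2 hB)]
  congr 1
  ring

theorem loc_low (hγ : 0 < γ) (hγ1 : γ ≤ 1 / 4) (hB : 16 ≤ B) (y : ℝ) :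
    Real.exp (-(5 / 8 * |y|)) ≤ loc γ B y := by
  have hB0 : 0 < B := by linarith
  have h1 := se2_lo γ y
  have h2 := MOb_ch hB0 y
  have h3 : Real.exp (-(5 / 8 * |y|)) ≤ Real.exp (-(2 * |γ * y|)) * Real.exp (-(2 * |y| / B)) := by
    rw [← Real.exp_add]
    refine Real.exp_le_exp.2 ?_
    have hy := abs_nonneg y
    have e1 : |γ * y| ≤ 1 / 4 * |y| := by
      rw [abs_mul, abs_of_pos hγ]
      exact mul_le_mul_of_nonneg_right hγ1 hy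
    have e2 : 2 * |y| / B ≤ 1 / 8 * |y| := by
      rw [div_le_iff₀ hB0]
      nlinarith
    linarith
  refine h3.trans ?_
  exact mul_le_mul h1 h2 (Real.exp_pos _).le (se2_pos γ y).le

theorem MOb_loc (hγ : 0 < γ) (hB : 16 ≤ B) : Cl (2 * γ + 2 / B) (2 * γ + 2 / B) (loc γ B) :=
  Cl_mul (Cl_se2 hγ) (Cl_ch (by linarith))

theorem loc_int (hγ : 0 < γ) (hB : 16 ≤ B) {f : ℝ → ℝ} (hf : Cl 0 0 f) :
    Integrable (fun y => loc γ B y * f y) := by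
  have hB0 : 0 < B := by linarith
  have hpos : 0 < 2 * γ + 2 / B + 0 := by positivity
  exact Cl_int (Cl_mul (MOb_loc hγ hB) hf) hpos hpos

theorem MOb_sq {ε : ℝ → ℝ} (hε : Cl 0 0 ε) : Cl 0 0 (fun y => (ε y) ^ 2) := Cl_pow0 hε 2

theorem MOb_le_ln (hγ : 0 < γ) (hB : 16 ≤ B) {ε : ℝ → ℝ} (hε : Cl 0 0 ε) :
    (∫ y, loc γ B y * (ε y) ^ 2) ≤ ln γ B ε := by
  refine integral_mono (loc_int hγ hB (MOb_sq hε))
    (loc_int hγ hB (Cl_add (MOb_sq hε) (MOb_sq (Cl_der hε)))) (fun y => ?_)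
  have h1 := (MOb_pos γ B y).le
  have h2 := sq_nonneg (deriv ε y)
  exact mul_le_mul_of_nonneg_left (by linarith) h1

theorem MOb_wt (hγ : 0 < γ) (hγ1 : γ ≤ 1 / 4) (hB : 16 ≤ B) {ψ : ℝ → ℝ}
    (hψ : Cl (1 / 2) (1 / 2) ψ) : Integrable (fun y => (ψ y) ^ 2 / loc γ B y) := by
  obtain ⟨C, hC, hb⟩ := Cl_bnd hψ
  have hcont : Continuous (fun y => (ψ y) ^ 2 / loc γ B y) :=
    ((Cl_cont hψ).pow 2).div (Cl_cont (MOb_loc hγ hB)) (fun y => (MOb_pos γ B y).ne')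
  refine Clb_int_of_bd (p := 3 / 8) (q := 3 / 8) hcont (by norm_num) (by norm_num) ⟨C ^ 2, fun y => ?_⟩
  have hl := loc_low hγ hγ1 hB y
  have hlp := MOb_pos γ B y
  rw [abs_of_nonneg (div_nonneg (sq_nonneg _) hlp.le), div_le_iff₀ hlp, bd_abs]
  have h1 : (ψ y) ^ 2 ≤ C ^ 2 * (Real.exp (-(1 / 2 * |y|))) ^ 2 := by
    rw [← mul_pow, ← sq_abs (ψ y)]
    have := hb y
    rw [bd_abs] at this
    exact pow_le_pow_left₀ (abs_nonneg _) this 2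
  have h2 : (Real.exp (-(1 / 2 * |y|))) ^ 2 =
      Real.exp (-(3 / 8 * |y|)) * Real.exp (-(5 / 8 * |y|)) := by
    rw [← Real.exp_nat_mul, ← Real.exp_add]
    congr 1
    push_cast
    ring
  rw [h2] at h1
  calc (ψ y) ^ 2 ≤ C ^ 2 * (Real.exp (-(3 / 8 * |y|)) * Real.exp (-(5 / 8 * |y|))) := h1
    _ = C ^ 2 * Real.exp (-(3 / 8 * |y|)) * Real.exp (-(5 / 8 * |y|)) := by ring
    _ ≤ C ^ 2 * Real.exp (-(3 / 8 * |y|)) * loc γ B y :=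
        mul_le_mul_of_nonneg_left hl (by positivity)

theorem ip_ln (hγ : 0 < γ) (hγ1 : γ ≤ 1 / 4) (hB : 16 ≤ B) {ψ : ℝ → ℝ} (hψ : Cl (1 / 2) (1 / 2) ψ) :
    ∃ C : ℝ, 0 ≤ C ∧ ∀ ε : ℝ → ℝ, Cl 0 0 ε → |ip ε ψ| ≤ C * √(ln γ B ε) := by
  refine ⟨√(∫ y, (ψ y) ^ 2 / loc γ B y), Real.sqrt_nonneg _, fun ε hε => ?_⟩
  have h := (cs_wt (Cl_cont hε) (Cl_cont hψ) (Cl_cont (MOb_loc hγ hB)) (MOb_pos γ B)
    (loc_int hγ hB (MOb_sq hε)) (MOb_wt hγ hγ1 hB hψ)).2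
  refine h.trans ?_
  exact mul_le_mul_of_nonneg_left (Real.sqrt_le_sqrt (MOb_le_ln hγ hB hε)) (Real.sqrt_nonneg _)

theorem ln_dom (hγ : 0 < γ) (hγ1 : γ ≤ 1 / 4) (hB : 16 ≤ B) {ψ : ℝ → ℝ} (hψ : Cl (3 / 4) (3 / 4) ψ) :
    ∃ C : ℝ, 0 ≤ C ∧ ∀ ε : ℝ → ℝ, Cl 0 0 ε → (∫ y, |ψ y| * (ε y) ^ 2) ≤ C * ln γ B ε := by
  obtain ⟨C, hC, hb⟩ := Cl_bnd hψ
  refine ⟨C, hC, fun ε hε => ?_⟩
  have h1 : (∫ y, |ψ y| * (ε y) ^ 2) ≤ ∫ y, C * (loc γ B y * (ε y) ^ 2) := by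
    refine integral_mono_of_nonneg (Eventually.of_forall fun y => by positivity)
      ((loc_int hγ hB (MOb_sq hε)).const_mul C) (Eventually.of_forall fun y => ?_)
    show |ψ y| * (ε y) ^ 2 ≤ C * (loc γ B y * (ε y) ^ 2)
    have h2 := hb y
    rw [bd_abs] at h2
    have h3 : Real.exp (-(3 / 4 * |y|)) ≤ loc γ B y := by
      refine le_trans ?_ (loc_low hγ hγ1 hB y)
      refine Real.exp_le_exp.2 ?_
      have := abs_nonneg y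
      linarith
    have h4 : |ψ y| ≤ C * loc γ B y := h2.trans (mul_le_mul_of_nonneg_left h3 hC)
    calc |ψ y| * (ε y) ^ 2 ≤ C * loc γ B y * (ε y) ^ 2 :=
          mul_le_mul_of_nonneg_right h4 (sq_nonneg _)
      _ = C * (loc γ B y * (ε y) ^ 2) := by ring
  rw [integral_const_mul] at h1
  exact h1.trans (mul_le_mul_of_nonneg_left (MOb_le_ln hγ hB hε) hC)

theorem h_le (hp : Prof P E) : ∃ C : ℝ, 0 ≤ C ∧ ∀ c Ca r w m W et,
    Sit P E γ B c Ca r w m W et → ∀ y, |hf P E (bq (r ^ 2) W) (alf (r ^ 2) W) y| ≤ C * r ^ 4 := by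
  obtain ⟨CP, hCP, hP⟩ := Cl_bnd hp.cP
  obtain ⟨CE, hCE, hE⟩ := Cl_bnd (E_cl hp)
  refine ⟨|5 * c0| * CP + (|f0| + 1) * CE, by positivity, fun c Ca r w m W et hS y => ?_⟩
  have hr : 0 < r ^ 4 := pow_pos hS.r0 4
  have h1 : |bq (r ^ 2) W| ≤ |5 * c0| * r ^ 4 :=
    hS.b1.trans (mul_le_mul_of_nonneg_right (le_abs_self _) hr.le)
  have h2 := hP y
  have h3 := hE y
  rw [bd_zero, mul_one] at h2 h3
  have h4 : |bq (r ^ 2) W * P y| ≤ |5 * c0| * r ^ 4 * CP := by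
    rw [abs_mul]
    exact mul_le_mul h1 h2 (abs_nonneg _) (by positivity)
  have h5 : |alf (r ^ 2) W * E y| ≤ (|f0| + 1) * r ^ 4 * CE := by
    rw [abs_mul]
    exact mul_le_mul hS.a1 h3 (abs_nonneg _) (by positivity)
  rw [hf]
  have h6 := abs_add_le (bq (r ^ 2) W * P y) (alf (r ^ 2) W * E y)
  nlinarith

theorem MOb_ep (hp : Prof P E) {c Ca r w m : ℝ} {W et : ℝ → ℝ}
    (hS : Sit P E γ B c Ca r w m W et) : Cl 0 0 (ep P E (r ^ 2) W) := by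
  obtain ⟨p, q, h1, -, h3, -, h5, -⟩ := hS.cl
  exact ep_cl hp h1.le h3.le h5

theorem MOb_e (c Ca r w m : ℝ) {W et : ℝ → ℝ}
    (hS : Sit P E γ B c Ca r w m W et) : Cl 0 0 (fun y => W y - Qf 4 y) := by
  obtain ⟨p, q, h1, -, h3, -, h5, -⟩ := hS.cl
  exact Cl_mono h5 h1.le h3.le

theorem e_ip (hp : Prof P E) (hγ : 0 < γ) (hγ1 : γ ≤ 1 / 4) (hB : 16 ≤ B) {ψ : ℝ → ℝ}
    (hψ : Cl (1 / 2) (1 / 2) ψ) : ∃ C : ℝ, 0 ≤ C ∧ ∀ c Ca r w m W et,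
    Sit P E γ B c Ca r w m W et → |ip (fun y => W y - Qf 4 y) ψ| ≤
      C * (r ^ 4 + √(ln γ B (ep P E (r ^ 2) W))) := by
  obtain ⟨C1, hC1, h1⟩ := h_le (γ := γ) (B := B) hp
  obtain ⟨C2, hC2, h2⟩ := ip_ln hγ hγ1 hB hψ
  have hI : 0 ≤ ∫ y, |ψ y| := integral_nonneg fun y => abs_nonneg _
  have hψi : Integrable ψ := Cl_int hψ (by norm_num) (by norm_num)
  refine ⟨C1 * (∫ y, |ψ y|) + C2, by positivity, fun c Ca r w m W et hS => ?_⟩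
  have hε := MOb_ep hp hS
  have hh := hf_cl hp (bq (r ^ 2) W) (alf (r ^ 2) W)
  have i1 : Integrable (fun y => hf P E (bq (r ^ 2) W) (alf (r ^ 2) W) y * ψ y) :=
    Cl_int (Cl_mul0 hh hψ) (by norm_num) (by norm_num)
  have i2 : Integrable (fun y => ep P E (r ^ 2) W y * ψ y) :=
    Cl_int (Cl_mul0 hε hψ) (by norm_num) (by norm_num)
  have e1 : ip (fun y => W y - Qf 4 y) ψ =
      (∫ y, hf P E (bq (r ^ 2) W) (alf (r ^ 2) W) y * ψ y) + ip (ep P E (r ^ 2) W) ψ := by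
    rw [ip, ip, ← integral_add i1 i2]
    refine integral_congr_ae (Eventually.of_forall fun y => ?_)
    simp only
    rw [ep_split P E (r ^ 2) W y]
    ring
  have e2 : |∫ y, hf P E (bq (r ^ 2) W) (alf (r ^ 2) W) y * ψ y| ≤
      C1 * r ^ 4 * ∫ y, |ψ y| := by
    rw [← integral_const_mul, ← Real.norm_eq_abs]
    refine norm_integral_le_of_norm_le (hψi.abs.const_mul _) (Eventually.of_forall fun y => ?_)
    rw [Real.norm_eq_abs, abs_mul]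
    exact mul_le_mul_of_nonneg_right (h1 c Ca r w m W et hS y) (abs_nonneg _)
  have e3 := h2 _ hε
  rw [e1]
  refine (abs_add_le _ _).trans ?_
  have hs := Real.sqrt_nonneg (ln γ B (ep P E (r ^ 2) W))
  have hr : 0 < r ^ 4 := pow_pos hS.r0 4
  have g1 := mul_nonneg (mul_nonneg hC1 hI) hs
  have g2 := mul_nonneg hC2 hr.le
  nlinarith

theorem e_sq (hp : Prof P E) (hγ : 0 < γ) (hγ1 : γ ≤ 1 / 4) (hB : 16 ≤ B) {ψ : ℝ → ℝ}
    (hψ : Cl (3 / 4) (3 / 4) ψ) : ∃ C : ℝ, 0 ≤ C ∧ ∀ c Ca r w m W et,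
    Sit P E γ B c Ca r w m W et → (∫ y, |ψ y| * (W y - Qf 4 y) ^ 2) ≤
      C * (r ^ 8 + ln γ B (ep P E (r ^ 2) W)) := by
  obtain ⟨C1, hC1, h1⟩ := h_le (γ := γ) (B := B) hp
  obtain ⟨C2, hC2, h2⟩ := ln_dom hγ hγ1 hB hψ
  have hI : 0 ≤ ∫ y, |ψ y| := integral_nonneg fun y => abs_nonneg _
  have hψi : Integrable ψ := Cl_int hψ (by norm_num) (by norm_num)
  refine ⟨2 * C1 ^ 2 * (∫ y, |ψ y|) + 2 * C2, by positivity, fun c Ca r w m W et hS => ?_⟩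
  have hε := MOb_ep hp hS
  have hln0 : 0 ≤ ln γ B (ep P E (r ^ 2) W) := by
    refine integral_nonneg fun y => ?_
    have := (MOb_pos γ B y).le
    positivity
  have i2 : Integrable (fun y => |ψ y| * (ep P E (r ^ 2) W y) ^ 2) := by
    refine (Cl_int (Cl_mul0 (MOb_sq hε) hψ) (by norm_num) (by norm_num)).abs.congr
      (Eventually.of_forall fun y => ?_)
    simp only
    rw [abs_mul, abs_of_nonneg (sq_nonneg _), mul_comm]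
  have h3 : (∫ y, |ψ y| * (W y - Qf 4 y) ^ 2) ≤
      ∫ y, (2 * (C1 * r ^ 4) ^ 2 * |ψ y| + 2 * (|ψ y| * (ep P E (r ^ 2) W y) ^ 2)) := by
    refine integral_mono_of_nonneg (Eventually.of_forall fun y => by positivity)
      ((hψi.abs.const_mul _).add (i2.const_mul 2)) (Eventually.of_forall fun y => ?_)
    simp only
    rw [ep_split P E (r ^ 2) W y]
    have g1 := h1 c Ca r w m W et hS y
    have g2 : (hf P E (bq (r ^ 2) W) (alf (r ^ 2) W) y) ^ 2 ≤ (C1 * r ^ 4) ^ 2 := by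
      rw [← sq_abs]
      exact pow_le_pow_left₀ (abs_nonneg _) g1 2
    have g3 : (hf P E (bq (r ^ 2) W) (alf (r ^ 2) W) y + ep P E (r ^ 2) W y) ^ 2 ≤
        2 * (C1 * r ^ 4) ^ 2 + 2 * (ep P E (r ^ 2) W y) ^ 2 := by
      have := sq_nonneg (hf P E (bq (r ^ 2) W) (alf (r ^ 2) W) y - ep P E (r ^ 2) W y)
      nlinarith
    have g4 := mul_le_mul_of_nonneg_left g3 (abs_nonneg (ψ y))
    refine g4.trans (le_of_eq ?_)
    ring
  have i3 : Integrable (fun y => 2 * (C1 * r ^ 4) ^ 2 * |ψ y|) := hψi.abs.const_mul _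
  have i4 : Integrable (fun y => 2 * (|ψ y| * (ep P E (r ^ 2) W y) ^ 2)) := i2.const_mul 2
  rw [integral_add i3 i4, integral_const_mul, integral_const_mul] at h3
  have h4 := h2 _ hε
  have hr : 0 < r ^ 8 := pow_pos hS.r0 8
  have e8 : (C1 * r ^ 4) ^ 2 = C1 ^ 2 * r ^ 8 := by ring
  rw [e8] at h3
  have g1 := mul_nonneg (mul_nonneg (sq_nonneg C1) hI) hln0
  have g2 := mul_nonneg hC2 hr.le
  nlinarith

theorem R_ip (hp : Prof P E) (hγ : 0 < γ) (hγ1 : γ ≤ 1 / 4) (hB : 16 ≤ B) {ψ : ℝ → ℝ}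
    (hψ : Cl (3 / 4) (3 / 4) ψ) : ∃ C : ℝ, 0 ≤ C ∧ ∀ c Ca r w m W et, c ≤ 1 →
    Sit P E γ B c Ca r w m W et → |ip (Rf 4 (fun y => W y - Qf 4 y)) ψ| ≤
      C * (r ^ 8 + ln γ B (ep P E (r ^ 2) W)) := by
  obtain ⟨C1, hC1, h1⟩ := e_sq hp hγ hγ1 hB hψ
  obtain ⟨C2, hC2, h2⟩ := R_le 4 (by norm_num)
  refine ⟨C2 * C1, mul_nonneg hC2.le hC1, fun c Ca r w m W et hc hS => ?_⟩
  have he := MOb_e c Ca r w m hS
  have i1 : Integrable (fun y => |ψ y| * (W y - Qf 4 y) ^ 2) := by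
    refine (Cl_int (Cl_mul0 (MOb_sq he) hψ) (by norm_num) (by norm_num)).abs.congr
      (Eventually.of_forall fun y => ?_)
    simp only
    rw [abs_mul, abs_of_nonneg (sq_nonneg _), mul_comm]
  have h3 : |ip (Rf 4 (fun y => W y - Qf 4 y)) ψ| ≤ C2 * ∫ y, |ψ y| * (W y - Qf 4 y) ^ 2 := by
    rw [← integral_const_mul, ip, ← Real.norm_eq_abs]
    refine norm_integral_le_of_norm_le (i1.const_mul _) (Eventually.of_forall fun y => ?_)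
    rw [Real.norm_eq_abs, abs_mul]
    have g := h2 (fun y => W y - Qf 4 y) y ((hS.sup y).trans hc)
    have g2 := mul_le_mul_of_nonneg_right g (abs_nonneg (ψ y))
    refine g2.trans (le_of_eq ?_)
    ring
  refine h3.trans ?_
  rw [mul_assoc]
  exact mul_le_mul_of_nonneg_left (h1 c Ca r w m W et hS) hC2.le

theorem et_ip {ψ : ℝ → ℝ} (hψ : Cl (1 / 2) (1 / 2) ψ) : ∃ C : ℝ, 0 ≤ C ∧ ∀ (p q : ℝ) (et : ℝ → ℝ),
    0 < p → 0 < q → Cl p q et → |ip et ψ| ≤ C * √(ne2 et) := by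
  refine ⟨√(∫ y, (ψ y) ^ 2), Real.sqrt_nonneg _, fun p q et hp hq he => ?_⟩
  have i1 : ∀ {a b : ℝ} {f : ℝ → ℝ}, 0 < a → 0 < b → Cl a b f → Integrable (fun y => f y ^ 2) := by
    intro a b f ha hb hf
    exact Cl_int (Cl_pow' hf ha.le hb.le 2 (by norm_num)) ha hb
  have h := (cs_int (Cl_cont he) (Cl_cont hψ) (i1 hp hq he) (i1 (by norm_num) (by norm_num) hψ)).2
  refine h.trans ?_
  rw [mul_comm]
  refine mul_le_mul_of_nonneg_left (Real.sqrt_le_sqrt ?_) (Real.sqrt_nonneg _)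
  refine integral_mono (i1 hp hq he) ((i1 hp hq he).add (i1 hp hq (Cl_der he))) (fun y => ?_)
  show (et y) ^ 2 ≤ (et y) ^ 2 + (deriv et y) ^ 2
  have := sq_nonneg (deriv et y)
  linarith

end H68KC

end
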