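import Pool.Agent.H68.KC.MOb

/-!
# Row MOc (MP_95be7d_K4): modulation equations: bounds for `m` and `b - w`

Write `e = W - Q`, `n = √(ln ε)`, `ne = √(ne2 et)`, `l = r^8`, `K = ∫ Q'²`, all constants `C` depend on `P, E, γ, B`.
`n ≤ √c` by `lnc`. `r ≤ 1`.

## Proof of `m_le`
`pair_ze` with `φ = Q'`: `(ζ,Q') = 0` (`or2`), `L Q'' = 4 ρ` (`L_Qdd`), `(e,ρ) = (ε,ρ)` (`ep_rho`), `(ΛQ,Q') = 0`, `(Q'',Q') = 0`:
`0 = -4 (ε,ρ) + (R,Q'') + m K + w (e,ΛQ') - m (e,Q'') + l (e,Q''') + (et,Q'')`.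
So `|m| |K - (e,Q'')| ≤ C (n + r^8 + n² + 5c₀ r⁴ (r⁴ + n) + r^8 (r⁴ + n) + ne)` by `ip_ln`, `R_ip`, `e_ip`, `et_ip`, `w0`, `w1`;
`|(e,Q'')| ≤ C (r⁴ + n) ≤ C (r⁴ + √c) ≤ K/2` for `r ≤ r1` and `c ≤ c1` small. Since `n ≤ 1`, `n² ≤ n`, `r ≤ 1`: the claim.
(`ΛQ'` is of class `1/2 1/2`: `Cl_Lam` with `c = 1/2`.)

## Proof of `bw_eq`, `bw_le`
`pair_ze` with `φ = ρ`: `(ζ,ρ) = 0` (`or1`), `(Q',ρ) = 0` (`ip_Qdrho`). `-(e,Lρ') = -(h,Lρ') - (ε,Lρ')`, `(ε,Lρ') = (Lε,ρ')` (`Lop_symm`) and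
`(h,Lρ') = (Lh,ρ') = -((Lh)',ρ) = -b (ΛQ,ρ)` since `Lh = -b J + α` (`Prof.LP`, `Prof.LE`), `Jf_hd`. So
`(b - w)(ΛQ,ρ) - (Lε,ρ') = -(R,ρ') - l (Q'',ρ) - w (e,Λρ) + m (e,ρ') - l (e,ρ'') - (et,ρ')`,
right hand side `≤ C (r^8 + n² + r⁴ (r⁴ + n) + |m| (r⁴ + n) + r^8 + ne)`, and with `m_le`
`|m| (r⁴ + n) ≤ C (n + r^8 + ne)(r⁴ + n) ≤ C (r⁴ n + n² + r^8 + ne)`.
`bw_le`: `(ΛQ,ρ) = K/2 > 0` (`ip_LamQrho`), `|(Lε,ρ')| = |(ε,Lρ')| ≤ C n` (`ip_ln`).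
-/

open MeasureTheory Filter Topology Set
open scoped ContDiff

noncomputable section

namespace H68KC

open H98KB

variable {P E : ℝ → ℝ} {γ B : ℝ}

theorem MOc_ln0 (hγ : 0 < γ) (hγ1 : γ ≤ 1 / 4) (hB : 16 ≤ B) (ε : ℝ → ℝ) : 0 ≤ ln γ B ε :=
  integral_nonneg fun y => mul_nonneg ((Real.exp_pos _).le.trans (loc_low hγ hγ1 hB y))
    (by positivity)

theorem MOc_c0 : 0 < c0 := by
  unfold c0 cnu
  have h1 : 0 < ∫ y, (deriv (Qf 4) y) ^ 2 := Qd2_pos (by norm_num)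
  have h2 := Iq_pos
  positivity

theorem MOc_Q1 : Cl 1 1 (deriv (Qf 4)) := Cl_der (Cl_Qf (by norm_num))

theorem MOc_Q2 : Cl 1 1 (deriv (deriv (Qf 4))) := Cl_der MOc_Q1

theorem MOc_Q3 : Cl 1 1 (deriv (deriv (deriv (Qf 4)))) := Cl_der MOc_Q2

theorem MOc_LQ1 : Cl (1 / 2) (1 / 2) (Lam 4 (deriv (Qf 4))) := by
  have h := Cl_Lam 4 MOc_Q1 (c := 1 / 2) (by norm_num)
  have e1 : (1 : ℝ) - 1 / 2 = 1 / 2 := by norm_num
  rwa [e1] at h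

theorem MOc_r1 : Cl 3 3 (deriv rho) := Cl_der rho_cl

theorem MOc_r2 : Cl 3 3 (deriv (deriv rho)) := Cl_der MOc_r1

theorem MOc_Lr : Cl (1 / 2) (1 / 2) (Lam 4 rho) := by
  have h := Cl_Lam 4 rho_cl (c := 1 / 2) (by norm_num)
  exact Cl_mono h (by norm_num) (by norm_num)

theorem MOc_Lopr : Cl 3 3 (Lop 4 (deriv rho)) := Cl_Lop (by norm_num) MOc_r1

/-- numerical part of `m_le` -/
theorem MOc_num1 {C1 C2 C3 C4 C5 C6 c0 K r n ne w m A1 A2 A3 A4 A5 A6 : ℝ}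
    (hC1 : 0 ≤ C1) (hC2 : 0 ≤ C2) (hC3 : 0 ≤ C3) (hC4 : 0 ≤ C4) (hC5 : 0 ≤ C5) (hC6 : 0 ≤ C6)
    (hc0 : 0 < c0) (hK : 0 < K) (hr0 : 0 < r) (hr1 : r ≤ 1) (hrκ : r ≤ K / (4 * (C4 + 1)))
    (hn0 : 0 ≤ n) (hn1 : n ≤ 1) (hnκ : n ≤ K / (4 * (C4 + 1))) (hne0 : 0 ≤ ne)
    (hw0 : 0 ≤ w) (hw1 : w ≤ 5 * c0 * r ^ 4)
    (b1 : |A1| ≤ C1 * n) (b2 : |A2| ≤ C2 * (r ^ 8 + n ^ 2)) (b3 : |A3| ≤ C3 * (r ^ 4 + n))
    (b4 : |A4| ≤ C4 * (r ^ 4 + n)) (b5 : |A5| ≤ C5 * (r ^ 4 + n)) (b6 : |A6| ≤ C6 * ne)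
    (key : m * (K - A4) = 4 * A1 - A2 - w * A3 - r ^ 8 * A5 - A6) :
    |m| ≤ 2 * (4 * C1 + C2 + 5 * c0 * C3 + C5 + C6 + 1) / K * (n + r ^ 8 + ne) := by
  have hr4 : r ^ 4 ≤ r := by
    have : r ^ 4 ≤ r ^ 1 := pow_le_pow_of_le_one hr0.le hr1 (by norm_num)
    simpa using this
  have hr41 : r ^ 4 ≤ 1 := hr4.trans hr1
  have hr81 : r ^ 8 ≤ 1 := pow_le_one₀ hr0.le hr1
  have hr40 : 0 ≤ r ^ 4 := by positivity
  have hr80 : 0 ≤ r ^ 8 := by positivity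
  have hn2 : n ^ 2 ≤ n := pow_le_of_le_one hn0 hn1 two_ne_zero
  have hA4 : |A4| ≤ K / 2 := by
    refine b4.trans ?_
    have : C4 * (r ^ 4 + n) ≤ (C4 + 1) * (K / (4 * (C4 + 1)) + K / (4 * (C4 + 1))) := by
      apply mul_le_mul (by linarith) (by linarith) (by positivity) (by linarith)
    refine this.trans (le_of_eq ?_)
    field_simp
    ring
  have hmul : |m| * (K / 2) ≤ |m * (K - A4)| := by
    rw [abs_mul]
    refine mul_le_mul_of_nonneg_left ?_ (abs_nonneg _)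
    have h5 := (abs_le.1 hA4).2
    rw [abs_of_nonneg (by linarith)]
    linarith
  have t1 : |4 * A1 - A2 - w * A3 - r ^ 8 * A5 - A6| ≤
      4 * |A1| + |A2| + w * |A3| + r ^ 8 * |A5| + |A6| := by
    have s1 := abs_sub (4 * A1 - A2 - w * A3 - r ^ 8 * A5) A6
    have s2 := abs_sub (4 * A1 - A2 - w * A3) (r ^ 8 * A5)
    have s3 := abs_sub (4 * A1 - A2) (w * A3)
    have s4 := abs_sub (4 * A1) A2
    rw [abs_mul (r ^ 8), abs_of_nonneg hr80] at s2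
    rw [abs_mul w, abs_of_nonneg hw0] at s3
    rw [abs_mul 4, abs_of_pos (by norm_num : (0 : ℝ) < 4)] at s4
    linarith
  have u1 : 4 * |A1| ≤ 4 * C1 * n := by linarith
  have u2 : |A2| ≤ C2 * (n + r ^ 8) := b2.trans (mul_le_mul_of_nonneg_left (by linarith) hC2)
  have u3 : w * |A3| ≤ 5 * c0 * C3 * (n + r ^ 8) := by
    calc w * |A3| ≤ (5 * c0 * r ^ 4) * (C3 * (r ^ 4 + n)) :=
          mul_le_mul hw1 b3 (abs_nonneg _) (by positivity)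
      _ = 5 * c0 * C3 * (r ^ 8 + r ^ 4 * n) := by ring
      _ ≤ 5 * c0 * C3 * (n + r ^ 8) := by
        refine mul_le_mul_of_nonneg_left ?_ (by positivity)
        have := mul_le_of_le_one_left hn0 hr41
        linarith
  have u5 : r ^ 8 * |A5| ≤ C5 * (n + r ^ 8) := by
    calc r ^ 8 * |A5| ≤ r ^ 8 * (C5 * (r ^ 4 + n)) := mul_le_mul_of_nonneg_left b5 hr80
      _ = C5 * (r ^ 8 * r ^ 4 + r ^ 8 * n) := by ring
      _ ≤ C5 * (n + r ^ 8) := by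
        refine mul_le_mul_of_nonneg_left ?_ hC5
        have e1 := mul_le_of_le_one_right hr80 hr41
        have e2 := mul_le_of_le_one_left hn0 hr81
        linarith
  have v1 : 0 ≤ C1 * (r ^ 8 + ne) := by positivity
  have v2 : 0 ≤ C2 * ne := by positivity
  have v3 : 0 ≤ c0 * C3 * ne := by positivity
  have v5 : 0 ≤ C5 * ne := by positivity
  have v6 : 0 ≤ C6 * (n + r ^ 8) := by positivity
  have v7 : 0 ≤ n + r ^ 8 + ne := by positivity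
  have hbound : |4 * A1 - A2 - w * A3 - r ^ 8 * A5 - A6| ≤
      (4 * C1 + C2 + 5 * c0 * C3 + C5 + C6 + 1) * (n + r ^ 8 + ne) := by
    have e : (4 * C1 + C2 + 5 * c0 * C3 + C5 + C6 + 1) * (n + r ^ 8 + ne) =
        4 * C1 * n + 4 * (C1 * (r ^ 8 + ne)) + C2 * (n + r ^ 8) + C2 * ne +
        5 * c0 * C3 * (n + r ^ 8) + 5 * (c0 * C3 * ne) + C5 * (n + r ^ 8) + C5 * ne +
        C6 * (n + r ^ 8) + C6 * ne + (n + r ^ 8 + ne) := by ring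
    rw [e]
    linarith
  rw [key] at hmul
  have hfin := hmul.trans hbound
  have e : |m| = |m| * (K / 2) * (2 / K) := by field_simp
  rw [e]
  calc |m| * (K / 2) * (2 / K) ≤
      ((4 * C1 + C2 + 5 * c0 * C3 + C5 + C6 + 1) * (n + r ^ 8 + ne)) * (2 / K) :=
        mul_le_mul_of_nonneg_right hfin (by positivity)
    _ = _ := by field_simp

/-- the local norm -/
theorem MOc_n (hγ : 0 < γ) (hγ1 : γ ≤ 1 / 4) (hB : 16 ≤ B) {ε : ℝ → ℝ} {t : ℝ} (ht : 0 ≤ t)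
    (h : ln γ B ε ≤ t ^ 2) : √(ln γ B ε) ^ 2 = ln γ B ε ∧ √(ln γ B ε) ≤ t := by
  refine ⟨Real.sq_sqrt (MOc_ln0 hγ hγ1 hB _), ?_⟩
  rw [Real.sqrt_le_left ht]
  exact h

theorem m_le (hp : Prof P E) (hγ : 0 < γ) (hγ1 : γ ≤ 1 / 4) (hB : 16 ≤ B) :
    ∃ C r1 c1 : ℝ, 0 < C ∧ 0 < r1 ∧ 0 < c1 ∧ c1 ≤ 1 ∧ ∀ c Ca r w m W et, c ≤ c1 → r ≤ r1 →
      Sit P E γ B c Ca r w m W et →
      |m| ≤ C * (√(ln γ B (ep P E (r ^ 2) W)) + r ^ 8 + √(ne2 et)) := by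
  obtain ⟨C1, hC1, H1⟩ := ip_ln hγ hγ1 hB (ψ := rho) (Cl_mono rho_cl (by norm_num) (by norm_num))
  obtain ⟨C2, hC2, H2⟩ := R_ip hp hγ hγ1 hB (ψ := deriv (deriv (Qf 4)))
    (Cl_mono MOc_Q2 (by norm_num) (by norm_num))
  obtain ⟨C3, hC3, H3⟩ := e_ip hp hγ hγ1 hB MOc_LQ1
  obtain ⟨C4, hC4, H4⟩ := e_ip hp hγ hγ1 hB (ψ := deriv (deriv (Qf 4)))
    (Cl_mono MOc_Q2 (by norm_num) (by norm_num))
  obtain ⟨C5, hC5, H5⟩ := e_ip hp hγ hγ1 hB (ψ := deriv (deriv (deriv (Qf 4))))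
    (Cl_mono MOc_Q3 (by norm_num) (by norm_num))
  obtain ⟨C6, hC6, H6⟩ := et_ip (ψ := deriv (deriv (Qf 4)))
    (Cl_mono MOc_Q2 (by norm_num) (by norm_num))
  obtain ⟨K, hK⟩ : ∃ K, K = ∫ y, (deriv (Qf 4) y) ^ 2 := ⟨_, rfl⟩
  have hK0 : 0 < K := by rw [hK]; exact Qd2_pos (by norm_num)
  have hc0 := MOc_c0
  have hκ0 : 0 < K / (4 * (C4 + 1)) := by positivity
  refine ⟨2 * (4 * C1 + C2 + 5 * c0 * C3 + C5 + C6 + 1) / K, min 1 (K / (4 * (C4 + 1))),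
    min 1 ((K / (4 * (C4 + 1))) ^ 2), by positivity,
    by positivity, by positivity, min_le_left _ _, ?_⟩
  intro c Ca r w m W et hc hr S
  obtain ⟨p, q, hp0, hp2, hq0, hq2, hW, he⟩ := S.cl
  have b1 := H1 (ep P E (r ^ 2) W) (ep_cl hp hp0.le hq0.le hW)
  have b2 := H2 c Ca r w m W et (hc.trans (min_le_left _ _)) S
  have b3 := H3 c Ca r w m W et S
  have b4 := H4 c Ca r w m W et S
  have b5 := H5 c Ca r w m W et S
  have b6 := H6 p q et hp0 hq0 he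
  have hpz := pair_ze (w := w) (m := m) (l := r ^ 8) hp0 hq0 (by linarith) (by linarith) hW he
    MOc_Q1
  rw [S.or2] at hpz
  have hL : Lop 4 (deriv (deriv (Qf 4))) = fun y => 4 * rho y := funext L_Qdd
  have h1 : ip (fun y => W y - Qf 4 y) (Lop 4 (deriv (deriv (Qf 4)))) =
      4 * ip (ep P E (r ^ 2) W) rho := by
    rw [ep_rho hp hp0 hq0 hW, hL]
    unfold ip
    rw [← integral_const_mul]
    congr 1
    funext y
    ring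
  have h2 : ip (deriv (Qf 4)) (deriv (Qf 4)) = K := by
    rw [hK]
    unfold ip
    congr 1
    funext y
    ring
  rw [h1, ip_LamQ_Qd (by norm_num), ip_Qdd_Qd (by norm_num), h2] at hpz
  have hlnc : ln γ B (ep P E (r ^ 2) W) ≤ min 1 ((K / (4 * (C4 + 1))) ^ 2) := S.lnc.trans hc
  have hN1 := MOc_n hγ hγ1 hB zero_le_one (by
    rw [one_pow]; exact hlnc.trans (min_le_left _ _))
  have hN2 := MOc_n hγ hγ1 hB hκ0.le (hlnc.trans (min_le_right _ _))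
  rw [← hN1.1] at b2
  refine MOc_num1 hC1 hC2 hC3 hC4 hC5 hC6 hc0 hK0 S.r0 (hr.trans (min_le_left _ _))
    (hr.trans (min_le_right _ _)) (Real.sqrt_nonneg _) hN1.2 hN2.2 (Real.sqrt_nonneg _) S.w0 S.w1
    b1 b2 b3 b4 b5 b6 ?_
  linear_combination -hpz

theorem MOc_Lh (hp : Prof P E) (b α : ℝ) (y : ℝ) :
    Lop 4 (hf P E b α) y = -b * Jf y + α := by
  have hP := hp.cP
  have hE := E_cl hp
  have d1 : ∀ y, HasDerivAt (hf P E b α) (b * deriv P y + α * deriv E y) y := fun y =>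
    ((Cl_hd hP y).const_mul b).add ((Cl_hd hE y).const_mul α)
  have d1' : deriv (hf P E b α) = fun y => b * deriv P y + α * deriv E y :=
    funext fun y => (d1 y).deriv
  have d2 : ∀ y, HasDerivAt (fun y => b * deriv P y + α * deriv E y)
      (b * deriv (deriv P) y + α * deriv (deriv E) y) y := fun y =>
    ((Cl_hd (Cl_der hP) y).const_mul b).add ((Cl_hd (Cl_der hE) y).const_mul α)
  have h1 := hp.LP y
  have h2 := hp.LE y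
  unfold Lop at h1 h2 ⊢
  rw [d1', (d2 y).deriv, hf]
  linear_combination b * h1 + α * h2

theorem ep_h_rho (hp : Prof P E) (b α : ℝ) :
    ip (hf P E b α) (Lop 4 (deriv rho)) = -b * ip (Lam 4 (Qf 4)) rho := by
  have hc := hf_cl hp b α
  have hL : Cl 0 0 (Lop 4 (hf P E b α)) := Cl_Lop (by norm_num) hc
  rw [← Lop_symm (by norm_num) hc MOc_r1 (by norm_num) (by norm_num)]
  have h1 := Cl_ibp hL rho_cl (by norm_num) (by norm_num)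
  have hd : ∀ y, deriv (Lop 4 (hf P E b α)) y = b * Lam 4 (Qf 4) y := by
    intro y
    have h2 : Lop 4 (hf P E b α) = fun y => -b * Jf y + α := funext (MOc_Lh hp b α)
    rw [h2]
    have h3 := ((Jf_hd y).const_mul (-b)).add_const α
    rw [h3.deriv]
    ring
  unfold ip
  have h4 : (∫ y, deriv (Lop 4 (hf P E b α)) y * rho y) = b * ∫ y, Lam 4 (Qf 4) y * rho y := by
    rw [← integral_const_mul]
    congr 1
    funext y
    rw [hd y]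
    ring
  linarith

/-- numerical part of `bw_eq` -/
theorem MOc_num2 {Cm C2 C3 C4 C5 C6 c0 r n ne w m A2 A3 A4 A5 A6 A7 : ℝ}
    (hCm : 0 < Cm) (hC2 : 0 ≤ C2) (hC3 : 0 ≤ C3) (hC4 : 0 ≤ C4) (hC5 : 0 ≤ C5) (hC6 : 0 ≤ C6)
    (hc0 : 0 < c0) (hr0 : 0 < r) (hr1 : r ≤ 1)
    (hn0 : 0 ≤ n) (hn1 : n ≤ 1) (hne0 : 0 ≤ ne)
    (hw0 : 0 ≤ w) (hw1 : w ≤ 5 * c0 * r ^ 4) (hm : |m| ≤ Cm * (n + r ^ 8 + ne))
    (b2 : |A2| ≤ C2 * (r ^ 8 + n ^ 2)) (b3 : |A3| ≤ C3 * (r ^ 4 + n))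
    (b4 : |A4| ≤ C4 * (r ^ 4 + n)) (b5 : |A5| ≤ C5 * (r ^ 4 + n)) (b6 : |A6| ≤ C6 * ne) :
    |m * A4 - A2 - w * A3 - r ^ 8 * A5 - r ^ 8 * A7 - A6| ≤
      (C2 + |A7| + 5 * c0 * C3 + 2 * Cm * C4 + C5 + C6 + 1) * (r ^ 8 + r ^ 4 * n + n ^ 2 + ne) := by
  have hr41 : r ^ 4 ≤ 1 := pow_le_one₀ hr0.le hr1
  have hr81 : r ^ 8 ≤ 1 := pow_le_one₀ hr0.le hr1
  have hr84 : r ^ 8 ≤ r ^ 4 := pow_le_pow_of_le_one hr0.le hr1 (by norm_num)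
  have hr40 : 0 ≤ r ^ 4 := by positivity
  have hr80 : 0 ≤ r ^ 8 := by positivity
  have z1 : 0 ≤ r ^ 4 * n := by positivity
  have z2 : 0 ≤ n ^ 2 := by positivity
  obtain ⟨X, hX⟩ : ∃ X, X = r ^ 8 + r ^ 4 * n + n ^ 2 + ne := ⟨_, rfl⟩
  rw [← hX]
  have hX0 : 0 ≤ X := by rw [hX]; positivity
  have t1 : |m * A4 - A2 - w * A3 - r ^ 8 * A5 - r ^ 8 * A7 - A6| ≤
      |m| * |A4| + |A2| + w * |A3| + r ^ 8 * |A5| + r ^ 8 * |A7| + |A6| := by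
    have s0 := abs_sub (m * A4 - A2 - w * A3 - r ^ 8 * A5 - r ^ 8 * A7) A6
    have s1 := abs_sub (m * A4 - A2 - w * A3 - r ^ 8 * A5) (r ^ 8 * A7)
    have s2 := abs_sub (m * A4 - A2 - w * A3) (r ^ 8 * A5)
    have s3 := abs_sub (m * A4 - A2) (w * A3)
    have s4 := abs_sub (m * A4) A2
    rw [abs_mul (r ^ 8), abs_of_nonneg hr80] at s1
    rw [abs_mul (r ^ 8), abs_of_nonneg hr80] at s2
    rw [abs_mul w, abs_of_nonneg hw0] at s3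
    rw [abs_mul m] at s4
    linarith
  have u2 : |A2| ≤ C2 * X := by
    refine b2.trans (mul_le_mul_of_nonneg_left ?_ hC2)
    rw [hX]
    linarith
  have u3 : w * |A3| ≤ 5 * c0 * C3 * X := by
    calc w * |A3| ≤ (5 * c0 * r ^ 4) * (C3 * (r ^ 4 + n)) :=
          mul_le_mul hw1 b3 (abs_nonneg _) (by positivity)
      _ = 5 * c0 * C3 * (r ^ 8 + r ^ 4 * n) := by ring
      _ ≤ 5 * c0 * C3 * X := by
        refine mul_le_mul_of_nonneg_left ?_ (by positivity)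
        rw [hX]
        linarith
  have w1 : r ^ 8 * r ^ 4 ≤ r ^ 8 := mul_le_of_le_one_right hr80 hr41
  have w2 : r ^ 8 * n ≤ r ^ 4 * n := mul_le_mul_of_nonneg_right hr84 hn0
  have u4 : |m| * |A4| ≤ 2 * Cm * C4 * X := by
    calc |m| * |A4| ≤ (Cm * (n + r ^ 8 + ne)) * (C4 * (r ^ 4 + n)) :=
          mul_le_mul hm b4 (abs_nonneg _) (by positivity)
      _ = Cm * C4 * ((n + r ^ 8 + ne) * (r ^ 4 + n)) := by ring
      _ ≤ Cm * C4 * (2 * X) := by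
        refine mul_le_mul_of_nonneg_left ?_ (by positivity)
        have w3 : ne * r ^ 4 ≤ ne := mul_le_of_le_one_right hne0 hr41
        have w4 : ne * n ≤ ne := mul_le_of_le_one_right hne0 hn1
        have w6 : (n + r ^ 8 + ne) * (r ^ 4 + n) = r ^ 4 * n + n ^ 2 + r ^ 8 * r ^ 4 + r ^ 8 * n +
          ne * r ^ 4 + ne * n := by ring
        rw [w6, hX]
        linarith
      _ = _ := by ring
  have u5 : r ^ 8 * |A5| ≤ C5 * X := by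
    calc r ^ 8 * |A5| ≤ r ^ 8 * (C5 * (r ^ 4 + n)) := mul_le_mul_of_nonneg_left b5 hr80
      _ = C5 * (r ^ 8 * r ^ 4 + r ^ 8 * n) := by ring
      _ ≤ C5 * X := by
        refine mul_le_mul_of_nonneg_left ?_ hC5
        rw [hX]
        linarith
  have u7 : r ^ 8 * |A7| ≤ |A7| * X := by
    rw [mul_comm]
    refine mul_le_mul_of_nonneg_left ?_ (abs_nonneg _)
    rw [hX]
    linarith
  have u6 : |A6| ≤ C6 * X := by
    refine b6.trans (mul_le_mul_of_nonneg_left ?_ hC6)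
    rw [hX]
    linarith
  have hsum : (C2 + |A7| + 5 * c0 * C3 + 2 * Cm * C4 + C5 + C6 + 1) * X =
      2 * Cm * C4 * X + C2 * X + 5 * c0 * C3 * X + C5 * X + |A7| * X + C6 * X + X := by ring
  rw [hsum]
  linarith

theorem bw_eq (hp : Prof P E) (hγ : 0 < γ) (hγ1 : γ ≤ 1 / 4) (hB : 16 ≤ B) :
    ∃ C r1 c1 : ℝ, 0 < C ∧ 0 < r1 ∧ 0 < c1 ∧ c1 ≤ 1 ∧ ∀ c Ca r w m W et, c ≤ c1 → r ≤ r1 →
      Sit P E γ B c Ca r w m W et →
      |(bq (r ^ 2) W - w) * ip (Lam 4 (Qf 4)) rho - ip (Lop 4 (ep P E (r ^ 2) W)) (deriv rho)| ≤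
      C * (r ^ 8 + r ^ 4 * √(ln γ B (ep P E (r ^ 2) W)) + ln γ B (ep P E (r ^ 2) W) + √(ne2 et)) := by
  obtain ⟨Cm, rm, cm, hCm, hrm, hcm, hcm1, Hm⟩ := m_le hp hγ hγ1 hB
  obtain ⟨C2, hC2, H2⟩ := R_ip hp hγ hγ1 hB (ψ := deriv rho)
    (Cl_mono MOc_r1 (by norm_num) (by norm_num))
  obtain ⟨C3, hC3, H3⟩ := e_ip hp hγ hγ1 hB MOc_Lr
  obtain ⟨C4, hC4, H4⟩ := e_ip hp hγ hγ1 hB (ψ := deriv rho)
    (Cl_mono MOc_r1 (by norm_num) (by norm_num))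
  obtain ⟨C5, hC5, H5⟩ := e_ip hp hγ hγ1 hB (ψ := deriv (deriv rho))
    (Cl_mono MOc_r2 (by norm_num) (by norm_num))
  obtain ⟨C6, hC6, H6⟩ := et_ip (ψ := deriv rho)
    (Cl_mono MOc_r1 (by norm_num) (by norm_num))
  obtain ⟨A7, hA7⟩ : ∃ A7, A7 = ip (deriv (deriv (Qf 4))) rho := ⟨_, rfl⟩
  have hc0 := MOc_c0
  refine ⟨C2 + |A7| + 5 * c0 * C3 + 2 * Cm * C4 + C5 + C6 + 1, min 1 rm, cm, by positivity,
    by positivity, hcm, hcm1, ?_⟩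
  intro c Ca r w m W et hc hr S
  have hm := Hm c Ca r w m W et hc (hr.trans (min_le_right _ _)) S
  obtain ⟨p, q, hp0, hp2, hq0, hq2, hW, he⟩ := S.cl
  have b2 := H2 c Ca r w m W et (hc.trans hcm1) S
  have b3 := H3 c Ca r w m W et S
  have b4 := H4 c Ca r w m W et S
  have b5 := H5 c Ca r w m W et S
  have b6 := H6 p q et hp0 hq0 he
  have hpz := pair_ze (w := w) (m := m) (l := r ^ 8) hp0 hq0 (by linarith) (by linarith) hW he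
    (φ := rho) (Cl_mono rho_cl (by norm_num) (by norm_num))
  rw [S.or1, ip_Qdrho, ← hA7] at hpz
  have hepc : Cl 0 0 (ep P E (r ^ 2) W) := ep_cl hp hp0.le hq0.le hW
  have hsplit : ip (fun y => W y - Qf 4 y) (Lop 4 (deriv rho)) =
      -bq (r ^ 2) W * ip (Lam 4 (Qf 4)) rho + ip (Lop 4 (ep P E (r ^ 2) W)) (deriv rho) := by
    rw [← ep_h_rho hp (bq (r ^ 2) W) (alf (r ^ 2) W),
      Lop_symm (by norm_num) hepc MOc_r1 (by norm_num) (by norm_num)]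
    unfold ip
    rw [← integral_add (Cl_int (Cl_mul (hf_cl hp _ _) MOc_Lopr) (by norm_num) (by norm_num))
      (Cl_int (Cl_mul hepc MOc_Lopr) (by norm_num) (by norm_num))]
    congr 1
    funext y
    have h9 := ep_split P E (r ^ 2) W y
    change (W y - Qf 4 y) * Lop 4 (deriv rho) y = _
    rw [h9]
    ring
  rw [hsplit] at hpz
  have hN1 := MOc_n hγ hγ1 hB (ε := ep P E (r ^ 2) W) zero_le_one (by
    rw [one_pow]; exact S.lnc.trans (hc.trans hcm1))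
  rw [← hN1.1] at b2
  have key : (bq (r ^ 2) W - w) * ip (Lam 4 (Qf 4)) rho -
      ip (Lop 4 (ep P E (r ^ 2) W)) (deriv rho) =
      m * ip (fun y => W y - Qf 4 y) (deriv rho) - ip (Rf 4 (fun y => W y - Qf 4 y)) (deriv rho) -
      w * ip (fun y => W y - Qf 4 y) (Lam 4 rho) -
      r ^ 8 * ip (fun y => W y - Qf 4 y) (deriv (deriv rho)) - r ^ 8 * A7 - ip et (deriv rho) := by
    linear_combination -hpz
  have hfin := MOc_num2 (A7 := A7) hCm hC2 hC3 hC4 hC5 hC6 hc0 S.r0 (hr.trans (min_le_left _ _))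
    (Real.sqrt_nonneg _) hN1.2 (Real.sqrt_nonneg _) S.w0 S.w1 hm b2 b3 b4 b5 b6
  rw [← key, hN1.1] at hfin
  exact hfin

/-- numerical part of `bw_le` -/
theorem MOc_num3 {Ce C1 K r n ne x A1 : ℝ} (hCe : 0 < Ce) (hC1 : 0 ≤ C1) (hK : 0 < K)
    (hr0 : 0 < r) (hr1 : r ≤ 1) (hn0 : 0 ≤ n) (hn1 : n ≤ 1) (hne0 : 0 ≤ ne)
    (h1 : |x * (1 / 2 * K) - A1| ≤ Ce * (r ^ 8 + r ^ 4 * n + n ^ 2 + ne)) (h2 : |A1| ≤ C1 * n) :
    |x| ≤ 2 * (2 * Ce + C1) / K * (n + r ^ 8 + ne) := by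
  have hr41 : r ^ 4 ≤ 1 := pow_le_one₀ hr0.le hr1
  have hr80 : 0 ≤ r ^ 8 := by positivity
  have h3 : |x * (1 / 2 * K)| ≤ |x * (1 / 2 * K) - A1| + |A1| := by
    have h := abs_add_le (x * (1 / 2 * K) - A1) A1
    rwa [sub_add_cancel] at h
  rw [abs_mul, abs_of_pos (by positivity : 0 < 1 / 2 * K)] at h3
  have h4 : Ce * (r ^ 8 + r ^ 4 * n + n ^ 2 + ne) ≤ 2 * Ce * (n + r ^ 8 + ne) := by
    have e1 : r ^ 4 * n ≤ n := mul_le_of_le_one_left hn0 hr41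
    have e2 : n ^ 2 ≤ n := pow_le_of_le_one hn0 hn1 two_ne_zero
    have : r ^ 8 + r ^ 4 * n + n ^ 2 + ne ≤ 2 * (n + r ^ 8 + ne) := by linarith
    have h := mul_le_mul_of_nonneg_left this hCe.le
    linarith
  have h5 : C1 * n ≤ C1 * (n + r ^ 8 + ne) := mul_le_mul_of_nonneg_left (by linarith) hC1
  have h6 : |x| * (1 / 2 * K) ≤ (2 * Ce + C1) * (n + r ^ 8 + ne) := by
    have : (2 * Ce + C1) * (n + r ^ 8 + ne) =
        2 * Ce * (n + r ^ 8 + ne) + C1 * (n + r ^ 8 + ne) := by ring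
    rw [this]
    linarith
  have e : |x| = |x| * (1 / 2 * K) * (2 / K) := by field_simp
  rw [e]
  calc |x| * (1 / 2 * K) * (2 / K) ≤ ((2 * Ce + C1) * (n + r ^ 8 + ne)) * (2 / K) :=
        mul_le_mul_of_nonneg_right h6 (by positivity)
    _ = _ := by field_simp

theorem bw_le (hp : Prof P E) (hγ : 0 < γ) (hγ1 : γ ≤ 1 / 4) (hB : 16 ≤ B) :
    ∃ C r1 c1 : ℝ, 0 < C ∧ 0 < r1 ∧ 0 < c1 ∧ c1 ≤ 1 ∧ ∀ c Ca r w m W et, c ≤ c1 → r ≤ r1 →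
      Sit P E γ B c Ca r w m W et →
      |bq (r ^ 2) W - w| ≤ C * (√(ln γ B (ep P E (r ^ 2) W)) + r ^ 8 + √(ne2 et)) := by
  obtain ⟨Ce, re, ce, hCe, hre, hce, hce1, He⟩ := bw_eq hp hγ hγ1 hB
  obtain ⟨C1, hC1, H1⟩ := ip_ln hγ hγ1 hB (ψ := Lop 4 (deriv rho))
    (Cl_mono MOc_Lopr (by norm_num) (by norm_num))
  obtain ⟨K, hK⟩ : ∃ K, K = ∫ y, (deriv (Qf 4) y) ^ 2 := ⟨_, rfl⟩
  have hK0 : 0 < K := by rw [hK]; exact Qd2_pos (by norm_num)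
  refine ⟨2 * (2 * Ce + C1) / K, min 1 re, ce, by positivity, by positivity, hce, hce1, ?_⟩
  intro c Ca r w m W et hc hr S
  have h1 := He c Ca r w m W et hc (hr.trans (min_le_right _ _)) S
  obtain ⟨p, q, hp0, hp2, hq0, hq2, hW, he⟩ := S.cl
  have hepc : Cl 0 0 (ep P E (r ^ 2) W) := ep_cl hp hp0.le hq0.le hW
  have h2 := H1 _ hepc
  rw [← Lop_symm (by norm_num) hepc MOc_r1 (by norm_num) (by norm_num)] at h2
  rw [ip_LamQrho, ← hK] at h1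
  have hN1 := MOc_n hγ hγ1 hB (ε := ep P E (r ^ 2) W) zero_le_one (by
    rw [one_pow]; exact S.lnc.trans (hc.trans hce1))
  nth_rewrite 2 [← hN1.1] at h1
  exact MOc_num3 hCe hC1 hK0 S.r0 (hr.trans (min_le_left _ _)) (Real.sqrt_nonneg _) hN1.2
    (Real.sqrt_nonneg _) h1 h2

end H68KC

end
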