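import Pool.Agent.H68.KC.MOb
import Pool.Agent.H68.KC.PRh

/-!
# Row MOp (MP_95be7d_K4): a priori bounds for `m` and `b - w` without any bound on `w`

`Sit0` = `Sit` without `w0`, `w1`.  The lemmas `e_ip0`, `e_sq0`, `R_ip0` are copies of `e_ip`, `e_sq`, `R_ip` (row MOb), whose proofs
do not use `w0`, `w1`: `e = h + ε` (`ep_split`), `|h| ≤ C r⁴` by `b1`, `a1`, `cP`, `E_cl`; `ip_ln`, `ln_dom`, `R_le`.

## Proof of `mod_pre`
`e = W - Q`, `n = √(ln ε)`, `ne = √(ne2 et)`, `l = r^8`, `K = ∫ Q'²`, `x = |b - w|`, `z = |m|`, `|w| ≤ |b| + x ≤ 5c₀ r⁴ + x`.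
`pair_ze` with `φ = Q'` and `or2` (`L_Qdd`, `(e,ρ) = (ε,ρ)` by `ep_rho`, `ip_LamQ_Qd`, `ip_Qdd_Qd`):
(A) `m (K - (e,Q'')) = 4 (ε,ρ) - (R,Q'') - w (e,ΛQ') - l (e,Q''') - (et,Q'')`.
`pair_ze` with `φ = ρ` and `or1` (`ip_Qdrho`, `(h,Lρ') = (Lh,ρ') = -b (ΛQ,ρ)` since `Lh = -bJ + α`, `(ε,Lρ')` bounded by `C n`, `ip_LamQrho`):
(B) `(b - w) K/2 = (ε,Lρ') - (R,ρ') - l (Q'',ρ) - w (e,Λρ) + m (e,ρ') - l (e,ρ'') - (et,ρ')`.
Let `d = C₁ (r⁴ + n)`, a common bound for all `|(e,ψ)|` here (`e_ip0`). For `c ≤ c1`, `r ≤ r1` small `d ≤ K/16` (`n ≤ √c`). Then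
`z K/2 ≤ C (n + r^8 + n² + ne) + (5c₀ r⁴ + x) d`, `x K/2 ≤ C (n + r^8 + n² + ne) + (5c₀ r⁴ + x) d + z d`.
Sum: `(x + z) K/2 ≤ C (n + r^8 + ne) + 10 c₀ r⁴ d + 2 (x + z) d`, so `(x + z) K/4 ≤ C (n + r^8 + ne) + C r⁴ (r⁴ + n)`
(`n² ≤ n` since `n ≤ 1`, `r ≤ 1`).
-/

open MeasureTheory Filter Topology Set
open scoped ContDiff

noncomputable section

namespace H68KC

open H98KB

/-- `Sit` without the bounds on `w` -/
structure Sit0 (P E : ℝ → ℝ) (γ B c Ca r w m : ℝ) (W et : ℝ → ℝ) : Prop where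
  pr : Prof P E
  r0 : 0 < r
  cl : ∃ p q : ℝ, 0 < p ∧ p ≤ 1 / 2 ∧ 0 < q ∧ q ≤ 1 / 2 ∧ Cl p q (fun y => W y - Qf 4 y) ∧ Cl p q et
  or1 : ip (ze w m (r ^ 8) W et) rho = 0
  or2 : ip (ze w m (r ^ 8) W et) (deriv (Qf 4)) = 0
  b1 : |bq (r ^ 2) W| ≤ 5 * c0 * r ^ 4
  a1 : |alf (r ^ 2) W| ≤ (|f0| + 1) * r ^ 4
  sup : ∀ y, |W y - Qf 4 y| ≤ c
  supe : ∀ y, |ep P E (r ^ 2) W y| ≤ c
  lnc : ln γ B (ep P E (r ^ 2) W) ≤ c
  N1 : Nn (r ^ 2) W ≤ Ca * r ^ 16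
  X1 : Xn (fun y => W y - Qf 4 y) ≤ 1
  L1 : (∫ y, (W y - Qf 4 y) ^ 2) ≤ 1
  e1 : ne2 et ≤ c

variable {P E : ℝ → ℝ} {γ B : ℝ}

theorem MOp_h (hp : Prof P E) : ∃ C : ℝ, 0 ≤ C ∧ ∀ c Ca r w m W et,
    Sit0 P E γ B c Ca r w m W et → ∀ y, |hf P E (bq (r ^ 2) W) (alf (r ^ 2) W) y| ≤ C * r ^ 4 := by
  obtain ⟨CP, hCP, hP⟩ := Cl_bnd hp.cP
  obtain ⟨CE, hCE, hE⟩ := Cl_bnd (E_cl hp)
  refine ⟨|5 * c0| * CP + (|f0| + 1) * CE, by positivity, fun c Ca r w m W et hS y => ?_⟩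
  have hr : 0 < r ^ 4 := pow_pos hS.r0 4
  have h1 : |bq (r ^ 2) W| ≤ |5 * c0| * r ^ 4 :=
    hS.b1.trans (mul_le_mul_of_nonneg_right (le_abs_self _) hr.le)
  have h2 := hP y
  have h3 := hE y
  rw [bd_zero, mul_one] at h2 h3
  have h4 : |bq (r ^ 2) W * P y| ≤ |5 * c0| * r ^ 4 * CP := by
    rw [abs_mul]
    exact mul_le_mul h1 h2 (abs_nonneg _) (by positivity)
  have h5 : |alf (r ^ 2) W * E y| ≤ (|f0| + 1) * r ^ 4 * CE := by
    rw [abs_mul]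
    exact mul_le_mul hS.a1 h3 (abs_nonneg _) (by positivity)
  rw [hf]
  have h6 := abs_add_le (bq (r ^ 2) W * P y) (alf (r ^ 2) W * E y)
  nlinarith

theorem MOp_ep (hp : Prof P E) {c Ca r w m : ℝ} {W et : ℝ → ℝ}
    (hS : Sit0 P E γ B c Ca r w m W et) : Cl 0 0 (ep P E (r ^ 2) W) := by
  obtain ⟨p, q, h1, -, h3, -, h5, -⟩ := hS.cl
  exact ep_cl hp h1.le h3.le h5

theorem MOp_e (c Ca r w m : ℝ) {W et : ℝ → ℝ}
    (hS : Sit0 P E γ B c Ca r w m W et) : Cl 0 0 (fun y => W y - Qf 4 y) := by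
  obtain ⟨p, q, h1, -, h3, -, h5, -⟩ := hS.cl
  exact Cl_mono h5 h1.le h3.le

theorem e_ip0 (hp : Prof P E) (hγ : 0 < γ) (hγ1 : γ ≤ 1 / 4) (hB : 16 ≤ B) {ψ : ℝ → ℝ}
    (hψ : Cl (1 / 2) (1 / 2) ψ) : ∃ C : ℝ, 0 ≤ C ∧ ∀ c Ca r w m W et,
    Sit0 P E γ B c Ca r w m W et → |ip (fun y => W y - Qf 4 y) ψ| ≤
      C * (r ^ 4 + √(ln γ B (ep P E (r ^ 2) W))) := by
  obtain ⟨C1, hC1, h1⟩ := MOp_h (γ := γ) (B := B) hp
  obtain ⟨C2, hC2, h2⟩ := ip_ln hγ hγ1 hB hψ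
  have hI : 0 ≤ ∫ y, |ψ y| := integral_nonneg fun y => abs_nonneg _
  have hψi : Integrable ψ := Cl_int hψ (by norm_num) (by norm_num)
  refine ⟨C1 * (∫ y, |ψ y|) + C2, by positivity, fun c Ca r w m W et hS => ?_⟩
  have hε := MOp_ep hp hS
  have hh := hf_cl hp (bq (r ^ 2) W) (alf (r ^ 2) W)
  have i1 : Integrable (fun y => hf P E (bq (r ^ 2) W) (alf (r ^ 2) W) y * ψ y) :=
    Cl_int (Cl_mul0 hh hψ) (by norm_num) (by norm_num)
  have i2 : Integrable (fun y => ep P E (r ^ 2) W y * ψ y) :=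
    Cl_int (Cl_mul0 hε hψ) (by norm_num) (by norm_num)
  have e1 : ip (fun y => W y - Qf 4 y) ψ =
      (∫ y, hf P E (bq (r ^ 2) W) (alf (r ^ 2) W) y * ψ y) + ip (ep P E (r ^ 2) W) ψ := by
    rw [ip, ip, ← integral_add i1 i2]
    refine integral_congr_ae (Eventually.of_forall fun y => ?_)
    simp only
    rw [ep_split P E (r ^ 2) W y]
    ring
  have e2 : |∫ y, hf P E (bq (r ^ 2) W) (alf (r ^ 2) W) y * ψ y| ≤
      C1 * r ^ 4 * ∫ y, |ψ y| := by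
    rw [← integral_const_mul, ← Real.norm_eq_abs]
    refine norm_integral_le_of_norm_le (hψi.abs.const_mul _) (Eventually.of_forall fun y => ?_)
    rw [Real.norm_eq_abs, abs_mul]
    exact mul_le_mul_of_nonneg_right (h1 c Ca r w m W et hS y) (abs_nonneg _)
  have e3 := h2 _ hε
  rw [e1]
  refine (abs_add_le _ _).trans ?_
  have hs := Real.sqrt_nonneg (ln γ B (ep P E (r ^ 2) W))
  have hr : 0 < r ^ 4 := pow_pos hS.r0 4
  have g1 := mul_nonneg (mul_nonneg hC1 hI) hs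
  have g2 := mul_nonneg hC2 hr.le
  nlinarith

theorem e_sq0 (hp : Prof P E) (hγ : 0 < γ) (hγ1 : γ ≤ 1 / 4) (hB : 16 ≤ B) {ψ : ℝ → ℝ}
    (hψ : Cl (3 / 4) (3 / 4) ψ) : ∃ C : ℝ, 0 ≤ C ∧ ∀ c Ca r w m W et,
    Sit0 P E γ B c Ca r w m W et → (∫ y, |ψ y| * (W y - Qf 4 y) ^ 2) ≤
      C * (r ^ 8 + ln γ B (ep P E (r ^ 2) W)) := by
  obtain ⟨C1, hC1, h1⟩ := MOp_h (γ := γ) (B := B) hp
  obtain ⟨C2, hC2, h2⟩ := ln_dom hγ hγ1 hB hψ
  have hI : 0 ≤ ∫ y, |ψ y| := integral_nonneg fun y => abs_nonneg _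
  have hψi : Integrable ψ := Cl_int hψ (by norm_num) (by norm_num)
  refine ⟨2 * C1 ^ 2 * (∫ y, |ψ y|) + 2 * C2, by positivity, fun c Ca r w m W et hS => ?_⟩
  have hε := MOp_ep hp hS
  have hln0 : 0 ≤ ln γ B (ep P E (r ^ 2) W) := by
    refine integral_nonneg fun y => ?_
    have := (MOb_pos γ B y).le
    positivity
  have i2 : Integrable (fun y => |ψ y| * (ep P E (r ^ 2) W y) ^ 2) := by
    refine (Cl_int (Cl_mul0 (MOb_sq hε) hψ) (by norm_num) (by norm_num)).abs.congr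
      (Eventually.of_forall fun y => ?_)
    simp only
    rw [abs_mul, abs_of_nonneg (sq_nonneg _), mul_comm]
  have h3 : (∫ y, |ψ y| * (W y - Qf 4 y) ^ 2) ≤
      ∫ y, (2 * (C1 * r ^ 4) ^ 2 * |ψ y| + 2 * (|ψ y| * (ep P E (r ^ 2) W y) ^ 2)) := by
    refine integral_mono_of_nonneg (Eventually.of_forall fun y => by positivity)
      ((hψi.abs.const_mul _).add (i2.const_mul 2)) (Eventually.of_forall fun y => ?_)
    simp only
    rw [ep_split P E (r ^ 2) W y]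
    have g1 := h1 c Ca r w m W et hS y
    have g2 : (hf P E (bq (r ^ 2) W) (alf (r ^ 2) W) y) ^ 2 ≤ (C1 * r ^ 4) ^ 2 := by
      rw [← sq_abs]
      exact pow_le_pow_left₀ (abs_nonneg _) g1 2
    have g3 : (hf P E (bq (r ^ 2) W) (alf (r ^ 2) W) y + ep P E (r ^ 2) W y) ^ 2 ≤
        2 * (C1 * r ^ 4) ^ 2 + 2 * (ep P E (r ^ 2) W y) ^ 2 := by
      have := sq_nonneg (hf P E (bq (r ^ 2) W) (alf (r ^ 2) W) y - ep P E (r ^ 2) W y)
      nlinarith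
    have g4 := mul_le_mul_of_nonneg_left g3 (abs_nonneg (ψ y))
    refine g4.trans (le_of_eq ?_)
    ring
  have i3 : Integrable (fun y => 2 * (C1 * r ^ 4) ^ 2 * |ψ y|) := hψi.abs.const_mul _
  have i4 : Integrable (fun y => 2 * (|ψ y| * (ep P E (r ^ 2) W y) ^ 2)) := i2.const_mul 2
  rw [integral_add i3 i4, integral_const_mul, integral_const_mul] at h3
  have h4 := h2 _ hε
  have hr : 0 < r ^ 8 := pow_pos hS.r0 8
  have e8 : (C1 * r ^ 4) ^ 2 = C1 ^ 2 * r ^ 8 := by ring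
  rw [e8] at h3
  have g1 := mul_nonneg (mul_nonneg (sq_nonneg C1) hI) hln0
  have g2 := mul_nonneg hC2 hr.le
  nlinarith

theorem R_ip0 (hp : Prof P E) (hγ : 0 < γ) (hγ1 : γ ≤ 1 / 4) (hB : 16 ≤ B) {ψ : ℝ → ℝ}
    (hψ : Cl (3 / 4) (3 / 4) ψ) : ∃ C : ℝ, 0 ≤ C ∧ ∀ c Ca r w m W et, c ≤ 1 →
    Sit0 P E γ B c Ca r w m W et → |ip (Rf 4 (fun y => W y - Qf 4 y)) ψ| ≤
      C * (r ^ 8 + ln γ B (ep P E (r ^ 2) W)) := by
  obtain ⟨C1, hC1, h1⟩ := e_sq0 hp hγ hγ1 hB hψ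
  obtain ⟨C2, hC2, h2⟩ := R_le 4 (by norm_num)
  refine ⟨C2 * C1, mul_nonneg hC2.le hC1, fun c Ca r w m W et hc hS => ?_⟩
  have he := MOp_e c Ca r w m hS
  have i1 : Integrable (fun y => |ψ y| * (W y - Qf 4 y) ^ 2) := by
    refine (Cl_int (Cl_mul0 (MOb_sq he) hψ) (by norm_num) (by norm_num)).abs.congr
      (Eventually.of_forall fun y => ?_)
    simp only
    rw [abs_mul, abs_of_nonneg (sq_nonneg _), mul_comm]
  have h3 : |ip (Rf 4 (fun y => W y - Qf 4 y)) ψ| ≤ C2 * ∫ y, |ψ y| * (W y - Qf 4 y) ^ 2 := by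
    rw [← integral_const_mul, ip, ← Real.norm_eq_abs]
    refine norm_integral_le_of_norm_le (i1.const_mul _) (Eventually.of_forall fun y => ?_)
    rw [Real.norm_eq_abs, abs_mul]
    have g := h2 (fun y => W y - Qf 4 y) y ((hS.sup y).trans hc)
    have g2 := mul_le_mul_of_nonneg_right g (abs_nonneg (ψ y))
    refine g2.trans (le_of_eq ?_)
    ring
  refine h3.trans ?_
  rw [mul_assoc]
  exact mul_le_mul_of_nonneg_left (h1 c Ca r w m W et hS) hC2.le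


theorem MOp_hp (hp : Prof P E) (b α : ℝ) :
    ip (hf P E b α) (Lop 4 (deriv rho)) = -b * ip (Lam 4 (Qf 4)) rho := by
  have hh := hf_cl hp b α
  have hr1 : Cl 3 3 (deriv rho) := Cl_der rho_cl
  rw [← Lop_symm (by norm_num) hh hr1 (by norm_num) (by norm_num)]
  have hL : Lop 4 (hf P E b α) = fun y => α - b * Jf y := by
    funext y
    have h1 := hp.LP y
    have h2 := hp.LE y
    have d1 : deriv (hf P E b α) = fun y => b * deriv P y + α * deriv E y := by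
      funext z
      exact (PRh_hd hp b α z).deriv
    unfold Lop at h1 h2 ⊢
    rw [d1, (PRh_hd2 hp b α y).deriv]
    unfold hf
    linear_combination b * h1 + α * h2
  have i1 : Integrable (fun y => deriv rho y) := Cl_int hr1 (by norm_num) (by norm_num)
  have i2 : Integrable (fun y => deriv rho y * Jf y) :=
    Cl_int (Cl_mul hr1 Jf_cl) (by norm_num) (by norm_num)
  have e1 : ∫ y, deriv rho y * Jf y = ip (Lam 4 (Qf 4)) rho := by
    have h := Cl_ibp rho_cl Jf_cl (by norm_num) (by norm_num)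
    rw [h, ip, ← integral_neg]
    refine integral_congr_ae (Eventually.of_forall fun y => ?_)
    simp only
    rw [(Jf_hd y).deriv]
    ring
  have e2 : ∫ y, deriv rho y = 0 := Cl_int_deriv rho_cl (by norm_num) (by norm_num)
  rw [hL, ip]
  have e3 : ∫ y, (α - b * Jf y) * deriv rho y = α * (∫ y, deriv rho y) - b * ∫ y, deriv rho y * Jf y := by
    rw [← integral_const_mul, ← integral_const_mul, ← integral_sub (i1.const_mul α) (i2.const_mul b)]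
    refine integral_congr_ae (Eventually.of_forall fun y => ?_)
    simp only
    ring
  rw [e3, e1, e2]
  ring

/-- the numerical part -/
theorem MOp_num {K A C1 n l ne r4 x z w b D : ℝ} (hK : 0 < K) (hA : 0 ≤ A) (hC1 : 0 ≤ C1)
    (hn : 0 ≤ n) (hn1 : n ≤ 1) (hl : 0 ≤ l) (hne : 0 ≤ ne) (hr4 : 0 ≤ r4) (hr41 : r4 ≤ 1)
    (hr8 : r4 * r4 = l) (hb : |b| ≤ A * r4) (hx : x = |b - w|) (hz : 0 ≤ z)
    (hD : D = C1 * (r4 + n)) (hDK : D ≤ K / 16)
    (h1 : z * K ≤ z * D + C1 * n + C1 * (l + n ^ 2) + |w| * D + l * D + C1 * ne)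
    (h2 : x * (K / 2) ≤ C1 * n + C1 * (l + n ^ 2) + l * C1 + |w| * D + z * D + l * D + C1 * ne) :
    x + z ≤ 16 / 3 * ((8 * C1 + 2 * (A * C1) + K / 8) / K) * (n + l + ne) := by
  have hx0 : 0 ≤ x := hx ▸ abs_nonneg _
  have hw : |w| ≤ A * r4 + x := by
    have h3 : w = b - (b - w) := by ring
    have h4 : |w| ≤ |b| + |b - w| := by
      calc |w| = |b - (b - w)| := by rw [← h3]
        _ ≤ |b| + |b - w| := abs_sub _ _
    rw [hx]
    linarith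
  have hD0 : 0 ≤ D := by rw [hD]; positivity
  set S := n + l + ne with hS
  have hS0 : 0 ≤ S := by positivity
  have hr4D : r4 * D ≤ C1 * S := by
    rw [hD]
    have e : r4 * (C1 * (r4 + n)) = C1 * (l + r4 * n) := by rw [← hr8]; ring
    rw [e]
    refine mul_le_mul_of_nonneg_left ?_ hC1
    nlinarith
  have hwD : |w| * D ≤ A * C1 * S + x * (K / 16) := by
    have h5 : |w| * D ≤ (A * r4 + x) * D := mul_le_mul_of_nonneg_right hw hD0
    have h6 : A * (r4 * D) ≤ A * (C1 * S) := mul_le_mul_of_nonneg_left hr4D hA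
    have h7 : x * D ≤ x * (K / 16) := mul_le_mul_of_nonneg_left hDK hx0
    nlinarith
  have hzD : z * D ≤ z * (K / 16) := mul_le_mul_of_nonneg_left hDK hz
  have hlD : l * D ≤ S * (K / 16) := by
    have h5 : l * D ≤ l * (K / 16) := mul_le_mul_of_nonneg_left hDK hl
    have h6 : l * (K / 16) ≤ S * (K / 16) := mul_le_mul_of_nonneg_right (by linarith) (by linarith)
    linarith
  have hn2 : n ^ 2 ≤ n := by nlinarith
  have hcS : C1 * n + C1 * (l + n ^ 2) + C1 * ne ≤ 3 * (C1 * S) := by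
    have h5 : C1 * n ≤ C1 * S := mul_le_mul_of_nonneg_left (by linarith) hC1
    have h6 : C1 * (l + n ^ 2) ≤ C1 * S := mul_le_mul_of_nonneg_left (by linarith) hC1
    have h7 : C1 * ne ≤ C1 * S := mul_le_mul_of_nonneg_left (by linarith) hC1
    linarith
  have hlC : l * C1 ≤ C1 * S := by
    rw [mul_comm]
    exact mul_le_mul_of_nonneg_left (by linarith) hC1
  have g1 : z * K ≤ z * (K / 16) + x * (K / 16) + 3 * (C1 * S) + A * C1 * S + S * (K / 16) := by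
    linarith
  have g2 : x * (K / 2) ≤ z * (K / 16) + x * (K / 16) + 4 * (C1 * S) + A * C1 * S + S * (K / 16) := by
    linarith
  have g3 : (x + z) * (3 / 8 * K) ≤ (8 * C1 + 2 * (A * C1) + K / 8) * S := by
    have hxK : 0 ≤ x * K := by positivity
    have hzK : 0 ≤ z * K := by positivity
    have hCS : 0 ≤ C1 * S := by positivity
    nlinarith
  have e1 : 16 / 3 * ((8 * C1 + 2 * (A * C1) + K / 8) / K) * S =
      (16 / 3 * ((8 * C1 + 2 * (A * C1) + K / 8) * S)) / K := by ring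
  rw [e1, le_div_iff₀ hK]
  have hCC : 0 ≤ (8 * C1 + 2 * (A * C1) + K / 8) * S := by positivity
  nlinarith

theorem MOp_Lam {φ : ℝ → ℝ} (hφ : Cl 1 1 φ) : Cl (1 / 2) (1 / 2) (Lam 4 φ) := by
  have h := Cl_Lam 4 hφ (c := 1 / 2) (by norm_num)
  exact Cl_mono h (by norm_num) (by norm_num)

theorem mod_pre (hp : Prof P E) (hγ : 0 < γ) (hγ1 : γ ≤ 1 / 4) (hB : 16 ≤ B) :
    ∃ C r1 c1 : ℝ, 0 < C ∧ 0 < r1 ∧ 0 < c1 ∧ c1 ≤ 1 ∧ ∀ c Ca r w m W et, c ≤ c1 → r ≤ r1 →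
      Sit0 P E γ B c Ca r w m W et →
      |bq (r ^ 2) W - w| + |m| ≤ C * (√(ln γ B (ep P E (r ^ 2) W)) + r ^ 8 + √(ne2 et)) := by
  have hQ1 : Cl 1 1 (deriv (Qf 4)) := Cl_der MOa_Q
  have hQ2 : Cl 1 1 (deriv (deriv (Qf 4))) := Cl_der hQ1
  have hQ3 : Cl 1 1 (deriv (deriv (deriv (Qf 4)))) := Cl_der hQ2
  have hr0 := MOa_rho
  have hr1 : Cl 1 1 (deriv rho) := Cl_der hr0
  have hr2 : Cl 1 1 (deriv (deriv rho)) := Cl_der hr1
  have hLr : Cl 1 1 (Lop 4 (deriv rho)) := Cl_Lop (by norm_num) hr1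
  have half : ∀ {f : ℝ → ℝ}, Cl 1 1 f → Cl (1 / 2) (1 / 2) f := fun h =>
    Cl_mono h (by norm_num) (by norm_num)
  have thr : ∀ {f : ℝ → ℝ}, Cl 1 1 f → Cl (3 / 4) (3 / 4) f := fun h =>
    Cl_mono h (by norm_num) (by norm_num)
  obtain ⟨a1, ha1, h1⟩ := e_ip0 hp hγ hγ1 hB (half hQ2)
  obtain ⟨a2, ha2, h2⟩ := e_ip0 hp hγ hγ1 hB (MOp_Lam hQ1)
  obtain ⟨a3, ha3, h3⟩ := e_ip0 hp hγ hγ1 hB (half hQ3)
  obtain ⟨a4, ha4, h4⟩ := e_ip0 hp hγ hγ1 hB (MOp_Lam hr0)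
  obtain ⟨a5, ha5, h5⟩ := e_ip0 hp hγ hγ1 hB (half hr1)
  obtain ⟨a6, ha6, h6⟩ := e_ip0 hp hγ hγ1 hB (half hr2)
  obtain ⟨b1, hb1, k1⟩ := ip_ln hγ hγ1 hB (half hr0)
  obtain ⟨b2, hb2, k2⟩ := ip_ln hγ hγ1 hB (half hLr)
  obtain ⟨d1, hd1, l1⟩ := R_ip0 hp hγ hγ1 hB (thr hQ2)
  obtain ⟨d2, hd2, l2⟩ := R_ip0 hp hγ hγ1 hB (thr hr1)
  obtain ⟨f1, hf1, m1⟩ := et_ip (half hQ2)
  obtain ⟨f2, hf2, m2⟩ := et_ip (half hr1)
  set K : ℝ := ∫ y, (deriv (Qf 4) y) ^ 2 with hKd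
  have hK : 0 < K := Qd2_pos (by norm_num)
  set C1 : ℝ := a1 + a2 + a3 + a4 + a5 + a6 + 4 * b1 + b2 + d1 + d2 + f1 + f2 +
    |ip (deriv (deriv (Qf 4))) rho| + 1 with hC1
  have hI0 := abs_nonneg (ip (deriv (deriv (Qf 4))) rho)
  have hC1p : 0 < C1 := by positivity
  -- smallness
  set t : ℝ := min 1 (K / (32 * C1)) with ht
  have ht0 : 0 < t := lt_min one_pos (by positivity)
  have ht1 : t ≤ 1 := min_le_left _ _
  have htK : C1 * (t + t) ≤ K / 16 := by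
    have : t ≤ K / (32 * C1) := min_le_right _ _
    calc C1 * (t + t) = 2 * C1 * t := by ring
      _ ≤ 2 * C1 * (K / (32 * C1)) := mul_le_mul_of_nonneg_left this (by positivity)
      _ = K / 16 := by field_simp; norm_num
  refine ⟨16 / 3 * ((8 * C1 + 2 * (|5 * c0| * C1) + K / 8) / K), t, t ^ 2, by positivity, ht0,
    by positivity, pow_le_one₀ ht0.le ht1, fun c Ca r w m W et hc hr hS => ?_⟩
  obtain ⟨p, q, hp0, hp1, hq0, hq1, hcl, hcle⟩ := hS.cl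
  have hr0' := hS.r0
  have hr1' : r ≤ 1 := hr.trans ht1
  set n : ℝ := √(ln γ B (ep P E (r ^ 2) W)) with hn
  set ne : ℝ := √(ne2 et) with hne
  have hln0 : 0 ≤ ln γ B (ep P E (r ^ 2) W) := by
    refine integral_nonneg fun y => ?_
    have := (MOb_pos γ B y).le
    positivity
  have hn0 : 0 ≤ n := Real.sqrt_nonneg _
  have hne0 : 0 ≤ ne := Real.sqrt_nonneg _
  have hnt : n ≤ t := by
    rw [hn]
    refine (Real.sqrt_le_sqrt (hS.lnc.trans hc)).trans (le_of_eq ?_)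
    exact Real.sqrt_sq ht0.le
  have hn2 : n ^ 2 = ln γ B (ep P E (r ^ 2) W) := Real.sq_sqrt hln0
  have hr4 : r ^ 4 ≤ t := by
    calc r ^ 4 ≤ t ^ 4 := pow_le_pow_left₀ hr0'.le hr 4
      _ ≤ t := by
        calc t ^ 4 = t * t ^ 3 := by ring
          _ ≤ t * 1 := mul_le_mul_of_nonneg_left (pow_le_one₀ ht0.le ht1) ht0.le
          _ = t := mul_one t
  have hr4p : 0 < r ^ 4 := by positivity
  have hr8p : 0 < r ^ 8 := by positivity
  have hc1 : c ≤ 1 := hc.trans (pow_le_one₀ ht0.le ht1)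
  set D : ℝ := C1 * (r ^ 4 + n) with hD
  have hD0 : 0 ≤ D := by positivity
  have hDK : D ≤ K / 16 := by
    refine le_trans ?_ htK
    exact mul_le_mul_of_nonneg_left (add_le_add hr4 hnt) hC1p.le
  have up : ∀ {a x : ℝ}, a ≤ C1 → x ≤ a * (r ^ 4 + n) → x ≤ D := fun ha hx =>
    hx.trans (mul_le_mul_of_nonneg_right ha (by positivity))
  have e1 := up (by linarith) (h1 c Ca r w m W et hS)
  have e2 := up (by linarith) (h2 c Ca r w m W et hS)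
  have e3 := up (by linarith) (h3 c Ca r w m W et hS)
  have e4 := up (by linarith) (h4 c Ca r w m W et hS)
  have e5 := up (by linarith) (h5 c Ca r w m W et hS)
  have e6 := up (by linarith) (h6 c Ca r w m W et hS)
  have hε := MOp_ep hp hS
  have g1 := k1 _ hε
  have g2 := k2 _ hε
  rw [← hn] at g1 g2
  have q1 := l1 c Ca r w m W et hc1 hS
  have q2 := l2 c Ca r w m W et hc1 hS
  rw [← hn2] at q1 q2
  have s1 := m1 p q et hp0 hq0 hcle
  have s2 := m2 p q et hp0 hq0 hcle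
  rw [← hne] at s1 s2
  -- the two equations
  have A1 := pair_ze (w := w) (m := m) (l := r ^ 8) hp0 hq0 (by linarith) (by linarith) hcl hcle hQ1
  rw [hS.or2, ip_LamQ_Qd (by norm_num), ip_Qdd_Qd (by norm_num)] at A1
  have A2 : ip (fun y => W y - Qf 4 y) (Lop 4 (deriv (deriv (Qf 4)))) =
      4 * ip (ep P E (r ^ 2) W) rho := by
    rw [ep_rho hp hp0 hq0 hcl]
    unfold ip
    rw [← integral_const_mul]
    refine integral_congr_ae (Eventually.of_forall fun y => ?_)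
    simp only
    rw [L_Qdd]
    ring
  have A3 : ip (deriv (Qf 4)) (deriv (Qf 4)) = K := by
    rw [hKd, ip]
    refine integral_congr_ae (Eventually.of_forall fun y => ?_)
    simp only
    ring
  rw [A2, A3] at A1
  have B1 := pair_ze (w := w) (m := m) (l := r ^ 8) hp0 hq0 (by linarith) (by linarith) hcl hcle hr0
  rw [hS.or1, ip_LamQrho, ip_Qdrho] at B1
  have B2 : ip (fun y => W y - Qf 4 y) (Lop 4 (deriv rho)) =
      -bq (r ^ 2) W * (1 / 2 * K) + ip (ep P E (r ^ 2) W) (Lop 4 (deriv rho)) := by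
    have hh := hf_cl hp (bq (r ^ 2) W) (alf (r ^ 2) W)
    have i1 : Integrable (fun y => hf P E (bq (r ^ 2) W) (alf (r ^ 2) W) y * Lop 4 (deriv rho) y) :=
      Cl_int (Cl_mul0 hh hLr) (by norm_num) (by norm_num)
    have i2 : Integrable (fun y => ep P E (r ^ 2) W y * Lop 4 (deriv rho) y) :=
      Cl_int (Cl_mul0 hε hLr) (by norm_num) (by norm_num)
    have j1 := MOp_hp hp (bq (r ^ 2) W) (alf (r ^ 2) W)
    rw [ip_LamQrho, ← hKd] at j1
    rw [← j1, ip, ip, ip, ← integral_add i1 i2]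
    refine integral_congr_ae (Eventually.of_forall fun y => ?_)
    simp only
    rw [ep_split P E (r ^ 2) W y]
    ring
  rw [B2, ← hKd] at B1
  clear_value K C1 D
  set x1 := ip (fun y => W y - Qf 4 y) (deriv (deriv (Qf 4))) with hx1
  set x2 := ip (fun y => W y - Qf 4 y) (Lam 4 (deriv (Qf 4))) with hx2
  set x3 := ip (fun y => W y - Qf 4 y) (deriv (deriv (deriv (Qf 4)))) with hx3
  set x4 := ip (fun y => W y - Qf 4 y) (Lam 4 rho) with hx4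
  set x5 := ip (fun y => W y - Qf 4 y) (deriv rho) with hx5
  set x6 := ip (fun y => W y - Qf 4 y) (deriv (deriv rho)) with hx6
  set y1 := ip (ep P E (r ^ 2) W) rho with hy1
  set y2 := ip (ep P E (r ^ 2) W) (Lop 4 (deriv rho)) with hy2
  set z1 := ip (Rf 4 (fun y => W y - Qf 4 y)) (deriv (deriv (Qf 4))) with hz1
  set z2 := ip (Rf 4 (fun y => W y - Qf 4 y)) (deriv rho) with hz2
  set v1 := ip et (deriv (deriv (Qf 4))) with hv1
  set v2 := ip et (deriv rho) with hv2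
  set J := ip (deriv (deriv (Qf 4))) rho with hJ
  have Aeq : m * K = m * x1 + 4 * y1 - z1 - w * x2 - r ^ 8 * x3 - v1 := by linarith
  have Beq : (bq (r ^ 2) W - w) * (K / 2) =
      y2 - z2 - r ^ 8 * J - w * x4 + m * x5 - r ^ 8 * x6 - v2 := by linarith
  have abs_m : ∀ a b : ℝ, |a * b| = |a| * |b| := abs_mul
  have T1 : |m| * K ≤ |m| * D + C1 * n + C1 * (r ^ 8 + n ^ 2) + |w| * D + r ^ 8 * D + C1 * ne := by
    have u1 : |m| * K = |m * K| := by rw [abs_mul, abs_of_pos hK]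
    have u2 : |m * x1 + 4 * y1 - z1 - w * x2 - r ^ 8 * x3 - v1| ≤
        |m| * |x1| + 4 * |y1| + |z1| + |w| * |x2| + r ^ 8 * |x3| + |v1| := by
      have w1 := abs_sub (m * x1 + 4 * y1 - z1 - w * x2 - r ^ 8 * x3) v1
      have w2 := abs_sub (m * x1 + 4 * y1 - z1 - w * x2) (r ^ 8 * x3)
      have w3 := abs_sub (m * x1 + 4 * y1 - z1) (w * x2)
      have w4 := abs_sub (m * x1 + 4 * y1) z1
      have w5 := abs_add_le (m * x1) (4 * y1)
      rw [abs_mul, abs_of_pos hr8p] at w2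
      rw [abs_mul w x2] at w3
      rw [abs_mul m x1, abs_mul 4 y1, abs_of_pos (by norm_num : (0:ℝ) < 4)] at w5
      linarith
    rw [u1, Aeq]
    refine u2.trans ?_
    have o1 : |m| * |x1| ≤ |m| * D := mul_le_mul_of_nonneg_left e1 (abs_nonneg _)
    have o2 : |w| * |x2| ≤ |w| * D := mul_le_mul_of_nonneg_left e2 (abs_nonneg _)
    have o3 : r ^ 8 * |x3| ≤ r ^ 8 * D := mul_le_mul_of_nonneg_left e3 hr8p.le
    have o4 : 4 * |y1| ≤ C1 * n := by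
      have : 4 * b1 * n ≤ C1 * n := mul_le_mul_of_nonneg_right (by linarith) hn0
      linarith
    have o5 : |z1| ≤ C1 * (r ^ 8 + n ^ 2) :=
      q1.trans (mul_le_mul_of_nonneg_right (by linarith) (by positivity))
    have o6 : |v1| ≤ C1 * ne := s1.trans (mul_le_mul_of_nonneg_right (by linarith) hne0)
    linarith
  have T2 : |bq (r ^ 2) W - w| * (K / 2) ≤ C1 * n + C1 * (r ^ 8 + n ^ 2) + r ^ 8 * C1 + |w| * D +
      |m| * D + r ^ 8 * D + C1 * ne := by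
    have u1 : |bq (r ^ 2) W - w| * (K / 2) = |(bq (r ^ 2) W - w) * (K / 2)| := by
      rw [abs_mul, abs_of_pos (by positivity : 0 < K / 2)]
    have u2 : |y2 - z2 - r ^ 8 * J - w * x4 + m * x5 - r ^ 8 * x6 - v2| ≤
        |y2| + |z2| + r ^ 8 * |J| + |w| * |x4| + |m| * |x5| + r ^ 8 * |x6| + |v2| := by
      have w1 := abs_sub (y2 - z2 - r ^ 8 * J - w * x4 + m * x5 - r ^ 8 * x6) v2
      have w2 := abs_sub (y2 - z2 - r ^ 8 * J - w * x4 + m * x5) (r ^ 8 * x6)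
      have w3 := abs_add_le (y2 - z2 - r ^ 8 * J - w * x4) (m * x5)
      have w4 := abs_sub (y2 - z2 - r ^ 8 * J) (w * x4)
      have w5 := abs_sub (y2 - z2) (r ^ 8 * J)
      have w6 := abs_sub y2 z2
      rw [abs_mul, abs_of_pos hr8p] at w2 w5
      rw [abs_mul m x5] at w3
      rw [abs_mul w x4] at w4
      linarith
    rw [u1, Beq]
    refine u2.trans ?_
    have o1 : |m| * |x5| ≤ |m| * D := mul_le_mul_of_nonneg_left e5 (abs_nonneg _)
    have o2 : |w| * |x4| ≤ |w| * D := mul_le_mul_of_nonneg_left e4 (abs_nonneg _)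
    have o3 : r ^ 8 * |x6| ≤ r ^ 8 * D := mul_le_mul_of_nonneg_left e6 hr8p.le
    have o4 : |y2| ≤ C1 * n := g2.trans (mul_le_mul_of_nonneg_right (by linarith) hn0)
    have o5 : |z2| ≤ C1 * (r ^ 8 + n ^ 2) :=
      q2.trans (mul_le_mul_of_nonneg_right (by linarith) (by positivity))
    have o6 : |v2| ≤ C1 * ne := s2.trans (mul_le_mul_of_nonneg_right (by linarith) hne0)
    have o7 : r ^ 8 * |J| ≤ r ^ 8 * C1 := mul_le_mul_of_nonneg_left (by linarith) hr8p.le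
    linarith
  have hb : |bq (r ^ 2) W| ≤ |5 * c0| * r ^ 4 :=
    hS.b1.trans (mul_le_mul_of_nonneg_right (le_abs_self _) hr4p.le)
  exact MOp_num hK (abs_nonneg _) hC1p.le hn0 (hnt.trans ht1) hr8p.le hne0 hr4p.le (hr4.trans ht1)
    (by ring) hb rfl (abs_nonneg _) hD hDK T1 T2

end H68KC

end
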