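import Pool.Agent.H68.KC.Defs
import Pool.Agent.H98.KB.Sol2

open MeasureTheory Filter Topology Set
open scoped ContDiff

noncomputable section

/-!
# Row PRa (MP_95be7d_K4): the second solution of `L G = 0` for `k = 4`, explicitly

`A0 = Q(0)`, `q = Q/A0 = cosh(2y)^{-1/2}`, `G2 = 1/q - 2 q^3`.

All lemmas on `Q` are in `Pool.Agent.H98.KB.Sol`, `Sol2`, `Tan` (use them with `k = 4`, `hk : 1 ≤ 4`):
`Qf_hd` (`Q' = -t Q`, `t = th 4 y`), `th_hd` (`t' = 2 (1 - t²)`), `Qf_pow` (`Q⁴ = C0 4 * (1 - t²)`, and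
`C0 4 = (4+1)(4+2)/2 = 15`, unfold `C0`), `Qf_deriv`, `Sol2_dd`, `Qf_neg`, `th_neg`, `Qf_pos`, `Qf_lo`, `Qf_hi`.

## Proofs
* `A0_pow`: `Qf_pow` at `y = 0`, `th 4 0 = tanh 0 = 0`.
* `G2_hd`: `(1/Q)' = t/Q`, `((Q/A0)^3)' = -3 t (Q/A0)^3`.
* `G2_hd2` (derivative of the right hand side of `G2_hd`): with `t' = 2(1-t²)`:
  `(t/Q)' = (2(1-t²) + t²)/Q`, `(t q³)' = 2(1-t²) q³ - 3 t² q³`. So
  `G2'' = A0 (2 - t²)/Q + 6 (2 - 5 t²) q³`.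
* `G2_L`: `-G2'' + G2 - Q⁴ G2` with `Q⁴ = 15 (1-t²)` and `q⁴ = Q⁴/A0⁴ = 1 - t²`:
  terms with `A0/Q = 1/q`: `-(2 - t²) + 1 - 15 (1-t²) = -16 (1 - t²)`;
  terms with `q³`: `-6 (2 - 5t²) - 2 + 30 (1-t²) = 16` ; and `q³ = (1/q) q⁴ = (1/q)(1-t²)`, so the sum vanishes.
  (In Lean: write everything with `q`, `A0 = Q/q`; or multiply by `Q` and use `Q⁴ = 15(1-t²)`, `A0⁴ = 15`:
  `q³ = Q³/A0³ = A0 Q³/15`, `A0/Q = A0 Q³/(15 (1-t²))`.)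
* `G2_wr`: `Q' G2' - Q'' G2` : `Q' = -tQ`, `Q'' = (3t² - 2) Q` (`Sol2_dd` with `k = 4`):
  `-t Q (A0 t/Q + 6 t q³) - (3t²-2) Q (A0/Q - 2 q³) = A0(-t² - 3t² + 2) + Q q³ (-6t² + 6t² - 4)
  = A0 (2 - 4t²) - 4 A0 q⁴ = A0 (2 - 4t² - 4 + 4t²) = -2 A0`.
* `G2_bd`: `|G2| , |G2'| ≤ C e^{|y|}`: `Q ≥ c e^{-|y|}` (`Qf_lo`), `Q ≤ C` (`Qf_hi`), `|t| < 1` (`th_abs_lt`).
* `G2_neg`: `Qf_neg`.
-/

namespace H68KC

open H98KB

/-- `Q(0)` -/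
def A0 : ℝ := Qf 4 0

/-- second solution of `L G = 0` -/
def G2 (y : ℝ) : ℝ := A0 / Qf 4 y - 2 * (Qf 4 y / A0) ^ 3

theorem A0_pos : 0 < A0 := Qf_pos 4 0

theorem Q4_pow (y : ℝ) : (Qf 4 y) ^ 4 = 15 * (1 - th 4 y ^ 2) := by
  have h := Qf_pow (k := 4) (by norm_num) y
  have h2 : C0 4 = 15 := by unfold C0; norm_num
  rw [h2] at h
  exact h

theorem A0_pow : A0 ^ 4 = 15 := by
  have h := Q4_pow 0
  have h1 : th 4 0 = 0 := by rw [th_eq]; simp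
  rw [h1] at h
  unfold A0
  rw [h]
  norm_num

theorem PRa_thd (y : ℝ) : HasDerivAt (th 4) (2 * (1 - th 4 y ^ 2)) y := by
  have h := th_hd 4 y
  have h2 : ((4 : ℕ) : ℝ) / 2 * (1 - th 4 y ^ 2) = 2 * (1 - th 4 y ^ 2) := by
    norm_num
  rw [h2] at h
  exact h

theorem PRa_qhd (y : ℝ) : HasDerivAt (Qf 4) (-(th 4 y) * Qf 4 y) y := Qf_hd (by norm_num) y

/-- derivative of `A0 / Q` -/
theorem PRa_ihd (y : ℝ) : HasDerivAt (fun y => A0 / Qf 4 y) (A0 * th 4 y / Qf 4 y) y := by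
  have hq := PRa_qhd y
  have hp : Qf 4 y ≠ 0 := (Qf_pos 4 y).ne'
  have h1 := (hasDerivAt_const y A0).div hq hp
  refine HasDerivAt.congr_deriv (f := fun y => A0 / Qf 4 y) h1 ?_
  field_simp
  ring

/-- derivative of `(Q / A0)^3` -/
theorem PRa_chd (y : ℝ) : HasDerivAt (fun y => (Qf 4 y / A0) ^ 3) (-3 * th 4 y * (Qf 4 y / A0) ^ 3) y := by
  have hq := PRa_qhd y
  have h2 := (hq.div_const A0).pow 3
  refine HasDerivAt.congr_deriv (f := fun y => (Qf 4 y / A0) ^ 3) h2 ?_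
  norm_num
  ring

theorem G2_hd (y : ℝ) :
    HasDerivAt G2 (A0 * th 4 y / Qf 4 y + 6 * th 4 y * (Qf 4 y / A0) ^ 3) y := by
  have h3 := (PRa_ihd y).sub ((PRa_chd y).const_mul 2)
  refine HasDerivAt.congr_deriv (f := G2) h3 ?_
  ring

theorem PRa_e3 (y : ℝ) : A0 / Qf 4 y * (1 - th 4 y ^ 2) = (Qf 4 y / A0) ^ 3 := by
  have hp : Qf 4 y ≠ 0 := (Qf_pos 4 y).ne'
  have hA : A0 ≠ 0 := A0_pos.ne'
  have : A0 ^ 4 * (1 - th 4 y ^ 2) = Qf 4 y ^ 4 := by rw [Q4_pow y, A0_pow]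
  rw [div_pow, div_mul_eq_mul_div, div_eq_div_iff hp (pow_ne_zero 3 hA)]
  linarith [this]

theorem G2_hd2 (y : ℝ) :
    HasDerivAt (fun y => A0 * th 4 y / Qf 4 y + 6 * th 4 y * (Qf 4 y / A0) ^ 3)
      ((1 - (Qf 4 y) ^ 4) * G2 y) y := by
  have ht := PRa_thd y
  have h1 := ht.mul (PRa_ihd y)
  have h2 := (ht.const_mul 6).mul (PRa_chd y)
  have h3 := h1.add h2
  have h4 : (fun y => A0 * th 4 y / Qf 4 y + 6 * th 4 y * (Qf 4 y / A0) ^ 3) =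
      fun y => th 4 y * (A0 / Qf 4 y) + 6 * th 4 y * (Qf 4 y / A0) ^ 3 := by
    funext z; ring
  rw [h4]
  refine HasDerivAt.congr_deriv h3 ?_
  have e1 := Q4_pow y
  have e3 := PRa_e3 y
  unfold G2
  rw [e1]
  have e4 : A0 * th 4 y / Qf 4 y = th 4 y * (A0 / Qf 4 y) := by ring
  rw [e4]
  generalize (Qf 4 y / A0) ^ 3 = c at *
  generalize A0 / Qf 4 y = v at *
  rw [← e3]
  ring

theorem PRa_d : deriv G2 = fun y => A0 * th 4 y / Qf 4 y + 6 * th 4 y * (Qf 4 y / A0) ^ 3 :=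
  funext fun y => (G2_hd y).deriv

theorem G2_L (y : ℝ) : Lop 4 G2 y = 0 := by
  unfold Lop
  rw [PRa_d, (G2_hd2 y).deriv]
  ring

theorem G2_wr (y : ℝ) :
    deriv (Qf 4) y * deriv G2 y - deriv (deriv (Qf 4)) y * G2 y = -2 * A0 := by
  have hp : Qf 4 y ≠ 0 := (Qf_pos 4 y).ne'
  have hA : A0 ≠ 0 := A0_pos.ne'
  rw [PRa_d, (PRa_qhd y).deriv, Qf_deriv2 (by norm_num) y]
  unfold G2
  have e3 := PRa_e3 y
  have e5 : Qf 4 y * (Qf 4 y / A0) ^ 3 = A0 * (1 - th 4 y ^ 2) := by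
    rw [← e3]; field_simp
  have e6 : Qf 4 y * (A0 / Qf 4 y) = A0 := by field_simp
  have e7 : -(th 4 y) * Qf 4 y * (A0 * th 4 y / Qf 4 y + 6 * th 4 y * (Qf 4 y / A0) ^ 3) -
      (th 4 y ^ 2 - ((4 : ℕ) : ℝ) / 2 * (1 - th 4 y ^ 2)) * Qf 4 y *
        (A0 / Qf 4 y - 2 * (Qf 4 y / A0) ^ 3) =
      -(th 4 y) ^ 2 * (Qf 4 y * (A0 / Qf 4 y)) - 6 * th 4 y ^ 2 * (Qf 4 y * (Qf 4 y / A0) ^ 3) -
      (th 4 y ^ 2 - 2 * (1 - th 4 y ^ 2)) * (Qf 4 y * (A0 / Qf 4 y)) +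
      2 * (th 4 y ^ 2 - 2 * (1 - th 4 y ^ 2)) * (Qf 4 y * (Qf 4 y / A0) ^ 3) := by
    push_cast
    ring
  rw [e7, e5, e6]
  ring

theorem G2_bd : ∃ C : ℝ, 0 ≤ C ∧ ∀ y, |G2 y| ≤ C * Real.exp |y| ∧ |deriv G2 y| ≤ C * Real.exp |y| := by
  obtain ⟨c, hc, hlo⟩ := Qf_lo (k := 4) (by norm_num)
  obtain ⟨C, hC, hhi⟩ := Qf_hi (k := 4) (by norm_num)
  have hA := A0_pos
  have b1 : ∀ y, A0 / Qf 4 y ≤ A0 / c * Real.exp |y| := by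
    intro y
    have hq := Qf_pos 4 y
    rw [div_le_iff₀ hq]
    have h1 := hlo y
    have h2 : Real.exp |y| * Real.exp (-|y|) = 1 := by rw [← Real.exp_add]; simp
    calc A0 = A0 / c * (c * (Real.exp |y| * Real.exp (-|y|))) := by rw [h2]; field_simp
      _ = A0 / c * Real.exp |y| * (c * Real.exp (-|y|)) := by ring
      _ ≤ A0 / c * Real.exp |y| * Qf 4 y := mul_le_mul_of_nonneg_left h1 (by positivity)
  have b2 : ∀ y, (Qf 4 y / A0) ^ 3 ≤ (C / A0) ^ 3 * Real.exp |y| := by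
    intro y
    have hq := Qf_pos 4 y
    have h1 : Qf 4 y ≤ C := by
      refine (hhi y).trans ?_
      have : Real.exp (-|y|) ≤ 1 := Real.exp_le_one_iff.mpr (by simp)
      nlinarith
    have h2 : (Qf 4 y / A0) ^ 3 ≤ (C / A0) ^ 3 := by gcongr
    have h3 : 1 ≤ Real.exp |y| := Real.one_le_exp (abs_nonneg y)
    have h4 : 0 ≤ (C / A0) ^ 3 := by positivity
    nlinarith
  refine ⟨A0 / c + 6 * (C / A0) ^ 3, by positivity, fun y => ?_⟩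
  have hq := Qf_pos 4 y
  have v0 : 0 < A0 / Qf 4 y := by positivity
  have w0 : 0 < (Qf 4 y / A0) ^ 3 := by positivity
  have h1 := b1 y
  have h2 := b2 y
  have ht := th_abs_lt 4 y
  have hE := Real.exp_pos |y|
  have hc3 : 0 ≤ (C / A0) ^ 3 * Real.exp |y| := by positivity
  constructor
  · unfold G2
    rw [abs_le]
    constructor
    · nlinarith
    · nlinarith
  · rw [PRa_d]
    have e : A0 * th 4 y / Qf 4 y + 6 * th 4 y * (Qf 4 y / A0) ^ 3 =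
        th 4 y * (A0 / Qf 4 y + 6 * (Qf 4 y / A0) ^ 3) := by ring
    show |A0 * th 4 y / Qf 4 y + 6 * th 4 y * (Qf 4 y / A0) ^ 3| ≤ _
    rw [e, abs_mul, abs_of_pos (show 0 < A0 / Qf 4 y + 6 * (Qf 4 y / A0) ^ 3 by positivity)]
    calc |th 4 y| * (A0 / Qf 4 y + 6 * (Qf 4 y / A0) ^ 3)
        ≤ 1 * (A0 / Qf 4 y + 6 * (Qf 4 y / A0) ^ 3) :=
          mul_le_mul_of_nonneg_right ht.le (by positivity)
      _ ≤ _ := by nlinarith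

theorem G2_neg (y : ℝ) : G2 (-y) = G2 y := by
  unfold G2
  rw [Qf_neg]

end H68KC

end
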