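import Pool.Agent.H68.KC.Defs
import Pool.Agent.H98.KB.Cla

/-!
# Row PRb (MP_95be7d_K4): a linear second order ODE propagates the class `Cl p q`

## Proof
Claim (induction on `j`): there are `A B G : ℝ → ℝ` with `Cl 0 0 A`, `Cl 0 0 B`, `Cl p q G` and
`iteratedDeriv j f = fun y => A y * f y + B y * f1 y + G y`.
`j = 0`: `A = 1`, `B = 0`, `G = 0` (`Cl_const`, `Cl_zero`). Step: the derivative of the right hand side is
`(A' + B a) f + (A + B') f1 + (B F + G')` (`Cl_hd`, `h0`, `h1`, product rule), and the coefficients are again in the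
classes (`Cl_der`, `Cl_mul0`, `Cl_add`, for two functions of class `0 0` use `Cl_mul` with `0 + 0`).
Together with the claim one also proves by induction that `iteratedDeriv j f` is differentiable (it is equal to a
differentiable function), so `f` is smooth: `contDiff_of_differentiable_iteratedDeriv` (for all `n`, `contDiff_infty`).
Bounds: `|A| ≤ C`, `|B| ≤ C` (`Cl_bnd` with `bd_zero`), `b0`, `b1`, `Cl_bnd` for `G`.
-/

open MeasureTheory Filter Topology Set
open scoped ContDiff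

noncomputable section

namespace H68KC

open H98KB

theorem PRb_hd {f f1 a F A B G : ℝ → ℝ} {p q : ℝ} (h0 : ∀ y, HasDerivAt f (f1 y) y)
    (h1 : ∀ y, HasDerivAt f1 (a y * f y + F y) y) (hA : Cl 0 0 A) (hB : Cl 0 0 B)
    (hG : Cl p q G) (y : ℝ) :
    HasDerivAt (fun y => A y * f y + B y * f1 y + G y)
      ((deriv A y + B y * a y) * f y + (A y + deriv B y) * f1 y + (B y * F y + deriv G y)) y := by
  have e1 := (Cl_hd hA y).mul (h0 y)
  have e2 := (Cl_hd hB y).mul (h1 y)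
  have e3 := (e1.add e2).add (Cl_hd hG y)
  refine e3.congr_deriv ?_
  ring

theorem PRb_rep {p q : ℝ} {f f1 a F : ℝ → ℝ} (h0 : ∀ y, HasDerivAt f (f1 y) y)
    (h1 : ∀ y, HasDerivAt f1 (a y * f y + F y) y) (ha : Cl 0 0 a) (hF : Cl p q F) (j : ℕ) :
    ∃ A B G : ℝ → ℝ, Cl 0 0 A ∧ Cl 0 0 B ∧ Cl p q G ∧
      iteratedDeriv j f = fun y => A y * f y + B y * f1 y + G y := by
  induction j with
  | zero =>
    refine ⟨fun _ => 1, fun _ => 0, fun _ => 0, Cl_const 1, Cl_zero, Cl_zero, ?_⟩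
    funext y
    rw [iteratedDeriv_zero]
    ring
  | succ j ih =>
    obtain ⟨A, B, G, hA, hB, hG, h⟩ := ih
    have hBa : Cl 0 0 (fun y => B y * a y) := Cl_mul0 hB ha
    refine ⟨fun y => deriv A y + B y * a y, fun y => A y + deriv B y,
      fun y => B y * F y + deriv G y, Cl_add (Cl_der hA) hBa, Cl_add hA (Cl_der hB),
      Cl_add (Cl_mul0 hB hF) (Cl_der hG), ?_⟩
    funext y
    rw [iteratedDeriv_succ, h]
    exact (PRb_hd h0 h1 hA hB hG y).deriv

theorem Cl_of_ode {p q : ℝ} {f f1 a F : ℝ → ℝ} (h0 : ∀ y, HasDerivAt f (f1 y) y)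
    (h1 : ∀ y, HasDerivAt f1 (a y * f y + F y) y) (ha : Cl 0 0 a) (hF : Cl p q F)
    (b0 : ∃ C : ℝ, ∀ y, |f y| ≤ C * bd p q y) (b1 : ∃ C : ℝ, ∀ y, |f1 y| ≤ C * bd p q y) :
    Cl p q f := by
  obtain ⟨C0, hC0⟩ := b0
  obtain ⟨C1, hC1⟩ := b1
  refine ⟨?_, fun j => ?_⟩
  · refine contDiff_of_differentiable_iteratedDeriv fun m _ => ?_
    obtain ⟨A, B, G, hA, hB, hG, h⟩ := PRb_rep h0 h1 ha hF m
    rw [h]
    exact fun y => (PRb_hd h0 h1 hA hB hG y).differentiableAt
  · obtain ⟨A, B, G, hA, hB, hG, h⟩ := PRb_rep h0 h1 ha hF j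
    obtain ⟨CA, hCA0, hCA⟩ := Cl_bnd hA
    obtain ⟨CB, hCB0, hCB⟩ := Cl_bnd hB
    obtain ⟨CG, hCG0, hCG⟩ := Cl_bnd hG
    refine ⟨CA * C0 + CB * C1 + CG, fun y => ?_⟩
    rw [h]
    have hb := bd_pos p q y
    have k1 : |A y * f y| ≤ CA * (C0 * bd p q y) := by
      rw [abs_mul]
      have e := hCA y
      rw [bd_zero, mul_one] at e
      exact mul_le_mul e (hC0 y) (abs_nonneg _) hCA0
    have k2 : |B y * f1 y| ≤ CB * (C1 * bd p q y) := by
      rw [abs_mul]
      have e := hCB y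
      rw [bd_zero, mul_one] at e
      exact mul_le_mul e (hC1 y) (abs_nonneg _) hCB0
    calc |A y * f y + B y * f1 y + G y| ≤ |A y * f y| + |B y * f1 y| + |G y| := abs_add_three _ _ _
      _ ≤ CA * (C0 * bd p q y) + CB * (C1 * bd p q y) + CG * bd p q y := by
        linarith [hCG y]
      _ = (CA * C0 + CB * C1 + CG) * bd p q y := by ring

end H68KC

end
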