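import Pool.Agent.H68.KC.PRa
import Pool.Agent.H98.KB.Clb

/-!
# Row PRc (MP_95be7d_K4): inverse of `L` by variation of constants, derivatives

`K F = -(1/(2 A0)) (Q' ∫_0^y F G2 + G2 ∫_y^∞ F Q')`.

## Proofs
`F` is continuous (`Cl_cont`), `G2` is continuous (`G2_hd`), `F Q'` is integrable (`Cl_int (Cl_mul hF (Cl_der (Cl_Qf _)))`).
* `d/dy ∫_0^y F G2 = F G2` (`intervalIntegral.integral_hasDerivAt_right`).
* `d/dy ∫_{Ioi y} F Q' = - F Q'`: `∫_{Ioi y} g = ∫_ℝ g - ∫_{Iic y} g` and `∫_{Iic y} g = ∫_{Iic 0} g + ∫_0^y g`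
  (`intervalIntegral.integral_Iic_sub_Iic`), or look for an existing lemma (`integral_Ioi` derivative).
* `KK_hd`: `(K F)' = c (Q'' A + Q' F G2 + G2' B - G2 F Q') = c (Q'' A + G2' B) = KK1`, `c = -1/(2A0)`.
* `KK1_hd`: `(KK1)' = c (Q''' A + Q'' F G2 + G2'' B - G2' F Q') = c (Q''' A + G2'' B) - c F (Q' G2' - Q'' G2)
  = c ((1 - Q⁴) Q' A + (1 - Q⁴) G2 B) - F` by `G2_wr` (`c * (-2 A0) = 1`, so `- c F (-2A0) = -F`),
  `L Q' = 0` (`L_Qd`, i.e. `Q''' = (1 - Q⁴) Q'`, unfold `Lop`) and `G2_hd2`.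
  `deriv G2` is the function of `G2_hd`; `Q''` has derivative `(1 - Q⁴) Q'` (`Cl_hd` applied to `deriv (deriv Q)`).
* `KK_neg`: for `F` even: `Q'` odd, `G2` even (`G2_neg`), `∫_0^{-y} F G2 = -∫_0^y F G2`,
  `∫_{Ioi (-y)} F Q' = ∫_{Ioi y} F Q'` because `∫_{-y}^{y} F Q' = 0` (odd integrand); `deriv Q (-y) = - deriv Q y`.
-/

open MeasureTheory Filter Topology Set
open scoped ContDiff

noncomputable section

namespace H68KC

open H98KB

def KK (F : ℝ → ℝ) (y : ℝ) : ℝ :=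
  -(1 / (2 * A0)) * (deriv (Qf 4) y * (∫ z in (0:ℝ)..y, F z * G2 z)
    + G2 y * (∫ z in Ioi y, F z * deriv (Qf 4) z))

def KK1 (F : ℝ → ℝ) (y : ℝ) : ℝ :=
  -(1 / (2 * A0)) * (deriv (deriv (Qf 4)) y * (∫ z in (0:ℝ)..y, F z * G2 z)
    + deriv G2 y * (∫ z in Ioi y, F z * deriv (Qf 4) z))

theorem tail_hd {g : ℝ → ℝ} (hg : Continuous g) (hi : Integrable g) (y : ℝ) :
    HasDerivAt (fun y => ∫ z in Ioi y, g z) (-g y) y := by
  have h1 : (fun y => ∫ z in Ioi y, g z) = fun y => (∫ z in Ioi (0:ℝ), g z) - ∫ z in (0:ℝ)..y, g z := by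
    funext x
    have h2 := intervalIntegral.integral_Ioi_sub_Ioi' (f := g) (μ := volume) (a := 0) (b := x)
      hi.integrableOn hi.integrableOn
    linarith
  rw [h1]
  have h3 : HasDerivAt (fun y => ∫ z in (0:ℝ)..y, g z) (g y) y :=
    (hg.integral_hasStrictDerivAt 0 y).hasDerivAt
  refine (h3.const_sub (∫ z in Ioi (0:ℝ), g z)).congr_deriv rfl

theorem PRc_G2 (y : ℝ) : HasDerivAt G2 (deriv G2 y) y := (G2_hd y).differentiableAt.hasDerivAt

theorem PRc_G2c : Continuous G2 :=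
  continuous_iff_continuousAt.2 fun y => (G2_hd y).continuousAt

theorem PRc_G2d (y : ℝ) : HasDerivAt (deriv G2) ((1 - (Qf 4 y) ^ 4) * G2 y) y := by
  have h1 : deriv G2 = fun y => A0 * th 4 y / Qf 4 y + 6 * th 4 y * (Qf 4 y / A0) ^ 3 := by
    funext z
    exact (G2_hd z).deriv
  rw [h1]
  exact G2_hd2 y

theorem PRc_Q : Cl 1 1 (Qf 4) := Cl_Qf (by norm_num)

theorem PRc_A {F : ℝ → ℝ} (hF : Cl (3 / 4) (3 / 4) F) (y : ℝ) :
    HasDerivAt (fun y => ∫ z in (0:ℝ)..y, F z * G2 z) (F y * G2 y) y :=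
  (((Cl_cont hF).mul PRc_G2c).integral_hasStrictDerivAt 0 y).hasDerivAt

theorem PRc_int {F : ℝ → ℝ} (hF : Cl (3 / 4) (3 / 4) F) :
    Integrable (fun z => F z * deriv (Qf 4) z) :=
  Cl_int (Cl_mul hF (Cl_der PRc_Q)) (by norm_num) (by norm_num)

theorem PRc_B {F : ℝ → ℝ} (hF : Cl (3 / 4) (3 / 4) F) (y : ℝ) :
    HasDerivAt (fun y => ∫ z in Ioi y, F z * deriv (Qf 4) z) (-(F y * deriv (Qf 4) y)) y :=
  tail_hd ((Cl_cont hF).mul (Cl_cont (Cl_der PRc_Q))) (PRc_int hF) y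

theorem KK_hd {F : ℝ → ℝ} (hF : Cl (3 / 4) (3 / 4) F) (y : ℝ) : HasDerivAt (KK F) (KK1 F y) y := by
  have hQ := Cl_hd (Cl_der PRc_Q) y
  refine (((hQ.mul (PRc_A hF y)).add ((PRc_G2 y).mul (PRc_B hF y))).const_mul
    (-(1 / (2 * A0)))).congr_deriv ?_
  unfold KK1
  ring

theorem PRc_Q3 (y : ℝ) : HasDerivAt (deriv (deriv (Qf 4))) ((1 - (Qf 4 y) ^ 4) * deriv (Qf 4) y) y := by
  have h1 := Cl_hd (Cl_der (Cl_der PRc_Q)) y
  have h2 := L_Qd (k := 4) (by norm_num) y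
  unfold Lop at h2
  refine h1.congr_deriv ?_
  linarith

theorem KK1_hd {F : ℝ → ℝ} (hF : Cl (3 / 4) (3 / 4) F) (y : ℝ) :
    HasDerivAt (KK1 F) ((1 - (Qf 4 y) ^ 4) * KK F y + -F y) y := by
  refine ((((PRc_Q3 y).mul (PRc_A hF y)).add ((PRc_G2d y).mul (PRc_B hF y))).const_mul
    (-(1 / (2 * A0)))).congr_deriv ?_
  have hw := G2_wr y
  have hA := A0_pos.ne'
  unfold KK
  have e1 : -(1 / (2 * A0)) * (F y * (-2 * A0)) = F y := by
    field_simp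
  rw [← hw] at e1
  linear_combination -e1

theorem PRc_Qn (y : ℝ) : deriv (Qf 4) (-y) = -deriv (Qf 4) y := by
  have h1 : (fun x => Qf 4 (-x)) = Qf 4 := funext fun x => Qf_neg 4 x
  have h2 := deriv_comp_neg (Qf 4) y
  rw [h1] at h2
  linarith

theorem KK_neg {F : ℝ → ℝ} (hF : Cl (3 / 4) (3 / 4) F) (he : ∀ y, F (-y) = F y) (y : ℝ) :
    KK F (-y) = KK F y := by
  have h1 : ∫ z in (0:ℝ)..(-y), F z * G2 z = -∫ z in (0:ℝ)..y, F z * G2 z := by
    have h2 := intervalIntegral.integral_comp_neg (a := 0) (b := y) (fun z => F z * G2 z)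
    simp only [he, G2_neg, neg_zero] at h2
    rw [h2, intervalIntegral.integral_symm]
  have hi := PRc_int hF
  have h3 : ∫ z, F z * deriv (Qf 4) z = 0 := by
    have h4 := integral_neg_eq_self (fun z => F z * deriv (Qf 4) z) volume
    simp only [he, PRc_Qn, mul_neg, integral_neg] at h4
    linarith
  have h5 : ∫ z in Ioi (-y), F z * deriv (Qf 4) z = ∫ z in Ioi y, F z * deriv (Qf 4) z := by
    have h6 := integral_comp_neg_Iic y (fun z => F z * deriv (Qf 4) z)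
    simp only [he, PRc_Qn, mul_neg, integral_neg] at h6
    have h7 := intervalIntegral.integral_Iic_add_Ioi (f := fun z => F z * deriv (Qf 4) z) (b := y)
      hi.integrableOn hi.integrableOn
    linarith
  unfold KK
  rw [h1, h5, PRc_Qn, G2_neg]
  ring

end H68KC

end
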