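import Pool.Agent.H68.KC.PRb
import Pool.Agent.H68.KC.PRc

open MeasureTheory Filter Topology Set
open scoped ContDiff

noncomputable section

/-!
# Row PRd (MP_95be7d_K4): inverse of `L` on the class `Cl (3/4) (3/4)`

## Proofs
Let `|F| ≤ C e^{-3|y|/4}` (`Cl_bnd`, `bd_abs`), `|Q'|, |Q''| ≤ C e^{-|y|}` (`Cl_bnd` of `Cl_der (Cl_Qf _)`), `|G2|, |G2'| ≤ C e^{|y|}` (`G2_bd`).
* `KK_bd`: `|∫_0^y F G2| ≤ C |∫_0^y e^{|z|/4}| ≤ 4 C e^{|y|/4}` (both signs of `y`;
  `intervalIntegral.norm_integral_le_integral_norm` or `norm_integral_le_of_norm_le`), so `|Q' ∫_0^y F G2| ≤ C e^{-3|y|/4}`.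
  For `y ≥ 0`: `|∫_{Ioi y} F Q'| ≤ C ∫_y^∞ e^{-7z/4} = C (4/7) e^{-7y/4}`.
  For `y ≤ 0`: `∫_{Ioi y} F Q' = - ∫_{Iic y} F Q'` because `∫_ℝ F Q' = 0` (`h0`), and `|∫_{Iic y} F Q'| ≤ C ∫_{-∞}^y e^{7z/4} = C (4/7) e^{7y/4}`.
  Hence `|G2 ∫_{Ioi y} F Q'| ≤ C e^{|y|} e^{-7|y|/4} = C e^{-3|y|/4}`. Same for `KK1` with `Q''`, `G2'`.
* `inv_cl`: `f = KK F`; `Cl_of_ode` (row PRb) with `f1 = KK1 F`, `a = 1 - Q⁴` (`Cl_sub (Cl_const 1)` and
  `Cl_mono (Cl_pow (Cl_Qf _) 4)`), `F := -F`; `Lop 4 f = -f'' + f - Q⁴ f = F` from `KK_hd`, `KK1_hd` (`deriv f = KK1 F` as functions).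
-/

namespace H68KC

open H98KB

theorem PRd_head {g : ℝ → ℝ} {C : ℝ} (hb : ∀ y, |g y| ≤ C * Real.exp (|y| / 4)) (hC : 0 ≤ C) (y : ℝ) :
    |∫ z in (0:ℝ)..y, g z| ≤ 4 * C * Real.exp (|y| / 4) := by
  rcases le_total 0 y with hy | hy
  · have h1 : ‖∫ z in (0:ℝ)..y, g z‖ ≤ ∫ z in (0:ℝ)..y, C * Real.exp (z / 4) := by
      refine intervalIntegral.norm_integral_le_of_norm_le hy ?_ ?_
      · refine Eventually.of_forall fun z hz => ?_
        have := hb z
        rw [abs_of_pos hz.1] at this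
        rw [Real.norm_eq_abs]
        exact this
      · exact (Continuous.intervalIntegrable (by fun_prop) _ _)
    have h2 : ∫ z in (0:ℝ)..y, C * Real.exp (z / 4) =
        4 * C * Real.exp (y / 4) - 4 * C * Real.exp (0 / 4) := by
      refine intervalIntegral.integral_eq_sub_of_hasDerivAt (f := fun z => 4 * C * Real.exp (z / 4)) ?_ ?_
      · intro x _
        have h3 : HasDerivAt (fun z : ℝ => z / 4) (1 / 4) x := (hasDerivAt_id x).div_const 4
        have h4 := (h3.exp).const_mul (4 * C)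
        have h5 : 4 * C * (Real.exp (x / 4) * (1 / 4)) = C * Real.exp (x / 4) := by ring
        rw [h5] at h4
        exact h4
      · exact (Continuous.intervalIntegrable (by fun_prop) _ _)
    rw [h2, Real.norm_eq_abs] at h1
    rw [abs_of_nonneg hy]
    have h5 : 0 ≤ 4 * C * Real.exp (0 / 4) := by positivity
    linarith
  · rw [intervalIntegral.integral_symm, abs_neg]
    have h1 : ‖∫ z in y..(0:ℝ), g z‖ ≤ ∫ z in y..(0:ℝ), C * Real.exp (-z / 4) := by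
      refine intervalIntegral.norm_integral_le_of_norm_le hy ?_ ?_
      · refine Eventually.of_forall fun z hz => ?_
        have := hb z
        rw [abs_of_nonpos hz.2] at this
        rw [Real.norm_eq_abs]
        exact this
      · exact (Continuous.intervalIntegrable (by fun_prop) _ _)
    have h2 : ∫ z in y..(0:ℝ), C * Real.exp (-z / 4) =
        -(4 * C) * Real.exp (-0 / 4) - -(4 * C) * Real.exp (-y / 4) := by
      refine intervalIntegral.integral_eq_sub_of_hasDerivAt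
        (f := fun z => -(4 * C) * Real.exp (-z / 4)) ?_ ?_
      · intro x _
        have h3 : HasDerivAt (fun z : ℝ => -z / 4) (-1 / 4) x := (hasDerivAt_id x).neg.div_const 4
        have h4 := (h3.exp).const_mul (-(4 * C))
        have h5 : -(4 * C) * (Real.exp (-x / 4) * (-1 / 4)) = C * Real.exp (-x / 4) := by ring
        rw [h5] at h4
        exact h4
      · exact (Continuous.intervalIntegrable (by fun_prop) _ _)
    rw [h2, Real.norm_eq_abs] at h1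
    rw [abs_of_nonpos hy]
    have h5 : 0 ≤ 4 * C * Real.exp (-0 / 4) := by positivity
    linarith

theorem PRd_tail {g : ℝ → ℝ} {C : ℝ} (hi : Integrable g)
    (hb : ∀ y, |g y| ≤ C * Real.exp (-(7 / 4 * |y|))) (h0 : ∫ y, g y = 0) (y : ℝ) :
    |∫ z in Ioi y, g z| ≤ 4 / 7 * C * Real.exp (-(7 / 4 * |y|)) := by
  rcases le_total 0 y with hy | hy
  · have h1 : ‖∫ z in Ioi y, g z‖ ≤ ∫ z in Ioi y, C * Real.exp (-(7 / 4) * z) := by
      refine norm_integral_le_of_norm_le ?_ ?_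
      · exact (integrableOn_exp_mul_Ioi (by norm_num) y).const_mul C
      · filter_upwards [ae_restrict_mem measurableSet_Ioi] with z hz
        have hz' : 0 ≤ z := le_trans hy (le_of_lt hz)
        have := hb z
        rw [abs_of_nonneg hz'] at this
        rw [Real.norm_eq_abs]
        convert this using 3
        ring
    rw [integral_const_mul, integral_exp_mul_Ioi (by norm_num), Real.norm_eq_abs] at h1
    rw [abs_of_nonneg hy]
    refine h1.trans (le_of_eq ?_)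
    rw [show -(7 / 4) * y = -(7 / 4 * y) by ring]
    ring
  · have h1 : ‖∫ z in Iic y, g z‖ ≤ ∫ z in Iic y, C * Real.exp (7 / 4 * z) := by
      refine norm_integral_le_of_norm_le ?_ ?_
      · exact (integrableOn_exp_mul_Iic (by norm_num) y).const_mul C
      · filter_upwards [ae_restrict_mem measurableSet_Iic] with z hz
        have hz' : z ≤ 0 := le_trans hz hy
        have := hb z
        rw [abs_of_nonpos hz'] at this
        rw [Real.norm_eq_abs]
        convert this using 3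
        ring
    rw [integral_const_mul, integral_exp_mul_Iic (by norm_num), Real.norm_eq_abs] at h1
    have h2 : ∫ z in Ioi y, g z = -∫ z in Iic y, g z := by
      have h3 := intervalIntegral.integral_Iic_add_Ioi (μ := volume) (b := y) hi.integrableOn hi.integrableOn
      rw [h0] at h3
      linarith
    rw [h2, abs_neg, abs_of_nonpos hy]
    refine h1.trans (le_of_eq ?_)
    rw [show 7 / 4 * y = -(7 / 4 * -y) by ring]
    ring

theorem PRd_comb {F G q : ℝ → ℝ} {Cf Cg Cq : ℝ} (hCf : 0 ≤ Cf) (hCg : 0 ≤ Cg) (_hCq : 0 ≤ Cq)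
    (hF : ∀ y, |F y| ≤ Cf * Real.exp (-(3 / 4 * |y|)))
    (hG : ∀ y, |G y| ≤ Cg * Real.exp |y|) (hq : ∀ y, |q y| ≤ Cq * Real.exp (-|y|))
    (hi : Integrable (fun y => F y * q y)) (h0 : ∫ y, F y * q y = 0)
    {u v : ℝ → ℝ} {Cu Cv : ℝ} (hCu : 0 ≤ Cu) (hCv : 0 ≤ Cv)
    (hu : ∀ y, |u y| ≤ Cu * Real.exp (-|y|)) (hv : ∀ y, |v y| ≤ Cv * Real.exp |y|) (c : ℝ) :
    ∃ C : ℝ, ∀ y, |c * (u y * (∫ z in (0:ℝ)..y, F z * G z) + v y * (∫ z in Ioi y, F z * q z))|
      ≤ C * bd (3 / 4) (3 / 4) y := by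
  have e1 : ∀ y, |F y * G y| ≤ (Cf * Cg) * Real.exp (|y| / 4) := by
    intro y
    rw [abs_mul]
    calc |F y| * |G y| ≤ (Cf * Real.exp (-(3 / 4 * |y|))) * (Cg * Real.exp |y|) :=
          mul_le_mul (hF y) (hG y) (abs_nonneg _) (by positivity)
      _ = (Cf * Cg) * (Real.exp (-(3 / 4 * |y|)) * Real.exp |y|) := by ring
      _ = (Cf * Cg) * Real.exp (|y| / 4) := by
          rw [← Real.exp_add]; congr 2; ring
  have e2 : ∀ y, |F y * q y| ≤ (Cf * Cq) * Real.exp (-(7 / 4 * |y|)) := by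
    intro y
    rw [abs_mul]
    calc |F y| * |q y| ≤ (Cf * Real.exp (-(3 / 4 * |y|))) * (Cq * Real.exp (-|y|)) :=
          mul_le_mul (hF y) (hq y) (abs_nonneg _) (by positivity)
      _ = (Cf * Cq) * (Real.exp (-(3 / 4 * |y|)) * Real.exp (-|y|)) := by ring
      _ = (Cf * Cq) * Real.exp (-(7 / 4 * |y|)) := by
          rw [← Real.exp_add]; congr 2; ring
  refine ⟨|c| * (Cu * (4 * (Cf * Cg)) + Cv * (4 / 7 * (Cf * Cq))), fun y => ?_⟩
  have a1 := PRd_head e1 (by positivity) y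
  have a2 := PRd_tail hi e2 h0 y
  rw [bd_abs, abs_mul]
  have b1 : |u y * (∫ z in (0:ℝ)..y, F z * G z)| ≤ Cu * (4 * (Cf * Cg)) * Real.exp (-(3 / 4 * |y|)) := by
    rw [abs_mul]
    calc |u y| * |∫ z in (0:ℝ)..y, F z * G z|
        ≤ (Cu * Real.exp (-|y|)) * (4 * (Cf * Cg) * Real.exp (|y| / 4)) :=
          mul_le_mul (hu y) a1 (abs_nonneg _) (by positivity)
      _ = Cu * (4 * (Cf * Cg)) * (Real.exp (-|y|) * Real.exp (|y| / 4)) := by ring
      _ = _ := by rw [← Real.exp_add]; congr 2; ring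
  have b2 : |v y * (∫ z in Ioi y, F z * q z)| ≤ Cv * (4 / 7 * (Cf * Cq)) * Real.exp (-(3 / 4 * |y|)) := by
    rw [abs_mul]
    calc |v y| * |∫ z in Ioi y, F z * q z|
        ≤ (Cv * Real.exp |y|) * (4 / 7 * (Cf * Cq) * Real.exp (-(7 / 4 * |y|))) :=
          mul_le_mul (hv y) a2 (abs_nonneg _) (by positivity)
      _ = Cv * (4 / 7 * (Cf * Cq)) * (Real.exp |y| * Real.exp (-(7 / 4 * |y|))) := by ring
      _ = _ := by rw [← Real.exp_add]; congr 2; ring
  have b3 := abs_add_le (u y * (∫ z in (0:ℝ)..y, F z * G z)) (v y * (∫ z in Ioi y, F z * q z))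
  calc |c| * |u y * (∫ z in (0:ℝ)..y, F z * G z) + v y * (∫ z in Ioi y, F z * q z)|
      ≤ |c| * (Cu * (4 * (Cf * Cg)) * Real.exp (-(3 / 4 * |y|)) +
          Cv * (4 / 7 * (Cf * Cq)) * Real.exp (-(3 / 4 * |y|))) :=
        mul_le_mul_of_nonneg_left (by linarith) (abs_nonneg _)
    _ = _ := by ring

theorem KK_bd {F : ℝ → ℝ} (hF : Cl (3 / 4) (3 / 4) F) (h0 : ip F (deriv (Qf 4)) = 0) :
    (∃ C : ℝ, ∀ y, |KK F y| ≤ C * bd (3 / 4) (3 / 4) y) ∧
    (∃ C : ℝ, ∀ y, |KK1 F y| ≤ C * bd (3 / 4) (3 / 4) y) := by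
  have hk : 1 ≤ 4 := by norm_num
  have cQ1 : Cl 1 1 (deriv (Qf 4)) := Cl_der (Cl_Qf hk)
  have cQ2 : Cl 1 1 (deriv (deriv (Qf 4))) := Cl_der cQ1
  obtain ⟨Cf, hCf, bF⟩ := Cl_bnd hF
  obtain ⟨C1, hC1, b1⟩ := Cl_bnd cQ1
  obtain ⟨C2, hC2, b2⟩ := Cl_bnd cQ2
  obtain ⟨Cg, hCg, bG⟩ := G2_bd
  have bF' : ∀ y, |F y| ≤ Cf * Real.exp (-(3 / 4 * |y|)) := fun y => by
    rw [← bd_abs]; exact bF y
  have b1' : ∀ y, |deriv (Qf 4) y| ≤ C1 * Real.exp (-|y|) := fun y => by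
    have := b1 y
    rw [bd_abs, one_mul] at this
    exact this
  have b2' : ∀ y, |deriv (deriv (Qf 4)) y| ≤ C2 * Real.exp (-|y|) := fun y => by
    have := b2 y
    rw [bd_abs, one_mul] at this
    exact this
  have hi : Integrable (fun y => F y * deriv (Qf 4) y) :=
    Cl_int (Cl_mul hF cQ1) (by norm_num) (by norm_num)
  constructor
  · exact PRd_comb hCf hCg hC1 bF' (fun y => (bG y).1) b1' hi h0 hC1 hCg b1' (fun y => (bG y).1) _
  · exact PRd_comb hCf hCg hC1 bF' (fun y => (bG y).1) b1' hi h0 hC2 hCg b2' (fun y => (bG y).2) _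

theorem inv_cl {F : ℝ → ℝ} (hF : Cl (3 / 4) (3 / 4) F) (h0 : ip F (deriv (Qf 4)) = 0) :
    Cl (3 / 4) (3 / 4) (KK F) ∧ ∀ y, Lop 4 (KK F) y = F y := by
  have hk : 1 ≤ 4 := by norm_num
  obtain ⟨k0, k1⟩ := KK_bd hF h0
  have ca : Cl 0 0 (fun y => 1 - (Qf 4 y) ^ 4) := by
    refine Cl_sub (Cl_const 1) (Cl_mono (Cl_pow (Cl_Qf hk) 4) (by norm_num) (by norm_num))
  refine ⟨Cl_of_ode (KK_hd hF) (KK1_hd hF) ca (Cl_neg hF) k0 k1, fun y => ?_⟩
  have d1 : deriv (KK F) = KK1 F := funext fun z => (KK_hd hF z).deriv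
  have d2 : deriv (deriv (KK F)) y = (1 - (Qf 4 y) ^ 4) * KK F y + -F y := by
    rw [d1]; exact (KK1_hd hF y).deriv
  unfold Lop
  rw [d2]
  ring

end H68KC

end
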