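import Pool.Agent.H68.KC.If4

/-!
# The trap for `k = 4`: definitions (`Fac` + `Trd` → `Dyn4`)

`D` below means `λ³ d/dt`; `D (r^n) = -(n/8) w r^n`, `D t = r^24`.
-/

open MeasureTheory Filter Topology Set
open scoped ContDiff

noncomputable section

namespace H68KC

open H98KB

/-- facts which hold along the trajectory independently of the trap -/
structure Fac (P E : ℝ → ℝ) (r w m : ℝ) (W et : ℝ → ℝ) : Prop where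
  pr : Prof P E
  r0 : 0 < r
  cl : ∃ p q : ℝ, 0 < p ∧ p ≤ 1 / 2 ∧ 0 < q ∧ q ≤ 1 / 2 ∧ Cl p q (fun y => W y - Qf 4 y) ∧ Cl p q et
  or1 : ip (ze w m (r ^ 8) W et) rho = 0
  or2 : ip (ze w m (r ^ 8) W et) (deriv (Qf 4)) = 0
  ne : ne2 et ≤ r ^ 60
  mq : |ip W (deriv (Qf 4))| ≤ r ^ 30
  mr : |ip (fun y => W y - Qf 4 y) rho| ≤ r ^ 30
  ms : (∫ y, (W y) ^ 2) ≤ (∫ y, (Qf 4 y) ^ 2) + 1 / 2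

/-- the trapped region (`g₁, …, g₉ > 0`) -/
structure Trd (P E : ℝ → ℝ) (η γ δ M B K0 K9 KE Ca KN K5 σ t r : ℝ) (W : ℝ → ℝ) : Prop where
  g1 : LL4 P E η γ δ M B K0 r W < K9 * r ^ 10
  g2 : bq (r ^ 2) W < 4 * c0 * r ^ 4
  g3 : 2 * c0 * r ^ 4 < bq (r ^ 2) W
  g4 : EW W < KE * r ^ 4
  g5 : Nn (r ^ 2) W < (Ca + KN * t) * r ^ 16
  g6 : alf (r ^ 2) W + K5 * r ^ 5 < (f0 + σ) * r ^ 4
  g7 : (f0 - σ) * r ^ 4 < alf (r ^ 2) W - K5 * r ^ 5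
  g8 : Xn (fun y => W y - Qf 4 y) < r ^ 2
  g9 : (∫ y, (W y - Qf 4 y) ^ 2) < 1

/-- consequences: strict improvement at the boundary of the trapped region -/
structure Dyn4 (P E : ℝ → ℝ) (η γ δ M B K0 K9 KE KN K5 δ0 r w m : ℝ) (W et : ℝ → ℝ) :
    Prop where
  w1 : c0 * r ^ 4 ≤ w
  w2 : w ≤ 5 * c0 * r ^ 4
  m1 : |m| ≤ 1 / 4
  d1 : K9 / 2 * r ^ 10 ≤ LL4 P E η γ δ M B K0 r W →
    DLL4 P E η γ δ M B K0 r w W (ze w m (r ^ 8) W et) ≤ -(5 / 4) * w * K9 * r ^ 10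
  d2 : (4 * c0 - δ0) * r ^ 4 ≤ bq (r ^ 2) W →
    bqD (r ^ 2) w W (ze w m (r ^ 8) W et) + 2 * c0 * w * r ^ 4 ≤ 0
  d3 : bq (r ^ 2) W ≤ (2 * c0 + δ0) * r ^ 4 →
    0 ≤ bqD (r ^ 2) w W (ze w m (r ^ 8) W et) + c0 * w * r ^ 4
  d4 : KE / 2 * r ^ 4 ≤ EW W → DEW W (ze w m (r ^ 8) W et) ≤ -(1 / 2) * w * KE * r ^ 4
  d5 : DNn (r ^ 2) w W (ze w m (r ^ 8) W et) + 2 * w * Nn (r ^ 2) W ≤ KN * r ^ 40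
  d6 : |alm (r ^ 2) w W (ze w m (r ^ 8) W et)| ≤ K5 / 8 * w * r ^ 5
  s8 : Xn (fun y => W y - Qf 4 y) ≤ r ^ 2 / 2
  s9 : (∫ y, (W y - Qf 4 y) ^ 2) ≤ 3 / 4
  x1 : 1 / 4 * (∫ y, (deriv (Qf 4) y) ^ 2) ≤ ∫ y, (deriv W y) ^ 2

/-- what the static part delivers for the trap; `Ca`, `KI` come from the initial data -/
def ThmTrap : Prop :=
  ∀ (P E : ℝ → ℝ) (γ η δ M B c C : ℝ), Prof P E → GoodA P E γ η δ M B c C → GoodB P E γ B c →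
    GoodC P E γ B c C → ∀ (Ca KI : ℝ), 1 ≤ Ca → 1 ≤ KI →
    ∃ K0 K9 KE KN K5 σ0 δ0 r1 : ℝ, 0 < K0 ∧ 4 * K0 * (Ca + 1) ≤ K9 ∧ KI ≤ KE ∧ 0 < KN ∧ 0 < K5 ∧
      0 < σ0 ∧ 0 < δ0 ∧ 0 < r1 ∧ r1 ≤ 1 ∧ ∀ (σ t r w m : ℝ) (W et : ℝ → ℝ), r ≤ r1 → 0 ≤ t →
      KN * t ≤ 1 → σ ≤ σ0 →
      Fac P E r w m W et → Trd P E η γ δ M B K0 K9 KE Ca KN K5 σ t r W →
      Dyn4 P E η γ δ M B K0 K9 KE KN K5 δ0 r w m W et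

/-! ## Initial data -/

/-- background profile -/
def kap4 (w1 x : ℝ) : ℝ := 1 / Real.cosh (x / w1)

/-- `h₀ = 3 c₀ r⁴ P + f₀ r⁴ E`, cut at the physical scale `w1` -/
def hk4 (P E : ℝ → ℝ) (w1 r y : ℝ) : ℝ := hf P E (3 * c0 * r ^ 4) (f0 * r ^ 4) y * kap4 w1 (r ^ 8 * y)

/-- the initial datum in the rescaled variable -/
def W0 (P E : ℝ → ℝ) (w1 r y : ℝ) : ℝ :=
  Qf 4 y + hk4 P E w1 r y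
    - ip (hk4 P E w1 r) (deriv (Qf 4)) / (∫ y, (deriv (Qf 4) y) ^ 2) * deriv (Qf 4) y
    - ip (hk4 P E w1 r) rho / ip (Lam 4 (Qf 4)) rho * Lam 4 (Qf 4) y

/-- the initial datum `φ(x) = λ₀^{-1/2} W0(x/λ₀)`, `λ₀ = r^8` -/
def dat4 (P E : ℝ → ℝ) (w1 r x : ℝ) : ℝ := 1 / r ^ 4 * W0 P E w1 r (x / r ^ 8)

/-- initial conditions; `W` is `ν`-close to `W0` in `H¹` -/
def ThmIni : Prop :=
  ∀ (P E : ℝ → ℝ) (γ η δ M B c C : ℝ), Prof P E → GoodA P E γ η δ M B c C →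
    ∃ w1 Ca KI : ℝ, 0 < w1 ∧ w1 ≤ 1 ∧ 1 ≤ Ca ∧ 1 ≤ KI ∧
    ∀ K0 K9 KE KN K5 : ℝ, 0 < K0 → 4 * K0 * (Ca + 1) ≤ K9 → KI ≤ KE → 0 < K5 →
    ∃ r1 : ℝ, 0 < r1 ∧ r1 ≤ 1 / 2 ∧ ∀ r, 0 < r → r ≤ r1 →
      Cl 4 4 (dat4 P E w1 r) ∧
      ∃ ν C' : ℝ, 0 < ν ∧ 0 < C' ∧ ∀ W : ℝ → ℝ,
        (∃ p q : ℝ, 0 < p ∧ p ≤ 1 / 2 ∧ 0 < q ∧ q ≤ 1 / 2 ∧ Cl p q (fun y => W y - Qf 4 y)) →
        ne2 (fun y => W y - W0 P E w1 r y) ≤ ν →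
        Trd P E η γ δ M B K0 K9 KE Ca KN K5 (2 * K5 * r) 0 r W ∧
        (∫ y, (W y) ^ 2) ≤ (∫ y, (Qf 4 y) ^ 2) + 1 / 4 ∧
        |ip W (deriv (Qf 4))| ≤ C' * √(ne2 (fun y => W y - W0 P E w1 r y)) ∧
        |ip (fun y => W y - Qf 4 y) rho| ≤ C' * √(ne2 (fun y => W y - W0 P E w1 r y))

end H68KC

end
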