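import Pool.Agent.H68.KC.Stat4
import Pool.Agent.H68.KC.MOp
import Pool.Agent.H98.KB.Tbn

/-!
# Row TRa (MP_95be7d_K4): static consequences of the trap

Write `ε = ep P E (r^2) W`, `e = W - Q`.

## Proof of `T4_ge`
`(Th' + s Th) Z (ε² + ε'² + ε''²) ≥ s Th Z (ε² + ε'²)` pointwise (`Th' ≥ 0`, `Th > 0`, `Z ≥ 0`); both integrable: `ε` is of class `0 0` and
`(Th' + s Th) Z(s·)` is continuous and bounded by `C e^{-c|y|}` (`Z(s y) = sech²(s y - 2) ≤ 4 e^{-2|s y - 2|}`, `Th ≤ 1`, `|Th'| ≤ 1/B`).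

## Proof of `TR_sit0`
* `t`: `(Ca + KN t) r^16 ≤ (Ca + 1) r^16`, so `N1` from `g5`.
* `b1`: `g2`, `g3`. `a1`: `g6`, `g7`, `K5 r^5 ≥ 0`: `|alf - f0 r⁴| < σ r⁴ ≤ r⁴`.
* `X1`, `L1`: `g8`, `g9`, `r ≤ 1`.
* `sup`: `sup_le` (`Clb`): `e² ≤ 2 √(∫e²) √(∫e'²) ≤ 2 * 1 * r` (`Xn e < r²`, `√(r²) = r`), so `|e| ≤ √(2r) ≤ c'/2` for `r ≤ c'²/8`.
* `supe`: `ε = e - h` (`ep_split`), `|h| ≤ C r⁴` (from `b1`, `a1`, `cP`, `E_cl`) `≤ c'/2` for `r` small.
* `ln`: `Nn ≥ 0` (the integrand is `≥ 0`), so `M E4 + Vf = LL4 - K0/r^6 Nn ≤ LL4 < K9 r^10` (`g1`); by `GoodA.CO`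
  `G4 ≤ C (K9 r^10 + C (r^60 + r^60)) ≤ C (K9 + 2 C) r^10` (`mq`, `mr`), and `ln ≤ C G4`. `KL := C² (K9 + 2 C)`.
  `CO` needs the class of `W - Q` (`Fac.cl`) and `|ε| ≤ c' ≤ c`.
* `lnc`: `KL r^10 ≤ c'` for `r` small. `e1`: `ne ≤ r^60 ≤ 1`.
-/

open MeasureTheory Filter Topology Set
open scoped ContDiff

noncomputable section

namespace H68KC

open H98KB

variable {P E : ℝ → ℝ} {γ η δ M B c C : ℝ}

theorem TRa_Zup (ξ : ℝ) : 0 ≤ Zf ξ ∧ Zf ξ ≤ 4 * Real.exp 4 * Real.exp (-(2 * |ξ|)) := by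
  have h1 : Real.exp |ξ - 2| / 2 ≤ Real.cosh (ξ - 2) := by
    rw [← Real.cosh_abs, Real.cosh_eq]
    have := Real.exp_pos (-|ξ - 2|)
    linarith
  have h2 : 1 / Real.cosh (ξ - 2) ≤ 2 * Real.exp (-|ξ - 2|) := by
    rw [div_le_iff₀ (Real.cosh_pos _)]
    have h3 := mul_le_mul_of_nonneg_left h1 (Real.exp_pos (-|ξ - 2|)).le
    have h4 : Real.exp (-|ξ - 2|) * (Real.exp |ξ - 2| / 2) = 1 / 2 := by
      rw [mul_div_assoc', ← Real.exp_add, neg_add_cancel, Real.exp_zero]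
    linarith
  have h3 : Zf ξ ≤ (2 * Real.exp (-|ξ - 2|)) ^ 2 := by
    unfold Zf
    exact pow_le_pow_left₀ (by positivity) h2 2
  have h4 : (2 * Real.exp (-|ξ - 2|)) ^ 2 = 4 * Real.exp (-(2 * |ξ - 2|)) := by
    rw [mul_pow, ← Real.exp_nat_mul]
    norm_num
  have h5 : |ξ| ≤ |ξ - 2| + 2 := by
    have := abs_add_le (ξ - 2) 2
    rw [sub_add_cancel, abs_two] at this
    exact this
  rw [h4] at h3
  refine ⟨sq_nonneg _, h3.trans ?_⟩
  rw [mul_assoc, ← Real.exp_add]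
  refine mul_le_mul_of_nonneg_left (Real.exp_le_exp.2 ?_) (by norm_num)
  linarith

theorem TRa_Zc : Continuous Zf := by
  unfold Zf
  exact (continuous_const.div (Real.continuous_cosh.comp (continuous_id.sub continuous_const))
    (fun x => (Real.cosh_pos _).ne')).pow 2

theorem TRa_int {s : ℝ} (hs : 0 < s) {F : ℝ → ℝ} (hF : Cl 0 0 F) :
    Integrable (fun y => Zf (s * y) * F y) := by
  have hc : Continuous (fun y => Zf (s * y) * F y) :=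
    (TRa_Zc.comp (continuous_const.mul continuous_id)).mul (Cl_cont hF)
  obtain ⟨C, hC, hb⟩ := Cl_bnd hF
  refine int_of_bd hc (p := 2 * s) (q := 2 * s) (by linarith) (by linarith)
    ⟨4 * Real.exp 4 * C, fun y => ?_⟩
  obtain ⟨z0, z1⟩ := TRa_Zup (s * y)
  have h1 := hb y
  rw [bd_zero, mul_one] at h1
  rw [bd_abs, abs_mul, abs_of_nonneg z0]
  have h2 : 2 * |s * y| = 2 * s * |y| := by
    rw [abs_mul, abs_of_pos hs]
    ring
  rw [h2] at z1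
  calc Zf (s * y) * |F y| ≤ (4 * Real.exp 4 * Real.exp (-(2 * s * |y|))) * C :=
        mul_le_mul z1 h1 (abs_nonneg _) (by positivity)
    _ = 4 * Real.exp 4 * C * Real.exp (-(2 * s * |y|)) := by ring

theorem T4_ge {B s : ℝ} (hB : 16 ≤ B) (hs : 0 < s) {ε : ℝ → ℝ} (h : Cl 0 0 ε) :
    s * G4 B s ε ≤ T4 B s ε := by
  have hB0 : 0 < B := by linarith
  have hT : Cl 0 0 (Th B) := Cl_mono (Cl_Th hB0) le_rfl (by positivity)
  have hT' := Cl_der hT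
  have h1 := Cl_der h
  have h2 := Cl_der h1
  have q0 := Cl_pow0 h 2
  have q1 := Cl_pow0 h1 2
  have q2 := Cl_pow0 h2 2
  have i1 := (TRa_int hs (Cl_mul0 hT (Cl_add q0 q1))).const_mul s
  have i2 := TRa_int hs (Cl_mul0 (Cl_add hT' (Cl_smul s hT)) (Cl_add (Cl_add q0 q1) q2))
  have e1 : s * G4 B s ε = ∫ y, s * (Zf (s * y) * (Th B y * (ε y ^ 2 + deriv ε y ^ 2))) := by
    rw [integral_const_mul]
    unfold G4 om4
    congr 1
    congr 1
    funext y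
    ring
  have e2 : T4 B s ε = ∫ y, Zf (s * y) * ((deriv (Th B) y + s * Th B y) *
      (ε y ^ 2 + deriv ε y ^ 2 + deriv (deriv ε) y ^ 2)) := by
    unfold T4
    congr 1
    funext y
    ring
  rw [e1, e2]
  refine integral_mono i1 i2 ?_
  intro y
  change s * (Zf (s * y) * (Th B y * (ε y ^ 2 + deriv ε y ^ 2))) ≤
    Zf (s * y) * ((deriv (Th B) y + s * Th B y) *
      (ε y ^ 2 + deriv ε y ^ 2 + deriv (deriv ε) y ^ 2))
  have t0 := Th_pos B y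
  have t1 := Th_lt_one B y
  have t2 : 0 ≤ deriv (Th B) y := by
    rw [(Th_hd hB0 y).deriv]
    exact div_nonneg (mul_nonneg t0.le (by linarith)) hB0.le
  have z0 := (TRa_Zup (s * y)).1
  have k1 : 0 ≤ Zf (s * y) * (deriv (Th B) y *
      (ε y ^ 2 + deriv ε y ^ 2 + deriv (deriv ε) y ^ 2)) := by positivity
  have k2 : 0 ≤ Zf (s * y) * (s * Th B y * deriv (deriv ε) y ^ 2) := by positivity
  linarith

theorem Nn_nonneg (s : ℝ) (W : ℝ → ℝ) : 0 ≤ Nn s W := by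
  unfold Nn
  refine integral_nonneg fun y => mul_nonneg ?_ (sq_nonneg _)
  unfold Ph
  exact (Th_pos 4 _).le

theorem TRa_c0 : 1 ≤ c0 := by
  unfold c0 cnu
  have h : 0 ≤ 16 * (∫ y, (deriv (Qf 4) y) ^ 2) / Iq ^ 2 :=
    div_nonneg (mul_nonneg (by norm_num) (integral_nonneg fun y => sq_nonneg _)) (sq_nonneg _)
  linarith

theorem TRa_h (hp : Prof P E) : ∃ CH : ℝ, 0 ≤ CH ∧ ∀ (r b α y : ℝ), 0 < r →
    |b| ≤ 5 * c0 * r ^ 4 → |α| ≤ (|f0| + 1) * r ^ 4 → |hf P E b α y| ≤ CH * r ^ 4 := by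
  obtain ⟨CP, hCP, hP⟩ := Cl_bnd hp.cP
  obtain ⟨CE, hCE, hE⟩ := Cl_bnd (E_cl hp)
  have hc0 := TRa_c0
  refine ⟨5 * c0 * CP + (|f0| + 1) * CE, by positivity, ?_⟩
  intro r b α y hr hb hα
  have h1 := hP y
  have h2 := hE y
  rw [bd_zero, mul_one] at h1 h2
  unfold hf
  calc |b * P y + α * E y| ≤ |b * P y| + |α * E y| := abs_add_le _ _
    _ = |b| * |P y| + |α| * |E y| := by rw [abs_mul, abs_mul]
    _ ≤ (5 * c0 * r ^ 4) * CP + ((|f0| + 1) * r ^ 4) * CE :=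
        add_le_add (mul_le_mul hb h1 (abs_nonneg _) (by positivity))
          (mul_le_mul hα h2 (abs_nonneg _) (by positivity))
    _ = (5 * c0 * CP + (|f0| + 1) * CE) * r ^ 4 := by ring

theorem TRa_sup {p q r c' : ℝ} {f : ℝ → ℝ} (hp : 0 < p) (hq : 0 < q) (hf : Cl p q f) (hr : 0 < r)
    (hc' : 0 < c') (hrc : r ≤ c' ^ 2 / 8) (hX : Xn f ≤ r ^ 2) (hL : (∫ y, (f y) ^ 2) ≤ 1) (y : ℝ) :
    |f y| ≤ c' / 2 := by
  have h := sup_le hf hp hq y
  have h1 : √(∫ z, f z ^ 2) ≤ 1 := by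
    rw [Real.sqrt_le_one]
    exact hL
  have h2 : √(∫ z, deriv f z ^ 2) ≤ r := by
    rw [Real.sqrt_le_left hr.le]
    exact hX
  have h3 : 2 * √(∫ z, f z ^ 2) * √(∫ z, deriv f z ^ 2) ≤ 2 * 1 * r :=
    mul_le_mul (by linarith) h2 (Real.sqrt_nonneg _) (by norm_num)
  have h4 : f y ^ 2 ≤ (c' / 2) ^ 2 := by
    have : (c' / 2) ^ 2 = 2 * 1 * (c' ^ 2 / 8) := by ring
    rw [this]
    linarith
  exact abs_le_of_sq_le_sq h4 (by linarith)

theorem TR_sit0 (hp : Prof P E) (hA : GoodA P E γ η δ M B c C) (K0 K9 Ca : ℝ) (hK0 : 0 < K0)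
    (hK9 : 0 < K9) :
    ∃ KL : ℝ, 0 < KL ∧ ∀ c' KE KN K5 : ℝ, 0 < c' → c' ≤ c → 0 < K5 → ∃ r1 : ℝ, 0 < r1 ∧ r1 ≤ 1 ∧
      ∀ (σ t r w m : ℝ) (W et : ℝ → ℝ), r ≤ r1 → 0 ≤ t → KN * t ≤ 1 → σ ≤ 1 →
      Fac P E r w m W et → Trd P E η γ δ M B K0 K9 KE Ca KN K5 σ t r W →
      Sit0 P E γ B c' (Ca + 1) r w m W et ∧ ln γ B (ep P E (r ^ 2) W) ≤ KL * r ^ 10 := by
  have hC1 := hA.hC
  have hC0 : 0 < C := by linarith
  obtain ⟨rC, hrC, hCO⟩ := hA.CO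
  obtain ⟨CH, hCH, hh⟩ := TRa_h hp
  have hKL : 0 < C ^ 2 * (K9 + 2 * C) := by positivity
  refine ⟨C ^ 2 * (K9 + 2 * C), hKL, ?_⟩
  intro c' KE KN K5 hc' hcc hK5
  refine ⟨min 1 (min rC (min (c' ^ 2 / 8) (min (c' / (2 * (CH + 1)))
    (c' / (C ^ 2 * (K9 + 2 * C)))))), by positivity, min_le_left _ _, ?_⟩
  intro σ t r w m W et hr ht hKt hσ F T
  have r0 := F.r0
  have r1 : r ≤ 1 := hr.trans (min_le_left _ _)
  have hr' := hr.trans (min_le_right _ _)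
  have r2 : r ≤ rC := hr'.trans (min_le_left _ _)
  have hr'' := hr'.trans (min_le_right _ _)
  have r3 : r ≤ c' ^ 2 / 8 := hr''.trans (min_le_left _ _)
  have hr3 := hr''.trans (min_le_right _ _)
  have r4 : r ≤ c' / (2 * (CH + 1)) := hr3.trans (min_le_left _ _)
  have r5 : r ≤ c' / (C ^ 2 * (K9 + 2 * C)) := hr3.trans (min_le_right _ _)
  have hc0 := TRa_c0
  have hr4 : 0 < r ^ 4 := by positivity
  have hr5 : 0 < r ^ 5 := by positivity
  have hp4 : r ^ 4 ≤ r := by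
    have h := pow_le_pow_of_le_one r0.le r1 (by norm_num : 1 ≤ 4)
    rwa [pow_one] at h
  have hp10 : r ^ 10 ≤ r := by
    have h := pow_le_pow_of_le_one r0.le r1 (by norm_num : 1 ≤ 10)
    rwa [pow_one] at h
  have hp60 : r ^ 60 ≤ r ^ 10 := pow_le_pow_of_le_one r0.le r1 (by norm_num)
  have hp60' : r ^ 60 ≤ 1 := pow_le_one₀ r0.le r1
  have hp2 : r ^ 2 ≤ 1 := pow_le_one₀ r0.le r1
  obtain ⟨p, q, hp0, hp1, hq0, hq1, hW, he⟩ := F.cl
  have b1 : |bq (r ^ 2) W| ≤ 5 * c0 * r ^ 4 := by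
    have g2 := T.g2
    have g3 := T.g3
    have h1 : 0 ≤ c0 * r ^ 4 := by positivity
    rw [abs_le]
    constructor <;> linarith
  have a1 : |alf (r ^ 2) W| ≤ (|f0| + 1) * r ^ 4 := by
    have g6 := T.g6
    have g7 := T.g7
    have h1 : 0 ≤ K5 * r ^ 5 := by positivity
    have h2 : (f0 + σ) * r ^ 4 ≤ (|f0| + 1) * r ^ 4 :=
      mul_le_mul_of_nonneg_right (add_le_add (le_abs_self _) hσ) hr4.le
    have h3 : (-(|f0| + 1)) * r ^ 4 ≤ (f0 - σ) * r ^ 4 := by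
      refine mul_le_mul_of_nonneg_right ?_ hr4.le
      have := neg_abs_le f0
      linarith
    rw [abs_le]
    constructor <;> linarith
  have hsup : ∀ y, |W y - Qf 4 y| ≤ c' / 2 := fun y =>
    TRa_sup hp0 hq0 hW r0 hc' r3 T.g8.le T.g9.le y
  have hsupe : ∀ y, |ep P E (r ^ 2) W y| ≤ c' := by
    intro y
    have h1 := ep_split P E (r ^ 2) W y
    have h2 := hh r _ _ y r0 b1 a1
    have h3 : CH * r ^ 4 ≤ c' / 2 := by
      have h4 : CH * r ^ 4 ≤ (CH + 1) * r := mul_le_mul (by linarith) hp4 hr4.le (by linarith)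
      have h5 := (le_div_iff₀ (by positivity : 0 < 2 * (CH + 1))).1 r4
      linarith
    have h4 : ep P E (r ^ 2) W y = (W y - Qf 4 y) - hf P E (bq (r ^ 2) W) (alf (r ^ 2) W) y := by
      linarith
    rw [h4]
    have h5 := abs_sub (W y - Qf 4 y) (hf P E (bq (r ^ 2) W) (alf (r ^ 2) W) y)
    linarith [hsup y]
  have hln : ln γ B (ep P E (r ^ 2) W) ≤ C ^ 2 * (K9 + 2 * C) * r ^ 10 := by
    obtain ⟨c1, -, c3⟩ := hCO r W r0 r2 ⟨p, q, hp0, hp1, hq0, hq1, hW⟩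
      (fun y => (hsupe y).trans hcc)
    have g1 := T.g1
    unfold LL4 at g1
    have hN := Nn_nonneg (r ^ 2) W
    have h1 : 0 ≤ K0 / r ^ 6 * Nn (r ^ 2) W := by positivity
    have h2 : (ip W (deriv (Qf 4))) ^ 2 ≤ r ^ 60 := by
      have h3 := pow_le_pow_left₀ (abs_nonneg _) F.mq 2
      rw [sq_abs] at h3
      have h4 : (r ^ 30) ^ 2 = r ^ 60 := by ring
      rwa [h4] at h3
    have h3 : (ip (fun y => W y - Qf 4 y) rho) ^ 2 ≤ r ^ 60 := by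
      have h3 := pow_le_pow_left₀ (abs_nonneg _) F.mr 2
      rw [sq_abs] at h3
      have h4 : (r ^ 30) ^ 2 = r ^ 60 := by ring
      rwa [h4] at h3
    have h4 : C * ((ip W (deriv (Qf 4))) ^ 2 + (ip (fun y => W y - Qf 4 y) rho) ^ 2) ≤
        C * (2 * r ^ 10) := mul_le_mul_of_nonneg_left (by linarith) hC0.le
    have h5 : G4 B (r ^ 2) (ep P E (r ^ 2) W) ≤ C * (K9 * r ^ 10 + C * (2 * r ^ 10)) := by
      refine c1.trans (mul_le_mul_of_nonneg_left ?_ hC0.le)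
      linarith
    refine c3.trans ((mul_le_mul_of_nonneg_left h5 hC0.le).trans (le_of_eq ?_))
    ring
  refine ⟨?_, hln⟩
  exact
    { pr := F.pr
      r0 := r0
      cl := F.cl
      or1 := F.or1
      or2 := F.or2
      b1 := b1
      a1 := a1
      sup := fun y => (hsup y).trans (by linarith)
      supe := hsupe
      lnc := by
        refine hln.trans ?_
        have h1 := (le_div_iff₀ hKL).1 r5
        have h2 : C ^ 2 * (K9 + 2 * C) * r ^ 10 ≤ C ^ 2 * (K9 + 2 * C) * r :=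
          mul_le_mul_of_nonneg_left hp10 hKL.le
        linarith
      N1 := by
        refine T.g5.le.trans (mul_le_mul_of_nonneg_right ?_ (by positivity))
        linarith
      X1 := T.g8.le.trans hp2
      L1 := T.g9.le
      e1 := by
        have hz : c' ^ 2 / 8 ≤ c' := by nlinarith [hA.hc1]
        exact F.ne.trans (hp60.trans (hp10.trans (r3.trans hz))) }

end H68KC

end
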