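import Pool.Agent.H68.KC.TRa

/-!
# Row TRb (MP_95be7d_K4): all quantitative bounds in the trap

`Big` collects the bounds used in the derivative inequalities.

## Proof
`c0 = 1 + cnu ≥ 1` (`cnu ≥ 0`: quotient of nonnegative numbers). Apply `mod_pre` (constants `C2, r2, c2`) and `TR_sit0` with `c' = min c c2`: `Sit0` with `c'`,
`ln ≤ KL r^10`, so `√ln ≤ √KL r^5`, `√(ne2 et) ≤ √(r^60) = r^30`; `|b - w| + |m| ≤ C2 (√KL r^5 + r^8 + r^30) ≤ K r^5`, `K ≥ C2 (√KL + 2)`.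
`2 c0 r⁴ < b < 4 c0 r⁴` (`g2`, `g3`): `w ≥ 2 c0 r⁴ - K r^5 ≥ c0 r⁴`, `w ≤ 5 c0 r⁴` for `K r ≤ 1 ≤ c0`; `|m| ≤ K r^5 ≤ 1/4`.
Then `Sit P E γ B c (Ca+1) r w m W et` (fields of `Sit0` with `c' ≤ c`, and `w0`, `w1`).
`al`: `GoodB.AL` (`C3`, `r3`): `|alm| ≤ C3 (r √Nn + √ne2) ≤ C3 (r √(Ca+1) r^8 + r^30) ≤ K r^9` (`√((Ca+1) r^16) = √(Ca+1) r^8`; `0 ≤ Ca`).
`K := max` of all the constants.
-/

open MeasureTheory Filter Topology Set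
open scoped ContDiff

noncomputable section

namespace H68KC

open H98KB

variable {P E : ℝ → ℝ} {γ η δ M B c C : ℝ}

structure Big (P E : ℝ → ℝ) (γ B c Ca K r w m : ℝ) (W et : ℝ → ℝ) : Prop where
  sit : Sit P E γ B c (Ca + 1) r w m W et
  ln : ln γ B (ep P E (r ^ 2) W) ≤ K * r ^ 10
  bw : |bq (r ^ 2) W - w| ≤ K * r ^ 5
  m1 : |m| ≤ K * r ^ 5
  m2 : |m| ≤ 1 / 4
  w1 : c0 * r ^ 4 ≤ w
  al : |alm (r ^ 2) w W (ze w m (r ^ 8) W et)| ≤ K * r ^ 9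

theorem c0_ge : 1 ≤ c0 ∧ 0 ≤ cnu := by
  have h : 0 ≤ cnu := by
    have h1 : 0 ≤ ∫ y, (deriv (Qf 4) y) ^ 2 := integral_nonneg fun y => sq_nonneg _
    rw [cnu]
    positivity
  exact ⟨by rw [c0]; linarith, h⟩

theorem cnu_pos : 0 < cnu := by
  have h1 : 0 < ∫ y, (deriv (Qf 4) y) ^ 2 := Qd2_pos (by norm_num)
  have h2 := Iq_pos
  rw [cnu]
  positivity

theorem TRb_sqrt {x a r : ℝ} (hr : 0 < r) (n : ℕ) (h : x ≤ a * r ^ (2 * n)) : √x ≤ √a * r ^ n := by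
  have h1 : √x ≤ √(a * r ^ (2 * n)) := Real.sqrt_le_sqrt h
  rcases le_or_gt 0 a with ha | ha
  · rw [Real.sqrt_mul ha, mul_comm 2 n, pow_mul, Real.sqrt_sq (pow_pos hr n).le] at h1
    exact h1
  · have h2 : x ≤ 0 := h.trans (mul_nonpos_of_nonpos_of_nonneg ha.le (pow_pos hr _).le)
    rw [Real.sqrt_eq_zero'.2 h2]
    positivity

theorem TR_big (hp : Prof P E) (hA : GoodA P E γ η δ M B c C) (hBg : GoodB P E γ B c)
    (K0 K9 Ca : ℝ) (hCa : 0 ≤ Ca) (hK0 : 0 < K0) (hK9 : 0 < K9) :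
    ∃ K : ℝ, 1 ≤ K ∧ ∀ KE KN K5 : ℝ, 0 < K5 → ∃ r1 : ℝ, 0 < r1 ∧ r1 ≤ 1 ∧
      ∀ (σ t r w m : ℝ) (W et : ℝ → ℝ), r ≤ r1 → 0 ≤ t → KN * t ≤ 1 → σ ≤ 1 →
      Fac P E r w m W et → Trd P E η γ δ M B K0 K9 KE Ca KN K5 σ t r W →
      Big P E γ B c Ca K r w m W et := by
  obtain ⟨C2, r2, c2, hC2, hr2, hc2, -, h2⟩ := mod_pre hp hA.hγ (hA.hγ1.trans (by norm_num)) hA.hB
  obtain ⟨C3, r3, hC3, hr3, h3⟩ := hBg.AL
  obtain ⟨KL, hKL, h4⟩ := TR_sit0 hp hA K0 K9 Ca hK0 hK9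
  have s1 := Real.sqrt_nonneg KL
  have s2 := Real.sqrt_nonneg (Ca + 1)
  have p1 : 0 ≤ C2 * (√KL + 2) := by positivity
  have p2 : 0 ≤ C3 * (√(Ca + 1) + 1) := by positivity
  obtain ⟨K, hK⟩ : ∃ K : ℝ, K = 1 + KL + C2 * (√KL + 2) + C3 * (√(Ca + 1) + 1) := ⟨_, rfl⟩
  have hK1 : 1 ≤ K := by linarith
  have hK2 : KL ≤ K := by linarith
  have hK3 : C2 * (√KL + 2) ≤ K := by linarith
  have hK4 : C3 * (√(Ca + 1) + 1) ≤ K := by linarith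
  refine ⟨K, hK1, fun KE KN K5 hK5 => ?_⟩
  obtain ⟨r1, hr1, hr11, h5⟩ := h4 (min c c2) KE KN K5 (lt_min hA.hc hc2) (min_le_left _ _) hK5
  have hK0' : 0 < K := by linarith
  refine ⟨min r1 (min r2 (min r3 (1 / (4 * K)))), by positivity, (min_le_left _ _).trans hr11,
    fun σ t r w m W et hr ht hKN hσ hF hT => ?_⟩
  have e1 : r ≤ r1 := hr.trans (min_le_left _ _)
  have hr' := hr.trans (min_le_right _ _)
  have e2 : r ≤ r2 := hr'.trans (min_le_left _ _)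
  have hr'' := hr'.trans (min_le_right _ _)
  have e3 : r ≤ r3 := hr''.trans (min_le_left _ _)
  have e4 : r ≤ 1 / (4 * K) := hr''.trans (min_le_right _ _)
  have e5 : r ≤ 1 := e1.trans hr11
  have r0 : 0 < r := hF.r0
  have e6 : K * r ≤ 1 / 4 := by
    rw [le_div_iff₀ (by positivity)] at e4
    linarith
  obtain ⟨hS, hL⟩ := h5 σ t r w m W et e1 ht hKN hσ hF hT
  have h6 := h2 (min c c2) (Ca + 1) r w m W et (min_le_right _ _) e2 hS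
  have q1 : √(ln γ B (ep P E (r ^ 2) W)) ≤ √KL * r ^ 5 := TRb_sqrt r0 5 hL
  have q2 : √(ne2 et) ≤ r ^ 30 := by
    have h := TRb_sqrt (x := ne2 et) (a := 1) r0 30 (by rw [one_mul]; exact hF.ne)
    rwa [Real.sqrt_one, one_mul] at h
  have q3 : r ^ 30 ≤ r ^ 9 := pow_le_pow_of_le_one r0.le e5 (by norm_num)
  have q4 : r ^ 30 ≤ r ^ 5 := pow_le_pow_of_le_one r0.le e5 (by norm_num)
  have q5 : r ^ 8 ≤ r ^ 5 := pow_le_pow_of_le_one r0.le e5 (by norm_num)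
  have r4 : 0 < r ^ 4 := pow_pos r0 4
  have r5 : 0 < r ^ 5 := pow_pos r0 5
  have r9 : 0 < r ^ 9 := pow_pos r0 9
  have h7 : |bq (r ^ 2) W - w| + |m| ≤ K * r ^ 5 := by
    calc |bq (r ^ 2) W - w| + |m| ≤ C2 * (√(ln γ B (ep P E (r ^ 2) W)) + r ^ 8 + √(ne2 et)) := h6
      _ ≤ C2 * (√KL * r ^ 5 + r ^ 5 + r ^ 5) :=
          mul_le_mul_of_nonneg_left (by linarith) hC2.le
      _ = C2 * (√KL + 2) * r ^ 5 := by ring
      _ ≤ K * r ^ 5 := mul_le_mul_of_nonneg_right hK3 r5.le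
  have a1 := abs_nonneg (bq (r ^ 2) W - w)
  have a2 := abs_nonneg m
  have hb : |bq (r ^ 2) W - w| ≤ K * r ^ 5 := by linarith
  have hm : |m| ≤ K * r ^ 5 := by linarith
  have hc0 := c0_ge.1
  have k4 : K * r ^ 5 ≤ 1 / 4 * r ^ 4 := by
    calc K * r ^ 5 = K * r * r ^ 4 := by ring
      _ ≤ 1 / 4 * r ^ 4 := mul_le_mul_of_nonneg_right e6 r4.le
  have r41 : r ^ 4 ≤ 1 := pow_le_one₀ r0.le e5
  have hm4 : |m| ≤ 1 / 4 := by linarith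
  have hcr : r ^ 4 ≤ c0 * r ^ 4 := by
    have := mul_le_mul_of_nonneg_right hc0 r4.le
    linarith
  have hb1 := (abs_le.1 hb).1
  have hb2 := (abs_le.1 hb).2
  have g2 := hT.g2
  have g3 := hT.g3
  have hw1 : c0 * r ^ 4 ≤ w := by
    have : 2 * c0 * r ^ 4 = c0 * r ^ 4 + c0 * r ^ 4 := by ring
    linarith
  have hw2 : w ≤ 5 * c0 * r ^ 4 := by
    have h1 : 4 * c0 * r ^ 4 = 4 * (c0 * r ^ 4) := by ring
    have h2 : 5 * c0 * r ^ 4 = 5 * (c0 * r ^ 4) := by ring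
    linarith
  have hw0 : 0 ≤ w := by linarith
  have hSit : Sit P E γ B c (Ca + 1) r w m W et :=
    ⟨hS.pr, hS.r0, hS.cl, hS.or1, hS.or2, hw0, hw2, hS.b1, hS.a1,
      fun y => (hS.sup y).trans (min_le_left _ _), fun y => (hS.supe y).trans (min_le_left _ _),
      hS.lnc.trans (min_le_left _ _), hS.N1, hS.X1, hS.L1,
      hS.e1.trans (min_le_left _ _)⟩
  have h8 := h3 (Ca + 1) r w m W et e3 hm4 hSit
  have q6 : √(Nn (r ^ 2) W) ≤ √(Ca + 1) * r ^ 8 := TRb_sqrt r0 8 hS.N1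
  have h9 : |alm (r ^ 2) w W (ze w m (r ^ 8) W et)| ≤ K * r ^ 9 := by
    calc |alm (r ^ 2) w W (ze w m (r ^ 8) W et)| ≤ C3 * (r * √(Nn (r ^ 2) W) + √(ne2 et)) := h8
      _ ≤ C3 * (r * (√(Ca + 1) * r ^ 8) + r ^ 9) := by
          refine mul_le_mul_of_nonneg_left ?_ hC3.le
          have := mul_le_mul_of_nonneg_left q6 r0.le
          linarith
      _ = C3 * (√(Ca + 1) + 1) * r ^ 9 := by ring
      _ ≤ K * r ^ 9 := mul_le_mul_of_nonneg_right hK4 r9.le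
  exact ⟨hSit, hL.trans (mul_le_mul_of_nonneg_right hK2 (pow_pos r0 10).le), hb, hm, hm4, hw1, h9⟩

end H68KC

end
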