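import Pool.Agent.H68.KC.TRb

/-!
# Row TRc (MP_95be7d_K4): the derivative of the Lyapunov functional in the trap

Write `ε = ep P E (r^2) W`, `Z = ze w m (r^8) W et`, `N = Nn (r^2) W`, `A = alm (r^2) w W Z`, `X2 = ∫ Φ W''² ≥ 0` (`Φ = Ph (r^2)`), `Ca' = Ca + 1`.

## Proof
`GoodA.ML Ca'` (constant `C`), `GoodB.BA` (`CB`), `GoodB.AH Ca'` (`CH`), `|m| ≤ 1/4`; `K0 = C * CB`.
`DLL4 = (M DE4 + DV) + K0/r^6 (DNn + (3/4) w N)
 ≤ -c (T4 + ln) + C Bad + C (r^16 + A²/r⁴ + q² + ρ²) + C/r² ne2 + K0/r^6 (-2wN - r^8 X2 + CH r^40 + CH/r^8 ne2 + (3/4) w N)`.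
`C Bad ≤ C CB (r² X2 + N/r² + r^16)` and `K0/r^6 r^8 X2 = C CB r² X2`: these cancel. `w N ≥ 0`: drop `-(5/4) w N K0/r^6`.
`N ≤ Ca' r^16`, `|A| ≤ K r^9` (so `A²/r⁴ ≤ K² r^14`), `q², ρ² ≤ r^60`, `ne2 ≤ r^60`, `ln ≥ 0`:
`DLL4 ≤ -c T4 + K' r^14` with `K' = C CB (Ca' + 1) + C (1 + K² + 2) + C + K0 (CH + CH)` (all powers `≥ 14`, `r ≤ 1`).
If `LL4 ≥ K9/2 r^10`: `M E4 + Vf = LL4 - K0/r^6 N ≥ (K9/2 - K0 Ca') r^10 ≥ (K9/4) r^10` (`4 K0 (Ca+1) ≤ K9`), so by `GoodA.CO`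
`G4 ≥ (K9/(4C)) r^10`, `T4 ≥ r² G4` (`T4_ge`), and
`DLL4 ≤ -(c K9/(4C)) r^12 + K' r^14 ≤ -(25/4) c0 K9 r^14 ≤ -(5/4) w K9 r^10` as soon as `r² (K' + (25/4) c0 K9) ≤ c K9/(4C)`, because `w ≤ 5 c0 r⁴`.
-/

open MeasureTheory Filter Topology Set
open scoped ContDiff

noncomputable section

namespace H68KC

open H98KB

variable {P E : ℝ → ℝ} {γ η δ M B c C : ℝ}

/-- the final algebra of the row -/
theorem TRc_alg {c C CB CH K0 Ca K9 K M' r w T L Bd X2 N A q ρ nn D1 DN LL VE G : ℝ}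
    (hc : 0 < c) (hC : 1 ≤ C) (hCB : 0 < CB) (hCH : 0 < CH) (hK0 : K0 = C * CB) (hCa : 0 ≤ Ca)
    (h49 : 4 * K0 * (Ca + 1) ≤ K9) (hK9 : 0 < K9) (hr0 : 0 < r) (hr1 : r ≤ 1)
    (hM' : M' = C * CB * (Ca + 2) + C * (3 + K ^ 2) + C + 2 * K0 * CH)
    (hr : r * (M' + 25 / 4 * c0 * K9) ≤ c * K9 / (4 * C)) (hM0 : 0 ≤ M' + 25 / 4 * c0 * K9)
    (hw0 : 0 ≤ w) (hw1 : w ≤ 5 * c0 * r ^ 4)
    (h1 : D1 ≤ -c * (T + L) + C * Bd + C * (r ^ 16 + A ^ 2 / r ^ 4 + q ^ 2 + ρ ^ 2) + C / r ^ 2 * nn)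
    (h2 : Bd ≤ CB * (r ^ 2 * X2 + N / r ^ 2 + r ^ 16))
    (h3 : DN ≤ -2 * w * N - r ^ 8 * X2 + CH * r ^ 40 + CH / r ^ 8 * nn)
    (hN0 : 0 ≤ N) (hN : N ≤ (Ca + 1) * r ^ 16) (hA : |A| ≤ K * r ^ 9) (hq : |q| ≤ r ^ 30)
    (hρ : |ρ| ≤ r ^ 30) (hnn : nn ≤ r ^ 60) (hL : 0 ≤ L) (hT : r ^ 2 * G ≤ T)
    (hG : |VE| ≤ C * G) (hLL : K9 / 2 * r ^ 10 ≤ LL) (hE : LL = VE + K0 / r ^ 6 * N) :
    D1 + K0 / r ^ 6 * (DN + 3 / 4 * w * N) ≤ -(5 / 4) * w * K9 * r ^ 10 := by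
  have hC0 : 0 < C := by linarith
  have hK0p : 0 < K0 := by rw [hK0]; positivity
  have hpow : ∀ a b : ℕ, b ≤ a → r ^ a ≤ r ^ b := fun a b hab =>
    pow_le_pow_of_le_one hr0.le hr1 hab
  -- squares
  have hq2 : q ^ 2 ≤ r ^ 14 := by
    have h := pow_le_pow_left₀ (abs_nonneg q) hq 2
    rw [sq_abs] at h
    exact h.trans (by rw [← pow_mul]; exact hpow _ _ (by norm_num))
  have hρ2 : ρ ^ 2 ≤ r ^ 14 := by
    have h := pow_le_pow_left₀ (abs_nonneg ρ) hρ 2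
    rw [sq_abs] at h
    exact h.trans (by rw [← pow_mul]; exact hpow _ _ (by norm_num))
  have hA2 : A ^ 2 / r ^ 4 ≤ K ^ 2 * r ^ 14 := by
    rw [div_le_iff₀ (by positivity)]
    have h := pow_le_pow_left₀ (abs_nonneg A) hA 2
    rw [sq_abs] at h
    calc A ^ 2 ≤ (K * r ^ 9) ^ 2 := h
      _ = K ^ 2 * r ^ 14 * r ^ 4 := by ring
  have hn2 : C / r ^ 2 * nn ≤ C * r ^ 14 := by
    calc C / r ^ 2 * nn ≤ C / r ^ 2 * r ^ 60 := by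
          apply mul_le_mul_of_nonneg_left hnn; positivity
      _ = C * r ^ 58 := by field_simp
      _ ≤ C * r ^ 14 := mul_le_mul_of_nonneg_left (hpow _ _ (by norm_num)) hC0.le
  have hn8 : CH / r ^ 8 * nn ≤ CH * r ^ 20 := by
    calc CH / r ^ 8 * nn ≤ CH / r ^ 8 * r ^ 60 := by
          apply mul_le_mul_of_nonneg_left hnn; positivity
      _ = CH * r ^ 52 := by field_simp
      _ ≤ CH * r ^ 20 := mul_le_mul_of_nonneg_left (hpow _ _ (by norm_num)) hCH.le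
  have hH40 : CH * r ^ 40 ≤ CH * r ^ 20 := mul_le_mul_of_nonneg_left (hpow _ _ (by norm_num)) hCH.le
  have hN2 : N / r ^ 2 ≤ (Ca + 1) * r ^ 14 := by
    rw [div_le_iff₀ (by positivity)]
    calc N ≤ (Ca + 1) * r ^ 16 := hN
      _ = (Ca + 1) * r ^ 14 * r ^ 2 := by ring
  -- the `N` part
  have hDN : K0 / r ^ 6 * (DN + 3 / 4 * w * N) ≤ -(K0 * r ^ 2 * X2) + 2 * K0 * CH * r ^ 14 := by
    have hwN : 0 ≤ w * N := mul_nonneg hw0 hN0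
    calc K0 / r ^ 6 * (DN + 3 / 4 * w * N)
        ≤ K0 / r ^ 6 * (-(r ^ 8 * X2) + 2 * CH * r ^ 20) := by
          apply mul_le_mul_of_nonneg_left _ (by positivity)
          linarith
      _ = -(K0 * r ^ 2 * X2) + 2 * K0 * CH * r ^ 14 := by field_simp
  have hBd : C * Bd ≤ K0 * r ^ 2 * X2 + C * CB * (Ca + 2) * r ^ 14 := by
    have h16 := hpow 16 14 (by norm_num)
    calc C * Bd ≤ C * (CB * (r ^ 2 * X2 + N / r ^ 2 + r ^ 16)) :=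
          mul_le_mul_of_nonneg_left h2 hC0.le
      _ ≤ C * (CB * (r ^ 2 * X2 + (Ca + 1) * r ^ 14 + r ^ 14)) := by
          apply mul_le_mul_of_nonneg_left _ hC0.le
          apply mul_le_mul_of_nonneg_left _ hCB.le
          linarith
      _ = K0 * r ^ 2 * X2 + C * CB * (Ca + 2) * r ^ 14 := by rw [hK0]; ring
  have hsq : C * (r ^ 16 + A ^ 2 / r ^ 4 + q ^ 2 + ρ ^ 2) ≤ C * (3 + K ^ 2) * r ^ 14 := by
    have h16 := hpow 16 14 (by norm_num)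
    calc C * (r ^ 16 + A ^ 2 / r ^ 4 + q ^ 2 + ρ ^ 2)
        ≤ C * (r ^ 14 + K ^ 2 * r ^ 14 + r ^ 14 + r ^ 14) := by
          apply mul_le_mul_of_nonneg_left _ hC0.le
          linarith
      _ = C * (3 + K ^ 2) * r ^ 14 := by ring
  -- lower bound for `G`
  have hVE : K9 / 4 * r ^ 10 ≤ VE := by
    have h6 : K0 / r ^ 6 * N ≤ K0 * (Ca + 1) * r ^ 10 := by
      calc K0 / r ^ 6 * N ≤ K0 / r ^ 6 * ((Ca + 1) * r ^ 16) := by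
            apply mul_le_mul_of_nonneg_left hN; positivity
        _ = K0 * (Ca + 1) * r ^ 10 := by field_simp
    have h7 : K0 * (Ca + 1) * r ^ 10 ≤ K9 / 4 * r ^ 10 := by
      apply mul_le_mul_of_nonneg_right _ (by positivity)
      linarith
    linarith
  have hCG : K9 / 4 * r ^ 10 ≤ C * G := hVE.trans ((le_abs_self _).trans hG)
  have hcT : c * K9 / (4 * C) * r ^ 12 ≤ c * T := by
    have h8 : K9 / (4 * C) * r ^ 10 ≤ G := by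
      rw [div_mul_eq_mul_div, div_le_iff₀ (by positivity)]
      linarith
    calc c * K9 / (4 * C) * r ^ 12 = c * (r ^ 2 * (K9 / (4 * C) * r ^ 10)) := by ring
      _ ≤ c * (r ^ 2 * G) := by
          apply mul_le_mul_of_nonneg_left _ hc.le
          exact mul_le_mul_of_nonneg_left h8 (by positivity)
      _ ≤ c * T := mul_le_mul_of_nonneg_left hT hc.le
  have hsum : D1 + K0 / r ^ 6 * (DN + 3 / 4 * w * N) ≤ -(c * T) + M' * r ^ 14 := by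
    have hcL : 0 ≤ c * L := mul_nonneg hc.le hL
    have hMr : M' * r ^ 14 = C * CB * (Ca + 2) * r ^ 14 + C * (3 + K ^ 2) * r ^ 14 + C * r ^ 14
        + 2 * K0 * CH * r ^ 14 := by rw [hM']; ring
    rw [hMr]
    nlinarith [h1, hBd, hsq, hn2, hDN, hcL]
  have hwK : 5 / 4 * w * K9 * r ^ 10 ≤ 25 / 4 * c0 * K9 * r ^ 14 := by
    calc 5 / 4 * w * K9 * r ^ 10 = w * (5 / 4 * K9 * r ^ 10) := by ring
      _ ≤ 5 * c0 * r ^ 4 * (5 / 4 * K9 * r ^ 10) := by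
          apply mul_le_mul_of_nonneg_right hw1; positivity
      _ = 25 / 4 * c0 * K9 * r ^ 14 := by ring
  have hfin : (M' + 25 / 4 * c0 * K9) * r ^ 14 ≤ c * K9 / (4 * C) * r ^ 12 := by
    have h9 : (M' + 25 / 4 * c0 * K9) * r ^ 2 ≤ c * K9 / (4 * C) := by
      calc (M' + 25 / 4 * c0 * K9) * r ^ 2 ≤ (M' + 25 / 4 * c0 * K9) * r := by
            apply mul_le_mul_of_nonneg_left _ hM0
            have := hpow 2 1 (by norm_num)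
            rwa [pow_one] at this
        _ = r * (M' + 25 / 4 * c0 * K9) := by ring
        _ ≤ _ := hr
    calc (M' + 25 / 4 * c0 * K9) * r ^ 14 = (M' + 25 / 4 * c0 * K9) * r ^ 2 * r ^ 12 := by ring
      _ ≤ c * K9 / (4 * C) * r ^ 12 := mul_le_mul_of_nonneg_right h9 (by positivity)
  nlinarith [hsum, hwK, hfin, hcT]

theorem TR_d1 (hp : Prof P E) (hA : GoodA P E γ η δ M B c C) (hBg : GoodB P E γ B c) :
    ∃ K0 : ℝ, 0 < K0 ∧ ∀ (Ca K9 K : ℝ), 0 ≤ Ca → 4 * K0 * (Ca + 1) ≤ K9 → 0 < K9 → 1 ≤ K →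
      ∃ r1 : ℝ, 0 < r1 ∧ r1 ≤ 1 ∧ ∀ (r w m : ℝ) (W et : ℝ → ℝ), r ≤ r1 →
      Fac P E r w m W et → Big P E γ B c Ca K r w m W et →
      K9 / 2 * r ^ 10 ≤ LL4 P E η γ δ M B K0 r W →
      DLL4 P E η γ δ M B K0 r w W (ze w m (r ^ 8) W et) ≤ -(5 / 4) * w * K9 * r ^ 10 := by
  obtain ⟨CB, rB, hCB, hrB, hBA⟩ := hBg.BA
  have hC0 : 0 < C := by linarith [hA.hC]
  refine ⟨C * CB, by positivity, fun Ca K9 K hCa h49 hK9 hK => ?_⟩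
  obtain ⟨rM, hrM, hML⟩ := hA.ML (Ca + 1)
  obtain ⟨CH, rH, hCH, hrH, hAH⟩ := hBg.AH (Ca + 1)
  obtain ⟨rC, hrC, hCO⟩ := hA.CO
  have hc0 := c0_ge.1
  set M' : ℝ := C * CB * (Ca + 2) + C * (3 + K ^ 2) + C + 2 * (C * CB) * CH with hM'
  have hMp : 0 < M' + 25 / 4 * c0 * K9 := by
    have : 0 < M' := by rw [hM']; positivity
    have h2 : 0 ≤ 25 / 4 * c0 * K9 := by positivity
    linarith
  have hc := hA.hc
  refine ⟨min 1 (min (min rB rM) (min (min rH rC) (c * K9 / (4 * C) / (M' + 25 / 4 * c0 * K9)))),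
    by positivity, min_le_left _ _, fun r w m W et hr hF hBig hLL => ?_⟩
  simp only [le_min_iff] at hr
  obtain ⟨hr1, ⟨hrB', hrM'⟩, ⟨hrH', hrC'⟩, hrX⟩ := hr
  have hr0 := hF.r0
  have hrX' : r * (M' + 25 / 4 * c0 * K9) ≤ c * K9 / (4 * C) := (le_div_iff₀ hMp).1 hrX
  obtain ⟨p, q, hp0, hp1, hq0, hq1, hcl, hcle⟩ := hF.cl
  have hcl' : ∃ p q : ℝ, 0 < p ∧ p ≤ 1 / 2 ∧ 0 < q ∧ q ≤ 1 / 2 ∧ Cl p q (fun y => W y - Qf 4 y) :=
    ⟨p, q, hp0, hp1, hq0, hq1, hcl⟩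
  have hCO' := hCO r W hr0 hrC' hcl' hBig.sit.supe
  refine TRc_alg (M' := M') (K := K) (CH := CH) (CB := CB) hc hA.hC hCB hCH rfl hCa h49 hK9 hr0 hr1 hM' hrX' hMp.le
    hBig.sit.w0 hBig.sit.w1 (hML r w m W et hrM' hBig.sit) (hBA _ r w m W et hrB' hBig.sit)
    (hAH r w m W et hrH' hBig.m2 hBig.sit) (Nn_nonneg _ _) hBig.sit.N1 hBig.al hF.mq hF.mr hF.ne
    ?_ (T4_ge hA.hB (by positivity) (ep_cl hp hp0.le hq0.le hcl)) hCO'.2.1 hLL rfl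
  exact integral_nonneg fun z => mul_nonneg
    (mul_nonneg (sq_nonneg _) (sq_nonneg _)) (add_nonneg (sq_nonneg _) (sq_nonneg _))

end H68KC

end
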